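import Mathlib

/-!
Universal reduction in the Temperley-Lieb monoid: every word sandwiched between the product of
every other generator is a power of the loop parameter times that product.
-/

set_option autoImplicit false

namespace Pool.Agent.Helper70.BLB

/-- Temperley-Lieb relations in a monoid for `d` (loop parameter) and generators `e 1, e 2, ...`. -/
structure TLRel {M : Type*} [Monoid M] (d : M) (e : ℕ → M) : Prop where
  dcomm : ∀ i, d * e i = e i * d
  sq : ∀ i, 1 ≤ i → e i * e i = d * e i
  up : ∀ i, 1 ≤ i → e i * e (i + 1) * e i = e i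
  down : ∀ i, 1 ≤ i → e (i + 1) * e i * e (i + 1) = e (i + 1)
  comm : ∀ i j, 1 ≤ i → i + 2 ≤ j → e i * e j = e j * e i

variable {M : Type*} [Monoid M] {d : M} {e : ℕ → M}

/-- The submonoid generated by `d` and `e 1, ..., e k`. -/
def TLA (d : M) (e : ℕ → M) (k : ℕ) : Submonoid M :=
  Submonoid.closure ({d} ∪ {x | ∃ i, 1 ≤ i ∧ i ≤ k ∧ x = e i})

theorem d_mem_TLA (k : ℕ) : d ∈ TLA d e k :=
  Submonoid.subset_closure (Or.inl rfl)

theorem e_mem_TLA {i k : ℕ} (h1 : 1 ≤ i) (h2 : i ≤ k) : e i ∈ TLA d e k :=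
  Submonoid.subset_closure (Or.inr ⟨i, h1, h2, rfl⟩)

theorem TLA_mono {k l : ℕ} (h : k ≤ l) : TLA d e k ≤ TLA d e l := by
  apply Submonoid.closure_mono
  rintro x (hx | ⟨i, h1, h2, rfl⟩)
  · exact Or.inl hx
  · exact Or.inr ⟨i, h1, h2.trans h, rfl⟩

theorem TLRel.d_comm_mem (H : TLRel d e) {k : ℕ} {w : M} (hw : w ∈ TLA d e k) :
    d * w = w * d := by
  induction hw using Submonoid.closure_induction with
  | mem x hx =>
    rcases hx with hx | ⟨i, _, _, rfl⟩
    · rw [Set.mem_singleton_iff.1 hx]
    · exact H.dcomm i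
  | one => simp
  | mul x y _ _ hx hy => rw [← mul_assoc, hx, mul_assoc, hy, mul_assoc]

theorem TLRel.comm_mem (H : TLRel d e) {k j : ℕ} (hkj : k + 2 ≤ j) {w : M}
    (hw : w ∈ TLA d e k) : w * e j = e j * w := by
  induction hw using Submonoid.closure_induction with
  | mem x hx =>
    rcases hx with hx | ⟨i, h1, h2, rfl⟩
    · rw [Set.mem_singleton_iff.1 hx]; exact H.dcomm j
    · exact H.comm i j h1 (by omega)
  | one => simp
  | mul x y _ _ hx hy => rw [mul_assoc, hy, ← mul_assoc, hx, mul_assoc]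

theorem mem_TLA_zero {w : M} (hw : w ∈ TLA d e 0) : ∃ j : ℕ, w = d ^ j := by
  induction hw using Submonoid.closure_induction with
  | mem x hx =>
    rcases hx with hx | ⟨i, h1, h2, _⟩
    · exact ⟨1, by rw [Set.mem_singleton_iff.1 hx, pow_one]⟩
    · omega
  | one => exact ⟨0, by simp⟩
  | mul x y _ _ hx hy =>
    obtain ⟨a, rfl⟩ := hx
    obtain ⟨b, rfl⟩ := hy
    exact ⟨a + b, by rw [pow_add]⟩

/-- Jones normal form: an element of the algebra on `k + 1` generators either avoids the last
generator or contains it once. -/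
theorem TLRel.jones (H : TLRel d e) : ∀ (k : ℕ) (w : M), w ∈ TLA d e (k + 1) →
    w ∈ TLA d e k ∨ ∃ a ∈ TLA d e k, ∃ b ∈ TLA d e k, w = a * e (k + 1) * b := by
  intro k
  induction k with
  | zero =>
    intro w hw
    induction hw using Submonoid.closure_induction_right with
    | one => exact Or.inl (one_mem _)
    | mul_right x y hx hy ih =>
      rcases hy with hy | ⟨i, h1, h2, rfl⟩
      · rw [Set.mem_singleton_iff.1 hy]
        rcases ih with ih | ⟨a, ha, b, hb, rfl⟩
        · exact Or.inl (mul_mem ih (d_mem_TLA _))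
        · exact Or.inr ⟨a, ha, b * d, mul_mem hb (d_mem_TLA _), by simp only [mul_assoc]⟩
      · have hi : i = 1 := by omega
        subst hi
        rcases ih with ih | ⟨a, ha, b, hb, rfl⟩
        · exact Or.inr ⟨x, ih, 1, one_mem _, by simp⟩
        · obtain ⟨j, rfl⟩ := mem_TLA_zero hb
          refine Or.inr ⟨a * d ^ j * d, mul_mem (mul_mem ha (pow_mem (d_mem_TLA _) _))
            (d_mem_TLA _), 1, one_mem _, ?_⟩
          have h : e (0 + 1) * d ^ j = d ^ j * e (0 + 1) := by
            have hc : Commute (e (0 + 1)) d := (H.dcomm _).symm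
            exact (hc.pow_right j)
          have hs : e (0 + 1) * e 1 = d * e 1 := H.sq 1 le_rfl
          calc a * e (0 + 1) * d ^ j * e 1 = a * (e (0 + 1) * d ^ j) * e 1 := by
                simp only [mul_assoc]
            _ = a * (d ^ j * e (0 + 1)) * e 1 := by rw [h]
            _ = a * d ^ j * (e (0 + 1) * e 1) := by simp only [mul_assoc]
            _ = a * d ^ j * (d * e 1) := by rw [hs]
            _ = a * d ^ j * d * e (0 + 1) * 1 := by simp only [mul_assoc, mul_one, zero_add]
  | succ k IH =>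
    intro w hw
    induction hw using Submonoid.closure_induction_right with
    | one => exact Or.inl (one_mem _)
    | mul_right x y hx hy ih =>
      rcases hy with hy | ⟨i, h1, h2, rfl⟩
      · rw [Set.mem_singleton_iff.1 hy]
        rcases ih with ih | ⟨a, ha, b, hb, rfl⟩
        · exact Or.inl (mul_mem ih (d_mem_TLA _))
        · exact Or.inr ⟨a, ha, b * d, mul_mem hb (d_mem_TLA _), by simp only [mul_assoc]⟩
      · by_cases hi : i = k + 1 + 1
        · subst hi
          rcases ih with ih | ⟨a, ha, b, hb, rfl⟩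
          · exact Or.inr ⟨x, ih, 1, one_mem _, by simp⟩
          · rcases IH b hb with hb' | ⟨b1, hb1, b2, hb2, rfl⟩
            · refine Or.inr ⟨a * b * d, mul_mem (mul_mem ha hb) (d_mem_TLA _), 1, one_mem _, ?_⟩
              have hc := H.comm_mem (j := k + 1 + 1) (by omega) hb'
              have hs : e (k + 1 + 1) * e (k + 1 + 1) = d * e (k + 1 + 1) :=
                H.sq _ (by omega)
              calc a * e (k + 1 + 1) * b * e (k + 1 + 1)
                  = a * e (k + 1 + 1) * (b * e (k + 1 + 1)) := by simp only [mul_assoc]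
                _ = a * e (k + 1 + 1) * (e (k + 1 + 1) * b) := by rw [hc]
                _ = a * (e (k + 1 + 1) * e (k + 1 + 1)) * b := by simp only [mul_assoc]
                _ = a * (d * e (k + 1 + 1)) * b := by rw [hs]
                _ = a * d * (e (k + 1 + 1) * b) := by simp only [mul_assoc]
                _ = a * d * (b * e (k + 1 + 1)) := by rw [hc]
                _ = a * (d * b) * e (k + 1 + 1) := by simp only [mul_assoc]
                _ = a * (b * d) * e (k + 1 + 1) := by rw [H.d_comm_mem hb]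
                _ = a * b * d * e (k + 1 + 1) * 1 := by simp only [mul_assoc, mul_one]
            · refine Or.inr ⟨a * b1, mul_mem ha (TLA_mono (Nat.le_succ _) hb1), b2,
                TLA_mono (Nat.le_succ _) hb2, ?_⟩
              have hc1 := H.comm_mem (j := k + 1 + 1) (by omega) hb1
              have hc2 := H.comm_mem (j := k + 1 + 1) (by omega) hb2
              have hs : e (k + 1 + 1) * e (k + 1) * e (k + 1 + 1) = e (k + 1 + 1) :=
                H.down _ (by omega)
              calc a * e (k + 1 + 1) * (b1 * e (k + 1) * b2) * e (k + 1 + 1)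
                  = a * (e (k + 1 + 1) * b1) * e (k + 1) * (b2 * e (k + 1 + 1)) := by
                    simp only [mul_assoc]
                _ = a * (b1 * e (k + 1 + 1)) * e (k + 1) * (e (k + 1 + 1) * b2) := by
                    rw [hc1, hc2]
                _ = a * b1 * (e (k + 1 + 1) * e (k + 1) * e (k + 1 + 1)) * b2 := by
                    simp only [mul_assoc]
                _ = a * b1 * e (k + 1 + 1) * b2 := by rw [hs]
        · have hi' : i ≤ k + 1 := by omega
          rcases ih with ih | ⟨a, ha, b, hb, rfl⟩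
          · exact Or.inl (mul_mem ih (e_mem_TLA h1 hi'))
          · exact Or.inr ⟨a, ha, b * e i, mul_mem hb (e_mem_TLA h1 hi'), by
              simp only [mul_assoc]⟩

/-- The product of every other generator, starting from the top. -/
def TLX (e : ℕ → M) : ℕ → M
  | 0 => 1
  | 1 => e 1
  | (k + 2) => e (k + 2) * TLX e k

theorem TLX_mem : ∀ k : ℕ, TLX e k ∈ TLA d e k
  | 0 => one_mem _
  | 1 => e_mem_TLA le_rfl le_rfl
  | (k + 2) => mul_mem (e_mem_TLA (by omega) le_rfl) (TLA_mono (by omega) (TLX_mem k))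

theorem TLRel.sandwich (H : TLRel d e) {k : ℕ} {w : M} (hw : w ∈ TLA d e (k + 1)) :
    ∃ w' ∈ TLA d e k, e (k + 2) * w * e (k + 2) = w' * e (k + 2) := by
  rcases H.jones k w hw with hw' | ⟨a, ha, b, hb, rfl⟩
  · refine ⟨w * d, mul_mem hw' (d_mem_TLA _), ?_⟩
    rw [← H.comm_mem (j := k + 2) (by omega) hw', mul_assoc, H.sq _ (by omega), mul_assoc]
  · refine ⟨a * b, mul_mem ha hb, ?_⟩
    have hca := H.comm_mem (j := k + 2) (by omega) ha
    have hcb := H.comm_mem (j := k + 2) (by omega) hb
    have hs : e (k + 2) * e (k + 1) * e (k + 2) = e (k + 2) := H.down _ (by omega)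
    calc e (k + 2) * (a * e (k + 1) * b) * e (k + 2)
        = (e (k + 2) * a) * e (k + 1) * (b * e (k + 2)) := by simp only [mul_assoc]
      _ = (a * e (k + 2)) * e (k + 1) * (e (k + 2) * b) := by rw [hca, hcb]
      _ = a * (e (k + 2) * e (k + 1) * e (k + 2)) * b := by simp only [mul_assoc]
      _ = a * (e (k + 2) * b) := by rw [hs, mul_assoc]
      _ = a * b * e (k + 2) := by rw [← hcb, mul_assoc]

theorem TLRel.sandwich' (H : TLRel d e) {k : ℕ} {w : M} (hw : w ∈ TLA d e (k + 2)) :
    ∃ w' ∈ TLA d e k, e (k + 2) * w * e (k + 2) = w' * e (k + 2) := by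
  rcases H.jones (k + 1) w hw with hw' | ⟨a, ha, b, hb, rfl⟩
  · exact H.sandwich hw'
  · obtain ⟨a', ha', h1⟩ := H.sandwich ha
    obtain ⟨b', hb', h2⟩ := H.sandwich hb
    refine ⟨a' * b', mul_mem ha' hb', ?_⟩
    calc e (k + 2) * (a * e (k + 1 + 1) * b) * e (k + 2)
        = (e (k + 2) * a * e (k + 2)) * b * e (k + 2) := by simp only [mul_assoc]
      _ = a' * (e (k + 2) * b * e (k + 2)) := by rw [h1]; simp only [mul_assoc]
      _ = a' * b' * e (k + 2) := by rw [h2]; simp only [mul_assoc]

/-- Every word sandwiched between `TLX` is a power of `d` times `TLX`. -/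
theorem TLRel.sandwich_X (H : TLRel d e) : ∀ (k : ℕ) (w : M), w ∈ TLA d e k →
    ∃ j : ℕ, TLX e k * w * TLX e k = d ^ j * TLX e k
  | 0, w, hw => by
    obtain ⟨j, rfl⟩ := mem_TLA_zero hw
    exact ⟨j, by simp [TLX]⟩
  | 1, w, hw => by
    have hc : ∀ j : ℕ, e 1 * d ^ j = d ^ j * e 1 := fun j =>
      (show Commute (e 1) d from (H.dcomm 1).symm).pow_right j
    have hs := H.sq 1 le_rfl
    rcases H.jones 0 w hw with hw' | ⟨a, ha, b, hb, rfl⟩
    · obtain ⟨j, rfl⟩ := mem_TLA_zero hw'
      refine ⟨j + 1, ?_⟩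
      simp only [TLX]
      rw [hc, mul_assoc, hs, pow_succ, mul_assoc]
    · obtain ⟨j, rfl⟩ := mem_TLA_zero ha
      obtain ⟨l, rfl⟩ := mem_TLA_zero hb
      refine ⟨j + l + 2, ?_⟩
      simp only [TLX, zero_add]
      calc e 1 * (d ^ j * e 1 * d ^ l) * e 1
          = (e 1 * d ^ j) * (e 1 * d ^ l) * e 1 := by simp only [mul_assoc]
        _ = d ^ j * e 1 * (d ^ l * e 1) * e 1 := by rw [hc, hc]
        _ = d ^ j * (e 1 * d ^ l) * (e 1 * e 1) := by simp only [mul_assoc]
        _ = d ^ j * (d ^ l * e 1) * (d * e 1) := by rw [hc, hs]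
        _ = d ^ j * d ^ l * (e 1 * d) * e 1 := by simp only [mul_assoc]
        _ = d ^ j * d ^ l * (d * e 1) * e 1 := by rw [H.dcomm]
        _ = d ^ j * d ^ l * d * (e 1 * e 1) := by simp only [mul_assoc]
        _ = d ^ (j + l + 2) * e 1 := by
          rw [hs, pow_add, pow_add, pow_two]; simp only [mul_assoc]
  | (k + 2), w, hw => by
    obtain ⟨w', hw', h⟩ := H.sandwich' hw
    obtain ⟨j, hj⟩ := H.sandwich_X k w' hw'
    refine ⟨j, ?_⟩
    have hX := H.comm_mem (j := k + 2) le_rfl (TLX_mem (d := d) (e := e) k)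
    calc TLX e (k + 2) * w * TLX e (k + 2)
        = (e (k + 2) * TLX e k) * w * (e (k + 2) * TLX e k) := rfl
      _ = (TLX e k * e (k + 2)) * w * (e (k + 2) * TLX e k) := by rw [hX]
      _ = TLX e k * (e (k + 2) * w * e (k + 2)) * TLX e k := by simp only [mul_assoc]
      _ = TLX e k * (w' * e (k + 2)) * TLX e k := by rw [h]
      _ = TLX e k * w' * (e (k + 2) * TLX e k) := by simp only [mul_assoc]
      _ = TLX e k * w' * (TLX e k * e (k + 2)) := by rw [hX]
      _ = (TLX e k * w' * TLX e k) * e (k + 2) := by simp only [mul_assoc]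
      _ = d ^ j * (TLX e k * e (k + 2)) := by rw [hj]; simp only [mul_assoc]
      _ = d ^ j * TLX e (k + 2) := by rw [hX]; rfl

end Pool.Agent.Helper70.BLB
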