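import Mathlib
import Pool.Agent.Helper70.BLB.TLMonoid

/-!
The colouring representation of the Temperley-Lieb algebra.
-/

set_option autoImplicit false

namespace Pool.Agent.Helper70.BLB

variable {C : Type} [Fintype C] [DecidableEq C]

/-- Multiplication by the indicator that sites `i` and `i + 1` have the same colour. -/
noncomputable def cJ (C : Type) [Fintype C] [DecidableEq C] (i : ℕ) :
    Module.End ℝ ((ℕ → C) → ℝ) where
  toFun ψ := fun c => if c i = c (i + 1) then ψ c else 0
  map_add' φ ψ := by
    funext c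
    simp only [Pi.add_apply]
    split_ifs <;> simp
  map_smul' a φ := by
    funext c
    simp only [Pi.smul_apply, smul_eq_mul, RingHom.id_apply]
    split_ifs <;> simp

/-- Summation over the colour of site `i`. -/
noncomputable def cD (C : Type) [Fintype C] [DecidableEq C] (i : ℕ) :
    Module.End ℝ ((ℕ → C) → ℝ) where
  toFun ψ := fun c => ∑ x, ψ (Function.update c i x)
  map_add' φ ψ := by
    funext c
    simp only [Pi.add_apply, Finset.sum_add_distrib]
  map_smul' a φ := by
    funext c
    simp only [Pi.smul_apply, smul_eq_mul, RingHom.id_apply, Finset.mul_sum]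

@[simp] theorem cJ_apply (i : ℕ) (ψ : (ℕ → C) → ℝ) (c : ℕ → C) :
    cJ C i ψ c = if c i = c (i + 1) then ψ c else 0 := rfl

@[simp] theorem cD_apply (i : ℕ) (ψ : (ℕ → C) → ℝ) (c : ℕ → C) :
    cD C i ψ c = ∑ x, ψ (Function.update c i x) := rfl

theorem cJ_sq (i : ℕ) : cJ C i * cJ C i = cJ C i := by
  ext ψ c
  simp only [Module.End.mul_apply, cJ_apply]
  split_ifs <;> rfl

theorem cD_sq (i : ℕ) : cD C i * cD C i = (Fintype.card C : ℝ) • cD C i := by
  ext ψ c
  simp only [Module.End.mul_apply, cD_apply, LinearMap.smul_apply, Pi.smul_apply, smul_eq_mul,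
    Function.update_idem, Finset.sum_const, nsmul_eq_mul, Finset.card_univ]

theorem cJ_comm (i j : ℕ) : cJ C i * cJ C j = cJ C j * cJ C i := by
  ext ψ c
  simp only [Module.End.mul_apply, cJ_apply]
  split_ifs <;> rfl

theorem cD_comm {i j : ℕ} (hij : i ≠ j) : cD C i * cD C j = cD C j * cD C i := by
  ext ψ c
  simp only [Module.End.mul_apply, cD_apply]
  rw [Finset.sum_comm]
  refine Finset.sum_congr rfl fun x _ => Finset.sum_congr rfl fun y _ => ?_
  rw [Function.update_comm hij]

theorem cJ_cD_comm {i j : ℕ} (h1 : j ≠ i) (h2 : j ≠ i + 1) :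
    cJ C i * cD C j = cD C j * cJ C i := by
  ext ψ c
  simp only [Module.End.mul_apply, cD_apply, cJ_apply]
  have e1 : ∀ x, (Function.update c j x) i = c i := fun x => Function.update_of_ne h1.symm _ _
  have e2 : ∀ x, (Function.update c j x) (i + 1) = c (i + 1) :=
    fun x => Function.update_of_ne h2.symm _ _
  simp only [e1, e2]
  split_ifs
  · rfl
  · simp

theorem cJ_cD_cJ_left (i : ℕ) : cJ C i * cD C i * cJ C i = cJ C i := by
  ext ψ c
  simp only [Module.End.mul_apply, cD_apply, cJ_apply]
  have e2 : ∀ x, (Function.update c i x) (i + 1) = c (i + 1) :=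
    fun x => Function.update_of_ne (by omega) _ _
  split_ifs with h
  · rw [Finset.sum_eq_single (c (i + 1))]
    · rw [Function.update_self, e2, if_pos rfl, ← h, Function.update_eq_self]
    · intro b _ hb
      rw [Function.update_self, e2, if_neg hb]
    · simp
  · rfl

theorem cJ_cD_cJ_right (i : ℕ) : cJ C i * cD C (i + 1) * cJ C i = cJ C i := by
  ext ψ c
  simp only [Module.End.mul_apply, cD_apply, cJ_apply]
  have e2 : ∀ x, (Function.update c (i + 1) x) i = c i :=
    fun x => Function.update_of_ne (by omega) _ _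
  split_ifs with h
  · rw [Finset.sum_eq_single (c i)]
    · rw [Function.update_self, e2, if_pos rfl, h, Function.update_eq_self]
    · intro b _ hb
      rw [Function.update_self, e2, if_neg hb.symm]
    · simp
  · rfl

theorem cD_cJ_cD_left (i : ℕ) : cD C i * cJ C i * cD C i = cD C i := by
  ext ψ c
  simp only [Module.End.mul_apply, cD_apply, cJ_apply]
  have e2 : ∀ x, (Function.update c i x) (i + 1) = c (i + 1) :=
    fun x => Function.update_of_ne (by omega) _ _
  rw [Finset.sum_eq_single (c (i + 1))]
  · rw [Function.update_self, e2, if_pos rfl]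
    simp only [Function.update_idem]
  · intro b _ hb
    rw [Function.update_self, e2, if_neg hb]
  · simp

theorem cD_cJ_cD_right (i : ℕ) : cD C (i + 1) * cJ C i * cD C (i + 1) = cD C (i + 1) := by
  ext ψ c
  simp only [Module.End.mul_apply, cD_apply, cJ_apply]
  have e2 : ∀ x, (Function.update c (i + 1) x) i = c i :=
    fun x => Function.update_of_ne (by omega) _ _
  rw [Finset.sum_eq_single (c i)]
  · rw [Function.update_self, e2, if_pos rfl]
    simp only [Function.update_idem]
  · intro b _ hb
    rw [Function.update_self, e2, if_neg hb.symm]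
  · simp

/-- The Temperley-Lieb generators in the colouring representation: `e (2 i + 1)` joins sites
`i` and `i + 1`, `e (2 i)` renews site `i`. -/
noncomputable def cE (C : Type) [Fintype C] [DecidableEq C] (δ : ℝ) (k : ℕ) :
    Module.End ℝ ((ℕ → C) → ℝ) :=
  if k % 2 = 1 then δ • cJ C (k / 2) else δ⁻¹ • cD C (k / 2)

theorem cE_odd (δ : ℝ) (i : ℕ) : cE C δ (2 * i + 1) = δ • cJ C i := by
  unfold cE
  rw [if_pos (by omega), show (2 * i + 1) / 2 = i by omega]

theorem cE_even (δ : ℝ) (i : ℕ) : cE C δ (2 * i) = δ⁻¹ • cD C i := by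
  unfold cE
  rw [if_neg (by omega), show (2 * i) / 2 = i by omega]

theorem cE_TLRel {δ : ℝ} (hδ : 0 < δ) (hc : δ ^ 2 = Fintype.card C) :
    TLRel (M := Module.End ℝ ((ℕ → C) → ℝ)) (δ • 1) (cE C δ) where
  dcomm i := by simp
  sq k hk := by
    rcases Nat.even_or_odd' k with ⟨i, rfl | rfl⟩
    · rw [cE_even, smul_mul_smul_comm, cD_sq, ← hc, smul_mul_assoc, one_mul, smul_smul,
        smul_smul]
      congr 1
      field_simp
    · rw [cE_odd, smul_mul_smul_comm, cJ_sq, smul_mul_assoc, one_mul, smul_smul]
  up k hk := by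
    rcases Nat.even_or_odd' k with ⟨i, rfl | rfl⟩
    · rw [cE_even, cE_odd, smul_mul_smul_comm, smul_mul_smul_comm, cD_cJ_cD_left]
      congr 1
      field_simp
    · rw [cE_odd, show 2 * i + 1 + 1 = 2 * (i + 1) by ring, cE_even, smul_mul_smul_comm,
        smul_mul_smul_comm, cJ_cD_cJ_right]
      congr 1
      field_simp
  down k hk := by
    rcases Nat.even_or_odd' k with ⟨i, rfl | rfl⟩
    · rw [cE_even, cE_odd, smul_mul_smul_comm, smul_mul_smul_comm, cJ_cD_cJ_left]
      congr 1
      field_simp
    · rw [cE_odd, show 2 * i + 1 + 1 = 2 * (i + 1) by ring, cE_even, smul_mul_smul_comm,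
        smul_mul_smul_comm, cD_cJ_cD_right]
      congr 1
      field_simp
  comm k l hk hkl := by
    rcases Nat.even_or_odd' k with ⟨i, rfl | rfl⟩ <;>
    rcases Nat.even_or_odd' l with ⟨j, rfl | rfl⟩
    · rw [cE_even, cE_even, smul_mul_smul_comm, smul_mul_smul_comm, cD_comm (by omega)]
    · rw [cE_even, cE_odd, smul_mul_smul_comm, smul_mul_smul_comm,
        cJ_cD_comm (i := j) (j := i) (by omega) (by omega), mul_comm]
    · rw [cE_even, cE_odd, smul_mul_smul_comm, smul_mul_smul_comm,
        ← cJ_cD_comm (i := i) (j := j) (by omega) (by omega), mul_comm]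
    · rw [cE_odd, cE_odd, smul_mul_smul_comm, smul_mul_smul_comm, cJ_comm]

end Pool.Agent.Helper70.BLB
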