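import Mathlib
import Pool.Agent.Helper70.BLB.TLMonoid

/-!
The path (height) representation of the Temperley-Lieb algebra for real loop weight at least 2.
-/

set_option autoImplicit false

namespace Pool.Agent.Helper70.BLB

/-- The weights: `S 0 = 0`, `S 1 = 1`, `S (n+2) = δ S (n+1) - S n`. -/
noncomputable def hS (δ : ℝ) : ℕ → ℝ
  | 0 => 0
  | 1 => 1
  | (n + 2) => δ * hS δ (n + 1) - hS δ n

theorem hS_step {δ : ℝ} (hδ : 2 ≤ δ) : ∀ n : ℕ, 0 ≤ hS δ n ∧ hS δ n + 1 ≤ hS δ (n + 1)
  | 0 => by simp [hS]
  | (n + 1) => by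
    obtain ⟨h1, h2⟩ := hS_step hδ n
    have h3 : hS δ (n + 1 + 1) = δ * hS δ (n + 1) - hS δ n := rfl
    refine ⟨by linarith, ?_⟩
    rw [h3]
    nlinarith

theorem hS_nonneg {δ : ℝ} (hδ : 2 ≤ δ) (n : ℕ) : 0 ≤ hS δ n := (hS_step hδ n).1

theorem hS_pos {δ : ℝ} (hδ : 2 ≤ δ) {n : ℕ} (hn : 1 ≤ n) : 0 < hS δ n := by
  obtain ⟨m, rfl⟩ : ∃ m, n = m + 1 := ⟨n - 1, by omega⟩
  have := hS_step hδ m
  linarith [this.1, this.2]

theorem hS_rec (δ : ℝ) {a : ℕ} (ha : 1 ≤ a) : hS δ (a + 1) + hS δ (a - 1) = δ * hS δ a := by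
  obtain ⟨m, rfl⟩ : ∃ m, a = m + 1 := ⟨a - 1, by omega⟩
  have h3 : hS δ (m + 1 + 1) = δ * hS δ (m + 1) - hS δ m := rfl
  rw [h3, Nat.add_sub_cancel]
  ring

/-- Height configurations whose consecutive heights differ by one, all heights positive. -/
def IsPath (h : ℕ → ℕ) : Prop :=
  ∀ i, 1 ≤ h i ∧ (h (i + 1) = h i + 1 ∨ h i = h (i + 1) + 1)

theorem IsPath.update {h : ℕ → ℕ} (hp : IsPath h) {k x : ℕ} (hk : 1 ≤ k)
    (he : h (k - 1) = h (k + 1)) (hx : 1 ≤ x) (ha : x = h (k - 1) + 1 ∨ h (k - 1) = x + 1) :
    IsPath (Function.update h k x) := by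
  intro i
  by_cases h1 : i = k
  · subst h1
    have h2 : i + 1 ≠ i := by omega
    rw [Function.update_self, Function.update_of_ne h2, ← he]
    refine ⟨hx, ?_⟩
    rcases ha with ha | ha
    · exact Or.inr ha
    · exact Or.inl ha
  · by_cases h2 : i + 1 = k
    · subst h2
      rw [Function.update_self, Function.update_of_ne h1]
      have h3 : i + 1 - 1 = i := by omega
      rw [h3] at ha
      exact ⟨(hp i).1, ha⟩
    · rw [Function.update_of_ne h1, Function.update_of_ne h2]
      exact hp i

open Classical in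
/-- The Temperley-Lieb generator acting on the height at position `k`. -/
noncomputable def hE (δ : ℝ) (k : ℕ) : Module.End ℝ ((ℕ → ℕ) → ℝ) where
  toFun φ := fun h => if IsPath h ∧ h (k - 1) = h (k + 1) then
      (hS δ (h (k - 1) + 1) * φ (Function.update h k (h (k - 1) + 1)) +
        hS δ (h (k - 1) - 1) * φ (Function.update h k (h (k - 1) - 1))) / hS δ (h (k - 1))
    else 0
  map_add' φ ψ := by
    funext h
    simp only [Pi.add_apply]
    split_ifs with hc
    · ring
    · simp
  map_smul' c φ := by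
    funext h
    simp only [Pi.smul_apply, smul_eq_mul, RingHom.id_apply]
    split_ifs with hc
    · ring
    · simp

open Classical in
theorem hE_pos (δ : ℝ) (k : ℕ) (φ : (ℕ → ℕ) → ℝ) {h : ℕ → ℕ} (hp : IsPath h)
    (he : h (k - 1) = h (k + 1)) :
    hE δ k φ h = (hS δ (h (k - 1) + 1) * φ (Function.update h k (h (k - 1) + 1)) +
        hS δ (h (k - 1) - 1) * φ (Function.update h k (h (k - 1) - 1))) / hS δ (h (k - 1)) := by
  have : hE δ k φ h = if IsPath h ∧ h (k - 1) = h (k + 1) then
      (hS δ (h (k - 1) + 1) * φ (Function.update h k (h (k - 1) + 1)) +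
        hS δ (h (k - 1) - 1) * φ (Function.update h k (h (k - 1) - 1))) / hS δ (h (k - 1))
    else 0 := rfl
  rw [this, if_pos ⟨hp, he⟩]

open Classical in
theorem hE_neg (δ : ℝ) (k : ℕ) (φ : (ℕ → ℕ) → ℝ) {h : ℕ → ℕ}
    (hn : ¬ (IsPath h ∧ h (k - 1) = h (k + 1))) : hE δ k φ h = 0 := by
  have : hE δ k φ h = if IsPath h ∧ h (k - 1) = h (k + 1) then
      (hS δ (h (k - 1) + 1) * φ (Function.update h k (h (k - 1) + 1)) +
        hS δ (h (k - 1) - 1) * φ (Function.update h k (h (k - 1) - 1))) / hS δ (h (k - 1))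
    else 0 := rfl
  rw [this, if_neg hn]

/-- Evaluation after an update at the same place gives the same value. -/
theorem hE_update_same (δ : ℝ) {k : ℕ} (hk : 1 ≤ k) (φ : (ℕ → ℕ) → ℝ) {h : ℕ → ℕ}
    (hp : IsPath h) (he : h (k - 1) = h (k + 1)) {x : ℕ} (hx : 1 ≤ x)
    (ha : x = h (k - 1) + 1 ∨ h (k - 1) = x + 1) :
    hE δ k φ (Function.update h k x) = hE δ k φ h := by
  have h1 : k - 1 ≠ k := by omega
  have h2 : k + 1 ≠ k := by omega
  rw [hE_pos δ k φ hp he, hE_pos δ k φ (hp.update hk he hx ha)]
  · rw [Function.update_of_ne h1, Function.update_idem, Function.update_idem]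
  · rw [Function.update_of_ne h1, Function.update_of_ne h2, he]

theorem hE_sq {δ : ℝ} (hδ : 2 ≤ δ) {k : ℕ} (hk : 1 ≤ k) : hE δ k * hE δ k = (δ • 1) * hE δ k := by
  ext φ h
  simp only [Module.End.mul_apply, LinearMap.smul_apply, Module.End.one_apply, Pi.smul_apply,
    smul_eq_mul]
  by_cases hc : IsPath h ∧ h (k - 1) = h (k + 1)
  · obtain ⟨hp, he⟩ := hc
    have ha : 1 ≤ h (k - 1) := (hp (k - 1)).1
    have hSa := hS_pos hδ ha
    have hrec := hS_rec δ ha
    rw [hE_pos δ k _ hp he, hE_update_same δ hk φ hp he (by omega) (Or.inl rfl)]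
    by_cases ha1 : h (k - 1) = 1
    · rw [ha1] at hrec hSa ⊢
      have h0 : hS δ (1 - 1) = 0 := rfl
      rw [h0] at hrec ⊢
      rw [zero_mul, add_zero]
      rw [add_zero] at hrec
      rw [hrec]
      field_simp
    · rw [hE_update_same δ hk φ hp he (by omega) (Or.inr (by omega)), ← add_mul, hrec]
      field_simp
  · rw [hE_neg δ k _ hc, hE_neg δ k _ hc, mul_zero]

theorem hE_up {δ : ℝ} (hδ : 2 ≤ δ) {k : ℕ} (hk : 1 ≤ k) :
    hE δ k * hE δ (k + 1) * hE δ k = hE δ k := by
  ext φ h
  simp only [Module.End.mul_apply]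
  by_cases hc : IsPath h ∧ h (k - 1) = h (k + 1)
  swap
  · rw [hE_neg δ k _ hc, hE_neg δ k _ hc]
  obtain ⟨hp, he⟩ := hc
  have hk1 : k - 1 ≠ k := by omega
  have hk2 : k + 1 ≠ k := by omega
  have hk3 : k + 1 + 1 ≠ k := by omega
  have hk4 : k - 1 ≠ k + 1 := by omega
  have hk5 : k + 1 - 1 = k := by omega
  have ha : 1 ≤ h (k - 1) := (hp (k - 1)).1
  have hSa := hS_pos hδ ha
  have hc1 : 1 ≤ h (k + 1 + 1) := (hp (k + 1 + 1)).1
  have hSc := hS_pos hδ hc1
  -- value of the middle term at the allowed height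
  have key : ∀ x, 1 ≤ x → (x = h (k - 1) + 1 ∨ h (k - 1) = x + 1) →
      hE δ (k + 1) (hE δ k φ) (Function.update h k x) =
        if x = h (k + 1 + 1) then hS δ (h (k - 1)) / hS δ x * hE δ k φ h else 0 := by
    intro x hx hax
    have hpx := hp.update hk he hx hax
    split_ifs with hxc
    · have hSx := hS_pos hδ hx
      rw [hE_pos δ (k + 1) _ hpx (by
        rw [hk5, Function.update_self, Function.update_of_ne hk3]; exact hxc)]
      rw [hk5, Function.update_self]
      -- the updated configurations
      have hval : ∀ y, 1 ≤ y → (y = x + 1 ∨ x = y + 1) →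
          hE δ k φ (Function.update (Function.update h k x) (k + 1) y) =
            if y = h (k - 1) then hE δ k φ h else 0 := by
        intro y hy hyx
        split_ifs with hya
        · subst hya
          have h3 : Function.update (Function.update h k x) (k + 1) (h (k - 1)) =
              Function.update h k x := by
            rw [Function.update_eq_self_iff, Function.update_of_ne hk2]
            exact he
          rw [h3]
          exact hE_update_same δ hk φ hp he hx hax
        · apply hE_neg
          rintro ⟨_, h5⟩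
          rw [Function.update_of_ne hk4, Function.update_of_ne hk1, Function.update_self] at h5
          exact hya h5.symm
      rw [hval (x + 1) (by omega) (Or.inl rfl)]
      rcases hax with hax | hax
      · have hne : x + 1 ≠ h (k - 1) := by omega
        rw [if_neg hne, hval (x - 1) (by omega) (Or.inr (by omega)),
          if_pos (by omega), hax, Nat.add_sub_cancel]
        ring
      · rw [if_pos hax.symm, ← hax]
        by_cases hx1 : x = 1
        · subst hx1
          have h0 : hS δ (1 - 1) = 0 := rfl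
          rw [h0]
          ring
        · rw [hval (x - 1) (by omega) (Or.inr (by omega)), if_neg (by omega)]
          ring
    · apply hE_neg
      rintro ⟨_, h5⟩
      rw [hk5, Function.update_self, Function.update_of_ne hk3] at h5
      exact hxc h5
  rw [hE_pos δ k _ hp he, key (h (k - 1) + 1) (by omega) (Or.inl rfl)]
  have hstep := (hp (k + 1)).2
  rw [← he] at hstep
  rcases hstep with hstep | hstep
  · rw [if_pos hstep.symm]
    have hS1 := hS_pos hδ (show 1 ≤ h (k - 1) + 1 by omega)
    by_cases ha1 : h (k - 1) = 1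
    · rw [ha1] at hSa hS1 ⊢
      have h0 : hS δ (1 - 1) = 0 := rfl
      rw [h0]
      field_simp
      ring
    · rw [key (h (k - 1) - 1) (by omega) (Or.inr (by omega)), if_neg (by omega)]
      field_simp
      ring
  · rw [if_neg (by omega), key (h (k - 1) - 1) (by omega) (Or.inr (by omega)),
      if_pos (by omega)]
    have hS1 := hS_pos hδ (show 1 ≤ h (k - 1) - 1 by omega)
    field_simp
    ring

theorem hE_down {δ : ℝ} (hδ : 2 ≤ δ) {k : ℕ} (hk : 1 ≤ k) :
    hE δ (k + 1) * hE δ k * hE δ (k + 1) = hE δ (k + 1) := by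
  ext φ h
  simp only [Module.End.mul_apply]
  by_cases hc : IsPath h ∧ h (k + 1 - 1) = h (k + 1 + 1)
  swap
  · rw [hE_neg δ (k + 1) _ hc, hE_neg δ (k + 1) _ hc]
  obtain ⟨hp, he⟩ := hc
  have hk1 : k - 1 ≠ k := by omega
  have hk2 : k + 1 ≠ k := by omega
  have hk3 : k + 1 + 1 ≠ k := by omega
  have hk4 : k - 1 ≠ k + 1 := by omega
  have hk5 : k + 1 - 1 = k := by omega
  have hk6 : k ≠ k + 1 := by omega
  have hk7 : k + 1 + 1 ≠ k + 1 := by omega
  have hK : 1 ≤ k + 1 := by omega
  have ha : 1 ≤ h k := (hp k).1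
  have hSa := hS_pos hδ ha
  have hb1 : 1 ≤ h (k - 1) := (hp (k - 1)).1
  have hadj : h k = h (k - 1) + 1 ∨ h (k - 1) = h k + 1 := by
    have := (hp (k - 1)).2
    rwa [show k - 1 + 1 = k by omega] at this
  have key : ∀ x, 1 ≤ x → (x = h k + 1 ∨ h k = x + 1) →
      hE δ k (hE δ (k + 1) φ) (Function.update h (k + 1) x) =
        if x = h (k - 1) then hS δ (h k) / hS δ x * hE δ (k + 1) φ h else 0 := by
    intro x hx hax
    have hax' : x = h (k + 1 - 1) + 1 ∨ h (k + 1 - 1) = x + 1 := by rwa [hk5]
    have hpx := hp.update hK he hx hax'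
    split_ifs with hxc
    · have hSx := hS_pos hδ hx
      rw [hE_pos δ k _ hpx (by
        rw [Function.update_of_ne hk4, Function.update_self]; exact hxc.symm)]
      rw [Function.update_of_ne hk4, ← hxc]
      have hval : ∀ y, 1 ≤ y → (y = x + 1 ∨ x = y + 1) →
          hE δ (k + 1) φ (Function.update (Function.update h (k + 1) x) k y) =
            if y = h k then hE δ (k + 1) φ h else 0 := by
        intro y hy hyx
        split_ifs with hya
        · subst hya
          have h3 : Function.update (Function.update h (k + 1) x) k (h k) =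
              Function.update h (k + 1) x := by
            rw [Function.update_eq_self_iff, Function.update_of_ne hk6]
          rw [h3]
          exact hE_update_same δ hK φ hp he hx hax'
        · apply hE_neg
          rintro ⟨_, h5⟩
          rw [hk5, Function.update_self, Function.update_of_ne hk3,
            Function.update_of_ne hk7] at h5
          rw [hk5] at he
          exact hya (h5.trans he.symm)
      rw [hval (x + 1) (by omega) (Or.inl rfl)]
      rcases hax with hax | hax
      · have hne : x + 1 ≠ h k := by omega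
        rw [if_neg hne, hval (x - 1) (by omega) (Or.inr (by omega)),
          if_pos (by omega), hax, Nat.add_sub_cancel]
        ring
      · rw [if_pos hax.symm, ← hax]
        by_cases hx1 : x = 1
        · subst hx1
          have h0 : hS δ (1 - 1) = 0 := rfl
          rw [h0]
          ring
        · rw [hval (x - 1) (by omega) (Or.inr (by omega)), if_neg (by omega)]
          ring
    · apply hE_neg
      rintro ⟨_, h5⟩
      rw [Function.update_of_ne hk4, Function.update_self] at h5
      exact hxc h5.symm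
  rw [hE_pos δ (k + 1) _ hp he]
  rw [hk5] at he ⊢
  rw [key (h k + 1) (by omega) (Or.inl rfl)]
  rcases hadj with hstep | hstep
  · rw [if_neg (by omega), key (h k - 1) (by omega) (Or.inr (by omega)),
      if_pos (by omega)]
    have hS1 := hS_pos hδ (show 1 ≤ h k - 1 by omega)
    field_simp
    ring
  · rw [if_pos hstep.symm]
    have hS1 := hS_pos hδ (show 1 ≤ h k + 1 by omega)
    by_cases ha1 : h k = 1
    · rw [ha1] at hSa hS1 ⊢
      have h0 : hS δ (1 - 1) = 0 := rfl
      rw [h0]
      field_simp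
      ring
    · rw [key (h k - 1) (by omega) (Or.inr (by omega)), if_neg (by omega)]
      field_simp
      ring

/-- Evaluation of a generator after an update at a distant allowed place. -/
theorem hE_update_far (δ : ℝ) {i j : ℕ} (hi : 1 ≤ i) (hj : 1 ≤ j)
    (hij : i + 2 ≤ j ∨ j + 2 ≤ i) (φ : (ℕ → ℕ) → ℝ) {h : ℕ → ℕ}
    (hp : IsPath h) (he : h (i - 1) = h (i + 1)) {x : ℕ} (hx : 1 ≤ x)
    (ha : x = h (i - 1) + 1 ∨ h (i - 1) = x + 1) :
    hE δ j φ (Function.update h i x) = if h (j - 1) = h (j + 1) then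
      (hS δ (h (j - 1) + 1) *
          φ (Function.update (Function.update h j (h (j - 1) + 1)) i x) +
        hS δ (h (j - 1) - 1) *
          φ (Function.update (Function.update h j (h (j - 1) - 1)) i x)) / hS δ (h (j - 1))
      else 0 := by
  have h1 : j - 1 ≠ i := by omega
  have h2 : j + 1 ≠ i := by omega
  have h3 : j ≠ i := by omega
  split_ifs with hc
  · rw [hE_pos δ j φ (hp.update hi he hx ha)]
    · rw [Function.update_of_ne h1, Function.update_comm h3, Function.update_comm h3]
    · rw [Function.update_of_ne h1, Function.update_of_ne h2, hc]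
  · apply hE_neg
    rintro ⟨_, h5⟩
    rw [Function.update_of_ne h1, Function.update_of_ne h2] at h5
    exact hc h5

theorem hE_comm (δ : ℝ) {i j : ℕ} (hi : 1 ≤ i) (hij : i + 2 ≤ j) :
    hE δ i * hE δ j = hE δ j * hE δ i := by
  have hj : 1 ≤ j := by omega
  have h3 : j ≠ i := by omega
  have h1 : j - 1 ≠ i := by omega
  have h2 : j + 1 ≠ i := by omega
  have h4 : i - 1 ≠ j := by omega
  have h5 : i + 1 ≠ j := by omega
  ext φ h
  simp only [Module.End.mul_apply]
  by_cases hp : IsPath h
  swap
  · rw [hE_neg δ i _ (fun hh => hp hh.1), hE_neg δ j _ (fun hh => hp hh.1)]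
  have hai : 1 ≤ h (i - 1) := (hp (i - 1)).1
  have haj : 1 ≤ h (j - 1) := (hp (j - 1)).1
  by_cases hci : h (i - 1) = h (i + 1)
  · by_cases hcj : h (j - 1) = h (j + 1)
    · rw [hE_pos δ i _ hp hci, hE_pos δ j _ hp hcj]
      have A : ∀ x, (x = h (i - 1) + 1 ∨ x = h (i - 1) - 1) →
          hS δ x * hE δ j φ (Function.update h i x) = hS δ x * ((hS δ (h (j - 1) + 1) *
          φ (Function.update (Function.update h j (h (j - 1) + 1)) i x) +
        hS δ (h (j - 1) - 1) *
          φ (Function.update (Function.update h j (h (j - 1) - 1)) i x)) / hS δ (h (j - 1))) := by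
        intro x hx
        by_cases hx0 : x = 0
        · subst hx0
          have h0 : hS δ 0 = 0 := rfl
          rw [h0, zero_mul, zero_mul]
        · rw [hE_update_far δ hi hj (Or.inl hij) φ hp hci (by omega) (by omega), if_pos hcj]
      have B : ∀ x, (x = h (j - 1) + 1 ∨ x = h (j - 1) - 1) →
          hS δ x * hE δ i φ (Function.update h j x) = hS δ x * ((hS δ (h (i - 1) + 1) *
          φ (Function.update (Function.update h i (h (i - 1) + 1)) j x) +
        hS δ (h (i - 1) - 1) *
          φ (Function.update (Function.update h i (h (i - 1) - 1)) j x)) / hS δ (h (i - 1))) := by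
        intro x hx
        by_cases hx0 : x = 0
        · subst hx0
          have h0 : hS δ 0 = 0 := rfl
          rw [h0, zero_mul, zero_mul]
        · rw [hE_update_far δ hj hi (Or.inr hij) φ hp hcj (by omega) (by omega), if_pos hci]
      rw [A _ (Or.inl rfl), A _ (Or.inr rfl), B _ (Or.inl rfl), B _ (Or.inr rfl)]
      rw [Function.update_comm h3, Function.update_comm h3, Function.update_comm h3,
        Function.update_comm h3]
      ring
    · rw [hE_neg δ j _ (fun hh => hcj hh.2), hE_pos δ i _ hp hci]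
      have A : ∀ x, (x = h (i - 1) + 1 ∨ x = h (i - 1) - 1) →
          hS δ x * hE δ j φ (Function.update h i x) = 0 := by
        intro x hx
        by_cases hx0 : x = 0
        · subst hx0
          have h0 : hS δ 0 = 0 := rfl
          rw [h0, zero_mul]
        · rw [hE_update_far δ hi hj (Or.inl hij) φ hp hci (by omega) (by omega), if_neg hcj,
            mul_zero]
      rw [A _ (Or.inl rfl), A _ (Or.inr rfl)]
      simp
  · rw [hE_neg δ i _ (fun hh => hci hh.2)]
    by_cases hcj : h (j - 1) = h (j + 1)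
    · rw [hE_pos δ j _ hp hcj]
      have B : ∀ x, (x = h (j - 1) + 1 ∨ x = h (j - 1) - 1) →
          hS δ x * hE δ i φ (Function.update h j x) = 0 := by
        intro x hx
        by_cases hx0 : x = 0
        · subst hx0
          have h0 : hS δ 0 = 0 := rfl
          rw [h0, zero_mul]
        · rw [hE_update_far δ hj hi (Or.inr hij) φ hp hcj (by omega) (by omega), if_neg hci,
            mul_zero]
      rw [B _ (Or.inl rfl), B _ (Or.inr rfl)]
      simp
    · rw [hE_neg δ j _ (fun hh => hcj hh.2)]

theorem hE_TLRel {δ : ℝ} (hδ : 2 ≤ δ) :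
    TLRel (M := Module.End ℝ ((ℕ → ℕ) → ℝ)) (δ • 1) (hE δ) where
  dcomm i := by simp
  sq i hi := hE_sq hδ hi
  up i hi := hE_up hδ hi
  down i hi := hE_down hδ hi
  comm i j hi hij := hE_comm δ hi hij

end Pool.Agent.Helper70.BLB
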