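import Mathlib
import Pool.Agent.Helper70.BLB.TLMonoid
import Pool.Agent.Helper70.BLB.Color
import Pool.Agent.Helper70.BLB.Height

/-!
Planar networks as lists of elementary operations, and the transfer of their evaluation from the
colouring representations to the height representation.
-/

set_option autoImplicit false

namespace Pool.Agent.Helper70.BLB

open Polynomial

/-- Elementary operations on a row of sites `0, 1, 2, ...`. -/
inductive Op
  /-- identify the current vertices at sites `i` and `i + 1` -/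
  | J (i : ℕ)
  /-- put an edge between the current vertices at sites `i` and `i + 1` -/
  | H (i : ℕ)
  /-- replace the vertex at site `i` by a new vertex -/
  | D (i : ℕ)
  /-- replace the vertex at site `i` by a new vertex adjacent to the old one -/
  | V (i : ℕ)

/-- The operation only involves sites `0, ..., m` and does not renew site `0`. -/
def Op.ok (m : ℕ) : Op → Prop
  | .J i => i + 1 ≤ m
  | .H i => i + 1 ≤ m
  | .D i => 1 ≤ i ∧ i ≤ m
  | .V i => 1 ≤ i ∧ i ≤ m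

/-- The value of an operation in a ring with Temperley-Lieb generators. -/
def Op.val {R : Type*} [Ring R] (d dinv : R) (e : ℕ → R) : Op → R
  | .J i => dinv * e (2 * i + 1)
  | .H i => 1 - dinv * e (2 * i + 1)
  | .D i => d * e (2 * i)
  | .V i => d * e (2 * i) - 1

/-- The value of a list of operations. -/
def Wval {R : Type*} [Ring R] (d dinv : R) (e : ℕ → R) (ops : List Op) : R :=
  (ops.map (Op.val d dinv e)).prod

theorem Op.map_val {R S : Type*} [Ring R] [Ring S] (f : R →+* S) (d dinv : R) (e : ℕ → R)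
    (o : Op) : f (o.val d dinv e) = o.val (f d) (f dinv) (fun k => f (e k)) := by
  cases o <;> simp [Op.val]

theorem map_Wval {R S : Type*} [Ring R] [Ring S] (f : R →+* S) (d dinv : R) (e : ℕ → R)
    (ops : List Op) : f (Wval d dinv e ops) = Wval (f d) (f dinv) (fun k => f (e k)) ops := by
  unfold Wval
  rw [map_list_prod, List.map_map]
  congr 1
  apply List.map_congr_left
  intro o _
  exact Op.map_val f d dinv e o

theorem map_TLX {R S : Type*} [Monoid R] [Monoid S] (f : R →* S) (e : ℕ → R) :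
    ∀ k, f (TLX e k) = TLX (fun k => f (e k)) k
  | 0 => by simp [TLX]
  | 1 => by simp [TLX]
  | (k + 2) => by simp [TLX, map_TLX f e k]

/-- The colouring algebra with `n + 1` colours. -/
abbrev CAlg (n : ℕ) : Type := Module.End ℝ ((ℕ → Fin (n + 1)) → ℝ)

/-- The height algebra. -/
abbrev HAlg : Type := Module.End ℝ ((ℕ → ℕ) → ℝ)

/-- All colouring algebras and the height algebra together. -/
abbrev BigAlg : Type := (∀ n : ℕ, CAlg n) × HAlg

/-- Loop parameter for `n + 1` colours. -/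
noncomputable def cδ (n : ℕ) : ℝ := Real.sqrt (n + 1)

theorem cδ_pos (n : ℕ) : 0 < cδ n := Real.sqrt_pos.2 (by positivity)

theorem cδ_sq (n : ℕ) : cδ n ^ 2 = (n + 1 : ℝ) := Real.sq_sqrt (by positivity)

noncomputable def bigD (δ : ℝ) : BigAlg := (fun n => cδ n • 1, δ • 1)
noncomputable def bigDinv (δ : ℝ) : BigAlg := (fun n => (cδ n)⁻¹ • 1, δ⁻¹ • 1)
noncomputable def bigE (δ : ℝ) (k : ℕ) : BigAlg := (fun n => cE (Fin (n + 1)) (cδ n) k, hE δ k)

theorem big_TLRel {δ : ℝ} (hδ : 2 ≤ δ) : TLRel (bigD δ) (bigE δ) where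
  dcomm i := by
    refine Prod.ext (funext fun n => ?_) ?_
    · exact (cE_TLRel (C := Fin (n + 1)) (cδ_pos n) (by rw [cδ_sq]; simp)).dcomm i
    · exact (hE_TLRel hδ).dcomm i
  sq i hi := by
    refine Prod.ext (funext fun n => ?_) ?_
    · exact (cE_TLRel (C := Fin (n + 1)) (cδ_pos n) (by rw [cδ_sq]; simp)).sq i hi
    · exact (hE_TLRel hδ).sq i hi
  up i hi := by
    refine Prod.ext (funext fun n => ?_) ?_
    · exact (cE_TLRel (C := Fin (n + 1)) (cδ_pos n) (by rw [cδ_sq]; simp)).up i hi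
    · exact (hE_TLRel hδ).up i hi
  down i hi := by
    refine Prod.ext (funext fun n => ?_) ?_
    · exact (cE_TLRel (C := Fin (n + 1)) (cδ_pos n) (by rw [cδ_sq]; simp)).down i hi
    · exact (hE_TLRel hδ).down i hi
  comm i j hi hij := by
    refine Prod.ext (funext fun n => ?_) ?_
    · exact (cE_TLRel (C := Fin (n + 1)) (cδ_pos n) (by rw [cδ_sq]; simp)).comm i j hi hij
    · exact (hE_TLRel hδ).comm i j hi hij

/-- The sandwich of `x` is given by one polynomial in all representations. -/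
def Good (δ : ℝ) (m : ℕ) (x : BigAlg) : Prop :=
  ∃ (Q : ℝ[X]) (K : ℕ),
    (∀ n, cδ n ^ K • (TLX (cE (Fin (n + 1)) (cδ n)) (2 * m) * x.1 n *
        TLX (cE (Fin (n + 1)) (cδ n)) (2 * m)) =
      Q.eval (cδ n) • TLX (cE (Fin (n + 1)) (cδ n)) (2 * m)) ∧
    δ ^ K • (TLX (hE δ) (2 * m) * x.2 * TLX (hE δ) (2 * m)) =
      Q.eval δ • TLX (hE δ) (2 * m)

theorem Good.of_mem {δ : ℝ} (hδ : 2 ≤ δ) {m : ℕ} {w : BigAlg}
    (hw : w ∈ TLA (bigD δ) (bigE δ) (2 * m)) : Good δ m w := by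
  obtain ⟨j, hj⟩ := (big_TLRel hδ).sandwich_X (2 * m) w hw
  refine ⟨X ^ j, 0, fun n => ?_, ?_⟩
  · have h1 := congrArg (fun z : BigAlg => z.1 n) hj
    have h2 : (TLX (bigE δ) (2 * m)).1 n = TLX (cE (Fin (n + 1)) (cδ n)) (2 * m) :=
      map_TLX ((Pi.evalMonoidHom (fun n : ℕ => CAlg n) n).comp (MonoidHom.fst _ _))
        (bigE δ) (2 * m)
    have h3 : (bigD δ ^ j).1 n = (cδ n • (1 : CAlg n)) ^ j := rfl
    have h4 : (TLX (bigE δ) (2 * m)).1 n * w.1 n * (TLX (bigE δ) (2 * m)).1 n =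
      (bigD δ ^ j).1 n * (TLX (bigE δ) (2 * m)).1 n := h1
    rw [h2, h3] at h4
    rw [pow_zero, one_smul, h4, eval_pow, eval_X, _root_.smul_pow, one_pow, smul_mul_assoc, one_mul]
  · have h1 := congrArg (fun z : BigAlg => z.2) hj
    have h2 : (TLX (bigE δ) (2 * m)).2 = TLX (hE δ) (2 * m) :=
      map_TLX (MonoidHom.snd (∀ n : ℕ, CAlg n) HAlg) (bigE δ) (2 * m)
    have h3 : (bigD δ ^ j).2 = (δ • (1 : HAlg)) ^ j := rfl
    have h4 : (TLX (bigE δ) (2 * m)).2 * w.2 * (TLX (bigE δ) (2 * m)).2 =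
      (bigD δ ^ j).2 * (TLX (bigE δ) (2 * m)).2 := h1
    rw [h2, h3] at h4
    rw [pow_zero, one_smul, h4, eval_pow, eval_X, _root_.smul_pow, one_pow, smul_mul_assoc, one_mul]

theorem Good.d_mul {δ : ℝ} {m : ℕ} {x : BigAlg} (hx : Good δ m x) :
    Good δ m (bigD δ * x) := by
  obtain ⟨Q, K, h1, h2⟩ := hx
  refine ⟨X * Q, K, fun n => ?_, ?_⟩
  · have : (bigD δ * x).1 n = cδ n • x.1 n := by
      change (cδ n • (1 : CAlg n)) * x.1 n = _
      rw [smul_mul_assoc, one_mul]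
    rw [this, mul_smul_comm, smul_mul_assoc, smul_comm, h1, eval_mul, eval_X, mul_smul]
  · have : (bigD δ * x).2 = δ • x.2 := by
      change (δ • (1 : HAlg)) * x.2 = _
      rw [smul_mul_assoc, one_mul]
    rw [this, mul_smul_comm, smul_mul_assoc, smul_comm, h2, eval_mul, eval_X, mul_smul]

theorem Good.dinv_mul {δ : ℝ} (hδ : 2 ≤ δ) {m : ℕ} {x : BigAlg} (hx : Good δ m x) :
    Good δ m (bigDinv δ * x) := by
  obtain ⟨Q, K, h1, h2⟩ := hx
  refine ⟨Q, K + 1, fun n => ?_, ?_⟩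
  · have : (bigDinv δ * x).1 n = (cδ n)⁻¹ • x.1 n := by
      change ((cδ n)⁻¹ • (1 : CAlg n)) * x.1 n = _
      rw [smul_mul_assoc, one_mul]
    have hne := (cδ_pos n).ne'
    rw [this, mul_smul_comm, smul_mul_assoc, smul_smul, pow_succ, mul_assoc,
      mul_inv_cancel₀ hne, mul_one, h1]
  · have : (bigDinv δ * x).2 = δ⁻¹ • x.2 := by
      change (δ⁻¹ • (1 : HAlg)) * x.2 = _
      rw [smul_mul_assoc, one_mul]
    have hne : δ ≠ 0 := by linarith
    rw [this, mul_smul_comm, smul_mul_assoc, smul_smul, pow_succ, mul_assoc,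
      mul_inv_cancel₀ hne, mul_one, h2]

theorem Good.sub {δ : ℝ} {m : ℕ} {x y : BigAlg} (hx : Good δ m x) (hy : Good δ m y) :
    Good δ m (x - y) := by
  obtain ⟨Q, K, h1, h2⟩ := hx
  obtain ⟨Q', K', h1', h2'⟩ := hy
  refine ⟨X ^ K' * Q - X ^ K * Q', K + K', fun n => ?_, ?_⟩
  · have h0 : (x - y).1 n = x.1 n - y.1 n := rfl
    have e1 := congrArg (fun z => cδ n ^ K' • z) (h1 n)
    have e2 := congrArg (fun z => cδ n ^ K • z) (h1' n)
    simp only [smul_smul] at e1 e2
    have e3 : (X ^ K' * Q - X ^ K * Q').eval (cδ n) =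
        cδ n ^ K' * Q.eval (cδ n) - cδ n ^ K * Q'.eval (cδ n) := by simp
    rw [h0, mul_sub, sub_mul, smul_sub, e3]
    have e4 := sub_smul (cδ n ^ K' * Q.eval (cδ n)) (cδ n ^ K * Q'.eval (cδ n))
      (TLX (cE (Fin (n + 1)) (cδ n)) (2 * m))
    rw [e4, ← e1, ← e2, pow_add, mul_comm (cδ n ^ K) (cδ n ^ K')]
  · have h0 : (x - y).2 = x.2 - y.2 := rfl
    have e1 := congrArg (fun z => δ ^ K' • z) h2
    have e2 := congrArg (fun z => δ ^ K • z) h2'
    simp only [smul_smul] at e1 e2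
    have e3 : (X ^ K' * Q - X ^ K * Q').eval δ =
        δ ^ K' * Q.eval δ - δ ^ K * Q'.eval δ := by simp
    rw [h0, mul_sub, sub_mul, smul_sub, e3]
    have e4 := sub_smul (δ ^ K' * Q.eval δ) (δ ^ K * Q'.eval δ)
      (TLX (hE δ) (2 * m))
    rw [e4, ← e1, ← e2, pow_add, mul_comm (δ ^ K) (δ ^ K')]

theorem bigD_comm (δ : ℝ) (x : BigAlg) : x * bigD δ = bigD δ * x := by
  refine Prod.ext (funext fun n => ?_) ?_
  · change x.1 n * (cδ n • (1 : CAlg n)) = (cδ n • (1 : CAlg n)) * x.1 n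
    rw [smul_mul_assoc, mul_smul_comm, one_mul, mul_one]
  · change x.2 * (δ • (1 : HAlg)) = (δ • (1 : HAlg)) * x.2
    rw [smul_mul_assoc, mul_smul_comm, one_mul, mul_one]

theorem bigDinv_comm (δ : ℝ) (x : BigAlg) : x * bigDinv δ = bigDinv δ * x := by
  refine Prod.ext (funext fun n => ?_) ?_
  · change x.1 n * ((cδ n)⁻¹ • (1 : CAlg n)) = ((cδ n)⁻¹ • (1 : CAlg n)) * x.1 n
    rw [smul_mul_assoc, mul_smul_comm, one_mul, mul_one]
  · change x.2 * (δ⁻¹ • (1 : HAlg)) = (δ⁻¹ • (1 : HAlg)) * x.2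
    rw [smul_mul_assoc, mul_smul_comm, one_mul, mul_one]

theorem Good.ops {δ : ℝ} (hδ : 2 ≤ δ) (m : ℕ) : ∀ (ops : List Op), (∀ o ∈ ops, o.ok m) →
    ∀ w ∈ TLA (bigD δ) (bigE δ) (2 * m),
      Good δ m (w * Wval (bigD δ) (bigDinv δ) (bigE δ) ops)
  | [], _, w, hw => by
    have : w * Wval (bigD δ) (bigDinv δ) (bigE δ) [] = w := by simp [Wval]
    rw [this]
    exact Good.of_mem hδ hw
  | (o :: ops), hok, w, hw => by
    have IH := Good.ops hδ m ops (fun o ho => hok o (List.mem_cons_of_mem _ ho))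
    have ho := hok o List.mem_cons_self
    have hW : Wval (bigD δ) (bigDinv δ) (bigE δ) (o :: ops) =
        o.val (bigD δ) (bigDinv δ) (bigE δ) * Wval (bigD δ) (bigDinv δ) (bigE δ) ops := by
      simp [Wval]
    rw [hW]
    cases o with
    | J i =>
      have hi : i + 1 ≤ m := ho
      have h1 := IH (w * bigE δ (2 * i + 1)) (mul_mem hw (e_mem_TLA (by omega) (by omega)))
      have h2 := h1.dinv_mul hδ
      have h3 : w * (Op.val (bigD δ) (bigDinv δ) (bigE δ) (Op.J i) *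
          Wval (bigD δ) (bigDinv δ) (bigE δ) ops) =
          bigDinv δ * (w * bigE δ (2 * i + 1) * Wval (bigD δ) (bigDinv δ) (bigE δ) ops) := by
        simp only [Op.val]
        rw [← mul_assoc, ← mul_assoc w, bigDinv_comm, mul_assoc, mul_assoc, mul_assoc]
      rw [h3]; exact h2
    | H i =>
      have hi : i + 1 ≤ m := ho
      have h1 := IH (w * bigE δ (2 * i + 1)) (mul_mem hw (e_mem_TLA (by omega) (by omega)))
      have h2 := h1.dinv_mul hδ
      have h4 := (IH w hw).sub h2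
      have h3 : w * (Op.val (bigD δ) (bigDinv δ) (bigE δ) (Op.H i) *
          Wval (bigD δ) (bigDinv δ) (bigE δ) ops) =
          w * Wval (bigD δ) (bigDinv δ) (bigE δ) ops -
          bigDinv δ * (w * bigE δ (2 * i + 1) * Wval (bigD δ) (bigDinv δ) (bigE δ) ops) := by
        simp only [Op.val]
        rw [sub_mul, one_mul, mul_sub, ← mul_assoc, ← mul_assoc w, bigDinv_comm, mul_assoc,
          mul_assoc, mul_assoc]
      rw [h3]; exact h4
    | D i =>
      obtain ⟨hi1, hi2⟩ : 1 ≤ i ∧ i ≤ m := ho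
      have h1 := IH (w * bigE δ (2 * i)) (mul_mem hw (e_mem_TLA (by omega) (by omega)))
      have h2 := h1.d_mul
      have h3 : w * (Op.val (bigD δ) (bigDinv δ) (bigE δ) (Op.D i) *
          Wval (bigD δ) (bigDinv δ) (bigE δ) ops) =
          bigD δ * (w * bigE δ (2 * i) * Wval (bigD δ) (bigDinv δ) (bigE δ) ops) := by
        simp only [Op.val]
        rw [← mul_assoc, ← mul_assoc w, bigD_comm, mul_assoc, mul_assoc, mul_assoc]
      rw [h3]; exact h2
    | V i =>
      obtain ⟨hi1, hi2⟩ : 1 ≤ i ∧ i ≤ m := ho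
      have h1 := IH (w * bigE δ (2 * i)) (mul_mem hw (e_mem_TLA (by omega) (by omega)))
      have h2 := h1.d_mul
      have h4 := h2.sub (IH w hw)
      have h3 : w * (Op.val (bigD δ) (bigDinv δ) (bigE δ) (Op.V i) *
          Wval (bigD δ) (bigDinv δ) (bigE δ) ops) =
          bigD δ * (w * bigE δ (2 * i) * Wval (bigD δ) (bigDinv δ) (bigE δ) ops) -
          w * Wval (bigD δ) (bigDinv δ) (bigE δ) ops := by
        simp only [Op.val]
        rw [sub_mul, one_mul, mul_sub, ← mul_assoc, ← mul_assoc w, bigD_comm, mul_assoc,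
          mul_assoc, mul_assoc]
      rw [h3]; exact h4

/-- The evaluation of a planar network is given by one polynomial in `δ` in all colouring
representations and in the height representation. -/
theorem transfer {δ : ℝ} (hδ : 2 ≤ δ) (m : ℕ) (ops : List Op) (hok : ∀ o ∈ ops, o.ok m) :
    ∃ (Q : ℝ[X]) (K : ℕ),
    (∀ n, cδ n ^ K • (TLX (cE (Fin (n + 1)) (cδ n)) (2 * m) *
        Wval (cδ n • 1) ((cδ n)⁻¹ • 1) (cE (Fin (n + 1)) (cδ n)) ops *
        TLX (cE (Fin (n + 1)) (cδ n)) (2 * m)) =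
      Q.eval (cδ n) • TLX (cE (Fin (n + 1)) (cδ n)) (2 * m)) ∧
    δ ^ K • (TLX (hE δ) (2 * m) * Wval (δ • 1) (δ⁻¹ • 1) (hE δ) ops * TLX (hE δ) (2 * m)) =
      Q.eval δ • TLX (hE δ) (2 * m) := by
  obtain ⟨Q, K, h1, h2⟩ := Good.ops hδ m ops hok 1 (one_mem _)
  rw [one_mul] at h1 h2
  refine ⟨Q, K, fun n => ?_, ?_⟩
  · have h := h1 n
    have h5 : (Wval (bigD δ) (bigDinv δ) (bigE δ) ops).1 n =
        Wval (cδ n • 1) ((cδ n)⁻¹ • 1) (cE (Fin (n + 1)) (cδ n)) ops :=
      map_Wval ((Pi.evalRingHom (fun n : ℕ => CAlg n) n).comp (RingHom.fst _ _))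
        (bigD δ) (bigDinv δ) (bigE δ) ops
    rw [h5] at h
    exact h
  · have h5 : (Wval (bigD δ) (bigDinv δ) (bigE δ) ops).2 =
        Wval (δ • 1) (δ⁻¹ • 1) (hE δ) ops :=
      map_Wval (RingHom.snd (∀ n : ℕ, CAlg n) HAlg)
        (bigD δ) (bigDinv δ) (bigE δ) ops
    rw [h5] at h2
    exact h2

end Pool.Agent.Helper70.BLB
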