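import Mathlib
import Pool.Agent.Helper70.BLB.Transfer

/-!
Evaluation of the network of a labelled grid in the colouring representations.
-/

set_option autoImplicit false

namespace Pool.Agent.Helper70.BLB

section Semantics

variable {C : Type} [Fintype C] [DecidableEq C]

/-- Value of an operation in the colouring representation. -/
noncomputable def cval (C : Type) [Fintype C] [DecidableEq C] :
    Op → Module.End ℝ ((ℕ → C) → ℝ)
  | .J i => cJ C i
  | .H i => 1 - cJ C i
  | .D i => cD C i
  | .V i => cD C i - 1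

noncomputable def cW (C : Type) [Fintype C] [DecidableEq C] (ops : List Op) :
    Module.End ℝ ((ℕ → C) → ℝ) := (ops.map (cval C)).prod

theorem Wval_color {δ : ℝ} (hδ : δ ≠ 0) (ops : List Op) :
    Wval (δ • 1) (δ⁻¹ • 1) (cE C δ) ops = cW C ops := by
  unfold Wval cW
  congr 1
  apply List.map_congr_left
  intro o _
  cases o with
  | J i =>
    simp only [Op.val, cval]
    rw [cE_odd, smul_mul_smul_comm, one_mul, inv_mul_cancel₀ hδ, one_smul]
  | H i =>
    simp only [Op.val, cval]
    rw [cE_odd, smul_mul_smul_comm, one_mul, inv_mul_cancel₀ hδ, one_smul]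
  | D i =>
    simp only [Op.val, cval]
    rw [cE_even, smul_mul_smul_comm, one_mul, mul_inv_cancel₀ hδ, one_smul]
  | V i =>
    simp only [Op.val, cval]
    rw [cE_even, smul_mul_smul_comm, one_mul, mul_inv_cancel₀ hδ, one_smul]

theorem cW_append (a b : List Op) (ψ : (ℕ → C) → ℝ) :
    cW C (a ++ b) ψ = cW C a (cW C b ψ) := by
  unfold cW
  rw [List.map_append, List.prod_append]
  rfl

theorem cW_nil (ψ : (ℕ → C) → ℝ) : cW C [] ψ = ψ := by simp [cW]

theorem cW_cons (o : Op) (ops : List Op) (ψ : (ℕ → C) → ℝ) :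
    cW C (o :: ops) ψ = cval C o (cW C ops ψ) := by
  unfold cW
  rw [List.map_cons, List.prod_cons]
  rfl

theorem cW_J (i : ℕ) (ψ : (ℕ → C) → ℝ) (c : ℕ → C) :
    cW C [Op.J i] ψ c = if c i = c (i + 1) then ψ c else 0 := by
  rw [cW_cons, cW_nil]; rfl

theorem cW_H (i : ℕ) (ψ : (ℕ → C) → ℝ) (c : ℕ → C) :
    cW C [Op.H i] ψ c = if c i ≠ c (i + 1) then ψ c else 0 := by
  rw [cW_cons, cW_nil]
  simp only [cval, LinearMap.sub_apply, Module.End.one_apply, Pi.sub_apply, cJ_apply]
  split_ifs with h1 h2
  · exact absurd h1 h2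
  · ring
  · ring

theorem cW_D (i : ℕ) (ψ : (ℕ → C) → ℝ) (c : ℕ → C) :
    cW C [Op.D i] ψ c = ∑ y, ψ (Function.update c i y) := by
  rw [cW_cons, cW_nil]; rfl

theorem cW_V (i : ℕ) (ψ : (ℕ → C) → ℝ) (c : ℕ → C) :
    cW C [Op.V i] ψ c = ∑ y, if c i ≠ y then ψ (Function.update c i y) else 0 := by
  rw [cW_cons, cW_nil]
  simp only [cval, LinearMap.sub_apply, Module.End.one_apply, Pi.sub_apply, cD_apply]
  have : ∀ y, (if c i ≠ y then ψ (Function.update c i y) else 0) =
      ψ (Function.update c i y) - if c i = y then ψ (Function.update c i y) else 0 := by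
    intro y
    by_cases h : c i = y
    · rw [if_neg (by tauto), if_pos h, sub_self]
    · rw [if_pos h, if_neg h, sub_zero]
  simp_rw [this]
  rw [Finset.sum_sub_distrib, Finset.sum_ite_eq Finset.univ (c i), if_pos (Finset.mem_univ _),
    Function.update_eq_self]

/-- Overlay of the colours `x` on the sites `1, ..., k`. -/
def ov (k : ℕ) (c : ℕ → C) (x : Fin k → C) (i : ℕ) : C :=
  if h : 1 ≤ i ∧ i ≤ k then x ⟨i - 1, by omega⟩ else c i

omit [Fintype C] [DecidableEq C] in
theorem ov_snoc (k : ℕ) (c : ℕ → C) (x : Fin k → C) (y : C) :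
    ov (k + 1) c (Fin.snoc x y) = Function.update (ov k c x) (k + 1) y := by
  funext i
  by_cases hi : i = k + 1
  · subst hi
    rw [Function.update_self]
    unfold ov
    rw [dif_pos ⟨by omega, le_rfl⟩]
    have : (⟨k + 1 - 1, by omega⟩ : Fin (k + 1)) = Fin.last k := by
      apply Fin.ext; simp
    rw [this, Fin.snoc_last]
  · rw [Function.update_of_ne hi]
    unfold ov
    by_cases h1 : 1 ≤ i ∧ i ≤ k
    · rw [dif_pos h1, dif_pos ⟨h1.1, by omega⟩]
      have : (⟨i - 1, by omega⟩ : Fin (k + 1)) = Fin.castSucc ⟨i - 1, by omega⟩ := rfl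
      rw [this, Fin.snoc_castSucc]
    · rw [dif_neg h1, dif_neg (by omega)]

omit [Fintype C] [DecidableEq C] in
theorem ov_update_out (k : ℕ) (c : ℕ → C) (x : Fin k → C) (y : C) :
    ov k (Function.update c (k + 1) y) x = Function.update (ov k c x) (k + 1) y := by
  funext i
  by_cases hi : i = k + 1
  · subst hi
    rw [Function.update_self]
    unfold ov
    rw [dif_neg (by omega), Function.update_self]
  · rw [Function.update_of_ne hi]
    unfold ov
    by_cases h1 : 1 ≤ i ∧ i ≤ k
    · rw [dif_pos h1, dif_pos h1]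
    · rw [dif_neg h1, dif_neg h1, Function.update_of_ne hi]

omit [Fintype C] [DecidableEq C] in
theorem ov_out (k : ℕ) (c : ℕ → C) (x : Fin k → C) {i : ℕ} (h : ¬ (1 ≤ i ∧ i ≤ k)) :
    ov k c x i = c i := by
  unfold ov
  rw [dif_neg h]

omit [DecidableEq C] in
theorem sum_snoc {A : Type} [Fintype A] (k : ℕ) (F : (Fin (k + 1) → A) → ℝ) :
    ∑ z, F z = ∑ x : Fin k → A, ∑ y, F (Fin.snoc x y) := by
  rw [← (Fin.snocEquiv (fun _ : Fin (k + 1) => A)).sum_comp, Fintype.sum_prod_type,
    Finset.sum_comm]
  rfl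

/-- Summation over the colours of the sites `1, ..., k`. -/
noncomputable def cS (C : Type) [Fintype C] [DecidableEq C] :
    ℕ → Module.End ℝ ((ℕ → C) → ℝ)
  | 0 => 1
  | (k + 1) => cD C (k + 1) * cS C k

theorem cS_apply : ∀ (k : ℕ) (ψ : (ℕ → C) → ℝ) (c : ℕ → C),
    cS C k ψ c = ∑ x : Fin k → C, ψ (ov k c x)
  | 0, ψ, c => by
    have h : cS C 0 ψ c = ψ c := rfl
    rw [h, Fintype.sum_unique]
    congr 1
    funext i
    rw [ov_out]; omega
  | (k + 1), ψ, c => by
    have h : cS C (k + 1) ψ c = ∑ y, cS C k ψ (Function.update c (k + 1) y) := rfl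
    rw [h, sum_snoc, Finset.sum_comm]
    apply Finset.sum_congr rfl
    intro y _
    rw [cS_apply k]
    apply Finset.sum_congr rfl
    intro x _
    rw [ov_update_out, ov_snoc]

theorem TLX_cE (δ : ℝ) : ∀ k : ℕ, TLX (cE C δ) (2 * k) = (δ⁻¹) ^ k • cS C k
  | 0 => by simp [TLX, cS]
  | (k + 1) => by
    have h : TLX (cE C δ) (2 * (k + 1)) = cE C δ (2 * (k + 1)) * TLX (cE C δ) (2 * k) := rfl
    rw [h, TLX_cE δ k, cE_even, smul_mul_smul_comm, ← pow_succ']
    rfl

/-- In the colouring representation the universal polynomial gives the number of trajectories. -/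
theorem color_eval {δ : ℝ} (hδ : 0 < δ) (hc : δ ^ 2 = Fintype.card C) {m : ℕ} {ops : List Op}
    {K : ℕ} {q : ℝ}
    (h : δ ^ K • (TLX (cE C δ) (2 * m) * Wval (δ • 1) (δ⁻¹ • 1) (cE C δ) ops *
        TLX (cE C δ) (2 * m)) = q • TLX (cE C δ) (2 * m)) (c : ℕ → C) :
    δ ^ K * cS C m (cW C ops (fun _ => 1)) c = q * δ ^ m := by
  have h1 := congrArg (fun (f : Module.End ℝ ((ℕ → C) → ℝ)) => f (fun _ => 1) c) h
  have hX1 : TLX (cE C δ) (2 * m) (fun _ => 1) = fun _ => δ ^ m := by
    funext c'
    rw [TLX_cE]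
    have : ((δ⁻¹) ^ m • cS C m) (fun _ => (1 : ℝ)) c' =
      (δ⁻¹) ^ m * cS C m (fun _ => 1) c' := rfl
    rw [this, cS_apply, Finset.sum_const, Finset.card_univ, Fintype.card_fun, Fintype.card_fin,
      nsmul_eq_mul, mul_one]
    push_cast
    rw [← hc, ← pow_mul, mul_comm 2 m, mul_two, pow_add, inv_pow]
    field_simp
  have h2 : (δ ^ K • (TLX (cE C δ) (2 * m) * Wval (δ • 1) (δ⁻¹ • 1) (cE C δ) ops *
        TLX (cE C δ) (2 * m)) : Module.End ℝ ((ℕ → C) → ℝ)) (fun _ => 1) c =
      δ ^ K * TLX (cE C δ) (2 * m) (Wval (δ • 1) (δ⁻¹ • 1) (cE C δ) ops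
        (TLX (cE C δ) (2 * m) (fun _ => 1))) c := rfl
  have h3 : (q • TLX (cE C δ) (2 * m) : Module.End ℝ ((ℕ → C) → ℝ)) (fun _ => 1) c =
      q * TLX (cE C δ) (2 * m) (fun _ => 1) c := rfl
  have h4 := h2.symm.trans (h1.trans h3)
  rw [hX1] at h4
  have h5 : (fun _ : ℕ → C => δ ^ m) = δ ^ m • (fun _ : ℕ → C => (1 : ℝ)) := by
    funext; simp
  rw [h5, map_smul, map_smul, Wval_color hδ.ne', TLX_cE] at h4
  simp only [LinearMap.smul_apply, Pi.smul_apply, smul_eq_mul] at h4
  have h6 : δ ^ m * ((δ⁻¹) ^ m * cS C m (cW C ops fun _ => 1) c) =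
      cS C m (cW C ops fun _ => 1) c := by
    rw [← mul_assoc, ← mul_pow, mul_inv_cancel₀ hδ.ne', one_pow, one_mul]
  rw [h6, mul_one] at h4
  exact h4

end Semantics

section Grid

variable {V : Type} (G : SimpleGraph V)

/-- Adjacency of labels. -/
def ladj (a b : Option V) : Prop := ∃ u v, a = some u ∧ b = some v ∧ G.Adj u v

/-- The constraint on the colours `x, y` of two neighbouring grid points with labels `a, b`. -/
def vrel {C : Type} (a b : Option V) (x y : C) : Prop :=
  (∀ v, a = some v → b = some v → x = y) ∧ (ladj G a b → x ≠ y)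

open Classical in
/-- Vertical step at site `i` from label `a` to label `b`. -/
noncomputable def vop (i : ℕ) (a b : Option V) : List Op :=
  if a = b ∧ a ≠ none then [] else if ladj G a b then [Op.V i] else [Op.D i]

open Classical in
/-- Horizontal operation between sites `i` and `i + 1` with labels `a` and `b`. -/
noncomputable def hop (i : ℕ) (a b : Option V) : List Op :=
  if a = b ∧ a ≠ none then [Op.J i] else if ladj G a b then [Op.H i] else []

variable {G}

theorem vrel_same {C : Type} {a b : Option V} (h : a = b ∧ a ≠ none) (x y : C) :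
    vrel G a b x y ↔ x = y := by
  obtain ⟨rfl, hn⟩ := h
  obtain ⟨v, rfl⟩ := Option.ne_none_iff_exists'.1 hn
  constructor
  · intro hh; exact hh.1 v rfl rfl
  · rintro rfl
    refine ⟨fun _ _ _ => rfl, ?_⟩
    rintro ⟨u, w, h1, h2, h3⟩
    rw [Option.some_inj] at h1 h2
    subst h1; subst h2
    exact absurd h3 (G.loopless.irrefl _)

theorem vrel_adj {C : Type} {a b : Option V} (h : ladj G a b) (x y : C) :
    vrel G a b x y ↔ x ≠ y := by
  constructor
  · intro hh; exact hh.2 h
  · intro hne
    refine ⟨fun v h1 h2 => ?_, fun _ => hne⟩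
    obtain ⟨u, w, h3, h4, h5⟩ := h
    rw [h3, Option.some_inj] at h1
    rw [h4, Option.some_inj] at h2
    subst h1; subst h2
    exact absurd h5 (G.loopless.irrefl _)

theorem vrel_other {C : Type} {a b : Option V} (h1 : ¬ (a = b ∧ a ≠ none)) (h2 : ¬ ladj G a b)
    (x y : C) : vrel G a b x y ↔ True := by
  refine ⟨fun _ => trivial, fun _ => ⟨fun v ha hb => ?_, fun h => absurd h h2⟩⟩
  exact absurd ⟨by rw [ha, hb], by rw [ha]; simp⟩ h1

variable {C : Type} [Fintype C] [DecidableEq C]

open Classical in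
theorem cW_vop (i : ℕ) (a b : Option V) (ψ : (ℕ → C) → ℝ) (c : ℕ → C) :
    cW C (vop G i a b) ψ c =
      ∑ y, if vrel G a b (c i) y then ψ (Function.update c i y) else 0 := by
  unfold vop
  split_ifs with h1 h2
  · simp_rw [vrel_same h1]
    rw [cW_nil, Finset.sum_ite_eq Finset.univ (c i), if_pos (Finset.mem_univ _),
      Function.update_eq_self]
  · simp_rw [vrel_adj h2]
    rw [cW_V]
  · simp_rw [vrel_other h1 h2]
    rw [cW_D]
    simp

open Classical in
theorem cW_hop (i : ℕ) (a b : Option V) (ψ : (ℕ → C) → ℝ) (c : ℕ → C) :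
    cW C (hop G i a b) ψ c = if vrel G a b (c i) (c (i + 1)) then ψ c else 0 := by
  unfold hop
  split_ifs with h1 h2 h3 h4 h5
  · rw [vrel_same h1] at h2
    rw [cW_J, if_pos h2]
  · rw [vrel_same h1] at h2
    rw [cW_J, if_neg h2]
  · rw [vrel_adj h3] at h4
    rw [cW_H, if_pos h4]
  · rw [vrel_adj h3] at h4
    rw [cW_H, if_neg h4]
  · rw [cW_nil]
  · exact absurd ((vrel_other h1 h3 _ _).2 trivial) h5

variable (G)

/-- Vertical operations from row `j` to row `j + 1` at the sites `1, ..., k`. -/
noncomputable def stepOps (L : ℕ → ℕ → Option V) (j : ℕ) : ℕ → List Op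
  | 0 => []
  | (k + 1) => stepOps L j k ++ vop G (k + 1) (L (k + 1) j) (L (k + 1) (j + 1))

/-- Horizontal operations of row `j` between the sites `0, ..., k`. -/
noncomputable def horOps (L : ℕ → ℕ → Option V) (j : ℕ) : ℕ → List Op
  | 0 => []
  | (k + 1) => horOps L j k ++ hop G k (L k j) (L (k + 1) j)

/-- Attach the sites `1, ..., k` to the root. -/
def botOps : ℕ → List Op
  | 0 => []
  | (k + 1) => botOps k ++ [Op.J k]

open Classical in
/-- Closing row: edges from the labels of row `T` to the root, and attachment. -/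
noncomputable def topOps (L : ℕ → ℕ → Option V) (r : V) (T : ℕ) : ℕ → List Op
  | 0 => []
  | (k + 1) => topOps L r T k ++
      ((if ladj G (L (k + 1) T) (some r) then [Op.H k] else []) ++ [Op.D (k + 1), Op.J k])

/-- Rows `1, ..., t` with interior sites `1, ..., k`. -/
noncomputable def bodyOps (L : ℕ → ℕ → Option V) (k : ℕ) : ℕ → List Op
  | 0 => []
  | (t + 1) => bodyOps L k t ++ (stepOps G L t k ++ horOps G L (t + 1) (k + 1))

/-- All operations of the labelled grid. -/
noncomputable def allOps (L : ℕ → ℕ → Option V) (r : V) (k T : ℕ) : List Op :=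
  botOps (k + 1) ++ (bodyOps G L k T ++ topOps G L r T k)

variable {G}

open Classical in
theorem cW_stepOps (L : ℕ → ℕ → Option V) (j : ℕ) : ∀ (k : ℕ) (ψ : (ℕ → C) → ℝ) (c : ℕ → C),
    cW C (stepOps G L j k) ψ c = ∑ x : Fin k → C,
      if ∀ i, 1 ≤ i → i ≤ k → vrel G (L i j) (L i (j + 1)) (c i) (ov k c x i)
      then ψ (ov k c x) else 0
  | 0, ψ, c => by
    rw [Fintype.sum_unique, if_pos (by intro i h1 h2; omega)]
    have : stepOps G L j 0 = [] := rfl
    rw [this, cW_nil]
    congr 1
    funext i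
    rw [ov_out]; omega
  | (k + 1), ψ, c => by
    have : stepOps G L j (k + 1) =
      stepOps G L j k ++ vop G (k + 1) (L (k + 1) j) (L (k + 1) (j + 1)) := rfl
    rw [this, cW_append, cW_stepOps L j k, sum_snoc]
    apply Finset.sum_congr rfl
    intro x _
    rw [cW_vop, ov_out k c x (i := k + 1) (by omega)]
    by_cases h1 : ∀ i, 1 ≤ i → i ≤ k → vrel G (L i j) (L i (j + 1)) (c i) (ov k c x i)
    · rw [if_pos h1]
      apply Finset.sum_congr rfl
      intro y _
      rw [ov_snoc]
      by_cases h2 : vrel G (L (k + 1) j) (L (k + 1) (j + 1)) (c (k + 1)) y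
      · rw [if_pos h2, if_pos]
        intro i hi1 hi2
        by_cases hik : i = k + 1
        · subst hik; rw [Function.update_self]; exact h2
        · rw [Function.update_of_ne hik]; exact h1 i hi1 (by omega)
      · rw [if_neg h2, if_neg]
        intro hall
        have := hall (k + 1) (by omega) le_rfl
        rw [Function.update_self] at this
        exact h2 this
    · rw [if_neg h1]
      symm
      apply Finset.sum_eq_zero
      intro y _
      rw [if_neg]
      intro hall
      apply h1
      intro i hi1 hi2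
      have := hall i hi1 (by omega)
      rw [ov_snoc, Function.update_of_ne (by omega)] at this
      exact this

open Classical in
theorem cW_horOps (L : ℕ → ℕ → Option V) (j : ℕ) : ∀ (k : ℕ) (ψ : (ℕ → C) → ℝ) (c : ℕ → C),
    cW C (horOps G L j k) ψ c =
      if ∀ i, i < k → vrel G (L i j) (L (i + 1) j) (c i) (c (i + 1)) then ψ c else 0
  | 0, ψ, c => by
    rw [if_pos (by intro i h; omega)]
    have : horOps G L j 0 = [] := rfl
    rw [this, cW_nil]
  | (k + 1), ψ, c => by
    have : horOps G L j (k + 1) = horOps G L j k ++ hop G k (L k j) (L (k + 1) j) := rfl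
    rw [this, cW_append, cW_horOps L j k, cW_hop]
    by_cases h1 : ∀ i, i < k → vrel G (L i j) (L (i + 1) j) (c i) (c (i + 1))
    · rw [if_pos h1]
      by_cases h2 : vrel G (L k j) (L (k + 1) j) (c k) (c (k + 1))
      · rw [if_pos h2, if_pos]
        intro i hi
        by_cases hik : i = k
        · subst hik; exact h2
        · exact h1 i (by omega)
      · rw [if_neg h2, if_neg]
        intro hall
        exact h2 (hall k (by omega))
    · rw [if_neg h1, if_neg]
      intro hall
      exact h1 (fun i hi => hall i (by omega))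

open Classical in
theorem cW_botOps : ∀ (k : ℕ) (ψ : (ℕ → C) → ℝ) (c : ℕ → C),
    cW C (botOps k) ψ c = if ∀ i, i ≤ k → c i = c 0 then ψ c else 0
  | 0, ψ, c => by
    rw [if_pos (by intro i h; rw [Nat.le_zero.1 h])]
    have : botOps 0 = [] := rfl
    rw [this, cW_nil]
  | (k + 1), ψ, c => by
    have : botOps (k + 1) = botOps k ++ [Op.J k] := rfl
    rw [this, cW_append, cW_botOps k, cW_J]
    by_cases h1 : ∀ i, i ≤ k → c i = c 0
    · rw [if_pos h1]
      by_cases h2 : c k = c (k + 1)
      · rw [if_pos h2, if_pos]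
        intro i hi
        by_cases hik : i = k + 1
        · subst hik; rw [← h2]; exact h1 k le_rfl
        · exact h1 i (by omega)
      · rw [if_neg h2, if_neg]
        intro hall
        exact h2 (by rw [hall k (by omega), hall (k + 1) le_rfl])
    · rw [if_neg h1, if_neg]
      intro hall
      exact h1 (fun i hi => hall i (by omega))

open Classical in
theorem cW_topOps (L : ℕ → ℕ → Option V) (r : V) (T : ℕ) :
    ∀ (k : ℕ) (ψ : (ℕ → C) → ℝ) (c : ℕ → C),
    cW C (topOps G L r T k) ψ c =
      if ∀ i, 1 ≤ i → i ≤ k → ladj G (L i T) (some r) → c i ≠ c 0 then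
        ψ (ov k c (fun _ => c 0)) else 0
  | 0, ψ, c => by
    rw [if_pos (by intro i h1 h2; omega)]
    have : topOps G L r T 0 = [] := rfl
    rw [this, cW_nil]
    congr 1
    funext i
    rw [ov_out]; omega
  | (k + 1), ψ, c => by
    have : topOps G L r T (k + 1) = topOps G L r T k ++
      ((if ladj G (L (k + 1) T) (some r) then [Op.H k] else []) ++ [Op.D (k + 1), Op.J k]) := rfl
    rw [this, cW_append, cW_topOps L r T k]
    have hk0 : ov k c (fun _ => c 0) k = c 0 := by
      by_cases hk : k = 0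
      · subst hk; rw [ov_out]; omega
      · unfold ov; rw [dif_pos ⟨by omega, le_rfl⟩]
    have hk1 : ov k c (fun _ => c 0) (k + 1) = c (k + 1) := ov_out _ _ _ (by omega)
    have hDJ : ∀ c' : ℕ → C, cW C [Op.D (k + 1), Op.J k] ψ c' =
        ψ (Function.update c' (k + 1) (c' k)) := by
      intro c'
      rw [show [Op.D (k + 1), Op.J k] = [Op.D (k + 1)] ++ [Op.J k] from rfl, cW_append, cW_D]
      rw [Finset.sum_eq_single (c' k)]
      · rw [cW_J, Function.update_self, Function.update_of_ne (by omega), if_pos rfl]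
      · intro b _ hb
        rw [cW_J, Function.update_self, Function.update_of_ne (by omega), if_neg hb.symm]
      · intro h; exact absurd (Finset.mem_univ _) h
    have hov : Function.update (ov k c (fun _ => c 0)) (k + 1) (c 0) =
        ov (k + 1) c (fun _ => c 0) := by
      rw [← ov_snoc]
      congr 1
      funext i
      refine Fin.lastCases ?_ (fun i => ?_) i
      · rw [Fin.snoc_last]
      · rw [Fin.snoc_castSucc]
    have hmid : cW C ((if ladj G (L (k + 1) T) (some r) then [Op.H k] else []) ++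
        [Op.D (k + 1), Op.J k]) ψ (ov k c (fun _ => c 0)) =
        if (ladj G (L (k + 1) T) (some r) → c (k + 1) ≠ c 0) then
          ψ (ov (k + 1) c (fun _ => c 0)) else 0 := by
      rw [cW_append]
      by_cases ha : ladj G (L (k + 1) T) (some r)
      · rw [if_pos ha, cW_H, hk0, hk1, hDJ, hk0, hov]
        by_cases hc : c (k + 1) = c 0
        · rw [if_neg (by rw [hc]; tauto), if_neg (by tauto)]
        · rw [if_pos (fun h => hc h.symm), if_pos (fun _ => hc)]
      · rw [if_neg ha, cW_nil, hDJ, hk0, hov, if_pos (fun h => absurd h ha)]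
    rw [hmid]
    by_cases h1 : ∀ i, 1 ≤ i → i ≤ k → ladj G (L i T) (some r) → c i ≠ c 0
    · rw [if_pos h1]
      by_cases h2 : ladj G (L (k + 1) T) (some r) → c (k + 1) ≠ c 0
      · rw [if_pos h2, if_pos]
        intro i hi1 hi2
        by_cases hik : i = k + 1
        · subst hik; exact h2
        · exact h1 i hi1 (by omega)
      · rw [if_neg h2, if_neg]
        intro hall
        exact h2 (hall (k + 1) (by omega) le_rfl)
    · rw [if_neg h1, if_neg]
      intro hall
      exact h1 (fun i hi1 hi2 => hall i hi1 (by omega))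

/-- Colours of row `j`. -/
def rowc (k : ℕ) {t : ℕ} (X : Fin t → Fin k → C) (c : ℕ → C) (j : ℕ) : ℕ → C :=
  if h : 1 ≤ j ∧ j ≤ t then ov k c (X ⟨j - 1, by omega⟩) else c

omit [Fintype C] [DecidableEq C] in
theorem rowc_snoc_lt (k : ℕ) {t : ℕ} (X : Fin t → Fin k → C) (x : Fin k → C) (c : ℕ → C)
    {j : ℕ} (hj : j ≤ t) : rowc k (Fin.snoc X x : Fin (t + 1) → Fin k → C) c j =
      rowc k X c j := by
  unfold rowc
  by_cases h1 : 1 ≤ j
  · rw [dif_pos ⟨h1, by omega⟩, dif_pos ⟨h1, by omega⟩]
    have : (⟨j - 1, by omega⟩ : Fin (t + 1)) = Fin.castSucc ⟨j - 1, by omega⟩ := rfl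
    rw [this, Fin.snoc_castSucc]
  · rw [dif_neg (by omega), dif_neg (by omega)]

omit [Fintype C] [DecidableEq C] in
theorem rowc_snoc_last (k : ℕ) {t : ℕ} (X : Fin t → Fin k → C) (x : Fin k → C) (c : ℕ → C) :
    rowc k (Fin.snoc X x : Fin (t + 1) → Fin k → C) c (t + 1) = ov k c x := by
  unfold rowc
  rw [dif_pos ⟨by omega, le_rfl⟩]
  have : (⟨t + 1 - 1, by omega⟩ : Fin (t + 1)) = Fin.last t := by
    apply Fin.ext; simp
  rw [this, Fin.snoc_last]

/-- The constraints of the rows `1, ..., t`. -/
def bodyOK (G : SimpleGraph V) (L : ℕ → ℕ → Option V) (k : ℕ) {t : ℕ} (X : Fin t → Fin k → C)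
    (c : ℕ → C) : Prop :=
  (∀ j, j < t → ∀ i, 1 ≤ i → i ≤ k →
    vrel G (L i j) (L i (j + 1)) (rowc k X c j i) (rowc k X c (j + 1) i)) ∧
  (∀ j, 1 ≤ j → j ≤ t → ∀ i, i < k + 1 →
    vrel G (L i j) (L (i + 1) j) (rowc k X c j i) (rowc k X c j (i + 1)))

omit [Fintype C] [DecidableEq C] in
theorem ov_ov (k : ℕ) (c : ℕ → C) (x y : Fin k → C) : ov k (ov k c x) y = ov k c y := by
  funext i
  unfold ov
  by_cases h : 1 ≤ i ∧ i ≤ k
  · rw [dif_pos h, dif_pos h]
  · rw [dif_neg h, dif_neg h, dif_neg h]

open Classical in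
theorem cW_bodyOps (L : ℕ → ℕ → Option V) (k : ℕ) :
    ∀ (t : ℕ) (ψ : (ℕ → C) → ℝ) (c : ℕ → C),
    cW C (bodyOps G L k t) ψ c = ∑ X : Fin t → Fin k → C,
      if bodyOK G L k X c then ψ (rowc k X c t) else 0
  | 0, ψ, c => by
    rw [Fintype.sum_unique, if_pos]
    · have : bodyOps G L k 0 = [] := rfl
      rw [this, cW_nil]
      rfl
    · exact ⟨fun j hj => by omega, fun j h1 h2 => by omega⟩
  | (t + 1), ψ, c => by
    have : bodyOps G L k (t + 1) =
      bodyOps G L k t ++ (stepOps G L t k ++ horOps G L (t + 1) (k + 1)) := rfl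
    rw [this, cW_append, cW_bodyOps L k t, sum_snoc]
    apply Finset.sum_congr rfl
    intro X _
    rw [cW_append, cW_stepOps]
    simp_rw [cW_horOps]
    have hrow : ∀ x : Fin k → C, ov k (rowc k X c t) x = ov k c x := by
      intro x
      unfold rowc
      split_ifs
      · rw [ov_ov]
      · rfl
    simp_rw [hrow]
    by_cases hX : bodyOK G L k X c
    · rw [if_pos hX]
      apply Finset.sum_congr rfl
      intro x _
      rw [rowc_snoc_last]
      by_cases h1 : ∀ i, 1 ≤ i → i ≤ k →
          vrel G (L i t) (L i (t + 1)) (rowc k X c t i) (ov k c x i)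
      · rw [if_pos h1]
        by_cases h2 : ∀ i, i < k + 1 →
            vrel G (L i (t + 1)) (L (i + 1) (t + 1)) (ov k c x i) (ov k c x (i + 1))
        · rw [if_pos h2, if_pos]
          refine ⟨fun j hj i hi1 hi2 => ?_, fun j hj1 hj2 i hi => ?_⟩
          · by_cases hjt : j = t
            · subst hjt
              rw [rowc_snoc_lt k X x c le_rfl, rowc_snoc_last]
              exact h1 i hi1 hi2
            · rw [rowc_snoc_lt k X x c (by omega), rowc_snoc_lt k X x c (by omega)]
              exact hX.1 j (by omega) i hi1 hi2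
          · by_cases hjt : j = t + 1
            · subst hjt
              rw [rowc_snoc_last]
              exact h2 i hi
            · rw [rowc_snoc_lt k X x c (by omega)]
              exact hX.2 j hj1 (by omega) i hi
        · rw [if_neg h2, if_neg]
          intro hall
          apply h2
          intro i hi
          have := hall.2 (t + 1) (by omega) le_rfl i hi
          rw [rowc_snoc_last] at this
          exact this
      · rw [if_neg h1, if_neg]
        intro hall
        apply h1
        intro i hi1 hi2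
        have := hall.1 t (by omega) i hi1 hi2
        rw [rowc_snoc_lt k X x c le_rfl, rowc_snoc_last] at this
        exact this
    · rw [if_neg hX]
      symm
      apply Finset.sum_eq_zero
      intro x _
      rw [if_neg]
      intro hall
      apply hX
      refine ⟨fun j hj i hi1 hi2 => ?_, fun j hj1 hj2 i hi => ?_⟩
      · have := hall.1 j (by omega) i hi1 hi2
        rwa [rowc_snoc_lt k X x c (by omega), rowc_snoc_lt k X x c (by omega)] at this
      · have := hall.2 j hj1 (by omega) i hi
        rwa [rowc_snoc_lt k X x c (by omega)] at this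

/-- The colour of a grid point: interior points are coloured by `X`, all others by `ρ`. -/
def colr {k T : ℕ} (X : Fin T → Fin k → C) (ρ : C) (i j : ℕ) : C :=
  if h : (1 ≤ i ∧ i ≤ k) ∧ (1 ≤ j ∧ j ≤ T) then X ⟨j - 1, by omega⟩ ⟨i - 1, by omega⟩ else ρ

/-- The colouring satisfies all constraints. -/
def gridOK (G : SimpleGraph V) (L : ℕ → ℕ → Option V) {k T : ℕ} (X : Fin T → Fin k → C)
    (ρ : C) : Prop :=
  ∀ i j, vrel G (L i j) (L i (j + 1)) (colr X ρ i j) (colr X ρ i (j + 1)) ∧
    vrel G (L i j) (L (i + 1) j) (colr X ρ i j) (colr X ρ (i + 1) j)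

omit [Fintype C] [DecidableEq C] in
theorem gridOK_iff {L : ℕ → ℕ → Option V} {r : V} {k T : ℕ}
    (hL : ∀ i j, L i j = some r ↔ (i = 0 ∨ k < i ∨ j = 0 ∨ T < j))
    (X : Fin T → Fin k → C) (c : ℕ → C) (ρ : C) (hc : ∀ i, i ≤ k + 1 → c i = ρ) :
    gridOK G L X ρ ↔ (bodyOK G L k X c ∧
      ∀ i, 1 ≤ i → i ≤ k → ladj G (L i T) (some r) → rowc k X c T i ≠ ρ) := by
  have hrow : ∀ i j, i ≤ k + 1 → rowc k X c j i = colr X ρ i j := by
    intro i j hi
    unfold rowc colr
    by_cases hj : 1 ≤ j ∧ j ≤ T
    · rw [dif_pos hj]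
      unfold ov
      by_cases hi2 : 1 ≤ i ∧ i ≤ k
      · rw [dif_pos hi2, dif_pos ⟨hi2, hj⟩]
      · rw [dif_neg hi2, dif_neg (by tauto)]
        exact hc i hi
    · rw [dif_neg hj, dif_neg (by tauto)]
      exact hc i hi
  have hframe : ∀ i j i' j', L i j = some r → L i' j' = some r → 
      vrel G (L i j) (L i' j') (colr X ρ i j) (colr X ρ i' j') := by
    intro i j i' j' h1 h2
    have e1 : colr X ρ i j = ρ := by
      have := (hL i j).1 h1
      unfold colr
      rw [dif_neg (by omega)]
    have e2 : colr X ρ i' j' = ρ := by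
      have := (hL i' j').1 h2
      unfold colr
      rw [dif_neg (by omega)]
    rw [e1, e2, h1, h2]
    exact (vrel_same ⟨rfl, by simp⟩ _ _).2 rfl
  constructor
  · intro h
    refine ⟨⟨fun j hj i hi1 hi2 => ?_, fun j hj1 hj2 i hi => ?_⟩, fun i hi1 hi2 ha => ?_⟩
    · rw [hrow i j (by omega), hrow i (j + 1) (by omega)]
      exact (h i j).1
    · rw [hrow i j (by omega), hrow (i + 1) j (by omega)]
      exact (h i j).2
    · rw [hrow i T (by omega)]
      have h1 := (h i T).1.2
      have h2 : L i (T + 1) = some r := (hL i (T + 1)).2 (by omega)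
      have h3 : colr X ρ i (T + 1) = ρ := by
        unfold colr
        rw [dif_neg (by omega)]
      rw [h2, h3] at h1
      exact h1 ha
  · rintro ⟨⟨h1, h2⟩, h3⟩ i j
    constructor
    · by_cases hi : 1 ≤ i ∧ i ≤ k
      · by_cases hj : j < T
        · have := h1 j hj i hi.1 hi.2
          rwa [hrow i j (by omega), hrow i (j + 1) (by omega)] at this
        · have hr2 : L i (j + 1) = some r := (hL i (j + 1)).2 (by omega)
          by_cases hjT : j = T
          · subst hjT
            by_cases hr1 : L i j = some r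
            · exact hframe i j i (j + 1) hr1 hr2
            · have e2 : colr X ρ i (j + 1) = ρ := by
                unfold colr
                rw [dif_neg (by omega)]
              rw [hr2, e2]
              refine ⟨fun v hv1 hv2 => ?_, fun ha => ?_⟩
              · rw [Option.some_inj] at hv2
                subst hv2
                exact absurd hv1 hr1
              · have := h3 i hi.1 hi.2 ha
                rwa [hrow i j (by omega)] at this
          · exact hframe i j i (j + 1) ((hL i j).2 (by omega)) hr2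
      · exact hframe i j i (j + 1) ((hL i j).2 (by omega)) ((hL i (j + 1)).2 (by omega))
    · by_cases hi : i < k + 1
      · by_cases hj : 1 ≤ j ∧ j ≤ T
        · have := h2 j hj.1 hj.2 i hi
          rwa [hrow i j (by omega), hrow (i + 1) j (by omega)] at this
        · exact hframe i j (i + 1) j ((hL i j).2 (by omega)) ((hL (i + 1) j).2 (by omega))
      · exact hframe i j (i + 1) j ((hL i j).2 (by omega)) ((hL (i + 1) j).2 (by omega))

open Classical in
/-- The number of trajectories of the labelled grid is the number of admissible colourings. -/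
theorem count_all {L : ℕ → ℕ → Option V} {r : V} {k T : ℕ}
    (hL : ∀ i j, L i j = some r ↔ (i = 0 ∨ k < i ∨ j = 0 ∨ T < j)) (c : ℕ → C) :
    cS C (k + 1) (cW C (allOps G L r k T) (fun _ => 1)) c =
      ∑ X : Fin T → Fin k → C, if gridOK G L X (c 0) then 1 else 0 := by
  rw [cS_apply]
  unfold allOps
  have hval : ∀ x : Fin (k + 1) → C,
      cW C (botOps (k + 1) ++ (bodyOps G L k T ++ topOps G L r T k)) (fun _ => 1)
        (ov (k + 1) c x) = if x = (fun _ => c 0) then
          ∑ X : Fin T → Fin k → C, (if gridOK G L X (c 0) then (1 : ℝ) else 0) else 0 := by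
    intro x
    rw [cW_append, cW_botOps, cW_append, cW_bodyOps]
    have h0 : ov (k + 1) c x 0 = c 0 := ov_out _ _ _ (by omega)
    by_cases hx : x = fun _ => c 0
    · subst hx
      have hc : ∀ i, i ≤ k + 1 → ov (k + 1) c (fun _ => c 0) i = c 0 := by
        intro i hi
        unfold ov
        by_cases h1 : 1 ≤ i ∧ i ≤ k + 1
        · rw [dif_pos h1]
        · have : i = 0 := by omega
          rw [dif_neg h1, this]
      rw [if_pos rfl, if_pos (by intro i hi; rw [h0]; exact hc i hi)]
      apply Finset.sum_congr rfl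
      intro X _
      rw [cW_topOps]
      have hr0 : rowc k X (ov (k + 1) c (fun _ => c 0)) T 0 = c 0 := by
        unfold rowc
        split_ifs
        · rw [ov_out _ _ _ (by omega)]; exact h0
        · exact h0
      rw [hr0]
      have hiff := gridOK_iff (G := G) hL X (ov (k + 1) c (fun _ => c 0)) (c 0) hc
      by_cases hb : bodyOK G L k X (ov (k + 1) c (fun _ => c 0))
      · rw [if_pos hb]
        by_cases ht : ∀ i, 1 ≤ i → i ≤ k → ladj G (L i T) (some r) →
            rowc k X (ov (k + 1) c (fun _ => c 0)) T i ≠ c 0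
        · rw [if_pos ht, if_pos (hiff.2 ⟨hb, ht⟩)]
        · rw [if_neg ht, if_neg (fun h => ht (hiff.1 h).2)]
      · rw [if_neg hb, if_neg (fun h => hb (hiff.1 h).1)]
    · rw [if_neg hx, if_neg]
      intro hall
      apply hx
      funext i
      have h1 := hall (i.1 + 1) (by omega)
      rw [h0] at h1
      unfold ov at h1
      rw [dif_pos ⟨by omega, by omega⟩] at h1
      rw [← h1]
      congr 1
  simp_rw [hval]
  rw [Finset.sum_ite_eq' Finset.univ, if_pos (Finset.mem_univ _)]

end Grid

end Pool.Agent.Helper70.BLB
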