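import Mathlib
import Pool.Agent.Helper70.BLB.Transfer

/-!
Positivity of the height representation for networks whose non-root part is bipartite.
-/

set_option autoImplicit false

namespace Pool.Agent.Helper70.BLB

/-- Sign attached to a status: `-1` for status `-1`, otherwise `1`. -/
noncomputable def sg (z : ℤ) : ℝ := if z = -1 then -1 else 1

theorem sg_mul_self (z : ℤ) : sg z * sg z = 1 := by
  unfold sg; split_ifs <;> norm_num

theorem sg_neg {z : ℤ} (hz : z = 1 ∨ z = -1) : sg (-z) = - sg z := by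
  unfold sg
  rcases hz with rfl | rfl <;> norm_num

/-- The gauge sign of a height configuration. -/
noncomputable def gs (m : ℕ) (s : ℕ → ℤ) (h : ℕ → ℕ) : ℝ :=
  ∏ i ∈ Finset.Icc 1 m, if h (2 * i - 1) = h (2 * i + 1) then 1 else sg (s i)

theorem gs_mul_self (m : ℕ) (s : ℕ → ℤ) (h : ℕ → ℕ) : gs m s h * gs m s h = 1 := by
  unfold gs
  rw [← Finset.prod_mul_distrib]
  apply Finset.prod_eq_one
  intro i _
  split_ifs
  · norm_num
  · exact sg_mul_self _

/-- Changing a site height does not change the gauge sign. -/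
theorem gs_update_even (m : ℕ) (s : ℕ → ℤ) (h : ℕ → ℕ) (i x : ℕ) :
    gs m s (Function.update h (2 * i) x) = gs m s h := by
  unfold gs
  apply Finset.prod_congr rfl
  intro j hj
  rw [Finset.mem_Icc] at hj
  rw [Function.update_of_ne (by omega), Function.update_of_ne (by omega)]

/-- Changing a face height flips the gauge sign by the signs of the two adjacent sites. -/
theorem gs_update_odd {m : ℕ} (s : ℕ → ℤ) {h : ℕ → ℕ} {i x : ℕ} (hi : 1 ≤ i) (him : i + 1 ≤ m)
    (hp : IsPath h) (he : h (2 * i) = h (2 * i + 2))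
    (hx : x = h (2 * i) + 1 ∨ h (2 * i) = x + 1) (hne : x ≠ h (2 * i + 1)) :
    gs m s h * gs m s (Function.update h (2 * i + 1) x) = sg (s i) * sg (s (i + 1)) := by
  have hl := (hp (2 * i - 1)).2
  rw [show 2 * i - 1 + 1 = 2 * i by omega] at hl
  have hm := (hp (2 * i)).2
  have hr := (hp (2 * i + 2)).2
  rw [show 2 * i + 2 + 1 = 2 * i + 3 by omega] at hr
  unfold gs
  rw [← Finset.prod_mul_distrib]
  rw [Finset.prod_eq_mul (a := i) (b := i + 1) (by omega)]
  · congr 1
    · rw [Function.update_of_ne (show 2 * i - 1 ≠ 2 * i + 1 by omega), Function.update_self]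
      split_ifs with h1 h2 h2
      · omega
      · rw [one_mul]
      · rw [mul_one]
      · omega
    · rw [show 2 * (i + 1) - 1 = 2 * i + 1 by omega, Function.update_self,
        Function.update_of_ne (show 2 * (i + 1) + 1 ≠ 2 * i + 1 by omega),
        show 2 * (i + 1) + 1 = 2 * i + 3 by omega]
      split_ifs with h1 h2 h2
      · omega
      · rw [one_mul]
      · rw [mul_one]
      · omega
  · intro j hj hji
    rw [Function.update_of_ne (by omega), Function.update_of_ne (by omega)]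
    split_ifs
    · norm_num
    · exact sg_mul_self _
  · intro hh; exact absurd (Finset.mem_Icc.2 ⟨hi, by omega⟩) hh
  · intro hh; exact absurd (Finset.mem_Icc.2 ⟨by omega, him⟩) hh

/-- Changing the status of one site. -/
theorem gs_status {m : ℕ} (s : ℕ → ℤ) (h : ℕ → ℕ) {i : ℕ} (hi : 1 ≤ i) (him : i ≤ m) (x : ℤ) :
    gs m s h * gs m (Function.update s i x) h =
      if h (2 * i - 1) = h (2 * i + 1) then 1 else sg (s i) * sg x := by
  unfold gs
  rw [← Finset.prod_mul_distrib, Finset.prod_eq_single i]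
  · rw [Function.update_self]
    split_ifs <;> simp
  · intro j hj hji
    rw [Function.update_of_ne hji]
    split_ifs
    · norm_num
    · exact sg_mul_self _
  · intro hh; exact absurd (Finset.mem_Icc.2 ⟨hi, him⟩) hh

theorem gs_status_eq {m : ℕ} (s : ℕ → ℤ) (h : ℕ → ℕ) {i : ℕ} (hi : 1 ≤ i) (him : i ≤ m) (x : ℤ)
    (he : h (2 * i - 1) = h (2 * i + 1)) : gs m (Function.update s i x) h = gs m s h := by
  have h1 := gs_status s h hi him x
  rw [if_pos he] at h1
  have h2 := gs_mul_self m s h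
  calc gs m (Function.update s i x) h
      = (gs m s h * gs m s h) * gs m (Function.update s i x) h := by rw [h2, one_mul]
    _ = gs m s h * (gs m s h * gs m (Function.update s i x) h) := by ring
    _ = gs m s h := by rw [h1, mul_one]

/-- Domain: paths starting at height one, attached sites have height one. -/
def Dom (s : ℕ → ℤ) (h : ℕ → ℕ) : Prop :=
  IsPath h ∧ h 0 = 1 ∧ ∀ i, 1 ≤ i → s i = 0 → h (2 * i) = 1

/-- The reference configuration. -/
def hstar (s : ℕ → ℤ) (p : ℕ) : ℕ :=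
  if p = 0 then 1 else if p % 2 = 1 then 2 else if s (p / 2) = 0 ∨ s (p / 2) = 2 then 1 else 3

theorem hstar_odd (s : ℕ → ℤ) (i : ℕ) : hstar s (2 * i + 1) = 2 := by
  unfold hstar
  rw [if_neg (by omega), if_pos (by omega)]

theorem hstar_odd' (s : ℕ → ℤ) {i : ℕ} (hi : 1 ≤ i) : hstar s (2 * i - 1) = 2 := by
  unfold hstar
  rw [if_neg (by omega), if_pos (by omega)]

theorem hstar_even (s : ℕ → ℤ) {i : ℕ} (hi : 1 ≤ i) :
    hstar s (2 * i) = if s i = 0 ∨ s i = 2 then 1 else 3 := by
  unfold hstar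
  rw [if_neg (by omega), if_neg (by omega), show 2 * i / 2 = i by omega]

theorem hstar_zero (s : ℕ → ℤ) : hstar s 0 = 1 := by simp [hstar]

theorem hstar_path (s : ℕ → ℤ) : IsPath (hstar s) := by
  intro p
  rcases Nat.even_or_odd' p with ⟨i, rfl | rfl⟩
  · by_cases hi : i = 0
    · subst hi
      rw [show 2 * 0 + 1 = 2 * 0 + 1 from rfl, hstar_odd, Nat.mul_zero, hstar_zero]
      omega
    · rw [hstar_odd, hstar_even s (by omega)]
      split_ifs <;> omega
  · rw [hstar_odd, show 2 * i + 1 + 1 = 2 * (i + 1) by ring, hstar_even s (by omega)]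
    split_ifs <;> omega

theorem hstar_dom (s : ℕ → ℤ) : Dom s (hstar s) := by
  refine ⟨hstar_path s, hstar_zero s, fun i hi h0 => ?_⟩
  rw [hstar_even s hi, if_pos (Or.inl h0)]

theorem gs_hstar (m : ℕ) (s s' : ℕ → ℤ) : gs m s (hstar s') = 1 := by
  unfold gs
  apply Finset.prod_eq_one
  intro i hi
  rw [Finset.mem_Icc] at hi
  rw [hstar_odd, hstar_odd' s' hi.1, if_pos rfl]

/-- Validity of a list of operations for a status assignment: status `1`, `-1` for ordinary
sites of the two classes, `0` for sites attached to the root, `2` for new sites which will be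
attached to the root. -/
def Valid (m : ℕ) : List Op → (ℕ → ℤ) → Prop
  | [], _ => True
  | (.J i :: ops), s => i + 1 ≤ m ∧
      ((1 ≤ i ∧ s i = s (i + 1) ∧ (s i = 1 ∨ s i = -1) ∧ Valid m ops s) ∨
        ((i = 0 ∨ s i = 0) ∧ s (i + 1) = 2 ∧ Valid m ops (Function.update s (i + 1) 0)))
  | (.H i :: ops), s => i + 1 ≤ m ∧ Valid m ops s ∧
      (((i = 0 ∨ s i = 0) ∧ (s (i + 1) = 1 ∨ s (i + 1) = -1)) ∨
        (1 ≤ i ∧ (s i = 1 ∨ s i = -1) ∧ s (i + 1) = 0) ∨
        (1 ≤ i ∧ (s i = 1 ∨ s i = -1) ∧ s (i + 1) = - s i))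
  | (.D i :: ops), s => 1 ≤ i ∧ i ≤ m ∧
      ∃ x : ℤ, (x = 1 ∨ x = -1 ∨ x = 2) ∧ Valid m ops (Function.update s i x)
  | (.V i :: ops), s => 1 ≤ i ∧ i ≤ m ∧
      ∃ x : ℤ, (x = 1 ∨ x = -1) ∧ (s i = 0 ∨ ((s i = 1 ∨ s i = -1) ∧ x = - s i)) ∧
        Valid m ops (Function.update s i x)

/-- Nonnegativity in the gauge, and positivity at the reference configuration. -/
def PosFun (m : ℕ) (s : ℕ → ℤ) (Φ : (ℕ → ℕ) → ℝ) : Prop :=
  (∀ h, Dom s h → 0 ≤ gs m s h * Φ h) ∧ 0 < Φ (hstar s)

theorem val_J_apply (δ : ℝ) (i : ℕ) (Φ : (ℕ → ℕ) → ℝ) (h : ℕ → ℕ) :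
    (Op.val (δ • (1 : HAlg)) (δ⁻¹ • 1) (hE δ) (Op.J i)) Φ h = δ⁻¹ * hE δ (2 * i + 1) Φ h := by
  simp [Op.val]

theorem val_H_apply (δ : ℝ) (i : ℕ) (Φ : (ℕ → ℕ) → ℝ) (h : ℕ → ℕ) :
    (Op.val (δ • (1 : HAlg)) (δ⁻¹ • 1) (hE δ) (Op.H i)) Φ h =
      Φ h - δ⁻¹ * hE δ (2 * i + 1) Φ h := by
  simp [Op.val]

theorem val_D_apply (δ : ℝ) (i : ℕ) (Φ : (ℕ → ℕ) → ℝ) (h : ℕ → ℕ) :
    (Op.val (δ • (1 : HAlg)) (δ⁻¹ • 1) (hE δ) (Op.D i)) Φ h = δ * hE δ (2 * i) Φ h := by
  simp [Op.val]

theorem val_V_apply (δ : ℝ) (i : ℕ) (Φ : (ℕ → ℕ) → ℝ) (h : ℕ → ℕ) :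
    (Op.val (δ • (1 : HAlg)) (δ⁻¹ • 1) (hE δ) (Op.V i)) Φ h = δ * hE δ (2 * i) Φ h - Φ h := by
  simp [Op.val]

/-- A left neighbour of height one forces the face height two. -/
theorem face_two {h : ℕ → ℕ} (hp : IsPath h) {p : ℕ} (h1 : h p = 1) : h (p + 1) = 2 := by
  have := hp p
  have h2 := hp (p + 1)
  omega

theorem face_two' {h : ℕ → ℕ} (hp : IsPath h) {p : ℕ} (h1 : h (p + 1) = 1) : h p = 2 := by
  have := hp p
  omega

theorem hE_left_one {δ : ℝ} (k : ℕ) (hk : 1 ≤ k) (Φ : (ℕ → ℕ) → ℝ)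
    {h : ℕ → ℕ} (hp : IsPath h) (h1 : h (k - 1) = 1) (h2 : h (k + 1) = 1) :
    hE δ k Φ h = δ * Φ h := by
  rw [hE_pos δ k Φ hp (by rw [h1, h2]), h1]
  have e0 : hS δ (1 - 1) = 0 := rfl
  have e1 : hS δ 1 = 1 := rfl
  have e2 : hS δ (1 + 1) = δ := by simp [hS]
  have hf : h k = 2 := by
    have := face_two hp h1
    rwa [show k - 1 + 1 = k by omega] at this
  have e3 : Function.update h k (1 + 1) = h := by
    rw [Function.update_eq_self_iff, hf]
  rw [e0, e1, e2, e3]
  ring

theorem hE_left_one_ne {δ : ℝ} (k : ℕ) (Φ : (ℕ → ℕ) → ℝ)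
    {h : ℕ → ℕ} (hne : h (k - 1) ≠ h (k + 1)) :
    hE δ k Φ h = 0 := hE_neg δ k Φ (fun hh => hne hh.2)

theorem Dom.update_face {s : ℕ → ℤ} {h : ℕ → ℕ} (hd : Dom s h) {i x : ℕ}
    (he : h (2 * i) = h (2 * i + 2)) (hx : 1 ≤ x) (ha : x = h (2 * i) + 1 ∨ h (2 * i) = x + 1) :
    Dom s (Function.update h (2 * i + 1) x) := by
  obtain ⟨hp, h0, h1⟩ := hd
  refine ⟨hp.update (by omega) ?_ hx ?_, ?_, fun j hj hs => ?_⟩
  · rw [show 2 * i + 1 - 1 = 2 * i by omega]; exact he
  · rw [show 2 * i + 1 - 1 = 2 * i by omega]; exact ha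
  · rw [Function.update_of_ne (by omega)]; exact h0
  · rw [Function.update_of_ne (by omega)]; exact h1 j hj hs

theorem Dom.update_site {s : ℕ → ℤ} {h : ℕ → ℕ} (hd : Dom s h) {i x : ℕ} (hi : 1 ≤ i)
    (he : h (2 * i - 1) = h (2 * i + 1)) (hx : 1 ≤ x)
    (ha : x = h (2 * i - 1) + 1 ∨ h (2 * i - 1) = x + 1) (z : ℤ) (hz : z ≠ 0) :
    Dom (Function.update s i z) (Function.update h (2 * i) x) := by
  obtain ⟨hp, h0, h1⟩ := hd
  refine ⟨hp.update (by omega) he hx ha, ?_, fun j hj hs => ?_⟩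
  · rw [Function.update_of_ne (by omega)]; exact h0
  · by_cases hji : j = i
    · subst hji
      rw [Function.update_self] at hs
      exact absurd hs hz
    · rw [Function.update_of_ne hji] at hs
      rw [Function.update_of_ne (by omega)]
      exact h1 j hj hs

theorem Dom.status {s : ℕ → ℤ} {h : ℕ → ℕ} (hd : Dom s h) {i : ℕ} (z : ℤ)
    (hz : z = 0 → h (2 * i) = 1) : Dom (Function.update s i z) h := by
  obtain ⟨hp, h0, h1⟩ := hd
  refine ⟨hp, h0, fun j hj hs => ?_⟩
  by_cases hji : j = i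
  · subst hji
    rw [Function.update_self] at hs
    exact hz hs
  · rw [Function.update_of_ne hji] at hs
    exact h1 j hj hs

/-- The key sum over the two values of a face, in gauge. -/
theorem pos_J_normal {δ : ℝ} (hδ : 2 ≤ δ) {m i : ℕ} {s : ℕ → ℤ} {Φ : (ℕ → ℕ) → ℝ}
    (hΦ : PosFun m s Φ) (hi : 1 ≤ i) (him : i + 1 ≤ m) (hs : s i = s (i + 1))
    (hs1 : s i = 1 ∨ s i = -1) :
    PosFun m s ((Op.val (δ • (1 : HAlg)) (δ⁻¹ • 1) (hE δ) (Op.J i)) Φ) := by
  have hδ0 : 0 < δ := by linarith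
  -- nonnegativity of each term
  have key : ∀ h, Dom s h → h (2 * i) = h (2 * i + 2) → ∀ x,
      (x = h (2 * i) + 1 ∨ x = h (2 * i) - 1) →
      0 ≤ hS δ x * (gs m s h * Φ (Function.update h (2 * i + 1) x)) := by
    intro h hd he x hx
    by_cases hx0 : x = 0
    · subst hx0
      have : hS δ 0 = 0 := rfl
      rw [this, zero_mul]
    · have ha : x = h (2 * i) + 1 ∨ h (2 * i) = x + 1 := by omega
      have hd' := hd.update_face he (by omega) ha
      have h1 := hΦ.1 _ hd'
      have h2 : gs m s (Function.update h (2 * i + 1) x) = gs m s h := by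
        by_cases hxe : x = h (2 * i + 1)
        · rw [hxe, Function.update_eq_self]
        · have h3 := gs_update_odd s hi him hd.1 he ha hxe
          rw [← hs, sg_mul_self] at h3
          have h4 := gs_mul_self m s h
          calc gs m s (Function.update h (2 * i + 1) x)
              = (gs m s h * gs m s h) * gs m s (Function.update h (2 * i + 1) x) := by
                rw [h4, one_mul]
            _ = gs m s h * (gs m s h * gs m s (Function.update h (2 * i + 1) x)) := by ring
            _ = gs m s h := by rw [h3, mul_one]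
      rw [h2] at h1
      exact mul_nonneg (hS_nonneg hδ x) h1
  refine ⟨fun h hd => ?_, ?_⟩
  · rw [val_J_apply]
    by_cases he : h (2 * i) = h (2 * i + 2)
    · have he' : h (2 * i + 1 - 1) = h (2 * i + 1 + 1) := by
        rw [show 2 * i + 1 - 1 = 2 * i by omega]; exact he
      rw [hE_pos δ _ _ hd.1 he', show 2 * i + 1 - 1 = 2 * i by omega]
      have hSa := hS_pos hδ (hd.1 (2 * i)).1
      have k1 := key h hd he _ (Or.inl rfl)
      have k2 := key h hd he _ (Or.inr rfl)
      have e1 : gs m s h * (δ⁻¹ * ((hS δ (h (2 * i) + 1) *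
          Φ (Function.update h (2 * i + 1) (h (2 * i) + 1)) +
          hS δ (h (2 * i) - 1) * Φ (Function.update h (2 * i + 1) (h (2 * i) - 1))) /
          hS δ (h (2 * i)))) =
        δ⁻¹ * ((hS δ (h (2 * i) + 1) *
          (gs m s h * Φ (Function.update h (2 * i + 1) (h (2 * i) + 1))) +
          hS δ (h (2 * i) - 1) *
            (gs m s h * Φ (Function.update h (2 * i + 1) (h (2 * i) - 1)))) /
          hS δ (h (2 * i))) := by ring
      rw [e1]
      positivity
    · rw [hE_neg, mul_zero, mul_zero]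
      rintro ⟨_, hh⟩
      rw [show 2 * i + 1 - 1 = 2 * i by omega] at hh
      exact he hh
  · rw [val_J_apply]
    have hd := hstar_dom s
    have hv1 : hstar s (2 * i) = 3 := by
      rw [hstar_even s hi, if_neg]
      rcases hs1 with h | h <;> rw [h] <;> norm_num
    have hv2 : hstar s (2 * i + 2) = 3 := by
      rw [show 2 * i + 2 = 2 * (i + 1) by ring, hstar_even s (by omega), ← hs, if_neg]
      rcases hs1 with h | h <;> rw [h] <;> norm_num
    have he : hstar s (2 * i) = hstar s (2 * i + 2) := by rw [hv1, hv2]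
    have he' : hstar s (2 * i + 1 - 1) = hstar s (2 * i + 1 + 1) := by
      rw [show 2 * i + 1 - 1 = 2 * i by omega]; exact he
    rw [hE_pos δ _ _ hd.1 he', show 2 * i + 1 - 1 = 2 * i by omega]
    have k1 := key _ hd he _ (Or.inl rfl)
    rw [gs_hstar, one_mul] at k1
    rw [hv1] at k1 ⊢
    have e3 : Function.update (hstar s) (2 * i + 1) (3 - 1) = hstar s := by
      rw [Function.update_eq_self_iff, hstar_odd]
    rw [e3]
    have hS3 := hS_pos hδ (show 1 ≤ 3 by norm_num)
    have hS2 := hS_pos hδ (show 1 ≤ 3 - 1 by norm_num)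
    have := hΦ.2
    positivity

theorem pos_J_attach {δ : ℝ} (hδ : 2 ≤ δ) {m i : ℕ} {s : ℕ → ℤ} {Φ : (ℕ → ℕ) → ℝ}
    (hΦ : PosFun m (Function.update s (i + 1) 0) Φ) (him : i + 1 ≤ m) (hs : i = 0 ∨ s i = 0)
    (hs1 : s (i + 1) = 2) :
    PosFun m s ((Op.val (δ • (1 : HAlg)) (δ⁻¹ • 1) (hE δ) (Op.J i)) Φ) := by
  have hδ0 : δ ≠ 0 := by linarith
  have hleft : ∀ h, Dom s h → h (2 * i) = 1 := by
    intro h hd
    by_cases hi : i = 0
    · subst hi; simpa using hd.2.1
    · exact hd.2.2 i (by omega) (by tauto)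
  have hval : ∀ h, Dom s h → (Op.val (δ • (1 : HAlg)) (δ⁻¹ • 1) (hE δ) (Op.J i)) Φ h =
      if h (2 * i + 2) = 1 then Φ h else 0 := by
    intro h hd
    rw [val_J_apply]
    have hl := hleft h hd
    split_ifs with h2
    · rw [hE_left_one (2 * i + 1) (by omega) Φ hd.1
        (by rw [show 2 * i + 1 - 1 = 2 * i by omega]; exact hl) h2, ← mul_assoc,
        inv_mul_cancel₀ hδ0, one_mul]
    · rw [hE_left_one_ne (2 * i + 1) Φ (by
        rw [show 2 * i + 1 - 1 = 2 * i by omega, hl]
        exact fun hh => h2 hh.symm), mul_zero]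
  refine ⟨fun h hd => ?_, ?_⟩
  · rw [hval h hd]
    split_ifs with h2
    · have hd' : Dom (Function.update s (i + 1) 0) h := hd.status 0 (fun _ => h2)
      have h3 := hΦ.1 h hd'
      rw [gs_status_eq s h (by omega) him 0] at h3
      · exact h3
      · have hl := hleft h hd
        have f1 : h (2 * i + 1) = 2 := face_two hd.1 hl
        have f2 : h (2 * i + 2 + 1) = 2 := face_two hd.1 h2
        rw [show 2 * (i + 1) - 1 = 2 * i + 1 by omega,
          show 2 * (i + 1) + 1 = 2 * i + 2 + 1 by omega, f1, f2]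
    · rw [mul_zero]
  · rw [hval _ (hstar_dom s)]
    have hv : hstar s (2 * i + 2) = 1 := by
      rw [show 2 * i + 2 = 2 * (i + 1) by ring, hstar_even s (by omega), if_pos (Or.inr hs1)]
    rw [if_pos hv]
    have he : hstar s = hstar (Function.update s (i + 1) 0) := by
      funext p
      unfold hstar
      split_ifs with a b c c'
      · rfl
      · rfl
      · rfl
      · exfalso
        by_cases hpi : p / 2 = i + 1
        · rw [hpi, Function.update_self] at c'
          exact c' (Or.inl rfl)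
        · rw [Function.update_of_ne hpi] at c'
          exact c' c
      · exfalso
        by_cases hpi : p / 2 = i + 1
        · rw [hpi] at c
          exact c (Or.inr hs1)
        · rw [Function.update_of_ne hpi] at *
          tauto
      · rfl
    rw [he]
    exact hΦ.2

theorem pos_H_left {δ : ℝ} (hδ : 2 ≤ δ) {m i : ℕ} {s : ℕ → ℤ} {Φ : (ℕ → ℕ) → ℝ}
    (hΦ : PosFun m s Φ) (hs : (i = 0 ∨ s i = 0) ∧ (s (i + 1) = 1 ∨ s (i + 1) = -1) ∨
      (1 ≤ i ∧ (s i = 1 ∨ s i = -1) ∧ s (i + 1) = 0)) :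
    PosFun m s ((Op.val (δ • (1 : HAlg)) (δ⁻¹ • 1) (hE δ) (Op.H i)) Φ) := by
  have hδ0 : δ ≠ 0 := by linarith
  have hone : ∀ h, Dom s h → h (2 * i) = 1 ∨ h (2 * i + 2) = 1 := by
    intro h hd
    rcases hs with ⟨h1, _⟩ | ⟨_, _, h1⟩
    · left
      by_cases hi : i = 0
      · subst hi; simpa using hd.2.1
      · exact hd.2.2 i (by omega) (by tauto)
    · right
      have := hd.2.2 (i + 1) (by omega) h1
      rwa [show 2 * (i + 1) = 2 * i + 2 by ring] at this
  have hval : ∀ h, Dom s h → (Op.val (δ • (1 : HAlg)) (δ⁻¹ • 1) (hE δ) (Op.H i)) Φ h =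
      if h (2 * i) = h (2 * i + 2) then 0 else Φ h := by
    intro h hd
    rw [val_H_apply]
    have hl := hone h hd
    split_ifs with h2
    · have a1 : h (2 * i) = 1 := by omega
      have a2 : h (2 * i + 2) = 1 := by omega
      rw [hE_left_one (2 * i + 1) (by omega) Φ hd.1
        (by rw [show 2 * i + 1 - 1 = 2 * i by omega]; exact a1) a2, ← mul_assoc,
        inv_mul_cancel₀ hδ0, one_mul, sub_self]
    · rw [hE_left_one_ne (2 * i + 1) Φ (by
        rw [show 2 * i + 1 - 1 = 2 * i by omega]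
        exact h2), mul_zero, sub_zero]
  refine ⟨fun h hd => ?_, ?_⟩
  · rw [hval h hd]
    split_ifs
    · rw [mul_zero]
    · exact hΦ.1 h hd
  · rw [hval _ (hstar_dom s), if_neg]
    · exact hΦ.2
    · rcases hs with ⟨h1, h2⟩ | ⟨h0, h1, h2⟩
      · have v1 : hstar s (2 * i + 2) = 3 := by
          rw [show 2 * i + 2 = 2 * (i + 1) by ring, hstar_even s (by omega), if_neg]
          rcases h2 with h | h <;> rw [h] <;> norm_num
        have v2 : hstar s (2 * i) = 1 := by
          by_cases hi : i = 0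
          · subst hi; exact hstar_zero s
          · rw [hstar_even s (by omega), if_pos (Or.inl (by tauto))]
        omega
      · have v1 : hstar s (2 * i + 2) = 1 := by
          rw [show 2 * i + 2 = 2 * (i + 1) by ring, hstar_even s (by omega),
            if_pos (Or.inl h2)]
        have v2 : hstar s (2 * i) = 3 := by
          rw [hstar_even s h0, if_neg]
          rcases h1 with h | h <;> rw [h] <;> norm_num
        omega

theorem pos_H_normal {δ : ℝ} (hδ : 2 ≤ δ) {m i : ℕ} {s : ℕ → ℤ} {Φ : (ℕ → ℕ) → ℝ}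
    (hΦ : PosFun m s Φ) (hi : 1 ≤ i) (him : i + 1 ≤ m)
    (hs1 : s i = 1 ∨ s i = -1) (hs : s (i + 1) = - s i) :
    PosFun m s ((Op.val (δ • (1 : HAlg)) (δ⁻¹ • 1) (hE δ) (Op.H i)) Φ) := by
  have hδ0 : 0 < δ := by linarith
  have hsg : sg (s i) * sg (s (i + 1)) = -1 := by
    rw [hs, sg_neg hs1, mul_neg, sg_mul_self]
  -- formula
  have hval : ∀ h, Dom s h → h (2 * i) = h (2 * i + 2) → ∀ x,
      (x = h (2 * i) + 1 ∨ h (2 * i) = x + 1) → x ≠ h (2 * i + 1) →
      (Op.val (δ • (1 : HAlg)) (δ⁻¹ • 1) (hE δ) (Op.H i)) Φ h =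
      hS δ x / (δ * hS δ (h (2 * i))) * (Φ h - Φ (Function.update h (2 * i + 1) x)) := by
    intro h hd he x hx hne
    have he' : h (2 * i + 1 - 1) = h (2 * i + 1 + 1) := by
      rw [show 2 * i + 1 - 1 = 2 * i by omega]; exact he
    rw [val_H_apply, hE_pos δ _ _ hd.1 he', show 2 * i + 1 - 1 = 2 * i by omega]
    have ha := (hd.1 (2 * i)).1
    have hSa := hS_pos hδ ha
    have hrec := hS_rec δ ha
    have hm := (hd.1 (2 * i)).2
    have hself : Function.update h (2 * i + 1) (h (2 * i + 1)) = h := Function.update_eq_self _ _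
    rcases hx with hx | hx
    · -- x = a + 1, current a - 1
      have hc : h (2 * i) - 1 = h (2 * i + 1) := by omega
      rw [← hx] at hrec ⊢
      rw [hc] at hrec ⊢
      rw [hself]
      field_simp
      have : hS δ (h (2 * i + 1)) = δ * hS δ (h (2 * i)) - hS δ x := by linarith
      rw [this]
      ring
    · have hc : h (2 * i) + 1 = h (2 * i + 1) := by omega
      have hx' : h (2 * i) - 1 = x := by omega
      rw [hx'] at hrec ⊢
      rw [hc] at hrec ⊢
      rw [hself]
      field_simp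
      have : hS δ (h (2 * i + 1)) = δ * hS δ (h (2 * i)) - hS δ x := by linarith
      rw [this]
      ring
  have hother : ∀ h, Dom s h → ∃ x, (x = h (2 * i) + 1 ∨ h (2 * i) = x + 1) ∧
      x ≠ h (2 * i + 1) := by
    intro h hd
    have hm := (hd.1 (2 * i)).2
    have ha := (hd.1 (2 * i)).1
    rcases hm with hm | hm
    · exact ⟨h (2 * i) - 1, by omega, by omega⟩
    · exact ⟨h (2 * i) + 1, by omega, by omega⟩
  -- sign of the updated term
  have hupd : ∀ h, Dom s h → h (2 * i) = h (2 * i + 2) → ∀ x,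
      (x = h (2 * i) + 1 ∨ h (2 * i) = x + 1) → x ≠ h (2 * i + 1) → 1 ≤ x →
      gs m s h * Φ (Function.update h (2 * i + 1) x) ≤ 0 := by
    intro h hd he x hx hne hx1
    have h1 := hΦ.1 _ (hd.update_face he hx1 hx)
    have h3 := gs_update_odd s hi him hd.1 he hx hne
    rw [hsg] at h3
    have h4 := gs_mul_self m s h
    have h5 : gs m s (Function.update h (2 * i + 1) x) = - gs m s h := by
      calc gs m s (Function.update h (2 * i + 1) x)
          = (gs m s h * gs m s h) * gs m s (Function.update h (2 * i + 1) x) := by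
            rw [h4, one_mul]
        _ = gs m s h * (gs m s h * gs m s (Function.update h (2 * i + 1) x)) := by ring
        _ = - gs m s h := by rw [h3]; ring
    rw [h5] at h1
    linarith
  refine ⟨fun h hd => ?_, ?_⟩
  · by_cases he : h (2 * i) = h (2 * i + 2)
    · obtain ⟨x, hx, hne⟩ := hother h hd
      rw [hval h hd he x hx hne]
      have hSa := hS_pos hδ (hd.1 (2 * i)).1
      by_cases hx0 : x = 0
      · subst hx0
        have : hS δ 0 = 0 := rfl
        rw [this]; simp
      · have h1 := hupd h hd he x hx hne (by omega)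
        have h2 := hΦ.1 h hd
        have e : gs m s h * (hS δ x / (δ * hS δ (h (2 * i))) *
            (Φ h - Φ (Function.update h (2 * i + 1) x))) =
            hS δ x / (δ * hS δ (h (2 * i))) * (gs m s h * Φ h -
              gs m s h * Φ (Function.update h (2 * i + 1) x)) := by ring
        rw [e]
        apply mul_nonneg
        · exact div_nonneg (hS_nonneg hδ x) (by positivity)
        · linarith
    · rw [val_H_apply, hE_neg, mul_zero, sub_zero]
      · exact hΦ.1 h hd
      · rintro ⟨_, hh⟩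
        rw [show 2 * i + 1 - 1 = 2 * i by omega] at hh
        exact he hh
  · have hd := hstar_dom s
    have hv1 : hstar s (2 * i) = 3 := by
      rw [hstar_even s hi, if_neg]
      rcases hs1 with h | h <;> rw [h] <;> norm_num
    have hv2 : hstar s (2 * i + 2) = 3 := by
      rw [show 2 * i + 2 = 2 * (i + 1) by ring, hstar_even s (by omega), hs, if_neg]
      rcases hs1 with h | h <;> rw [h] <;> norm_num
    have he : hstar s (2 * i) = hstar s (2 * i + 2) := by rw [hv1, hv2]
    have hx : 4 = hstar s (2 * i) + 1 ∨ hstar s (2 * i) = 4 + 1 := by left; rw [hv1]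
    have hne : 4 ≠ hstar s (2 * i + 1) := by rw [hstar_odd]; norm_num
    rw [hval _ hd he 4 hx hne]
    have h1 := hupd _ hd he 4 hx hne (by norm_num)
    rw [gs_hstar, one_mul] at h1
    have h2 := hΦ.2
    have hS3 : 0 < hS δ (hstar s (2 * i)) := hS_pos hδ (by rw [hv1]; norm_num)
    have hS4 := hS_pos hδ (show 1 ≤ 4 by norm_num)
    apply mul_pos
    · positivity
    · linarith

theorem pos_D {δ : ℝ} (hδ : 2 ≤ δ) {m i : ℕ} {s : ℕ → ℤ} {Φ : (ℕ → ℕ) → ℝ} {z : ℤ}
    (hz : z = 1 ∨ z = -1 ∨ z = 2)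
    (hΦ : PosFun m (Function.update s i z) Φ) (hi : 1 ≤ i) (him : i ≤ m) :
    PosFun m s ((Op.val (δ • (1 : HAlg)) (δ⁻¹ • 1) (hE δ) (Op.D i)) Φ) := by
  have hδ0 : 0 < δ := by linarith
  have hz0 : z ≠ 0 := by rcases hz with rfl | rfl | rfl <;> norm_num
  have key : ∀ h, Dom s h → h (2 * i - 1) = h (2 * i + 1) → ∀ x,
      (x = h (2 * i - 1) + 1 ∨ x = h (2 * i - 1) - 1) →
      0 ≤ hS δ x * (gs m s h * Φ (Function.update h (2 * i) x)) := by
    intro h hd he x hx
    by_cases hx0 : x = 0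
    · subst hx0
      have : hS δ 0 = 0 := rfl
      rw [this, zero_mul]
    · have ha : x = h (2 * i - 1) + 1 ∨ h (2 * i - 1) = x + 1 := by omega
      have h1 := hΦ.1 _ (hd.update_site hi he (by omega) ha z hz0)
      rw [gs_update_even, gs_status_eq s h hi him z he] at h1
      exact mul_nonneg (hS_nonneg hδ x) h1
  refine ⟨fun h hd => ?_, ?_⟩
  · rw [val_D_apply]
    by_cases he : h (2 * i - 1) = h (2 * i + 1)
    · rw [hE_pos δ _ _ hd.1 he]
      have hSa := hS_pos hδ (hd.1 (2 * i - 1)).1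
      have k1 := key h hd he _ (Or.inl rfl)
      have k2 := key h hd he _ (Or.inr rfl)
      have e1 : gs m s h * (δ * ((hS δ (h (2 * i - 1) + 1) *
          Φ (Function.update h (2 * i) (h (2 * i - 1) + 1)) +
          hS δ (h (2 * i - 1) - 1) * Φ (Function.update h (2 * i) (h (2 * i - 1) - 1))) /
          hS δ (h (2 * i - 1)))) =
        δ * ((hS δ (h (2 * i - 1) + 1) *
          (gs m s h * Φ (Function.update h (2 * i) (h (2 * i - 1) + 1))) +
          hS δ (h (2 * i - 1) - 1) *
            (gs m s h * Φ (Function.update h (2 * i) (h (2 * i - 1) - 1)))) /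
          hS δ (h (2 * i - 1))) := by ring
      rw [e1]
      positivity
    · rw [hE_neg, mul_zero, mul_zero]
      rintro ⟨_, hh⟩
      exact he hh
  · rw [val_D_apply]
    have hd := hstar_dom s
    have hv1 : hstar s (2 * i - 1) = 2 := hstar_odd' s hi
    have he : hstar s (2 * i - 1) = hstar s (2 * i + 1) := by rw [hv1, hstar_odd]
    rw [hE_pos δ _ _ hd.1 he]
    have k1 := key _ hd he _ (Or.inl rfl)
    have k2 := key _ hd he _ (Or.inr rfl)
    rw [gs_hstar, one_mul] at k1 k2
    rw [hv1] at k1 k2 ⊢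
    -- the reference configuration of the new status
    have hst : hstar (Function.update s i z) =
        Function.update (hstar s) (2 * i) (if z = 2 then 1 else 3) := by
      funext p
      by_cases hp : p = 2 * i
      · subst hp
        rw [Function.update_self, hstar_even _ hi, Function.update_self]
        by_cases hz2 : z = 2
        · rw [if_pos (Or.inr hz2), if_pos hz2]
        · rw [if_neg (by tauto), if_neg hz2]
      · rw [Function.update_of_ne hp]
        unfold hstar
        by_cases hp0 : p = 0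
        · rw [if_pos hp0, if_pos hp0]
        · by_cases hp1 : p % 2 = 1
          · rw [if_neg hp0, if_pos hp1, if_neg hp0, if_pos hp1]
          · rw [if_neg hp0, if_neg hp1, if_neg hp0, if_neg hp1,
              Function.update_of_ne (by omega)]
    have hpos := hΦ.2
    rw [hst] at hpos
    have hS1 := hS_pos hδ (show 1 ≤ 2 - 1 by norm_num)
    have hS2 := hS_pos hδ (show 1 ≤ 2 by norm_num)
    have hS3 := hS_pos hδ (show 1 ≤ 2 + 1 by norm_num)
    by_cases hz2 : z = 2
    · rw [if_pos hz2] at hpos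
      have h5 : 0 < hS δ (2 - 1) * Φ (Function.update (hstar s) (2 * i) (2 - 1)) :=
        mul_pos hS1 hpos
      apply mul_pos hδ0
      apply div_pos _ hS2
      linarith
    · rw [if_neg hz2] at hpos
      have h5 : 0 < hS δ (2 + 1) * Φ (Function.update (hstar s) (2 * i) (2 + 1)) :=
        mul_pos hS3 hpos
      apply mul_pos hδ0
      apply div_pos _ hS2
      linarith

theorem pos_V {δ : ℝ} (hδ : 2 ≤ δ) {m i : ℕ} {s : ℕ → ℤ} {Φ : (ℕ → ℕ) → ℝ} {z : ℤ}
    (hz : z = 1 ∨ z = -1) (hsz : s i = 0 ∨ ((s i = 1 ∨ s i = -1) ∧ z = - s i))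
    (hΦ : PosFun m (Function.update s i z) Φ) (hi : 1 ≤ i) (him : i ≤ m) :
    PosFun m s ((Op.val (δ • (1 : HAlg)) (δ⁻¹ • 1) (hE δ) (Op.V i)) Φ) := by
  have hδ0 : 0 < δ := by linarith
  have hz0 : z ≠ 0 := by rcases hz with rfl | rfl <;> norm_num
  have key : ∀ h, Dom s h → h (2 * i - 1) = h (2 * i + 1) → ∀ x, 1 ≤ x →
      (x = h (2 * i - 1) + 1 ∨ h (2 * i - 1) = x + 1) →
      0 ≤ gs m s h * Φ (Function.update h (2 * i) x) := by
    intro h hd he x hx0 ha
    have h1 := hΦ.1 _ (hd.update_site hi he hx0 ha z hz0)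
    rwa [gs_update_even, gs_status_eq s h hi him z he] at h1
  -- formula on configurations with equal faces
  have hval : ∀ h, Dom s h → h (2 * i - 1) = h (2 * i + 1) → ∃ x y, ∃ c : ℝ,
      (h (2 * i) = x) ∧ (y = h (2 * i - 1) + 1 ∨ y = h (2 * i - 1) - 1) ∧ 0 ≤ c ∧
      (3 ≤ x → 0 < c) ∧ (x = 1 → y = 3) ∧
      (Op.val (δ • (1 : HAlg)) (δ⁻¹ • 1) (hE δ) (Op.V i)) Φ h =
        c * Φ h + δ * hS δ y / hS δ (h (2 * i - 1)) * Φ (Function.update h (2 * i) y) := by
    intro h hd he
    have hb := (hd.1 (2 * i - 1)).1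
    have hx1 := (hd.1 (2 * i)).1
    have hadj := (hd.1 (2 * i - 1)).2
    rw [show 2 * i - 1 + 1 = 2 * i by omega] at hadj
    have hSb := hS_pos hδ hb
    have hrecx := hS_rec δ hx1
    rw [val_V_apply, hE_pos δ _ _ hd.1 he]
    have hself : Function.update h (2 * i) (h (2 * i)) = h := Function.update_eq_self _ _
    rcases hadj with hadj | hadj
    · -- site = b + 1
      refine ⟨h (2 * i), h (2 * i - 1) - 1,
        hS δ (h (2 * i) + 1) / hS δ (h (2 * i - 1)), rfl, Or.inr rfl,
        div_nonneg (hS_nonneg hδ _) hSb.le, fun _ => div_pos (hS_pos hδ (by omega)) hSb,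
        fun h1 => by omega, ?_⟩
      rw [← hadj, hself]
      have e2 : h (2 * i) - 1 = h (2 * i - 1) := by omega
      rw [e2] at hrecx
      field_simp
      have : hS δ (h (2 * i) + 1) = δ * hS δ (h (2 * i)) - hS δ (h (2 * i - 1)) := by
        linarith
      rw [this]
      ring
    · refine ⟨h (2 * i), h (2 * i - 1) + 1,
        hS δ (h (2 * i) - 1) / hS δ (h (2 * i - 1)), rfl, Or.inl rfl,
        div_nonneg (hS_nonneg hδ _) hSb.le, fun h3 => div_pos (hS_pos hδ (by omega)) hSb,
        fun h1 => by omega, ?_⟩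
      have e3 : h (2 * i - 1) - 1 = h (2 * i) := by omega
      rw [e3, hself]
      have e2 : h (2 * i) + 1 = h (2 * i - 1) := by omega
      rw [e2] at hrecx
      field_simp
      have : hS δ (h (2 * i) - 1) = δ * hS δ (h (2 * i)) - hS δ (h (2 * i - 1)) := by
        linarith
      rw [this]
      ring
  refine ⟨fun h hd => ?_, ?_⟩
  · by_cases he : h (2 * i - 1) = h (2 * i + 1)
    · obtain ⟨x, y, c, hx, hy, hc, _, _, hv⟩ := hval h hd he
      rw [hv]
      have hSb := hS_pos hδ (hd.1 (2 * i - 1)).1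
      have hadj := (hd.1 (2 * i - 1)).2
      rw [show 2 * i - 1 + 1 = 2 * i by omega] at hadj
      have k1 := key h hd he (h (2 * i)) (hd.1 (2 * i)).1 hadj
      rw [Function.update_eq_self] at k1
      have k2 : 0 ≤ hS δ y * (gs m s h * Φ (Function.update h (2 * i) y)) := by
        by_cases hy0 : y = 0
        · subst hy0
          have : hS δ 0 = 0 := rfl
          rw [this, zero_mul]
        · exact mul_nonneg (hS_nonneg hδ y) (key h hd he y (by omega) (by omega))
      have e1 : gs m s h * (c * Φ h + δ * hS δ y / hS δ (h (2 * i - 1)) *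
          Φ (Function.update h (2 * i) y)) =
          c * (gs m s h * Φ h) + δ / hS δ (h (2 * i - 1)) *
            (hS δ y * (gs m s h * Φ (Function.update h (2 * i) y))) := by ring
      rw [e1]
      positivity
    · rw [val_V_apply, hE_neg, mul_zero, zero_sub]
      · rcases hsz with hs0 | ⟨hs1, hz1⟩
        · -- attached sites have equal faces
          exfalso
          have h1 := hd.2.2 i hi hs0
          have f1 : h (2 * i + 1) = 2 := face_two hd.1 h1
          have f2 : h (2 * i - 1) = 2 := by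
            apply face_two' hd.1
            rw [show 2 * i - 1 + 1 = 2 * i by omega]; exact h1
          exact he (by rw [f1, f2])
        · have hd' : Dom (Function.update s i z) h := hd.status z (fun h0 => absurd h0 hz0)
          have h1 := hΦ.1 h hd'
          have h3 := gs_status s h hi him z
          rw [if_neg he, hz1, sg_neg hs1, mul_neg, sg_mul_self] at h3
          have h4 := gs_mul_self m s h
          have h5 : gs m (Function.update s i z) h = - gs m s h := by
            rw [hz1]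
            calc gs m (Function.update s i (-s i)) h
                = (gs m s h * gs m s h) * gs m (Function.update s i (-s i)) h := by
                  rw [h4, one_mul]
              _ = gs m s h * (gs m s h * gs m (Function.update s i (-s i)) h) := by ring
              _ = - gs m s h := by rw [h3]; ring
          rw [h5] at h1
          linarith
      · rintro ⟨_, hh⟩
        exact he hh
  · have hd := hstar_dom s
    have hv1 : hstar s (2 * i - 1) = 2 := hstar_odd' s hi
    have he : hstar s (2 * i - 1) = hstar s (2 * i + 1) := by rw [hv1, hstar_odd]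
    obtain ⟨x, y, c, hx, hy, hc, hc', hy', hv⟩ := hval _ hd he
    rw [hv]
    have hst : hstar (Function.update s i z) = Function.update (hstar s) (2 * i) 3 := by
      funext p
      by_cases hp : p = 2 * i
      · subst hp
        rw [Function.update_self, hstar_even _ hi, Function.update_self, if_neg]
        rcases hz with rfl | rfl <;> norm_num
      · rw [Function.update_of_ne hp]
        unfold hstar
        by_cases hp0 : p = 0
        · rw [if_pos hp0, if_pos hp0]
        · by_cases hp1 : p % 2 = 1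
          · rw [if_neg hp0, if_pos hp1, if_neg hp0, if_pos hp1]
          · rw [if_neg hp0, if_neg hp1, if_neg hp0, if_neg hp1,
              Function.update_of_ne (by omega)]
    have hpos := hΦ.2
    rw [hst] at hpos
    have hSb : 0 < hS δ (hstar s (2 * i - 1)) := hS_pos hδ (by rw [hv1]; norm_num)
    rw [hv1] at hy
    have hxv : x = 1 ∨ x = 3 := by
      rw [← hx, hstar_even s hi]; split_ifs <;> simp
    rcases hxv with hx1 | hx3
    · -- the old vertex has height one; the new one has height three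
      have hy3 := hy' hx1
      subst hy3
      have k1 := key _ hd he (hstar s (2 * i)) (by rw [hx, hx1])
        (by rw [hv1, hx, hx1]; right; rfl)
      rw [Function.update_eq_self, gs_hstar, one_mul] at k1
      have hS3 := hS_pos hδ (show 1 ≤ 3 by norm_num)
      have h6 : 0 < δ * hS δ 3 / hS δ (hstar s (2 * i - 1)) *
          Φ (Function.update (hstar s) (2 * i) 3) := by positivity
      have h7 : 0 ≤ c * Φ (hstar s) := mul_nonneg hc k1
      linarith
    · have hself : Function.update (hstar s) (2 * i) 3 = hstar s := by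
        rw [Function.update_eq_self_iff, hx, hx3]
      rw [hself] at hpos
      have hcp := hc' (by omega)
      have hy0 : 1 ≤ y := by omega
      have k2 := key _ hd he y hy0 (by rw [hv1]; omega)
      rw [gs_hstar, one_mul] at k2
      have hSy := hS_nonneg hδ y
      have h6 : 0 ≤ δ * hS δ y / hS δ (hstar s (2 * i - 1)) *
          Φ (Function.update (hstar s) (2 * i) y) := by positivity
      have h7 : 0 < c * Φ (hstar s) := mul_pos hcp hpos
      linarith

/-- Positivity is propagated by valid lists of operations. -/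
theorem pos_ops {δ : ℝ} (hδ : 2 ≤ δ) {m : ℕ} {Φ : (ℕ → ℕ) → ℝ}
    (hΦ : ∀ s, PosFun m s Φ) : ∀ (ops : List Op) (s : ℕ → ℤ), Valid m ops s →
      PosFun m s (Wval (δ • (1 : HAlg)) (δ⁻¹ • 1) (hE δ) ops Φ)
  | [], s, _ => by
    have : Wval (δ • (1 : HAlg)) (δ⁻¹ • 1) (hE δ) [] Φ = Φ := by simp [Wval]
    rw [this]
    exact hΦ s
  | (.J i :: ops), s, hv => by
    have hW : Wval (δ • (1 : HAlg)) (δ⁻¹ • 1) (hE δ) (Op.J i :: ops) Φ =
        (Op.val (δ • (1 : HAlg)) (δ⁻¹ • 1) (hE δ) (Op.J i))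
          (Wval (δ • (1 : HAlg)) (δ⁻¹ • 1) (hE δ) ops Φ) := by simp [Wval]
    rw [hW]
    obtain ⟨him, ⟨hi, hs, hs1, hv'⟩ | ⟨hi, hs, hv'⟩⟩ := hv
    · exact pos_J_normal hδ (pos_ops hδ hΦ ops s hv') hi him hs hs1
    · exact pos_J_attach hδ (pos_ops hδ hΦ ops _ hv') him hi hs
  | (.H i :: ops), s, hv => by
    have hW : Wval (δ • (1 : HAlg)) (δ⁻¹ • 1) (hE δ) (Op.H i :: ops) Φ =
        (Op.val (δ • (1 : HAlg)) (δ⁻¹ • 1) (hE δ) (Op.H i))
          (Wval (δ • (1 : HAlg)) (δ⁻¹ • 1) (hE δ) ops Φ) := by simp [Wval]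
    rw [hW]
    obtain ⟨him, hv', h1 | h1 | ⟨h1, h2, h3⟩⟩ := hv
    · exact pos_H_left hδ (pos_ops hδ hΦ ops s hv') (Or.inl h1)
    · exact pos_H_left hδ (pos_ops hδ hΦ ops s hv') (Or.inr h1)
    · exact pos_H_normal hδ (pos_ops hδ hΦ ops s hv') h1 him h2 h3
  | (.D i :: ops), s, hv => by
    have hW : Wval (δ • (1 : HAlg)) (δ⁻¹ • 1) (hE δ) (Op.D i :: ops) Φ =
        (Op.val (δ • (1 : HAlg)) (δ⁻¹ • 1) (hE δ) (Op.D i))
          (Wval (δ • (1 : HAlg)) (δ⁻¹ • 1) (hE δ) ops Φ) := by simp [Wval]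
    rw [hW]
    obtain ⟨hi, him, z, hz, hv'⟩ := hv
    exact pos_D hδ hz (pos_ops hδ hΦ ops _ hv') hi him
  | (.V i :: ops), s, hv => by
    have hW : Wval (δ • (1 : HAlg)) (δ⁻¹ • 1) (hE δ) (Op.V i :: ops) Φ =
        (Op.val (δ • (1 : HAlg)) (δ⁻¹ • 1) (hE δ) (Op.V i))
          (Wval (δ • (1 : HAlg)) (δ⁻¹ • 1) (hE δ) ops Φ) := by simp [Wval]
    rw [hW]
    obtain ⟨hi, him, z, hz, hsz, hv'⟩ := hv
    exact pos_V hδ hz hsz (pos_ops hδ hΦ ops _ hv') hi him

/-- The projector applied to the constant function one. -/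
theorem TLX_one {δ : ℝ} (hδ : 2 ≤ δ) : ∀ (j : ℕ) (h : ℕ → ℕ), IsPath h →
    0 ≤ TLX (hE δ) (2 * j) (fun _ => 1) h ∧
    ((∀ i, 1 ≤ i → i ≤ j → h (2 * i - 1) = h (2 * i + 1)) →
      0 < TLX (hE δ) (2 * j) (fun _ => 1) h) ∧
    ((∃ i, 1 ≤ i ∧ i ≤ j ∧ h (2 * i - 1) ≠ h (2 * i + 1)) →
      TLX (hE δ) (2 * j) (fun _ => 1) h = 0)
  | 0, h, _ => by
    have : TLX (hE δ) (2 * 0) (fun _ => 1) h = 1 := by simp [TLX]
    rw [this]
    refine ⟨zero_le_one, fun _ => one_pos, ?_⟩
    rintro ⟨i, h1, h2, _⟩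
    omega
  | (j + 1), h, hp => by
    have IH := TLX_one hδ j
    have hX : TLX (hE δ) (2 * (j + 1)) = hE δ (2 * j + 2) * TLX (hE δ) (2 * j) := rfl
    rw [hX]
    have hap : (hE δ (2 * j + 2) * TLX (hE δ) (2 * j)) (fun _ => (1 : ℝ)) h =
        hE δ (2 * j + 2) (TLX (hE δ) (2 * j) (fun _ => 1)) h := rfl
    rw [hap]
    have hodd : ∀ x i, (Function.update h (2 * j + 2) x) (2 * i - 1) = h (2 * i - 1) := by
      intro x i
      by_cases hi : i = 0
      · subst hi
        rw [Function.update_of_ne (by omega)]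
      · rw [Function.update_of_ne (by omega)]
    have hodd' : ∀ x i, (Function.update h (2 * j + 2) x) (2 * i + 1) = h (2 * i + 1) := by
      intro x i
      rw [Function.update_of_ne (by omega)]
    by_cases he : h (2 * j + 1) = h (2 * j + 3)
    · have he' : h (2 * j + 2 - 1) = h (2 * j + 2 + 1) := by
        rw [show 2 * j + 2 - 1 = 2 * j + 1 by omega]; exact he
      rw [hE_pos δ _ _ hp he', show 2 * j + 2 - 1 = 2 * j + 1 by omega]
      have hb := (hp (2 * j + 1)).1
      have hSb := hS_pos hδ hb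
      have hS1 := hS_pos hδ (show 1 ≤ h (2 * j + 1) + 1 by omega)
      have hpath : ∀ x, 1 ≤ x → (x = h (2 * j + 1) + 1 ∨ h (2 * j + 1) = x + 1) →
          IsPath (Function.update h (2 * j + 2) x) := fun x hx ha =>
        hp.update (by omega) he' hx (by rw [show 2 * j + 2 - 1 = 2 * j + 1 by omega]; exact ha)
      have IH1 := IH _ (hpath (h (2 * j + 1) + 1) (by omega) (Or.inl rfl))
      have key2 : 0 ≤ hS δ (h (2 * j + 1) - 1) * TLX (hE δ) (2 * j) (fun _ => 1)
          (Function.update h (2 * j + 2) (h (2 * j + 1) - 1)) := by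
        by_cases hb1 : h (2 * j + 1) = 1
        · rw [hb1]
          have : hS δ (1 - 1) = 0 := rfl
          rw [this, zero_mul]
        · exact mul_nonneg (hS_nonneg hδ _)
            (IH _ (hpath (h (2 * j + 1) - 1) (by omega) (Or.inr (by omega)))).1
      refine ⟨?_, fun hall => ?_, ?_⟩
      · have := IH1.1
        positivity
      · have h5 := IH1.2.1 (fun i h1 h2 => by
          rw [hodd, hodd']; exact hall i h1 (by omega))
        have h6 : 0 < hS δ (h (2 * j + 1) + 1) * TLX (hE δ) (2 * j) (fun _ => 1)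
          (Function.update h (2 * j + 2) (h (2 * j + 1) + 1)) := mul_pos hS1 h5
        apply div_pos _ hSb
        linarith
      · rintro ⟨i, h1, h2, h3⟩
        have hij : i ≤ j := by
          by_contra hcon
          have : i = j + 1 := by omega
          subst this
          exact h3 (by
            rw [show 2 * (j + 1) - 1 = 2 * j + 1 by omega,
              show 2 * (j + 1) + 1 = 2 * j + 3 by omega]; exact he)
        rw [IH1.2.2 ⟨i, h1, hij, by rw [hodd, hodd']; exact h3⟩]
        by_cases hb1 : h (2 * j + 1) = 1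
        · rw [hb1]
          have : hS δ (1 - 1) = 0 := rfl
          rw [this]; simp
        · rw [(IH _ (hpath (h (2 * j + 1) - 1) (by omega) (Or.inr (by omega)))).2.2
            ⟨i, h1, hij, by rw [hodd, hodd']; exact h3⟩]
          simp
    · rw [hE_neg]
      · refine ⟨le_rfl, fun hall => ?_, fun _ => rfl⟩
        exact absurd (hall (j + 1) (by omega) le_rfl) (by
          rw [show 2 * (j + 1) - 1 = 2 * j + 1 by omega,
            show 2 * (j + 1) + 1 = 2 * j + 3 by omega]; exact he)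
      · rintro ⟨_, hh⟩
        rw [show 2 * j + 2 - 1 = 2 * j + 1 by omega] at hh
        exact he hh

theorem posFun_base {δ : ℝ} (hδ : 2 ≤ δ) (m : ℕ) (s : ℕ → ℤ) :
    PosFun m s (TLX (hE δ) (2 * m) (fun _ => 1)) := by
  refine ⟨fun h hd => ?_, ?_⟩
  · obtain ⟨h1, _, h3⟩ := TLX_one hδ m h hd.1
    by_cases hc : ∃ i, 1 ≤ i ∧ i ≤ m ∧ h (2 * i - 1) ≠ h (2 * i + 1)
    · rw [h3 hc, mul_zero]
    · have : gs m s h = 1 := by
        unfold gs
        apply Finset.prod_eq_one
        intro i hi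
        rw [Finset.mem_Icc] at hi
        rw [if_pos]
        by_contra hne
        exact hc ⟨i, hi.1, hi.2, hne⟩
      rw [this, one_mul]
      exact h1
  · exact (TLX_one hδ m _ (hstar_path s)).2.1 (fun i h1 _ => by
      rw [hstar_odd' s h1, hstar_odd])

/-- The projector preserves positivity at reference configurations. -/
theorem TLX_pos {δ : ℝ} (hδ : 2 ≤ δ) {m : ℕ} : ∀ (j : ℕ), j ≤ m → ∀ (Φ : (ℕ → ℕ) → ℝ)
    (s : ℕ → ℤ), (∀ i, 1 ≤ i → i ≤ j → s i = 1 ∨ s i = -1 ∨ s i = 2) → PosFun m s Φ →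
    ∀ s' : ℕ → ℤ, (∀ i, (1 ≤ i ∧ i ≤ j) ∨ s' i = s i) →
      PosFun m s' (TLX (hE δ) (2 * j) Φ)
  | 0, _, Φ, s, _, hΦ, s', hs' => by
    have hX : TLX (hE δ) (2 * 0) Φ = Φ := by simp [TLX]
    have : s' = s := by
      funext i
      rcases hs' i with h | h
      · omega
      · exact h
    rw [hX, this]
    exact hΦ
  | (j + 1), hj, Φ, s, hs, hΦ, s', hs' => by
    have hX : TLX (hE δ) (2 * (j + 1)) Φ = hE δ (2 * (j + 1)) (TLX (hE δ) (2 * j) Φ) := rfl
    have IH := TLX_pos hδ j (by omega) Φ s (fun i h1 h2 => hs i h1 (by omega)) hΦ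
      (Function.update s' (j + 1) (s (j + 1))) (fun i => by
        by_cases hij : i = j + 1
        · right; rw [hij, Function.update_self]
        · rw [Function.update_of_ne hij]
          rcases hs' i with h | h
          · left; omega
          · right; exact h)
    have hz : s (j + 1) = 1 ∨ s (j + 1) = -1 ∨ s (j + 1) = 2 := hs (j + 1) (by omega) le_rfl
    have h2 := pos_D hδ hz IH (by omega) hj
    have hδ0 : 0 < δ := by linarith
    rw [hX]
    refine ⟨fun h hd => ?_, ?_⟩
    · have h3 := h2.1 h hd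
      rw [val_D_apply] at h3
      have h4 : 0 ≤ δ * (gs m s' h * hE δ (2 * (j + 1)) (TLX (hE δ) (2 * j) Φ) h) := by
        calc (0 : ℝ) ≤ gs m s' h * (δ * hE δ (2 * (j + 1)) (TLX (hE δ) (2 * j) Φ) h) := h3
          _ = _ := by ring
      exact nonneg_of_mul_nonneg_right h4 hδ0
    · have h3 := h2.2
      rw [val_D_apply] at h3
      exact (pos_iff_pos_of_mul_pos h3).1 hδ0

/-- Positivity of the evaluation of a valid network in the height representation. -/
theorem height_pos {δ : ℝ} (hδ : 2 ≤ δ) {m : ℕ} {ops : List Op} {s : ℕ → ℤ}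
    (hs : ∀ i, 1 ≤ i → i ≤ m → s i = 1 ∨ s i = -1 ∨ s i = 2) (hv : Valid m ops s)
    {K : ℕ} {c : ℝ}
    (hc : δ ^ K • (TLX (hE δ) (2 * m) * Wval (δ • 1) (δ⁻¹ • 1) (hE δ) ops * TLX (hE δ) (2 * m)) =
      c • TLX (hE δ) (2 * m)) : 0 < c := by
  have h1 := pos_ops hδ (fun s => posFun_base hδ m s) ops s hv
  have h2 := TLX_pos hδ m le_rfl _ s hs h1 s (fun i => Or.inr rfl)
  have h3 := congrArg (fun (f : HAlg) => f (fun _ => 1) (hstar s)) hc
  have h4 : (δ ^ K • (TLX (hE δ) (2 * m) * Wval (δ • 1) (δ⁻¹ • 1) (hE δ) ops *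
      TLX (hE δ) (2 * m)) : HAlg) (fun _ => 1) (hstar s) =
      δ ^ K * TLX (hE δ) (2 * m) (Wval (δ • 1) (δ⁻¹ • 1) (hE δ) ops
        (TLX (hE δ) (2 * m) (fun _ => 1))) (hstar s) := rfl
  have h5 : (c • TLX (hE δ) (2 * m) : HAlg) (fun _ => 1) (hstar s) =
      c * TLX (hE δ) (2 * m) (fun _ => 1) (hstar s) := rfl
  have h6 : δ ^ K * TLX (hE δ) (2 * m) (Wval (δ • 1) (δ⁻¹ • 1) (hE δ) ops
        (TLX (hE δ) (2 * m) (fun _ => 1))) (hstar s) =
      c * TLX (hE δ) (2 * m) (fun _ => 1) (hstar s) := h4.symm.trans (h3.trans h5)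
  have h7 := h2.2
  have h8 := (posFun_base hδ m s).2
  have hδ0 : 0 < δ := by linarith
  have h9 : 0 < δ ^ K * TLX (hE δ) (2 * m) (Wval (δ • 1) (δ⁻¹ • 1) (hE δ) ops
        (TLX (hE δ) (2 * m) (fun _ => 1))) (hstar s) := mul_pos (pow_pos hδ0 K) h7
  rw [h6] at h9
  exact (pos_iff_pos_of_mul_pos h9).2 h8

end Pool.Agent.Helper70.BLB
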