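import Mathlib
import Pool.Agent.Helper70.BLB.Count
import Pool.Agent.Helper70.BLB.HeightPos

/-!
Grid models of a graph with a root on the frame, and positivity of the chromatic polynomial when
the graph minus the root is bipartite.
-/

set_option autoImplicit false

namespace Pool.Agent.Helper70.BLB

/-- Adjacency of grid points. -/
def gadj (p q : ℕ × ℕ) : Prop :=
  (p.1 = q.1 ∧ (q.2 = p.2 + 1 ∨ p.2 = q.2 + 1)) ∨ (p.2 = q.2 ∧ (q.1 = p.1 + 1 ∨ p.1 = q.1 + 1))

/-- A labelling of the grid points by vertices of `G` (or no label) such that the root `r` labels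
exactly the frame, every class is nonempty and connected, and every edge is realised. -/
structure GridModel {V : Type} (G : SimpleGraph V) (r : V) (k T : ℕ) (L : ℕ → ℕ → Option V) :
    Prop where
  frame : ∀ i j, L i j = some r ↔ (i = 0 ∨ k < i ∨ j = 0 ∨ T < j)
  conn : ∀ v, v ≠ r → ∀ p q : ℕ × ℕ, L p.1 p.2 = some v → L q.1 q.2 = some v →
    Relation.ReflTransGen (fun a b => gadj a b ∧ L a.1 a.2 = some v ∧ L b.1 b.2 = some v) p q
  nonempty : ∀ v, ∃ p : ℕ × ℕ, L p.1 p.2 = some v
  edge : ∀ u v, G.Adj u v → ∃ p q : ℕ × ℕ, gadj p q ∧ L p.1 p.2 = some u ∧ L q.1 q.2 = some v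

section Count

variable {V : Type} {G : SimpleGraph V} {r : V} {k T : ℕ} {L : ℕ → ℕ → Option V}
variable {C : Type}

theorem vrel_of_gadj {X : Fin T → Fin k → C} {ρ : C} (h : gridOK G L X ρ) {p q : ℕ × ℕ}
    (hpq : gadj p q) :
    (∀ v, L p.1 p.2 = some v → L q.1 q.2 = some v → colr X ρ p.1 p.2 = colr X ρ q.1 q.2) ∧
    (ladj G (L p.1 p.2) (L q.1 q.2) → colr X ρ p.1 p.2 ≠ colr X ρ q.1 q.2) := by
  have hsymm : ∀ a b : Option V, ladj G a b → ladj G b a := by
    rintro a b ⟨u, v, h1, h2, h3⟩
    exact ⟨v, u, h2, h1, h3.symm⟩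
  obtain ⟨i, j⟩ := p
  obtain ⟨i', j'⟩ := q
  simp only [gadj] at hpq ⊢
  rcases hpq with ⟨rfl, rfl | rfl⟩ | ⟨rfl, rfl | rfl⟩
  · exact (h i j).1
  · obtain ⟨h1, h2⟩ := (h i j').1
    exact ⟨fun v a b => (h1 v b a).symm, fun ha hc => h2 (hsymm _ _ ha) hc.symm⟩
  · exact (h i j).2
  · obtain ⟨h1, h2⟩ := (h i' j).2
    exact ⟨fun v a b => (h1 v b a).symm, fun ha hc => h2 (hsymm _ _ ha) hc.symm⟩

theorem GridModel.colr_const (M : GridModel G r k T L) {X : Fin T → Fin k → C} {ρ : C}
    (h : gridOK G L X ρ) {v : V} {p q : ℕ × ℕ} (hp : L p.1 p.2 = some v)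
    (hq : L q.1 q.2 = some v) : colr X ρ p.1 p.2 = colr X ρ q.1 q.2 := by
  by_cases hv : v = r
  · subst hv
    have e : ∀ p : ℕ × ℕ, L p.1 p.2 = some v → colr X ρ p.1 p.2 = ρ := by
      intro p hp
      have := (M.frame _ _).1 hp
      unfold colr
      rw [dif_neg (by omega)]
    rw [e p hp, e q hq]
  · have hc := M.conn v hv p q hp hq
    induction hc with
    | refl => rfl
    | tail _ hbc ih =>
      rw [ih hbc.2.1]
      exact (vrel_of_gadj h hbc.1).1 v hbc.2.1 hbc.2.2

/-- Interior points without label. -/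
abbrev NonePt (k T : ℕ) (L : ℕ → ℕ → Option V) : Type :=
  {p : Fin T × Fin k // L (p.2.1 + 1) (p.1.1 + 1) = none}

open Classical in
/-- Interior colours determined by a colouring of the graph and colours of unlabelled points. -/
noncomputable def mkX (k T : ℕ) (L : ℕ → ℕ → Option V) (f : V → C)
    (g : NonePt k T L → C) (j : Fin T) (i : Fin k) : C :=
  if h : L (i.1 + 1) (j.1 + 1) = none then g ⟨(j, i), h⟩
  else f ((L (i.1 + 1) (j.1 + 1)).get (Option.isSome_iff_ne_none.2 h))

theorem mkX_some (f : V → C) (g : NonePt k T L → C) {j : Fin T} {i : Fin k} {v : V}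
    (h : L (i.1 + 1) (j.1 + 1) = some v) : mkX k T L f g j i = f v := by
  unfold mkX
  rw [dif_neg (by rw [h]; simp)]
  congr 1
  exact Option.get_of_eq_some _ h

theorem GridModel.colr_mkX (M : GridModel G r k T L) (f : V → C) (g : NonePt k T L → C)
    {i j : ℕ} {v : V} (h : L i j = some v) : colr (mkX k T L f g) (f r) i j = f v := by
  unfold colr
  by_cases hin : (1 ≤ i ∧ i ≤ k) ∧ (1 ≤ j ∧ j ≤ T)
  · rw [dif_pos hin]
    apply mkX_some
    simp only
    rw [show i - 1 + 1 = i by omega, show j - 1 + 1 = j by omega]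
    exact h
  · rw [dif_neg hin]
    have h1 : L i j = some r := (M.frame i j).2 (by omega)
    rw [h1, Option.some_inj] at h
    rw [h]

/-- Colourings of the grid correspond to colourings of the graph and free colours. -/
noncomputable def GridModel.equiv (M : GridModel G r k T L) :
    {z : C × (Fin T → Fin k → C) // gridOK G L z.2 z.1} ≃
      G.Coloring C × (NonePt k T L → C) where
  toFun z := (SimpleGraph.Coloring.mk
    (fun v => colr z.1.2 z.1.1 (M.nonempty v).choose.1 (M.nonempty v).choose.2) (by
      intro u v huv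
      obtain ⟨p, q, hpq, hp, hq⟩ := M.edge u v huv
      have h1 := M.colr_const z.2 (M.nonempty u).choose_spec hp
      have h2 := M.colr_const z.2 (M.nonempty v).choose_spec hq
      have h3 := (vrel_of_gadj z.2 hpq).2 ⟨u, v, hp, hq, huv⟩
      show colr z.1.2 z.1.1 _ _ ≠ colr z.1.2 z.1.1 _ _
      rw [h1, h2]
      exact h3), fun p => z.1.2 p.1.1 p.1.2)
  invFun w := ⟨(w.1 r, mkX k T L w.1 w.2), by
    intro i j
    have key : ∀ i j i' j', vrel G (L i j) (L i' j') (colr (mkX k T L w.1 w.2) (w.1 r) i j)
        (colr (mkX k T L w.1 w.2) (w.1 r) i' j') := by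
      intro i j i' j'
      refine ⟨fun v h1 h2 => ?_, ?_⟩
      · rw [M.colr_mkX _ _ h1, M.colr_mkX _ _ h2]
      · rintro ⟨u, v, h1, h2, h3⟩
        rw [M.colr_mkX _ _ h1, M.colr_mkX _ _ h2]
        exact w.1.valid h3
    exact ⟨key _ _ _ _, key _ _ _ _⟩⟩
  left_inv z := by
    obtain ⟨⟨ρ, X⟩, hz⟩ := z
    have hr : colr X ρ (M.nonempty r).choose.1 (M.nonempty r).choose.2 = ρ := by
      have h1 := (M.frame _ _).1 (M.nonempty r).choose_spec
      unfold colr
      rw [dif_neg (by omega)]
    apply Subtype.ext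
    refine Prod.ext ?_ ?_
    · exact hr
    · funext j i
      change mkX k T L (fun v => colr X ρ (M.nonempty v).choose.1 (M.nonempty v).choose.2)
        (fun p => X p.1.1 p.1.2) j i = X j i
      by_cases h : L (i.1 + 1) (j.1 + 1) = none
      · unfold mkX
        rw [dif_pos h]
      · obtain ⟨v, hv⟩ := Option.ne_none_iff_exists'.1 h
        rw [mkX_some _ _ hv]
        have h2 := M.colr_const hz (p := (M.nonempty v).choose) (q := (i.1 + 1, j.1 + 1))
          (M.nonempty v).choose_spec hv
        rw [h2]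
        unfold colr
        rw [dif_pos ⟨⟨by omega, by omega⟩, ⟨by omega, by omega⟩⟩]
        simp
  right_inv w := by
    obtain ⟨f, g⟩ := w
    refine Prod.ext ?_ ?_
    · apply RelHom.ext
      intro v
      exact M.colr_mkX f g (M.nonempty v).choose_spec
    · funext p
      change mkX k T L f g p.1.1 p.1.2 = g p
      unfold mkX
      rw [dif_pos p.2]

open Classical in
theorem GridModel.sum_count (M : GridModel G r k T L) [Fintype C] :
    ∑ ρ : C, ∑ X : Fin T → Fin k → C, (if gridOK G L X ρ then (1 : ℝ) else 0) =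
      (Nat.card (G.Coloring C) : ℝ) * (Fintype.card C : ℝ) ^ (Fintype.card (NonePt k T L)) := by
  have h1 : ∑ ρ : C, ∑ X : Fin T → Fin k → C, (if gridOK G L X ρ then (1 : ℝ) else 0) =
      ((Fintype.card {z : C × (Fin T → Fin k → C) // gridOK G L z.2 z.1} : ℕ) : ℝ) := by
    rw [Fintype.card_subtype, ← Fintype.sum_prod_type' (f := fun (ρ : C)
      (X : Fin T → Fin k → C) => if gridOK G L X ρ then (1 : ℝ) else 0), Finset.sum_boole]
  rw [h1, ← Nat.card_eq_fintype_card, Nat.card_congr M.equiv, Nat.card_prod,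
    Nat.card_eq_fintype_card (α := NonePt k T L → C), Fintype.card_fun]
  push_cast
  rfl

end Count

section Validity

variable {V : Type} {G : SimpleGraph V} {r : V} {k T : ℕ} {L : ℕ → ℕ → Option V}

open Classical in
/-- Status of a label. -/
noncomputable def lst (r : V) (cl : V → ℤ) : Option V → ℤ
  | none => 1
  | some v => if v = r then 0 else cl v

/-- Hypothesis that `cl` is a two-colouring of the graph minus the root. -/
structure Cls (G : SimpleGraph V) (r : V) (cl : V → ℤ) : Prop where
  val : ∀ v, cl v = 1 ∨ cl v = -1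
  adj : ∀ u v, u ≠ r → v ≠ r → G.Adj u v → cl v = - cl u

theorem valid_bot {m : ℕ} (rest : List Op) : ∀ (n : ℕ), n ≤ m →
    Valid m rest (fun i => if 1 ≤ i ∧ i ≤ n then 0 else 2) →
    Valid m (botOps n ++ rest) (fun _ => 2)
  | 0, _, h => by
    have e : (fun i : ℕ => if 1 ≤ i ∧ i ≤ 0 then (0 : ℤ) else 2) = fun _ => 2 := by
      funext i; rw [if_neg (by omega)]
    rw [e] at h
    exact h
  | (n + 1), hn, h => by
    have e : botOps (n + 1) ++ rest = botOps n ++ (Op.J n :: rest) := by
      simp [botOps]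
    rw [e]
    apply valid_bot (Op.J n :: rest) n (by omega)
    refine ⟨hn, Or.inr ⟨?_, ?_, ?_⟩⟩
    · by_cases h0 : n = 0
      · exact Or.inl h0
      · right
        show (if 1 ≤ n ∧ n ≤ n then (0 : ℤ) else 2) = 0
        rw [if_pos ⟨by omega, le_rfl⟩]
    · show (if 1 ≤ n + 1 ∧ n + 1 ≤ n then (0 : ℤ) else 2) = 2
      rw [if_neg (by omega)]
    · have e2 : Function.update (fun i : ℕ => if 1 ≤ i ∧ i ≤ n then (0 : ℤ) else 2) (n + 1) 0 =
          fun i => if 1 ≤ i ∧ i ≤ n + 1 then 0 else 2 := by
        funext i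
        by_cases hi : i = n + 1
        · subst hi; rw [Function.update_self, if_pos ⟨by omega, le_rfl⟩]
        · rw [Function.update_of_ne hi]
          by_cases h2 : 1 ≤ i ∧ i ≤ n
          · rw [if_pos h2, if_pos ⟨h2.1, by omega⟩]
          · rw [if_neg h2, if_neg (by omega)]
      rw [e2]; exact h

/-- Mixed status: the first `n` sites have the status of row `j + 1`, the others of row `j`. -/
noncomputable def mst (r : V) (cl : V → ℤ) (L : ℕ → ℕ → Option V) (j n : ℕ) (i : ℕ) : ℤ :=
  if i ≤ n then lst r cl (L i (j + 1)) else lst r cl (L i j)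

theorem lst_val {cl : V → ℤ} (hcl : ∀ v, cl v = 1 ∨ cl v = -1) {a : Option V}
    (ha : a ≠ some r) : lst r cl a = 1 ∨ lst r cl a = -1 := by
  cases a with
  | none => exact Or.inl rfl
  | some v =>
    have : v ≠ r := fun h => ha (by rw [h])
    simp only [lst, if_neg this]
    exact hcl v

theorem mst_update (cl : V → ℤ) (L : ℕ → ℕ → Option V) (j n : ℕ) :
    Function.update (mst r cl L j n) (n + 1) (lst r cl (L (n + 1) (j + 1))) =
      mst r cl L j (n + 1) := by
  funext i
  by_cases hi : i = n + 1
  · subst hi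
    rw [Function.update_self]
    unfold mst
    rw [if_pos le_rfl]
  · rw [Function.update_of_ne hi]
    unfold mst
    by_cases h2 : i ≤ n
    · rw [if_pos h2, if_pos (by omega)]
    · rw [if_neg h2, if_neg (by omega)]

theorem valid_step {cl : V → ℤ} (hC : Cls G r cl)
    (hL : ∀ i j, L i j = some r ↔ (i = 0 ∨ k < i ∨ j = 0 ∨ T < j)) {j : ℕ} (hj : j < T) :
    ∀ (n : ℕ) (rest : List Op), n ≤ k → Valid (k + 1) rest (mst r cl L j n) →
    Valid (k + 1) (stepOps G L j n ++ rest) (mst r cl L j 0)
  | 0, rest, _, h => h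
  | (n + 1), rest, hn, h => by
    have e : stepOps G L j (n + 1) ++ rest =
        stepOps G L j n ++ (vop G (n + 1) (L (n + 1) j) (L (n + 1) (j + 1)) ++ rest) := by
      simp [stepOps]
    rw [e]
    apply valid_step hC hL hj n _ (by omega)
    have hb : L (n + 1) (j + 1) ≠ some r := fun hh => by
      have := (hL _ _).1 hh; omega
    have hcur : mst r cl L j n (n + 1) = lst r cl (L (n + 1) j) := by
      unfold mst; rw [if_neg (by omega)]
    unfold vop
    split_ifs with h1 h2
    · -- persist
      rw [List.nil_append]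
      have e3 : mst r cl L j n = mst r cl L j (n + 1) := by
        rw [← mst_update, ← h1.1, ← hcur, Function.update_eq_self]
      rw [e3]; exact h
    · -- V
      rw [List.singleton_append]
      refine ⟨by omega, by omega, lst r cl (L (n + 1) (j + 1)), lst_val hC.val hb, ?_, ?_⟩
      · rw [hcur]
        obtain ⟨u, v, hu, hv, huv⟩ := h2
        rw [hu, hv]
        have hvr : v ≠ r := fun hh => hb (by rw [hv, hh])
        by_cases hur : u = r
        · left; simp only [lst, if_pos hur]
        · right
          simp only [lst, if_neg hur, if_neg hvr]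
          exact ⟨hC.val u, hC.adj u v hur hvr huv⟩
      · rw [mst_update]; exact h
    · -- D
      rw [List.singleton_append]
      refine ⟨by omega, by omega, lst r cl (L (n + 1) (j + 1)), ?_, ?_⟩
      · rcases lst_val hC.val hb with h3 | h3
        · exact Or.inl h3
        · exact Or.inr (Or.inl h3)
      · rw [mst_update]; exact h

theorem valid_hor {cl : V → ℤ} (hC : Cls G r cl) (hk : 1 ≤ k)
    (hL : ∀ i j, L i j = some r ↔ (i = 0 ∨ k < i ∨ j = 0 ∨ T < j)) {j : ℕ} (hj1 : 1 ≤ j)
    (hj2 : j ≤ T) (s : ℕ → ℤ) (hs : ∀ i, 1 ≤ i → i ≤ k + 1 → s i = lst r cl (L i j)) :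
    ∀ (n : ℕ) (rest : List Op), n ≤ k + 1 → Valid (k + 1) rest s →
    Valid (k + 1) (horOps G L j n ++ rest) s
  | 0, rest, _, h => h
  | (n + 1), rest, hn, h => by
    have e : horOps G L j (n + 1) ++ rest =
        horOps G L j n ++ (hop G n (L n j) (L (n + 1) j) ++ rest) := by
      simp [horOps]
    rw [e]
    apply valid_hor hC hk hL hj1 hj2 s hs n _ (by omega)
    unfold hop
    split_ifs with h1 h2
    · rw [List.singleton_append]
      -- the common label is not the root
      have hne : L n j ≠ some r := by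
        intro hh
        have a1 := (hL _ _).1 hh
        have a2 := (hL _ _).1 (h1.1 ▸ hh)
        omega
      have hn1 : 1 ≤ n := by
        by_contra hcon
        have h0 : n = 0 := by omega
        exact hne ((hL _ _).2 (Or.inl h0))
      refine ⟨hn, Or.inl ⟨hn1, ?_, ?_, h⟩⟩
      · rw [hs n hn1 (by omega), hs (n + 1) (by omega) hn, h1.1]
      · rw [hs n hn1 (by omega)]
        exact lst_val hC.val hne
    · rw [List.singleton_append]
      refine ⟨hn, h, ?_⟩
      obtain ⟨u, v, hu, hv, huv⟩ := h2
      have huvne : u ≠ v := huv.ne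
      by_cases hur : u = r
      · left
        have hvr : v ≠ r := fun hh => huvne (by rw [hur, hh])
        constructor
        · by_cases h0 : n = 0
          · exact Or.inl h0
          · right
            rw [hs n (by omega) (by omega), hu]
            simp only [lst, if_pos hur]
        · rw [hs (n + 1) (by omega) hn, hv]
          simp only [lst, if_neg hvr]
          exact hC.val v
      · right
        have hn1 : 1 ≤ n := by
          by_contra hcon
          have h0 : n = 0 := by omega
          have := (hL n j).2 (Or.inl h0)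
          rw [hu, Option.some_inj] at this
          exact hur this
        by_cases hvr : v = r
        · left
          refine ⟨hn1, ?_, ?_⟩
          · rw [hs n hn1 (by omega), hu]
            simp only [lst, if_neg hur]
            exact hC.val u
          · rw [hs (n + 1) (by omega) hn, hv]
            simp only [lst, if_pos hvr]
        · right
          refine ⟨hn1, ?_, ?_⟩
          · rw [hs n hn1 (by omega), hu]
            simp only [lst, if_neg hur]
            exact hC.val u
          · rw [hs n hn1 (by omega), hs (n + 1) (by omega) hn, hu, hv]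
            simp only [lst, if_neg hur, if_neg hvr]
            exact hC.adj u v hur hvr huv
    · exact h

theorem valid_top {cl : V → ℤ} (hC : Cls G r cl)
    (hL : ∀ i j, L i j = some r ↔ (i = 0 ∨ k < i ∨ j = 0 ∨ T < j)) (hT : 1 ≤ T)
    (s : ℕ → ℤ) (hs : ∀ i, 1 ≤ i → i ≤ k + 1 → s i = lst r cl (L i T)) :
    ∀ (n : ℕ) (rest : List Op), n ≤ k →
    Valid (k + 1) rest (fun i => if 1 ≤ i ∧ i ≤ n then 0 else s i) →
    Valid (k + 1) (topOps G L r T n ++ rest) s
  | 0, rest, _, h => by
    have e : (fun i : ℕ => if 1 ≤ i ∧ i ≤ 0 then (0 : ℤ) else s i) = s := by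
      funext i; rw [if_neg (by omega)]
    rw [e] at h
    exact h
  | (n + 1), rest, hn, h => by
    classical
    have e : topOps G L r T (n + 1) ++ rest = topOps G L r T n ++
        ((if ladj G (L (n + 1) T) (some r) then [Op.H n] else []) ++
          (Op.D (n + 1) :: Op.J n :: rest)) := by
      simp only [topOps, List.append_assoc]
      rfl
    rw [e]
    apply valid_top hC hL hT s hs n _ (by omega)
    set s1 : ℕ → ℤ := fun i => if 1 ≤ i ∧ i ≤ n then 0 else s i with hs1
    have hleft : n = 0 ∨ s1 n = 0 := by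
      by_cases h0 : n = 0
      · exact Or.inl h0
      · right; rw [hs1]; simp only; rw [if_pos ⟨by omega, le_rfl⟩]
    have hright : s1 (n + 1) = lst r cl (L (n + 1) T) := by
      rw [hs1]; simp only; rw [if_neg (by omega)]
      exact hs (n + 1) (by omega) (by omega)
    have hne : L (n + 1) T ≠ some r := by
      intro hh
      have := (hL _ _).1 hh
      omega
    have hrest : Valid (k + 1) (Op.D (n + 1) :: Op.J n :: rest) s1 := by
      refine ⟨by omega, by omega, 2, Or.inr (Or.inr rfl), ?_⟩
      refine ⟨by omega, Or.inr ⟨?_, ?_, ?_⟩⟩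
      · rcases hleft with h0 | h0
        · exact Or.inl h0
        · right; rw [Function.update_of_ne (by omega)]; exact h0
      · rw [Function.update_self]
      · have e2 : Function.update (Function.update s1 (n + 1) 2) (n + 1) 0 =
            fun i => if 1 ≤ i ∧ i ≤ n + 1 then 0 else s i := by
          funext i
          by_cases hi : i = n + 1
          · subst hi; rw [Function.update_self, if_pos ⟨by omega, le_rfl⟩]
          · rw [Function.update_of_ne hi, Function.update_of_ne hi, hs1]
            simp only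
            by_cases h2 : 1 ≤ i ∧ i ≤ n
            · rw [if_pos h2, if_pos ⟨h2.1, by omega⟩]
            · rw [if_neg h2, if_neg (by omega)]
        rw [e2]; exact h
    by_cases ha : ladj G (L (n + 1) T) (some r)
    · rw [if_pos ha, List.singleton_append]
      refine ⟨by omega, hrest, Or.inl ⟨hleft, ?_⟩⟩
      rw [hright]
      exact lst_val hC.val hne
    · rw [if_neg ha, List.nil_append]
      exact hrest

/-- Validity only depends on the statuses of the sites `1, …, m`. -/
theorem Valid_congr {m : ℕ} : ∀ (ops : List Op) (a b : ℕ → ℤ),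
    (∀ i, 1 ≤ i → i ≤ m → a i = b i) → Valid m ops a → Valid m ops b
  | [], _, _, _, _ => trivial
  | (Op.J i :: ops), a, b, hab, hv => by
    obtain ⟨h1, h2 | h2⟩ := hv
    · refine ⟨h1, Or.inl ⟨h2.1, ?_, ?_, Valid_congr ops a b hab h2.2.2.2⟩⟩
      · rw [← hab i h2.1 (by omega), ← hab (i + 1) (by omega) h1]; exact h2.2.1
      · rw [← hab i h2.1 (by omega)]; exact h2.2.2.1
    · refine ⟨h1, Or.inr ⟨?_, ?_, Valid_congr ops _ _ ?_ h2.2.2⟩⟩
      · by_cases h0 : i = 0
        · exact Or.inl h0
        · right; rw [← hab i (by omega) (by omega)]; tauto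
      · rw [← hab (i + 1) (by omega) h1]; exact h2.2.1
      · intro l hl1 hl2
        by_cases hli : l = i + 1
        · subst hli; rw [Function.update_self, Function.update_self]
        · rw [Function.update_of_ne hli, Function.update_of_ne hli]
          exact hab l hl1 hl2
  | (Op.H i :: ops), a, b, hab, hv => by
    obtain ⟨h1, h2, h3⟩ := hv
    refine ⟨h1, Valid_congr ops a b hab h2, ?_⟩
    rcases h3 with h3 | h3 | h3
    · left
      refine ⟨?_, ?_⟩
      · by_cases h0 : i = 0
        · exact Or.inl h0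
        · right; rw [← hab i (by omega) (by omega)]; tauto
      · rw [← hab (i + 1) (by omega) h1]; exact h3.2
    · right; left
      refine ⟨h3.1, ?_, ?_⟩
      · rw [← hab i h3.1 (by omega)]; exact h3.2.1
      · rw [← hab (i + 1) (by omega) h1]; exact h3.2.2
    · right; right
      refine ⟨h3.1, ?_, ?_⟩
      · rw [← hab i h3.1 (by omega)]; exact h3.2.1
      · rw [← hab i h3.1 (by omega), ← hab (i + 1) (by omega) h1]; exact h3.2.2
  | (Op.D i :: ops), a, b, hab, hv => by
    obtain ⟨h1, h2, x, hx, h3⟩ := hv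
    refine ⟨h1, h2, x, hx, Valid_congr ops _ _ ?_ h3⟩
    intro l hl1 hl2
    by_cases hli : l = i
    · subst hli; rw [Function.update_self, Function.update_self]
    · rw [Function.update_of_ne hli, Function.update_of_ne hli]
      exact hab l hl1 hl2
  | (Op.V i :: ops), a, b, hab, hv => by
    obtain ⟨h1, h2, x, hx, h4, h3⟩ := hv
    refine ⟨h1, h2, x, hx, ?_, Valid_congr ops _ _ ?_ h3⟩
    · rw [← hab i h1 h2]; exact h4
    · intro l hl1 hl2
      by_cases hli : l = i
      · subst hli; rw [Function.update_self, Function.update_self]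
      · rw [Function.update_of_ne hli, Function.update_of_ne hli]
        exact hab l hl1 hl2

theorem valid_body {cl : V → ℤ} (hC : Cls G r cl) (hk : 1 ≤ k)
    (hL : ∀ i j, L i j = some r ↔ (i = 0 ∨ k < i ∨ j = 0 ∨ T < j)) (s : ℕ → ℤ)
    (hs : ∀ i, 1 ≤ i → i ≤ k + 1 → s i = lst r cl (L i 0)) :
    ∀ (t : ℕ) (rest : List Op), t ≤ T → (∀ s' : ℕ → ℤ,
      (∀ i, 1 ≤ i → i ≤ k + 1 → s' i = lst r cl (L i t)) →
      Valid (k + 1) rest s') →
    Valid (k + 1) (bodyOps G L k t ++ rest) s
  | 0, rest, _, h => h s hs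
  | (t + 1), rest, ht, h => by
    have e : bodyOps G L k (t + 1) ++ rest = bodyOps G L k t ++
        (stepOps G L t k ++ (horOps G L (t + 1) (k + 1) ++ rest)) := by
      simp [bodyOps]
    rw [e]
    apply valid_body hC hk hL s hs t _ (by omega)
    intro s' hs'
    have h1 : ∀ i, 1 ≤ i → i ≤ k + 1 → mst r cl L t 0 i = s' i := by
      intro i hi1 hi2
      rw [hs' i hi1 hi2]
      unfold mst
      rw [if_neg (by omega)]
    apply Valid_congr _ (mst r cl L t 0) s' h1
    apply valid_step hC hL (by omega) k _ le_rfl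
    have h2 : ∀ i, 1 ≤ i → i ≤ k + 1 → mst r cl L t k i = lst r cl (L i (t + 1)) := by
      intro i hi1 hi2
      unfold mst
      by_cases hik : i ≤ k
      · rw [if_pos hik]
      · rw [if_neg hik, (hL i t).2 (by omega), (hL i (t + 1)).2 (by omega)]
    apply valid_hor hC hk hL (by omega) ht _ h2 (k + 1) _ le_rfl
    exact h _ h2

theorem valid_all {cl : V → ℤ} (hC : Cls G r cl) (hk : 1 ≤ k) (hT : 1 ≤ T)
    (hL : ∀ i j, L i j = some r ↔ (i = 0 ∨ k < i ∨ j = 0 ∨ T < j)) :
    Valid (k + 1) (allOps G L r k T) (fun _ => 2) := by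
  unfold allOps
  apply valid_bot _ (k + 1) le_rfl
  apply valid_body hC hk hL _ _ T _ le_rfl
  · intro s' hs'
    have := valid_top (G := G) (k := k) hC hL hT s' hs' k [] le_rfl trivial
    rw [List.append_nil] at this
    exact this
  · intro i h1 h2
    show (if 1 ≤ i ∧ i ≤ k + 1 then (0 : ℤ) else 2) = _
    rw [if_pos ⟨h1, h2⟩, (hL i 0).2 (by omega)]
    simp [lst]

end Validity

end Pool.Agent.Helper70.BLB
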