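import Mathlib
import Pool.Agent.Helper70.BLB.Model

/-!
Positivity of the chromatic polynomial of a graph with a grid model such that the graph minus the
root is bipartite.
-/

set_option autoImplicit false

namespace Pool.Agent.Helper70.BLB

open Polynomial

theorem Valid.ok {m : ℕ} : ∀ (ops : List Op) (s : ℕ → ℤ), Valid m ops s → ∀ o ∈ ops, o.ok m
  | [], _, _, o, ho => by simp at ho
  | (Op.J i :: ops), s, hv, o, ho => by
    obtain ⟨h1, h2⟩ := hv
    rcases List.mem_cons.1 ho with rfl | ho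
    · exact h1
    · rcases h2 with h2 | h2
      · exact Valid.ok ops _ h2.2.2.2 o ho
      · exact Valid.ok ops _ h2.2.2 o ho
  | (Op.H i :: ops), s, hv, o, ho => by
    obtain ⟨h1, h2, _⟩ := hv
    rcases List.mem_cons.1 ho with rfl | ho
    · exact h1
    · exact Valid.ok ops _ h2 o ho
  | (Op.D i :: ops), s, hv, o, ho => by
    obtain ⟨h1, h2, x, _, h3⟩ := hv
    rcases List.mem_cons.1 ho with rfl | ho
    · exact ⟨h1, h2⟩
    · exact Valid.ok ops _ h3 o ho
  | (Op.V i :: ops), s, hv, o, ho => by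
    obtain ⟨h1, h2, x, _, _, h3⟩ := hv
    rcases List.mem_cons.1 ho with rfl | ho
    · exact ⟨h1, h2⟩
    · exact Valid.ok ops _ h3 o ho

theorem cδ_inj : Function.Injective cδ := by
  intro a b h
  have := congrArg (fun x => x ^ 2) h
  simp only [cδ_sq] at this
  have h2 : (a : ℝ) = b := by linarith
  exact_mod_cast h2

/-- Positivity from a grid model. -/
theorem grid_pos {V : Type} {G : SimpleGraph V} {r : V} {k T : ℕ}
    {L : ℕ → ℕ → Option V} (M : GridModel G r k T L) (hk : 1 ≤ k) (hT : 1 ≤ T) {cl : V → ℤ}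
    (hC : Cls G r cl) (p : ℝ[X])
    (hp : ∀ n : ℕ, p.eval (n : ℝ) = (Nat.card (G.Coloring (Fin n)) : ℝ)) {q : ℝ} (hq : 4 ≤ q) :
    0 < p.eval q := by
  classical
  set δ : ℝ := Real.sqrt q with hδdef
  have hδ : 2 ≤ δ := by
    rw [hδdef]
    apply Real.le_sqrt_of_sq_le
    linarith
  have hδ2 : δ ^ 2 = q := by
    rw [hδdef]
    exact Real.sq_sqrt (by linarith)
  have hval := valid_all hC hk hT M.frame
  obtain ⟨Q, K, hcol, hhe⟩ := transfer hδ (k + 1) (allOps G L r k T)
    (Valid.ok _ _ hval)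
  have hQ : 0 < Q.eval δ := by
    refine height_pos hδ (s := fun _ => 2) (fun i _ _ => Or.inr (Or.inr rfl)) hval hhe
  set a : ℕ := Fintype.card (NonePt k T L) with ha
  have key : (X ^ (K + 2 * a) * p.comp (X ^ 2) : ℝ[X]) = Q * X ^ (k + 3) := by
    apply Polynomial.eq_of_infinite_eval_eq
    apply Set.Infinite.mono _ (Set.infinite_range_of_injective cδ_inj)
    rintro _ ⟨n, rfl⟩
    show eval (cδ n) (X ^ (K + 2 * a) * p.comp (X ^ 2)) = eval (cδ n) (Q * X ^ (k + 3))
    have h1 : ∀ ρ : Fin (n + 1), cδ n ^ K * (∑ X : Fin T → Fin k → Fin (n + 1),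
        if gridOK G L X ρ then (1 : ℝ) else 0) = Q.eval (cδ n) * cδ n ^ (k + 1) := by
      intro ρ
      have h2 := color_eval (C := Fin (n + 1)) (cδ_pos n) (by rw [cδ_sq]; simp) (hcol n)
        (fun _ => ρ)
      rw [count_all M.frame] at h2
      exact h2
    have h3 := M.sum_count (C := Fin (n + 1))
    have h4 : cδ n ^ K * ((Nat.card (G.Coloring (Fin (n + 1))) : ℝ) *
        (Fintype.card (Fin (n + 1)) : ℝ) ^ a) = ((n : ℝ) + 1) * (Q.eval (cδ n) * cδ n ^ (k + 1)) := by
      rw [← h3, Finset.mul_sum, Finset.sum_congr rfl (fun ρ _ => h1 ρ), Finset.sum_const,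
        Finset.card_univ, Fintype.card_fin, nsmul_eq_mul]
      push_cast
      ring
    rw [eval_mul, eval_mul, eval_comp, eval_pow, eval_pow, eval_pow, eval_X, cδ_sq]
    have h5 := hp (n + 1)
    push_cast at h5
    rw [h5, pow_add, pow_mul, cδ_sq, show k + 3 = (k + 1) + 2 by ring, pow_add (cδ n) (k + 1) 2,
      cδ_sq]
    rw [Fintype.card_fin] at h4
    push_cast at h4
    linear_combination h4
  have h6 := congrArg (fun P : ℝ[X] => P.eval δ) key
  simp only [eval_mul, eval_pow, eval_X, eval_comp, hδ2] at h6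
  have hδ0 : 0 < δ := by linarith
  have h7 : 0 < δ ^ (K + 2 * a) * p.eval q := by
    rw [h6]; positivity
  exact (pos_iff_pos_of_mul_pos h7).1 (by positivity)

end Pool.Agent.Helper70.BLB
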