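import Mathlib

/-!
Discretisation of connected subsets of the plane.
-/

set_option autoImplicit false

namespace Pool.Agent.Helper70.BLB

open Topology Filter

/-- Adjacency in the square lattice. -/
def zadj (a b : ℤ × ℤ) : Prop :=
  (a.1 = b.1 ∧ (b.2 = a.2 + 1 ∨ a.2 = b.2 + 1)) ∨ (a.2 = b.2 ∧ (b.1 = a.1 + 1 ∨ a.1 = b.1 + 1))

theorem zadj.symm {a b : ℤ × ℤ} (h : zadj a b) : zadj b a := by
  unfold zadj at *
  omega

/-- Connection by a lattice walk inside `S`. -/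
def Zc (S : Set (ℤ × ℤ)) (p q : ℤ × ℤ) : Prop :=
  Relation.ReflTransGen (fun a b => zadj a b ∧ a ∈ S ∧ b ∈ S) p q

theorem Zc.trans {S : Set (ℤ × ℤ)} {p q r : ℤ × ℤ} (h1 : Zc S p q) (h2 : Zc S q r) : Zc S p r :=
  Relation.ReflTransGen.trans h1 h2

theorem Zc.refl {S : Set (ℤ × ℤ)} (p : ℤ × ℤ) : Zc S p p := Relation.ReflTransGen.refl

theorem Zc.symm {S : Set (ℤ × ℤ)} {p q : ℤ × ℤ} (h : Zc S p q) : Zc S q p := by
  induction h with
  | refl => exact Zc.refl _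
  | tail _ hbc ih =>
    exact Zc.trans (Relation.ReflTransGen.single ⟨hbc.1.symm, hbc.2.2, hbc.2.1⟩) ih

theorem Zc.mono {S S' : Set (ℤ × ℤ)} (hS : S ⊆ S') {p q : ℤ × ℤ} (h : Zc S p q) : Zc S' p q := by
  induction h with
  | refl => exact Zc.refl _
  | tail _ hbc ih =>
    exact Zc.trans ih (Relation.ReflTransGen.single ⟨hbc.1, hS hbc.2.1, hS hbc.2.2⟩)

/-- Lattice points near a point of the plane. -/
def near (η : ℝ) (x : ℝ × ℝ) : Set (ℤ × ℤ) :=
  {p | |(p.1 : ℝ) * η - x.1| < η ∧ |(p.2 : ℝ) * η - x.2| < η}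

/-- Lattice points near a set of the plane. -/
def NN (η : ℝ) (A : Set (ℝ × ℝ)) : Set (ℤ × ℤ) := {p | ∃ x ∈ A, p ∈ near η x}

theorem near_nonempty {η : ℝ} (hη : 0 < η) (x : ℝ × ℝ) : (near η x).Nonempty := by
  have aux : ∀ y : ℝ, |((⌊y / η⌋ : ℤ) : ℝ) * η - y| < η := by
    intro y
    have h1 := Int.floor_le (y / η)
    have h2 := Int.lt_floor_add_one (y / η)
    have h3 : (⌊y / η⌋ : ℝ) * η ≤ y := (le_div_iff₀ hη).1 h1
    have h4 : y < ((⌊y / η⌋ : ℝ) + 1) * η := (div_lt_iff₀ hη).1 h2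
    rw [abs_lt]
    constructor <;> nlinarith
  exact ⟨(⌊x.1 / η⌋, ⌊x.2 / η⌋), aux _, aux _⟩

theorem near_close {η : ℝ} (hη : 0 < η) {y : ℝ} {a b : ℤ} (ha : |(a : ℝ) * η - y| < η)
    (hb : |(b : ℝ) * η - y| < η) : a = b ∨ a = b + 1 ∨ b = a + 1 := by
  rw [abs_lt] at ha hb
  have h1 : (a : ℝ) - b < 2 := by
    by_contra h
    push Not at h
    nlinarith
  have h2 : (b : ℝ) - a < 2 := by
    by_contra h
    push Not at h
    nlinarith
  have h3 : a - b < 2 := by exact_mod_cast h1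
  have h4 : b - a < 2 := by exact_mod_cast h2
  omega

theorem near_conn {η : ℝ} (hη : 0 < η) {x : ℝ × ℝ} {p q : ℤ × ℤ} (hp : p ∈ near η x)
    (hq : q ∈ near η x) : Zc (near η x) p q := by
  have hm : (q.1, p.2) ∈ near η x := ⟨hq.1, hp.2⟩
  have h1 : Zc (near η x) p (q.1, p.2) := by
    rcases near_close hη hp.1 hq.1 with h | h | h
    · rw [← h]; exact Zc.refl _
    · exact Relation.ReflTransGen.single ⟨Or.inr ⟨rfl, Or.inr h⟩, hp, hm⟩
    · exact Relation.ReflTransGen.single ⟨Or.inr ⟨rfl, Or.inl h⟩, hp, hm⟩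
  have h2 : Zc (near η x) (q.1, p.2) q := by
    rcases near_close hη hp.2 hq.2 with h | h | h
    · rw [h]; exact Zc.refl _
    · exact Relation.ReflTransGen.single ⟨Or.inl ⟨rfl, Or.inr h⟩, hm, hq⟩
    · exact Relation.ReflTransGen.single ⟨Or.inl ⟨rfl, Or.inl h⟩, hm, hq⟩
  exact h1.trans h2

theorem near_subset_NN {η : ℝ} {A : Set (ℝ × ℝ)} {x : ℝ × ℝ} (hx : x ∈ A) : near η x ⊆ NN η A :=
  fun _ hp => ⟨x, hx, hp⟩

/-- The lattice neighbourhood of a preconnected set is connected. -/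
theorem NN_conn {η : ℝ} (hη : 0 < η) {A : Set (ℝ × ℝ)} (hA : IsPreconnected A) {p q : ℤ × ℤ}
    (hp : p ∈ NN η A) (hq : q ∈ NN η A) : Zc (NN η A) p q := by
  obtain ⟨x, hx, hpx⟩ := hp
  obtain ⟨y, hy, hqy⟩ := hq
  have key : ∀ p ∈ near η x, ∀ q ∈ near η y, Zc (NN η A) p q := by
    refine hA.induction₂ (fun x y => ∀ p ∈ near η x, ∀ q ∈ near η y, Zc (NN η A) p q)
      ?_ ?_ ?_ hx hy
    · intro x hx
      obtain ⟨c, hc⟩ := near_nonempty hη x
      have hev : ∀ᶠ y in 𝓝 x, c ∈ near η y := by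
        have h1 : ContinuousAt (fun y : ℝ × ℝ => |(c.1 : ℝ) * η - y.1|) x := by fun_prop
        have h2 : ContinuousAt (fun y : ℝ × ℝ => |(c.2 : ℝ) * η - y.2|) x := by fun_prop
        filter_upwards [h1.eventually (eventually_lt_nhds hc.1),
          h2.eventually (eventually_lt_nhds hc.2)] with y h3 h4
        exact ⟨h3, h4⟩
      filter_upwards [mem_nhdsWithin_of_mem_nhds hev, self_mem_nhdsWithin] with y hcy hyA
      intro p hp q hq
      exact ((near_conn hη hp hc).mono (near_subset_NN hx)).trans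
        ((near_conn hη hcy hq).mono (near_subset_NN hyA))
    · intro x y z _ _ _ hxy hyz p hp q hq
      obtain ⟨c, hc⟩ := near_nonempty hη y
      exact (hxy p hp c hc).trans (hyz c hc q hq)
    · intro x y _ _ hxy p hp q hq
      exact (hxy q hq p hp).symm
  exact key p hpx q hqy

/-- Location of a lattice point. -/
def loc (η : ℝ) (p : ℤ × ℤ) : ℝ × ℝ := ((p.1 : ℝ) * η, (p.2 : ℝ) * η)

theorem mem_near_iff {η : ℝ} (x : ℝ × ℝ) (p : ℤ × ℤ) : p ∈ near η x ↔ dist (loc η p) x < η := by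
  rw [Prod.dist_eq, max_lt_iff, Real.dist_eq, Real.dist_eq]
  rfl

/-- Disjoint closed sets have disjoint lattice neighbourhoods inside a ball, for small mesh. -/
theorem eventually_sep {A B : Set (ℝ × ℝ)} (hA : IsClosed A) (hB : IsClosed B)
    (hAB : Disjoint A B) (R : ℝ) :
    ∀ᶠ η in 𝓝[>] (0 : ℝ), ∀ p : ℤ × ℤ, ‖loc η p‖ ≤ R → p ∈ NN η A → p ∈ NN η B → False := by
  have hA' : IsCompact (A ∩ Metric.closedBall 0 (R + 1)) :=
    (isCompact_closedBall (0 : ℝ × ℝ) (R + 1)).inter_left hA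
  obtain ⟨δ, hδ, hdis⟩ := (hAB.mono_left Set.inter_subset_left).exists_thickenings
    (s := A ∩ Metric.closedBall 0 (R + 1)) hA' hB
  have h1 : ∀ᶠ η in 𝓝[>] (0 : ℝ), η < min δ 1 :=
    eventually_nhdsWithin_of_eventually_nhds (eventually_lt_nhds (by positivity))
  filter_upwards [h1, self_mem_nhdsWithin] with η hη hη0 p hp hpA hpB
  obtain ⟨x, hx, hpx⟩ := hpA
  obtain ⟨y, hy, hpy⟩ := hpB
  rw [mem_near_iff] at hpx hpy
  have hηδ : η < δ := lt_of_lt_of_le hη (min_le_left _ _)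
  have hη1 : η < 1 := lt_of_lt_of_le hη (min_le_right _ _)
  have hxR : x ∈ Metric.closedBall (0 : ℝ × ℝ) (R + 1) := by
    rw [Metric.mem_closedBall, dist_zero_right]
    have h2 : ‖x‖ ≤ ‖loc η p‖ + dist (loc η p) x := by
      rw [dist_eq_norm]
      calc ‖x‖ = ‖loc η p - (loc η p - x)‖ := by congr 1; abel
        _ ≤ _ := norm_sub_le _ _
    linarith
  refine (Set.disjoint_left.1 hdis) (?_ : loc η p ∈ _) ?_
  · rw [Metric.mem_thickening_iff]
    exact ⟨x, ⟨hx, hxR⟩, lt_trans hpx hηδ⟩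
  · rw [Metric.mem_thickening_iff]
    exact ⟨y, hy, lt_trans hpy hηδ⟩

end Pool.Agent.Helper70.BLB
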