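import Mathlib
import Pool.Agent.Helper70.BLB.Disc
import Pool.Agent.Helper70.BLB.Model

/-!
Grid models from lattice neighbourhoods of the sets of a plane model.
-/

set_option autoImplicit false

namespace Pool.Agent.Helper70.BLB

/-- The lattice box. -/
def ZBox (n : ℕ) : Set (ℤ × ℤ) := {p | (-(n : ℤ) ≤ p.1 ∧ p.1 ≤ n) ∧ (-(n : ℤ) ≤ p.2 ∧ p.2 ≤ n)}

/-- Lattice version of a plane model. -/
structure DiscModel {V : Type} (G : SimpleGraph V) (r : V) (O : V → V → Prop)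
    (NK : V → Set (ℤ × ℤ)) (NM : V → V → Set (ℤ × ℤ)) (n : ℕ) : Prop where
  orient : ∀ u v, G.Adj u v → O u v ∨ O v u
  irr : ∀ u v, O u v → u ≠ v
  root : ∀ v, ¬ O r v
  Kne : ∀ v, v ≠ r → (NK v).Nonempty
  Kbox : ∀ v, v ≠ r → NK v ⊆ ZBox n
  Kconn : ∀ v, v ≠ r → ∀ p ∈ NK v, ∀ q ∈ NK v, Zc (NK v) p q
  Mconn : ∀ u v, O u v → ∀ p ∈ NM u v, ∀ q ∈ NM u v, Zc (NM u v) p q
  Mbox : ∀ u v, O u v → v ≠ r → NM u v ⊆ ZBox n
  Mtail : ∀ u v, O u v → (NM u v ∩ NK u).Nonempty
  Mhead : ∀ u v, O u v → v ≠ r → (NM u v ∩ NK v).Nonempty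
  Mout : ∀ u, O u r → ∃ p ∈ NM u r, p ∉ ZBox n
  KK : ∀ u v, u ≠ r → v ≠ r → ∀ p ∈ ZBox n, p ∈ NK u → p ∈ NK v → u = v
  MK : ∀ u v w, O u v → w ≠ r → ∀ p ∈ ZBox n, p ∈ NM u v → p ∈ NK w → w = u ∨ w = v
  MM : ∀ u v u' v', O u v → O u' v' → ∀ p ∈ ZBox n, p ∈ NM u v → p ∈ NM u' v' → u = u'

section

variable {V : Type} {G : SimpleGraph V} {r : V} {O : V → V → Prop}
  {NK : V → Set (ℤ × ℤ)} {NM : V → V → Set (ℤ × ℤ)} {n : ℕ}

/-- The support of the branch set of `u`. -/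
def Supp (r : V) (O : V → V → Prop) (NK : V → Set (ℤ × ℤ)) (NM : V → V → Set (ℤ × ℤ)) (n : ℕ)
    (u : V) : Set (ℤ × ℤ) :=
  NK u ∪ {b | b ∈ ZBox n ∧ (∃ v, O u v ∧ b ∈ NM u v) ∧ ∀ w, w ≠ r → b ∉ NK w}

/-- The branch set of `u`. -/
def Br (r : V) (O : V → V → Prop) (NK : V → Set (ℤ × ℤ)) (NM : V → V → Set (ℤ × ℤ)) (n : ℕ)
    (u : V) : Set (ℤ × ℤ) :=
  {p | ∃ p0 ∈ NK u, Zc (Supp r O NK NM n u) p0 p}

theorem NK_subset_Br (u : V) : NK u ⊆ Br r O NK NM n u := fun p hp => ⟨p, hp, Zc.refl p⟩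

theorem Br_subset_Supp (u : V) : Br r O NK NM n u ⊆ Supp r O NK NM n u := by
  rintro p ⟨p0, hp0, hc⟩
  rcases Relation.ReflTransGen.cases_tail hc with h | ⟨c, _, h⟩
  · rw [h]; exact Or.inl hp0
  · exact h.2.2

theorem Br_step {u : V} {a b : ℤ × ℤ} (ha : a ∈ Br r O NK NM n u) (hab : zadj a b)
    (hb : b ∈ Supp r O NK NM n u) : b ∈ Br r O NK NM n u := by
  obtain ⟨p0, hp0, hc⟩ := ha
  have ha' : a ∈ Supp r O NK NM n u := Br_subset_Supp u ⟨p0, hp0, hc⟩
  exact ⟨p0, hp0, hc.trans (Relation.ReflTransGen.single ⟨hab, ha', hb⟩)⟩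

theorem Br_from {u : V} {p0 p : ℤ × ℤ} (hp0 : p0 ∈ NK u) (hc : Zc (Supp r O NK NM n u) p0 p) :
    Zc (Br r O NK NM n u) p0 p := by
  induction hc with
  | refl => exact Zc.refl _
  | @tail b c h hbc ih =>
    refine ih.trans (Relation.ReflTransGen.single ⟨hbc.1, ⟨p0, hp0, h⟩, ?_⟩)
    exact ⟨p0, hp0, Zc.trans h (Relation.ReflTransGen.single hbc)⟩

theorem DiscModel.Br_conn (D : DiscModel G r O NK NM n) {u : V} (hu : u ≠ r) {p q : ℤ × ℤ}
    (hp : p ∈ Br r O NK NM n u) (hq : q ∈ Br r O NK NM n u) : Zc (Br r O NK NM n u) p q := by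
  obtain ⟨p0, hp0, hpc⟩ := hp
  obtain ⟨q0, hq0, hqc⟩ := hq
  exact (Br_from hp0 hpc).symm.trans
    (((D.Kconn u hu p0 hp0 q0 hq0).mono (NK_subset_Br u)).trans (Br_from hq0 hqc))

theorem DiscModel.Br_box (D : DiscModel G r O NK NM n) {u : V} (hu : u ≠ r) :
    Br r O NK NM n u ⊆ ZBox n := by
  intro p hp
  rcases Br_subset_Supp u hp with h | h
  · exact D.Kbox u hu h
  · exact h.1

theorem DiscModel.Br_disj (D : DiscModel G r O NK NM n) {u v : V} (hu : u ≠ r) (hv : v ≠ r)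
    {p : ℤ × ℤ} (hpu : p ∈ Br r O NK NM n u) (hpv : p ∈ Br r O NK NM n v) : u = v := by
  have hbox := D.Br_box hu hpu
  rcases Br_subset_Supp u hpu with h1 | h1
  · rcases Br_subset_Supp v hpv with h2 | h2
    · exact D.KK u v hu hv p hbox h1 h2
    · exact absurd h1 (h2.2.2 u hu)
  · rcases Br_subset_Supp v hpv with h2 | h2
    · exact absurd h2 (h1.2.2 v hv)
    · obtain ⟨w, hw, hpw⟩ := h1.2.1
      obtain ⟨w', hw', hpw'⟩ := h2.2.1
      exact D.MM u w v w' hw hw' p hbox hpw hpw'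

open Classical in
/-- The label of a lattice point. -/
noncomputable def lab (r : V) (O : V → V → Prop) (NK : V → Set (ℤ × ℤ))
    (NM : V → V → Set (ℤ × ℤ)) (n : ℕ) (p : ℤ × ℤ) : Option V :=
  if p ∉ ZBox n then some r
  else if h : ∃ u, u ≠ r ∧ p ∈ Br r O NK NM n u then some h.choose else none

theorem lab_root (p : ℤ × ℤ) :
    lab r O NK NM n p = some r ↔ p ∉ ZBox n := by
  unfold lab
  constructor
  · intro h
    by_contra hp
    rw [if_neg (by simpa using hp)] at h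
    split_ifs at h with h2
    rw [Option.some_inj] at h
    exact h2.choose_spec.1 h
  · intro h
    rw [if_pos h]

theorem lab_vert (D : DiscModel G r O NK NM n) {u : V} (hu : u ≠ r) (p : ℤ × ℤ) :
    lab r O NK NM n p = some u ↔ p ∈ Br r O NK NM n u := by
  unfold lab
  constructor
  · intro h
    by_cases hp : p ∉ ZBox n
    · rw [if_pos hp, Option.some_inj] at h
      exact absurd h.symm hu
    · rw [if_neg hp] at h
      split_ifs at h with h2
      rw [Option.some_inj] at h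
      rw [← h]
      exact h2.choose_spec.2
  · intro h
    have hp : ¬ p ∉ ZBox n := not_not.2 (D.Br_box hu h)
    rw [if_neg hp]
    have h2 : ∃ u, u ≠ r ∧ p ∈ Br r O NK NM n u := ⟨u, hu, h⟩
    rw [dif_pos h2, Option.some_inj]
    exact D.Br_disj h2.choose_spec.1 hu h2.choose_spec.2 h

/-- A walk leaving a set has a leaving step. -/
theorem exists_exit {S B : Set (ℤ × ℤ)} {p q : ℤ × ℤ} (h : Zc S p q) (hp : p ∈ B) (hq : q ∉ B) :
    ∃ a b, zadj a b ∧ a ∈ S ∧ b ∈ S ∧ a ∈ B ∧ b ∉ B := by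
  induction h with
  | refl => exact absurd hp hq
  | @tail b c _ hbc ih =>
    by_cases hb : b ∈ B
    · exact ⟨b, c, hbc.1, hbc.2.1, hbc.2.2, hb, hq⟩
    · exact ih hb

theorem DiscModel.edge (D : DiscModel G r O NK NM n) {u v : V} (h : O u v) :
    ∃ a b, zadj a b ∧ lab r O NK NM n a = some u ∧ lab r O NK NM n b = some v := by
  have hu : u ≠ r := fun hu => D.root v (hu ▸ h)
  obtain ⟨p0, hp0M, hp0K⟩ := D.Mtail u v h
  by_cases hv : v = r
  · subst hv
    obtain ⟨q0, hq0, hq0b⟩ := D.Mout u h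
    have hq0B : q0 ∉ Br v O NK NM n u := fun hh => hq0b (D.Br_box hu hh)
    obtain ⟨a, b, hab, haM, hbM, haB, hbB⟩ :=
      exists_exit (D.Mconn u v h p0 hp0M q0 hq0) (NK_subset_Br u hp0K) hq0B
    refine ⟨a, b, hab, (lab_vert D hu a).2 haB, (lab_root b).2 ?_⟩
    intro hbox
    apply hbB
    apply Br_step haB hab
    by_cases hbK : b ∈ NK u
    · exact Or.inl hbK
    · refine Or.inr ⟨hbox, ⟨v, h, hbM⟩, fun w hw hbw => ?_⟩
      rcases D.MK u v w h hw b hbox hbM hbw with h1 | h1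
      · exact hbK (h1 ▸ hbw)
      · exact hw h1
  · obtain ⟨q0, hq0M, hq0K⟩ := D.Mhead u v h hv
    have huv : u ≠ v := D.irr u v h
    have hq0B : q0 ∉ Br r O NK NM n u := fun hh =>
      huv (D.Br_disj hu hv hh (NK_subset_Br v hq0K))
    obtain ⟨a, b, hab, haM, hbM, haB, hbB⟩ :=
      exists_exit (D.Mconn u v h p0 hp0M q0 hq0M) (NK_subset_Br u hp0K) hq0B
    have hbox : b ∈ ZBox n := D.Mbox u v h hv hbM
    refine ⟨a, b, hab, (lab_vert D hu a).2 haB, (lab_vert D hv b).2 ?_⟩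
    apply NK_subset_Br
    by_contra hbKv
    apply hbB
    apply Br_step haB hab
    by_cases hbK : b ∈ NK u
    · exact Or.inl hbK
    · refine Or.inr ⟨hbox, ⟨v, h, hbM⟩, fun w hw hbw => ?_⟩
      rcases D.MK u v w h hw b hbox hbM hbw with h1 | h1
      · exact hbK (h1 ▸ hbw)
      · exact hbKv (h1 ▸ hbw)

/-- Coordinates of the lattice box shifted to natural numbers. -/
def shift (n : ℕ) (i j : ℕ) : ℤ × ℤ := ((i : ℤ) - (n + 1), (j : ℤ) - (n + 1))

/-- The inverse shift. -/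
def unshift (n : ℕ) (p : ℤ × ℤ) : ℕ × ℕ := ((p.1 + (n + 1)).toNat, (p.2 + (n + 1)).toNat)

theorem shift_unshift {n : ℕ} {p : ℤ × ℤ} (h1 : -((n : ℤ) + 1) ≤ p.1) (h2 : -((n : ℤ) + 1) ≤ p.2) :
    shift n (unshift n p).1 (unshift n p).2 = p := by
  unfold shift unshift
  apply Prod.ext
  · simp only; omega
  · simp only; omega

theorem unshift_shift (n i j : ℕ) : unshift n (shift n i j) = (i, j) := by
  unfold shift unshift
  apply Prod.ext
  · simp only; omega
  · simp only; omega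

theorem gadj_unshift {n : ℕ} {a b : ℤ × ℤ} (ha : a ∈ ZBox n) (hab : zadj a b) :
    gadj (unshift n a) (unshift n b) ∧ shift n (unshift n b).1 (unshift n b).2 = b := by
  obtain ⟨⟨h1, h2⟩, ⟨h3, h4⟩⟩ := ha
  unfold zadj at hab
  have h5 : -((n : ℤ) + 1) ≤ b.1 := by omega
  have h6 : -((n : ℤ) + 1) ≤ b.2 := by omega
  refine ⟨?_, shift_unshift h5 h6⟩
  unfold gadj unshift
  simp only
  omega

theorem gadj.symm {p q : ℕ × ℕ} (h : gadj p q) : gadj q p := by
  unfold gadj at *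
  omega

theorem DiscModel.gridModel (D : DiscModel G r O NK NM n) :
    GridModel G r (2 * n + 1) (2 * n + 1) (fun i j => lab r O NK NM n (shift n i j)) where
  frame i j := by
    rw [lab_root]
    unfold ZBox shift
    simp only [Set.mem_ofPred_eq]
    omega
  conn v hv p q hp hq := by
    rw [lab_vert D hv] at hp hq
    have h := D.Br_conn hv hp hq
    have key : ∀ c, Zc (Br r O NK NM n v) (shift n p.1 p.2) c →
        Relation.ReflTransGen (fun a b => gadj a b ∧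
          lab r O NK NM n (shift n a.1 a.2) = some v ∧
          lab r O NK NM n (shift n b.1 b.2) = some v) p (unshift n c) := by
      intro c hc
      induction hc with
      | refl => rw [unshift_shift]
      | @tail b c _ hbc ih =>
        refine ih.tail ?_
        have hb := D.Br_box hv hbc.2.1
        obtain ⟨h1, h2⟩ := gadj_unshift hb hbc.1
        refine ⟨h1, ?_, ?_⟩
        · rw [lab_vert D hv, shift_unshift (by have := hb.1.1; omega) (by have := hb.2.1; omega)]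
          exact hbc.2.1
        · rw [lab_vert D hv, h2]
          exact hbc.2.2
    have := key _ h
    rwa [unshift_shift] at this
  nonempty v := by
    by_cases hv : v = r
    · refine ⟨(0, 0), ?_⟩
      rw [hv, lab_root]
      unfold ZBox shift
      simp only [Set.mem_ofPred_eq]
      omega
    · obtain ⟨p, hp⟩ := D.Kne v hv
      have hb := D.Kbox v hv hp
      refine ⟨unshift n p, ?_⟩
      rw [lab_vert D hv, shift_unshift (by have := hb.1.1; omega) (by have := hb.2.1; omega)]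
      exact NK_subset_Br v hp
  edge u v huv := by
    have key : ∀ u v, O u v → ∃ p q : ℕ × ℕ, gadj p q ∧
        lab r O NK NM n (shift n p.1 p.2) = some u ∧
        lab r O NK NM n (shift n q.1 q.2) = some v := by
      intro u v h
      have hu : u ≠ r := fun hu => D.root v (hu ▸ h)
      obtain ⟨a, b, hab, ha, hb⟩ := D.edge h
      have hbox := D.Br_box hu ((lab_vert D hu a).1 ha)
      obtain ⟨h1, h2⟩ := gadj_unshift hbox hab
      refine ⟨unshift n a, unshift n b, h1, ?_, ?_⟩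
      · rw [shift_unshift (by have := hbox.1.1; omega) (by have := hbox.2.1; omega)]
        exact ha
      · rw [h2]; exact hb
    rcases D.orient u v huv with h | h
    · exact key u v h
    · obtain ⟨p, q, h1, h2, h3⟩ := key v u h
      exact ⟨q, p, h1.symm, h3, h2⟩

end

end Pool.Agent.Helper70.BLB
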