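import Mathlib

/-!
Plane models: closed sets in the plane representing a graph whose root is at infinity.
-/

set_option autoImplicit false

namespace Pool.Agent.Helper70.BLB

/-- A planar representation of `G` by closed sets of the plane with the root `r` at infinity:
vertices `v ≠ r` are compact connected sets `K v`, an edge oriented from `u` to `v` (`O u v`) is a
closed connected set `M u v` touching `K u` and `K v`, bounded if `v ≠ r` and unbounded if
`v = r`; all other pairs are disjoint. -/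
structure PlaneModel {V : Type} (G : SimpleGraph V) (r : V) (O : V → V → Prop)
    (K : V → Set (ℝ × ℝ)) (M : V → V → Set (ℝ × ℝ)) : Prop where
  oadj : ∀ u v, O u v → G.Adj u v
  orient : ∀ u v, G.Adj u v → O u v ∨ O v u
  root : ∀ v, ¬ O r v
  Kne : ∀ v, v ≠ r → (K v).Nonempty
  Kcomp : ∀ v, v ≠ r → IsCompact (K v)
  Kconn : ∀ v, v ≠ r → IsPreconnected (K v)
  Mclosed : ∀ u v, O u v → IsClosed (M u v)
  Mconn : ∀ u v, O u v → IsPreconnected (M u v)
  Mtail : ∀ u v, O u v → (M u v ∩ K u).Nonempty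
  Mhead : ∀ u v, O u v → v ≠ r → (M u v ∩ K v).Nonempty
  Mbdd : ∀ u v, O u v → v ≠ r → Bornology.IsBounded (M u v)
  Munbdd : ∀ u, O u r → ¬ Bornology.IsBounded (M u r)
  KK : ∀ u v, u ≠ r → v ≠ r → u ≠ v → Disjoint (K u) (K v)
  MK : ∀ u v w, O u v → w ≠ r → w ≠ u → w ≠ v → Disjoint (M u v) (K w)
  MM : ∀ u v u' v', O u v → O u' v' → (u ≠ u' ∨ v ≠ v') → Disjoint (M u v) (M u' v')

end Pool.Agent.Helper70.BLB
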