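import Mathlib
import Pool.Agent.Helper70.BLB.GridOfDisc
import Pool.Agent.Helper70.BLB.Plane

/-!
A plane model of a finite graph gives a lattice model.
-/

set_option autoImplicit false

namespace Pool.Agent.Helper70.BLB

open Topology Filter

theorem mem_ZBox_iff {n : ℕ} {η R : ℝ} (hη : 0 < η) (hn : (n : ℝ) * η = R) (p : ℤ × ℤ) :
    p ∈ ZBox n ↔ ‖loc η p‖ ≤ R := by
  have aux : ∀ a : ℤ, (-(n : ℤ) ≤ a ∧ a ≤ n) ↔ ‖(a : ℝ) * η‖ ≤ R := by
    intro a
    rw [Real.norm_eq_abs, abs_mul, abs_of_pos hη, ← hn, mul_le_mul_iff_left₀ hη, ← abs_le]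
    constructor
    · intro h
      have : ((|a| : ℤ) : ℝ) ≤ ((n : ℤ) : ℝ) := by exact_mod_cast h
      simpa using this
    · intro h
      have : ((|a| : ℤ) : ℝ) ≤ ((n : ℤ) : ℝ) := by simpa using h
      exact_mod_cast this
  unfold ZBox loc
  rw [Prod.norm_def, max_le_iff]
  simp only [Set.mem_ofPred_eq]
  rw [aux, aux]

theorem near_norm {η : ℝ} {x : ℝ × ℝ} {p : ℤ × ℤ} (h : p ∈ near η x) :
    ‖loc η p‖ < ‖x‖ + η ∧ ‖x‖ < ‖loc η p‖ + η := by
  rw [mem_near_iff, dist_eq_norm] at h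
  constructor
  · have : ‖loc η p‖ ≤ ‖loc η p - x‖ + ‖x‖ := by
      calc ‖loc η p‖ = ‖(loc η p - x) + x‖ := by congr 1; abel
        _ ≤ _ := norm_add_le _ _
    linarith
  · have : ‖x‖ ≤ ‖loc η p - x‖ + ‖loc η p‖ := by
      calc ‖x‖ = ‖loc η p - (loc η p - x)‖ := by congr 1; abel
        _ ≤ ‖loc η p‖ + ‖loc η p - x‖ := norm_sub_le _ _
        _ = _ := by ring
    linarith

theorem discModel_of_planeModel {V : Type} [Finite V] {G : SimpleGraph V} {r : V}
    {O : V → V → Prop} {K : V → Set (ℝ × ℝ)} {M : V → V → Set (ℝ × ℝ)}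
    (PM : PlaneModel G r O K M) : ∃ (NK : V → Set (ℤ × ℤ)) (NM : V → V → Set (ℤ × ℤ)) (n : ℕ),
    DiscModel G r O NK NM n := by
  -- a large ball
  have hb1 : Bornology.IsBounded ((⋃ v, ⋃ (_ : v ≠ r), K v) ∪
      ⋃ u, ⋃ v, ⋃ (_ : O u v ∧ v ≠ r), M u v) := by
    apply Bornology.IsBounded.union
    · rw [Bornology.isBounded_iUnion]
      intro v
      by_cases hv : v ≠ r
      · exact (PM.Kcomp v hv).isBounded.subset (Set.iUnion_subset fun _ => subset_rfl)
      · exact (Bornology.isBounded_empty (α := ℝ × ℝ)).subset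
          (Set.iUnion_subset fun h => absurd h hv)
    · rw [Bornology.isBounded_iUnion]
      intro u
      rw [Bornology.isBounded_iUnion]
      intro v
      by_cases hv : O u v ∧ v ≠ r
      · exact (PM.Mbdd u v hv.1 hv.2).subset (Set.iUnion_subset fun _ => subset_rfl)
      · exact (Bornology.isBounded_empty (α := ℝ × ℝ)).subset
          (Set.iUnion_subset fun h => absurd h hv)
  obtain ⟨R0, hR0⟩ := hb1.subset_closedBall 0
  have hKR : ∀ v, v ≠ r → ∀ x ∈ K v, ‖x‖ ≤ max R0 0 := by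
    intro v hv x hx
    have : x ∈ Metric.closedBall (0 : ℝ × ℝ) R0 := hR0 (Or.inl (by
      simp only [Set.mem_iUnion]; exact ⟨v, hv, hx⟩))
    rw [Metric.mem_closedBall, dist_zero_right] at this
    exact this.trans (le_max_left _ _)
  have hMR : ∀ u v, O u v → v ≠ r → ∀ x ∈ M u v, ‖x‖ ≤ max R0 0 := by
    intro u v huv hv x hx
    have : x ∈ Metric.closedBall (0 : ℝ × ℝ) R0 := hR0 (Or.inr (by
      simp only [Set.mem_iUnion]; exact ⟨u, v, ⟨huv, hv⟩, hx⟩))
    rw [Metric.mem_closedBall, dist_zero_right] at this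
    exact this.trans (le_max_left _ _)
  set R : ℝ := max R0 0 + 1 with hR
  have hRpos : 0 < R := by positivity
  -- separation
  have e1 : ∀ᶠ η in 𝓝[>] (0 : ℝ), ∀ u v, u ≠ r → v ≠ r → u ≠ v → ∀ p : ℤ × ℤ,
      ‖loc η p‖ ≤ R → p ∈ NN η (K u) → p ∈ NN η (K v) → False := by
    simp only [eventually_all]
    intro u v hu hv huv
    exact eventually_sep (PM.Kcomp u hu).isClosed (PM.Kcomp v hv).isClosed
      (PM.KK u v hu hv huv) R
  have e2 : ∀ᶠ η in 𝓝[>] (0 : ℝ), ∀ u v w, O u v → w ≠ r → w ≠ u → w ≠ v → ∀ p : ℤ × ℤ,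
      ‖loc η p‖ ≤ R → p ∈ NN η (M u v) → p ∈ NN η (K w) → False := by
    simp only [eventually_all]
    intro u v w h hw hwu hwv
    exact eventually_sep (PM.Mclosed u v h) (PM.Kcomp w hw).isClosed (PM.MK u v w h hw hwu hwv) R
  have e3 : ∀ᶠ η in 𝓝[>] (0 : ℝ), ∀ u v u' v', O u v → O u' v' → (u ≠ u' ∨ v ≠ v') →
      ∀ p : ℤ × ℤ, ‖loc η p‖ ≤ R → p ∈ NN η (M u v) → p ∈ NN η (M u' v') → False := by
    simp only [eventually_all]
    intro u v u' v' h h' hne
    exact eventually_sep (PM.Mclosed u v h) (PM.Mclosed u' v' h') (PM.MM u v u' v' h h' hne) R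
  have e4 : ∀ᶠ η in 𝓝[>] (0 : ℝ), η < 1 :=
    eventually_nhdsWithin_of_eventually_nhds (eventually_lt_nhds one_pos)
  have ht : Tendsto (fun n : ℕ => R / (n : ℝ)) atTop (𝓝[>] 0) := by
    rw [tendsto_nhdsWithin_iff]
    refine ⟨tendsto_const_div_atTop_nhds_zero_nat R, ?_⟩
    filter_upwards [eventually_gt_atTop 0] with n hn
    have : (0 : ℝ) < n := by exact_mod_cast hn
    exact div_pos hRpos this
  obtain ⟨n, ⟨⟨⟨⟨h1, h2⟩, h3⟩, h4⟩, hn0⟩⟩ :=
    ((ht.eventually (((e1.and e2).and e3).and e4)).and (eventually_gt_atTop 0)).exists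
  set η : ℝ := R / (n : ℝ) with hηdef
  have hn0' : (0 : ℝ) < n := by exact_mod_cast hn0
  have hη : 0 < η := div_pos hRpos hn0'
  have hnη : (n : ℝ) * η = R := by
    rw [hηdef]; field_simp
  have hbox := fun p => mem_ZBox_iff hη hnη p
  refine ⟨fun v => NN η (K v), fun u v => NN η (M u v), n, ?_⟩
  have hKin : ∀ v, v ≠ r → NN η (K v) ⊆ ZBox n := by
    rintro v hv p ⟨x, hx, hp⟩
    rw [hbox]
    have a1 := (near_norm hp).1
    have a2 := hKR v hv x hx
    rw [hR]; linarith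
  constructor
  · exact PM.orient
  · exact fun u v h => (PM.oadj u v h).ne
  · exact PM.root
  · intro v hv
    obtain ⟨x, hx⟩ := PM.Kne v hv
    obtain ⟨p, hp⟩ := near_nonempty hη x
    exact ⟨p, x, hx, hp⟩
  · exact hKin
  · intro v hv p hp q hq
    exact NN_conn hη (PM.Kconn v hv) hp hq
  · intro u v h p hp q hq
    exact NN_conn hη (PM.Mconn u v h) hp hq
  · rintro u v h hv p ⟨x, hx, hp⟩
    rw [hbox]
    have a1 := (near_norm hp).1
    have a2 := hMR u v h hv x hx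
    rw [hR]; linarith
  · intro u v h
    obtain ⟨x, hx1, hx2⟩ := PM.Mtail u v h
    obtain ⟨p, hp⟩ := near_nonempty hη x
    exact ⟨p, ⟨x, hx1, hp⟩, ⟨x, hx2, hp⟩⟩
  · intro u v h hv
    obtain ⟨x, hx1, hx2⟩ := PM.Mhead u v h hv
    obtain ⟨p, hp⟩ := near_nonempty hη x
    exact ⟨p, ⟨x, hx1, hp⟩, ⟨x, hx2, hp⟩⟩
  · intro u h
    have hnb := PM.Munbdd u h
    have : ∃ x ∈ M u r, R + 1 < ‖x‖ := by
      by_contra hcon
      push Not at hcon
      apply hnb
      exact Metric.isBounded_closedBall.subset (fun x hx => by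
        rw [Metric.mem_closedBall, dist_zero_right]
        exact hcon x hx : M u r ⊆ Metric.closedBall 0 (R + 1))
    obtain ⟨x, hx, hxR⟩ := this
    obtain ⟨p, hp⟩ := near_nonempty hη x
    refine ⟨p, ⟨x, hx, hp⟩, ?_⟩
    rw [hbox]
    have a1 := (near_norm hp).2
    push Not
    linarith
  · intro u v hu hv p hp hpu hpv
    by_contra huv
    exact h1 u v hu hv huv p ((hbox p).1 hp) hpu hpv
  · intro u v w h hw p hp hpM hpK
    by_contra hcon
    push Not at hcon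
    exact h2 u v w h hw hcon.1 hcon.2 p ((hbox p).1 hp) hpM hpK
  · intro u v u' v' h h' p hp hpM hpM'
    by_contra hcon
    exact h3 u v u' v' h h' (Or.inl hcon) p ((hbox p).1 hp) hpM hpM'

/-- A plane model of a finite graph gives a grid model. -/
theorem gridModel_of_planeModel {V : Type} [Finite V] {G : SimpleGraph V} {r : V}
    {O : V → V → Prop} {K : V → Set (ℝ × ℝ)} {M : V → V → Set (ℝ × ℝ)}
    (PM : PlaneModel G r O K M) : ∃ (k T : ℕ) (L : ℕ → ℕ → Option V),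
    1 ≤ k ∧ 1 ≤ T ∧ GridModel G r k T L := by
  obtain ⟨NK, NM, n, D⟩ := discModel_of_planeModel PM
  exact ⟨2 * n + 1, 2 * n + 1, _, by omega, by omega, D.gridModel⟩

end Pool.Agent.Helper70.BLB
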