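import Mathlib

/-!
Inversion of the plane about a point.
-/

set_option autoImplicit false

namespace Pool.Agent.Helper70.BLB

open Topology Filter

/-- Inversion about the point `c` (extended by zero at `c`). -/
noncomputable def iota (c : ℝ × ℝ) (x : ℝ × ℝ) : ℝ × ℝ :=
  Complex.equivRealProdCLM ((Complex.equivRealProdCLM.symm (x - c))⁻¹)

theorem iota_inj (c : ℝ × ℝ) : Function.Injective (iota c) := by
  intro x y h
  unfold iota at h
  have h1 := Complex.equivRealProdCLM.injective h
  have h2 := Complex.equivRealProdCLM.symm.injective (inv_injective h1)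
  exact sub_left_injective h2

theorem iota_cont (c : ℝ × ℝ) {s : Set (ℝ × ℝ)} (hs : c ∉ s) : ContinuousOn (iota c) s := by
  unfold iota
  apply Complex.equivRealProdCLM.continuous.comp_continuousOn
  apply ContinuousOn.inv₀
  · exact (Complex.equivRealProdCLM.symm.continuous.comp
      (continuous_id.sub continuous_const)).continuousOn
  · intro x hx h
    have h1 : x - c = 0 := by
      apply Complex.equivRealProdCLM.symm.injective
      rw [h, map_zero]
    exact hs (by rw [← sub_eq_zero.1 h1]; exact hx)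

theorem isClosed_inv_compact {B : Set ℂ} (hB : IsCompact B) :
    IsClosed {y : ℂ | y ≠ 0 ∧ y⁻¹ ∈ B} := by
  obtain ⟨R, hR⟩ := hB.isBounded.subset_closedBall 0
  set R' : ℝ := max R 1 with hR'
  have hRpos : 0 < R' := by positivity
  have hclosed : IsClosed {y : ℂ | 1 / R' ≤ ‖y‖} := isClosed_le continuous_const continuous_norm
  have hcont : ContinuousOn (fun y : ℂ => y⁻¹) {y : ℂ | 1 / R' ≤ ‖y‖} := by
    apply continuousOn_id.inv₀
    intro y hy h0
    have hy' : 1 / R' ≤ ‖y‖ := hy
    rw [show y = 0 from h0, norm_zero] at hy'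
    have : 0 < 1 / R' := by positivity
    linarith
  have h := hcont.preimage_isClosed_of_isClosed hclosed hB.isClosed
  convert h using 1
  ext y
  constructor
  · rintro ⟨h0, h1⟩
    refine ⟨?_, h1⟩
    have h2 := hR h1
    rw [Metric.mem_closedBall, dist_zero_right, norm_inv] at h2
    have h3 : 0 < ‖y‖ := norm_pos_iff.2 h0
    show 1 / R' ≤ ‖y‖
    rw [div_le_iff₀ hRpos]
    have h4 : ‖y‖⁻¹ ≤ R' := h2.trans (le_max_left _ _)
    have h5 := mul_le_mul_of_nonneg_left h4 h3.le
    rw [mul_inv_cancel₀ h3.ne'] at h5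
    exact h5
  · rintro ⟨h0, h1⟩
    refine ⟨?_, h1⟩
    intro hy
    have h0' : 1 / R' ≤ ‖y‖ := h0
    rw [hy, norm_zero] at h0'
    have : 0 < 1 / R' := by positivity
    linarith

theorem isClosed_iota_compact {c : ℝ × ℝ} {B : Set (ℝ × ℝ)} (hB : IsCompact B) :
    IsClosed (iota c '' (B \ {c})) := by
  have hB' : IsCompact ((fun x : ℝ × ℝ => Complex.equivRealProdCLM.symm (x - c)) '' B) :=
    hB.image (Complex.equivRealProdCLM.symm.continuous.comp
      (continuous_id.sub continuous_const))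
  have h1 := isClosed_inv_compact hB'
  have h2 := (Complex.equivRealProdCLM.toHomeomorph.isClosedMap) _ h1
  convert h2 using 1
  ext y
  constructor
  · rintro ⟨x, ⟨hxB, hxc⟩, rfl⟩
    refine ⟨(Complex.equivRealProdCLM.symm (x - c))⁻¹, ⟨?_, ?_⟩, rfl⟩
    · intro h
      apply hxc
      have h3 : x - c = 0 := by
        apply Complex.equivRealProdCLM.symm.injective
        rw [map_zero]
        exact inv_eq_zero.1 h
      exact sub_eq_zero.1 h3
    · rw [inv_inv]
      exact ⟨x, hxB, rfl⟩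
  · rintro ⟨z, ⟨hz0, x, hx, hxz⟩, rfl⟩
    refine ⟨x, ⟨hx, ?_⟩, ?_⟩
    · intro hxc
      have hxc' : x = c := hxc
      apply hz0
      have h3 : z⁻¹ = 0 := by
        rw [← hxz]
        simp only
        rw [hxc', sub_self, map_zero]
      exact inv_eq_zero.1 h3
    · unfold iota
      have hxz' : Complex.equivRealProdCLM.symm (x - c) = z⁻¹ := hxz
      rw [hxz', inv_inv]
      rfl

/-- A curve tending to the centre has unbounded image. -/
theorem iota_unbounded {c : ℝ × ℝ} {g : ℝ → ℝ × ℝ} (hg : ContinuousOn g (Set.Icc 0 1))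
    (h1 : g 1 = c) (hne : ∀ t ∈ Set.Ioo (0 : ℝ) 1, g t ≠ c) :
    ¬ Bornology.IsBounded (iota c '' (g '' Set.Ico (1 / 3) 1)) := by
  intro hb
  have hb2 : Bornology.IsBounded (Complex.equivRealProdCLM.symm ''
      (iota c '' (g '' Set.Ico (1 / 3) 1))) :=
    (Complex.equivRealProdCLM.symm : ℝ × ℝ →L[ℝ] ℂ).lipschitz.isBounded_image hb
  obtain ⟨R, hR⟩ := hb2.subset_closedBall 0
  set R' : ℝ := max R 1 with hR'
  have hRpos : 0 < R' := by positivity
  have hcont : Tendsto (fun t => Complex.equivRealProdCLM.symm (g t - c)) (𝓝[Set.Ico (1 / 3) 1] 1)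
      (𝓝 0) := by
    have h2 : ContinuousWithinAt g (Set.Icc 0 1) 1 := hg 1 ⟨zero_le_one, le_rfl⟩
    have h3 : Tendsto g (𝓝[Set.Ico (1 / 3) 1] 1) (𝓝 c) := by
      rw [← h1]
      exact h2.mono_left (nhdsWithin_mono _ (fun t ht => ⟨by linarith [ht.1], ht.2.le⟩))
    have h4 : Tendsto (fun t => g t - c) (𝓝[Set.Ico (1 / 3) 1] 1) (𝓝 0) := by
      have := h3.sub (tendsto_const_nhds (x := c))
      rwa [sub_self] at this
    have h5 := (Complex.equivRealProdCLM.symm.continuous.tendsto 0).comp h4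
    rwa [map_zero] at h5
  have hev : ∀ᶠ t in 𝓝[Set.Ico (1 / 3 : ℝ) 1] 1,
      ‖Complex.equivRealProdCLM.symm (g t - c)‖ < 1 / (R' + 1) := by
    have h6 := hcont.norm
    rw [norm_zero] at h6
    exact h6.eventually (eventually_lt_nhds (by positivity))
  have hne' : (𝓝[Set.Ico (1 / 3 : ℝ) 1] 1).NeBot := by
    rw [← mem_closure_iff_nhdsWithin_neBot, closure_Ico (by norm_num)]
    constructor <;> norm_num
  obtain ⟨t, ht1, ht2⟩ := (hev.and self_mem_nhdsWithin).exists
  have hmem : (Complex.equivRealProdCLM.symm (g t - c))⁻¹ ∈ Metric.closedBall (0 : ℂ) R := by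
    apply hR
    refine ⟨iota c (g t), ⟨g t, ⟨t, ht2, rfl⟩, rfl⟩, ?_⟩
    unfold iota
    rw [ContinuousLinearEquiv.symm_apply_apply]
  rw [Metric.mem_closedBall, dist_zero_right, norm_inv] at hmem
  have hpos : 0 < ‖Complex.equivRealProdCLM.symm (g t - c)‖ := by
    rw [norm_pos_iff]
    intro h0
    have : g t - c = 0 := by
      apply Complex.equivRealProdCLM.symm.injective
      rw [h0, map_zero]
    exact hne t ⟨by linarith [ht2.1], ht2.2⟩ (sub_eq_zero.1 this)
  have h7 : ‖Complex.equivRealProdCLM.symm (g t - c)‖⁻¹ ≤ R' := hmem.trans (le_max_left _ _)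
  have h8 := mul_le_mul_of_nonneg_left h7 hpos.le
  rw [mul_inv_cancel₀ hpos.ne'] at h8
  have h9 : ‖Complex.equivRealProdCLM.symm (g t - c)‖ * R' < 1 := by
    rw [lt_div_iff₀ (by positivity)] at ht1
    nlinarith
  linarith

end Pool.Agent.Helper70.BLB
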