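import Mathlib
import Pool.Agent.Helper70.BLB.Inversion
import Pool.Agent.Helper70.BLB.Plane

/-!
A planar drawing of a finite graph gives a plane model with any given vertex at infinity.
-/

set_option autoImplicit false

namespace Pool.Agent.Helper70.BLB

open Topology Filter

/-- A planar drawing with arcs. -/
structure Drawing {V : Type} (G : SimpleGraph V) (f : V → ℝ × ℝ) (γ : V → V → ℝ → ℝ × ℝ) :
    Prop where
  inj : Function.Injective f
  arc : ∀ u v : V, G.Adj u v →
    ContinuousOn (γ u v) (Set.Icc (0 : ℝ) 1) ∧ Set.InjOn (γ u v) (Set.Icc (0 : ℝ) 1) ∧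
    γ u v 0 = f u ∧ γ u v 1 = f v ∧
    ∀ t ∈ Set.Ioo (0 : ℝ) 1, ∀ w : V, γ u v t ≠ f w
  cross : ∀ u v u' v' : V, G.Adj u v → G.Adj u' v' → s(u, v) ≠ s(u', v') →
    ∀ t ∈ Set.Ioo (0 : ℝ) 1, ∀ t' ∈ Set.Ioo (0 : ℝ) 1, γ u v t ≠ γ u' v' t'

section

variable {V : Type} {G : SimpleGraph V} {f : V → ℝ × ℝ} {γ : V → V → ℝ → ℝ × ℝ} {r : V}

/-- Orientation of the edges. -/
def ori (G : SimpleGraph V) (r : V) (e : V → ℕ) (u v : V) : Prop :=
  G.Adj u v ∧ u ≠ r ∧ (v = r ∨ e u < e v)

theorem ori_asymm {e : V → ℕ} {u v : V} (h1 : ori G r e u v) (h2 : ori G r e v u) : False := by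
  obtain ⟨_, hu, h1⟩ := h1
  obtain ⟨_, hv, h2⟩ := h2
  rcases h1 with h1 | h1
  · exact hv h1
  · rcases h2 with h2 | h2
    · exact hu h2
    · omega

/-- The part of the drawing belonging to the vertex `v`. -/
def star (f : V → ℝ × ℝ) (γ : V → V → ℝ → ℝ × ℝ) (O : V → V → Prop) (v : V) : Set (ℝ × ℝ) :=
  {f v} ∪ ((⋃ w, ⋃ (_ : O v w), γ v w '' Set.Icc 0 (1 / 3)) ∪
    ⋃ u, ⋃ (_ : O u v), γ u v '' Set.Icc (2 / 3) 1)

open Classical in
/-- The middle parameter interval of an edge with head `v`. -/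
noncomputable def mid (r v : V) : Set ℝ := if v = r then Set.Ico (1 / 3) 1 else Set.Icc (1 / 3) (2 / 3)

theorem mid_sub (r v : V) : mid r v ⊆ Set.Ioo (0 : ℝ) 1 := by
  intro t ht
  unfold mid at ht
  split_ifs at ht with h
  · exact ⟨by linarith [ht.1], ht.2⟩
  · exact ⟨by linarith [ht.1], by linarith [ht.2]⟩

theorem Drawing.mem_star (D : Drawing G f γ) {O : V → V → Prop} (hO : ∀ u v, O u v → G.Adj u v)
    {v : V} {x : ℝ × ℝ} (hx : x ∈ star f γ O v) :
    x = f v ∨ ∃ a b t, O a b ∧ t ∈ Set.Ioo (0 : ℝ) 1 ∧ γ a b t = x ∧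
      ((a = v ∧ t ≤ 1 / 3) ∨ (b = v ∧ 2 / 3 ≤ t)) := by
  rcases hx with hx | hx | hx
  · exact Or.inl hx
  · simp only [Set.mem_iUnion] at hx
    obtain ⟨w, hw, t, ht, rfl⟩ := hx
    by_cases h0 : t = 0
    · left; rw [h0]; exact (D.arc v w (hO v w hw)).2.2.1
    · right
      refine ⟨v, w, t, hw, ⟨lt_of_le_of_ne ht.1 (Ne.symm h0), by linarith [ht.2]⟩, rfl,
        Or.inl ⟨rfl, ht.2⟩⟩
  · simp only [Set.mem_iUnion] at hx
    obtain ⟨w, hw, t, ht, rfl⟩ := hx
    by_cases h0 : t = 1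
    · left; rw [h0]; exact (D.arc w v (hO w v hw)).2.2.2.1
    · right
      refine ⟨w, v, t, hw, ⟨by linarith [ht.1], lt_of_le_of_ne ht.2 h0⟩, rfl,
        Or.inr ⟨rfl, ht.1⟩⟩

theorem Drawing.arc_eq (D : Drawing G f γ) {O : V → V → Prop} (hO : ∀ u v, O u v → G.Adj u v)
    (hA : ∀ u v, O u v → O v u → False) {a b a' b' : V} (h : O a b) (h' : O a' b') {t t' : ℝ}
    (ht : t ∈ Set.Ioo (0 : ℝ) 1) (ht' : t' ∈ Set.Ioo (0 : ℝ) 1) (he : γ a b t = γ a' b' t') :
    a = a' ∧ b = b' ∧ t = t' := by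
  by_cases hs : s(a, b) = s(a', b')
  · rw [Sym2.eq_iff] at hs
    rcases hs with ⟨rfl, rfl⟩ | ⟨rfl, rfl⟩
    · refine ⟨rfl, rfl, ?_⟩
      exact (D.arc a b (hO a b h)).2.1 ⟨ht.1.le, ht.2.le⟩ ⟨ht'.1.le, ht'.2.le⟩ he
    · exact (hA _ _ h h').elim
  · exact absurd he (D.cross a b a' b' (hO _ _ h) (hO _ _ h') hs t ht t' ht')

theorem Drawing.star_disj (D : Drawing G f γ) {O : V → V → Prop} (hO : ∀ u v, O u v → G.Adj u v)
    (hA : ∀ u v, O u v → O v u → False) {u v : V} (huv : u ≠ v) :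
    Disjoint (star f γ O u) (star f γ O v) := by
  rw [Set.disjoint_left]
  intro x hx hy
  rcases D.mem_star hO hx with h1 | ⟨a, b, t, hab, ht, hxt, hc⟩
  · rcases D.mem_star hO hy with h2 | ⟨a', b', t', hab', ht', hyt, hc'⟩
    · exact huv (D.inj (h1.symm.trans h2))
    · exact (D.arc a' b' (hO _ _ hab')).2.2.2.2 t' ht' u (hyt.trans h1)
  · rcases D.mem_star hO hy with h2 | ⟨a', b', t', hab', ht', hyt, hc'⟩
    · exact (D.arc a b (hO _ _ hab)).2.2.2.2 t ht v (hxt.trans h2)
    · obtain ⟨rfl, rfl, rfl⟩ := D.arc_eq hO hA hab hab' ht ht' (hxt.trans hyt.symm)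
      rcases hc with ⟨rfl, h3⟩ | ⟨rfl, h3⟩
      · rcases hc' with ⟨h4, _⟩ | ⟨_, h4⟩
        · exact huv h4
        · linarith
      · rcases hc' with ⟨_, h4⟩ | ⟨h4, _⟩
        · linarith
        · exact huv h4

theorem Drawing.mid_star_disj (D : Drawing G f γ) {O : V → V → Prop}
    (hO : ∀ u v, O u v → G.Adj u v) (hA : ∀ u v, O u v → O v u → False) {u v w : V} (h : O u v)
    (hu : w ≠ u) (hv : w ≠ v) : Disjoint (γ u v '' mid r v) (star f γ O w) := by
  rw [Set.disjoint_left]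
  rintro _ ⟨t, ht, rfl⟩ hy
  have ht' := mid_sub r v ht
  rcases D.mem_star hO hy with h1 | ⟨a, b, s, hab, hs, hxs, hc⟩
  · exact (D.arc u v (hO _ _ h)).2.2.2.2 t ht' w h1
  · obtain ⟨rfl, rfl, rfl⟩ := D.arc_eq hO hA hab h hs ht' hxs
    rcases hc with ⟨h3, _⟩ | ⟨h3, _⟩
    · exact hu h3.symm
    · exact hv h3.symm

theorem Drawing.mid_disj (D : Drawing G f γ) {O : V → V → Prop}
    (hO : ∀ u v, O u v → G.Adj u v) (hA : ∀ u v, O u v → O v u → False) {u v u' v' : V}
    (h : O u v) (h' : O u' v') (hne : u ≠ u' ∨ v ≠ v') :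
    Disjoint (γ u v '' mid r v) (γ u' v' '' mid r v') := by
  rw [Set.disjoint_left]
  rintro _ ⟨t, ht, rfl⟩ ⟨t', ht', he⟩
  obtain ⟨h1, h2, _⟩ := D.arc_eq hO hA h' h (mid_sub r v' ht') (mid_sub r v ht) he
  rcases hne with h3 | h3
  · exact h3 h1.symm
  · exact h3 h2.symm

theorem Drawing.star_conn (D : Drawing G f γ) {O : V → V → Prop} (hO : ∀ u v, O u v → G.Adj u v)
    (v : V) : IsPreconnected (star f γ O v) := by
  apply isPreconnected_of_forall (f v)
  intro y hy
  rcases hy with hy | hy | hy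
  · rw [Set.mem_singleton_iff] at hy
    refine ⟨{f v}, ?_, rfl, hy, isPreconnected_singleton⟩
    exact Set.subset_union_left
  · simp only [Set.mem_iUnion] at hy
    obtain ⟨w, hw, hy⟩ := hy
    have harc := D.arc v w (hO _ _ hw)
    refine ⟨γ v w '' Set.Icc 0 (1 / 3), ?_, ⟨0, ⟨le_rfl, by norm_num⟩, harc.2.2.1⟩, hy, ?_⟩
    · intro x hx
      right; left
      simp only [Set.mem_iUnion]
      exact ⟨w, hw, hx⟩
    · exact isPreconnected_Icc.image _
        (harc.1.mono (Set.Icc_subset_Icc_right (by norm_num)))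
  · simp only [Set.mem_iUnion] at hy
    obtain ⟨w, hw, hy⟩ := hy
    have harc := D.arc w v (hO _ _ hw)
    refine ⟨γ w v '' Set.Icc (2 / 3) 1, ?_, ⟨1, ⟨by norm_num, le_rfl⟩, harc.2.2.2.1⟩, hy, ?_⟩
    · intro x hx
      right; right
      simp only [Set.mem_iUnion]
      exact ⟨w, hw, hx⟩
    · exact isPreconnected_Icc.image _
        (harc.1.mono (Set.Icc_subset_Icc_left (by norm_num)))

theorem Drawing.star_compact [Finite V] (D : Drawing G f γ) {O : V → V → Prop}
    (hO : ∀ u v, O u v → G.Adj u v) (v : V) : IsCompact (star f γ O v) := by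
  unfold star
  apply isCompact_singleton.union
  apply IsCompact.union
  · apply isCompact_iUnion
    intro w
    apply isCompact_iUnion
    intro hw
    exact isCompact_Icc.image_of_continuousOn
      ((D.arc v w (hO _ _ hw)).1.mono (Set.Icc_subset_Icc_right (by norm_num)))
  · apply isCompact_iUnion
    intro w
    apply isCompact_iUnion
    intro hw
    exact isCompact_Icc.image_of_continuousOn
      ((D.arc w v (hO _ _ hw)).1.mono (Set.Icc_subset_Icc_left (by norm_num)))

theorem Drawing.root_not_mem_star (D : Drawing G f γ) {O : V → V → Prop}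
    (hO : ∀ u v, O u v → G.Adj u v) (hA : ∀ u v, O u v → O v u → False) {v : V} (hv : v ≠ r) :
    f r ∉ star f γ O v := by
  intro h
  have h2 : f r ∈ star f γ O r := Or.inl rfl
  exact Set.disjoint_left.1 (D.star_disj hO hA hv) h h2

/-- A planar drawing gives a plane model. -/
theorem Drawing.planeModel [Finite V] (D : Drawing G f γ) (r : V) :
    ∃ (O : V → V → Prop) (K : V → Set (ℝ × ℝ)) (M : V → V → Set (ℝ × ℝ)),
      PlaneModel G r O K M := by
  obtain ⟨e, he⟩ : ∃ e : V → ℕ, Function.Injective e :=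
    ⟨fun v => (Finite.equivFin V v : ℕ), fun a b h => (Finite.equivFin V).injective (Fin.ext h)⟩
  set O : V → V → Prop := ori G r e with hOdef
  have hO : ∀ u v, O u v → G.Adj u v := fun u v h => h.1
  have hA : ∀ u v, O u v → O v u → False := fun u v => ori_asymm
  have hinj := iota_inj (f r)
  have hmidr : ∀ u v, O u v → f r ∉ γ u v '' mid r v := by
    rintro u v h ⟨t, ht, hh⟩
    exact (D.arc u v (hO _ _ h)).2.2.2.2 t (mid_sub r v ht) r hh
  have hmidcont : ∀ u v, O u v → ContinuousOn (γ u v) (mid r v) := by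
    intro u v h
    exact (D.arc u v (hO _ _ h)).1.mono ((mid_sub r v).trans Set.Ioo_subset_Icc_self)
  have hmidcompact : ∀ u v, O u v → v ≠ r → IsCompact (iota (f r) '' (γ u v '' mid r v)) := by
    intro u v h hv
    apply IsCompact.image_of_continuousOn
    · apply IsCompact.image_of_continuousOn _ (hmidcont u v h)
      unfold mid
      rw [if_neg hv]
      exact isCompact_Icc
    · exact iota_cont _ (hmidr u v h)
  refine ⟨O, fun v => iota (f r) '' star f γ O v, fun u v => iota (f r) '' (γ u v '' mid r v),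
    ?_⟩
  constructor
  · exact hO
  · intro u v huv
    by_cases hu : u = r
    · right
      refine ⟨huv.symm, fun hv => huv.ne (hu.trans hv.symm), Or.inl hu⟩
    · by_cases hv : v = r
      · left; exact ⟨huv, hu, Or.inl hv⟩
      · rcases lt_trichotomy (e u) (e v) with h | h | h
        · left; exact ⟨huv, hu, Or.inr h⟩
        · exact absurd (he h) huv.ne
        · right; exact ⟨huv.symm, hv, Or.inr h⟩
  · intro v h
    exact h.2.1 rfl
  · intro v _
    exact ⟨_, ⟨f v, Or.inl rfl, rfl⟩⟩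
  · intro v hv
    exact (D.star_compact hO v).image_of_continuousOn
      (iota_cont _ (D.root_not_mem_star hO hA hv))
  · intro v hv
    exact (D.star_conn hO v).image _ (iota_cont _ (D.root_not_mem_star hO hA hv))
  · intro u v h
    by_cases hv : v = r
    · subst hv
      have harc := D.arc u v (hO _ _ h)
      have hB : IsCompact (γ u v '' Set.Icc (1 / 3) 1) :=
        isCompact_Icc.image_of_continuousOn
          (harc.1.mono (Set.Icc_subset_Icc_left (by norm_num)))
      have h1 := isClosed_iota_compact (c := f v) hB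
      convert h1 using 2
      unfold mid
      rw [if_pos rfl]
      ext x
      constructor
      · rintro ⟨t, ht, rfl⟩
        exact ⟨⟨t, ⟨ht.1, ht.2.le⟩, rfl⟩,
          fun hh => harc.2.2.2.2 t ⟨by linarith [ht.1], ht.2⟩ v hh⟩
      · rintro ⟨⟨t, ht, rfl⟩, hne⟩
        refine ⟨t, ⟨ht.1, lt_of_le_of_ne ht.2 ?_⟩, rfl⟩
        rintro rfl
        exact hne harc.2.2.2.1
    · exact (hmidcompact u v h hv).isClosed
  · intro u v h
    apply IsPreconnected.image _ _ (iota_cont _ (hmidr u v h))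
    apply IsPreconnected.image _ _ (hmidcont u v h)
    unfold mid
    split_ifs
    · exact isPreconnected_Ico
    · exact isPreconnected_Icc
  · intro u v h
    refine ⟨iota (f r) (γ u v (1 / 3)), ⟨γ u v (1 / 3), ⟨1 / 3, ?_, rfl⟩, rfl⟩,
      ⟨γ u v (1 / 3), ?_, rfl⟩⟩
    · unfold mid
      split_ifs <;> constructor <;> norm_num
    · right; left
      simp only [Set.mem_iUnion]
      exact ⟨v, h, 1 / 3, ⟨by norm_num, le_rfl⟩, rfl⟩
  · intro u v h hv
    refine ⟨iota (f r) (γ u v (2 / 3)), ⟨γ u v (2 / 3), ⟨2 / 3, ?_, rfl⟩, rfl⟩,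
      ⟨γ u v (2 / 3), ?_, rfl⟩⟩
    · unfold mid
      rw [if_neg hv]
      constructor <;> norm_num
    · right; right
      simp only [Set.mem_iUnion]
      exact ⟨u, h, 2 / 3, ⟨le_rfl, by norm_num⟩, rfl⟩
  · intro u v h hv
    exact (hmidcompact u v h hv).isBounded
  · intro u h
    have harc := D.arc u r (hO _ _ h)
    have h1 := iota_unbounded harc.1 harc.2.2.2.1 (fun t ht => harc.2.2.2.2 t ht r)
    unfold mid
    rw [if_pos rfl]
    exact h1
  · intro u v hu hv huv
    rw [Set.disjoint_image_iff hinj]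
    exact D.star_disj hO hA huv
  · intro u v w h hw hwu hwv
    rw [Set.disjoint_image_iff hinj]
    exact D.mid_star_disj hO hA h hwu hwv
  · intro u v u' v' h h' hne
    rw [Set.disjoint_image_iff hinj]
    exact D.mid_disj hO hA h h' hne

end

end Pool.Agent.Helper70.BLB
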