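import Mathlib
import Pool.Agent.Helper70.BLB.HeightPos

/-!
Lower bounds for the height representation at the reference configurations: faces of height two,
ordinary sites of height three, free sites of height one or three.
-/

set_option autoImplicit false

namespace Pool.Agent.Helper70.BLB

/-- Reference configurations: all faces have height two, sites of status `0` or `2` have height one
and sites of status `1` or `-1` have height three. -/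
def Ref (s : ℕ → ℤ) (h : ℕ → ℕ) : Prop :=
  IsPath h ∧ h 0 = 1 ∧ (∀ i, h (2 * i + 1) = 2) ∧
    ∀ i, 1 ≤ i → ((s i = 0 ∨ s i = 2 → h (2 * i) = 1) ∧ (s i = 1 ∨ s i = -1 → h (2 * i) = 3))

theorem Ref.dom {s : ℕ → ℤ} {h : ℕ → ℕ} (hr : Ref s h) : Dom s h :=
  ⟨hr.1, hr.2.1, fun i hi h0 => (hr.2.2.2 i hi).1 (Or.inl h0)⟩

theorem Ref.odd' {s : ℕ → ℤ} {h : ℕ → ℕ} (hr : Ref s h) {i : ℕ} (hi : 1 ≤ i) :
    h (2 * i - 1) = 2 := by
  have := hr.2.2.1 (i - 1)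
  rwa [show 2 * (i - 1) + 1 = 2 * i - 1 by omega] at this

theorem Ref.gs {s : ℕ → ℤ} {h : ℕ → ℕ} (hr : Ref s h) (m : ℕ) (s' : ℕ → ℤ) : gs m s' h = 1 := by
  unfold BLB.gs
  apply Finset.prod_eq_one
  intro i hi
  rw [Finset.mem_Icc] at hi
  rw [hr.2.2.1, hr.odd' hi.1, if_pos rfl]

/-- A site of a reference configuration has height one or three. -/
theorem Ref.even {s : ℕ → ℤ} {h : ℕ → ℕ} (hr : Ref s h) {i : ℕ} (hi : 1 ≤ i) :
    h (2 * i) = 1 ∨ h (2 * i) = 3 := by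
  have h1 := (hr.1 (2 * i - 1)).2
  have h2 := hr.odd' hi
  rw [show 2 * i - 1 + 1 = 2 * i by omega] at h1
  omega

theorem Ref.update_site {s : ℕ → ℤ} {h : ℕ → ℕ} (hr : Ref s h) {i x : ℕ} (hi : 1 ≤ i)
    (hx : x = 1 ∨ x = 3) (z : ℤ) (hz1 : z = 0 ∨ z = 2 → x = 1) (hz2 : z = 1 ∨ z = -1 → x = 3) :
    Ref (Function.update s i z) (Function.update h (2 * i) x) := by
  obtain ⟨hp, h0, h1, h2⟩ := hr
  have hodd : h (2 * i - 1) = 2 := by
    have := h1 (i - 1)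
    rwa [show 2 * (i - 1) + 1 = 2 * i - 1 by omega] at this
  refine ⟨hp.update (by omega) (by rw [hodd, h1]) (by omega) (by rw [hodd]; omega), ?_, ?_, ?_⟩
  · rw [Function.update_of_ne (by omega)]; exact h0
  · intro j
    rw [Function.update_of_ne (by omega)]; exact h1 j
  · intro j hj
    by_cases hji : j = i
    · subst hji
      rw [Function.update_self, Function.update_self]
      exact ⟨hz1, hz2⟩
    · rw [Function.update_of_ne hji, Function.update_of_ne (by omega)]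
      exact h2 j hj

/-- Nonnegativity in the gauge, and a lower bound at the reference configurations. -/
def BndFun (m : ℕ) (s : ℕ → ℤ) (b : ℝ) (Φ : (ℕ → ℕ) → ℝ) : Prop :=
  (∀ h, Dom s h → 0 ≤ gs m s h * Φ h) ∧ ∀ h, Ref s h → b ≤ Φ h

theorem hS_two (δ : ℝ) : hS δ 2 = δ := by simp [hS]

theorem hS_three (δ : ℝ) : hS δ 3 = δ ^ 2 - 1 := by
  simp [hS]; ring

theorem hS_one (δ : ℝ) : hS δ 1 = 1 := rfl

theorem BndFun.pos {m : ℕ} {s : ℕ → ℤ} {b : ℝ} {Φ : (ℕ → ℕ) → ℝ} (h : BndFun m s b Φ)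
    (hb : 0 < b) : PosFun m s Φ := by
  refine ⟨h.1, lt_of_lt_of_le hb (h.2 _ ?_)⟩
  refine ⟨hstar_path s, hstar_zero s, hstar_odd s, fun i hi => ⟨fun h0 => ?_, fun h1 => ?_⟩⟩
  · rw [hstar_even s hi, if_pos h0]
  · rw [hstar_even s hi, if_neg]
    rcases h1 with h1 | h1 <;> rw [h1] <;> norm_num

/-- Value of the face operator at a configuration of a face of height two between two sites of
height three. -/
theorem hE_face {δ : ℝ} {s : ℕ → ℤ} {h : ℕ → ℕ} (hr : Ref s h) {i : ℕ}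
    (h1 : h (2 * i) = 3) (h2 : h (2 * i + 2) = 3) (Φ : (ℕ → ℕ) → ℝ) :
    hE δ (2 * i + 1) Φ h =
      (hS δ 4 * Φ (Function.update h (2 * i + 1) 4) + δ * Φ h) / (δ ^ 2 - 1) := by
  have he : h (2 * i + 1 - 1) = h (2 * i + 1 + 1) := by
    rw [show 2 * i + 1 - 1 = 2 * i by omega, h1]; exact h2.symm
  rw [hE_pos δ _ _ hr.1 he, show 2 * i + 1 - 1 = 2 * i by omega, h1,
    show 3 + 1 = 4 from rfl, show 3 - 1 = 2 from rfl, hS_two, hS_three]
  have : Function.update h (2 * i + 1) 2 = h := by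
    rw [Function.update_eq_self_iff, hr.2.2.1]
  rw [this]

/-- Value of the site operator between two faces of height two. -/
theorem hE_site {δ : ℝ} (hδ : δ ≠ 0) {s : ℕ → ℤ} {h : ℕ → ℕ} (hr : Ref s h) {i : ℕ}
    (hi : 1 ≤ i) (Φ : (ℕ → ℕ) → ℝ) :
    δ * hE δ (2 * i) Φ h = (δ ^ 2 - 1) * Φ (Function.update h (2 * i) 3) +
      Φ (Function.update h (2 * i) 1) := by
  have h1 := hr.odd' hi
  have he : h (2 * i - 1) = h (2 * i + 1) := by rw [h1, hr.2.2.1]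
  rw [hE_pos δ _ _ hr.1 he, h1, show 2 + 1 = 3 from rfl, show 2 - 1 = 1 from rfl, hS_two,
    hS_three, hS_one]
  field_simp

theorem bnd_J_normal {δ : ℝ} (hδ : 2 ≤ δ) {m i : ℕ} {s : ℕ → ℤ} {Φ : (ℕ → ℕ) → ℝ} {b : ℝ}
    (hb : 0 < b) (hΦ : BndFun m s b Φ) (hi : 1 ≤ i) (him : i + 1 ≤ m) (hs : s i = s (i + 1))
    (hs1 : s i = 1 ∨ s i = -1) :
    BndFun m s (b / (δ ^ 2 - 1)) ((Op.val (δ • (1 : HAlg)) (δ⁻¹ • 1) (hE δ) (Op.J i)) Φ) := by
  have hδ0 : 0 < δ := by linarith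
  have hq : 0 < δ ^ 2 - 1 := by nlinarith
  refine ⟨(pos_J_normal hδ (hΦ.pos hb) hi him hs hs1).1, fun h hr => ?_⟩
  have h1 : h (2 * i) = 3 := (hr.2.2.2 i hi).2 hs1
  have h2 : h (2 * i + 2) = 3 := by
    have := (hr.2.2.2 (i + 1) (by omega)).2 (by rw [← hs]; exact hs1)
    rwa [show 2 * (i + 1) = 2 * i + 2 by ring] at this
  rw [val_J_apply, hE_face hr h1 h2]
  have hd := hr.dom
  have hx : 4 = h (2 * i) + 1 ∨ h (2 * i) = 4 + 1 := by left; rw [h1]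
  have he : h (2 * i) = h (2 * i + 2) := by rw [h1, h2]
  have h3 := gs_update_odd (m := m) s hi him hd.1 he hx (by rw [hr.2.2.1]; norm_num)
  rw [← hs, sg_mul_self, hr.gs, one_mul] at h3
  have h4 := hΦ.1 _ (hd.update_face he (by norm_num) hx)
  rw [h3, one_mul] at h4
  have h5 := hΦ.2 h hr
  have h6 := hS_nonneg hδ 4
  rw [div_le_iff₀ hq]
  have e : δ⁻¹ * ((hS δ 4 * Φ (Function.update h (2 * i + 1) 4) + δ * Φ h) / (δ ^ 2 - 1)) *
      (δ ^ 2 - 1) = δ⁻¹ * (hS δ 4 * Φ (Function.update h (2 * i + 1) 4)) + Φ h := by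
    field_simp
  rw [e]
  have h7 : 0 ≤ δ⁻¹ * (hS δ 4 * Φ (Function.update h (2 * i + 1) 4)) := by positivity
  linarith

theorem bnd_J_attach {δ : ℝ} (hδ : 2 ≤ δ) {m i : ℕ} {s : ℕ → ℤ} {Φ : (ℕ → ℕ) → ℝ} {b : ℝ}
    (hb : 0 < b) (hΦ : BndFun m (Function.update s (i + 1) 0) b Φ) (him : i + 1 ≤ m)
    (hs : i = 0 ∨ s i = 0) (hs1 : s (i + 1) = 2) :
    BndFun m s b ((Op.val (δ • (1 : HAlg)) (δ⁻¹ • 1) (hE δ) (Op.J i)) Φ) := by
  have hδ0 : δ ≠ 0 := by linarith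
  refine ⟨(pos_J_attach hδ (hΦ.pos hb) him hs hs1).1, fun h hr => ?_⟩
  have hl : h (2 * i) = 1 := by
    by_cases hi : i = 0
    · subst hi; simpa using hr.2.1
    · exact (hr.2.2.2 i (by omega)).1 (Or.inl (by tauto))
  have h2 : h (2 * i + 2) = 1 := by
    have := (hr.2.2.2 (i + 1) (by omega)).1 (Or.inr hs1)
    rwa [show 2 * (i + 1) = 2 * i + 2 by ring] at this
  rw [val_J_apply, hE_left_one (2 * i + 1) (by omega) Φ hr.1
    (by rw [show 2 * i + 1 - 1 = 2 * i by omega]; exact hl) h2, ← mul_assoc,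
    inv_mul_cancel₀ hδ0, one_mul]
  apply hΦ.2
  obtain ⟨a1, a2, a3, a4⟩ := hr
  refine ⟨a1, a2, a3, fun j hj => ?_⟩
  by_cases hji : j = i + 1
  · subst hji
    rw [Function.update_self]
    refine ⟨fun _ => ?_, fun hh => ?_⟩
    · rw [show 2 * (i + 1) = 2 * i + 2 by ring]; exact h2
    · norm_num at hh
  · rw [Function.update_of_ne hji]
    exact a4 j hj

theorem bnd_H_left {δ : ℝ} (hδ : 2 ≤ δ) {m i : ℕ} {s : ℕ → ℤ} {Φ : (ℕ → ℕ) → ℝ} {b : ℝ}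
    (hb : 0 < b) (hΦ : BndFun m s b Φ)
    (hs : (i = 0 ∨ s i = 0) ∧ (s (i + 1) = 1 ∨ s (i + 1) = -1) ∨
      (1 ≤ i ∧ (s i = 1 ∨ s i = -1) ∧ s (i + 1) = 0)) :
    BndFun m s b ((Op.val (δ • (1 : HAlg)) (δ⁻¹ • 1) (hE δ) (Op.H i)) Φ) := by
  refine ⟨(pos_H_left hδ (hΦ.pos hb) hs).1, fun h hr => ?_⟩
  have hne : h (2 * i) ≠ h (2 * i + 2) := by
    rcases hs with ⟨h1, h2⟩ | ⟨h0, h1, h2⟩
    · have v1 : h (2 * i + 2) = 3 := by
        have := (hr.2.2.2 (i + 1) (by omega)).2 h2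
        rwa [show 2 * (i + 1) = 2 * i + 2 by ring] at this
      have v2 : h (2 * i) = 1 := by
        by_cases hi : i = 0
        · subst hi; simpa using hr.2.1
        · exact (hr.2.2.2 i (by omega)).1 (Or.inl (by tauto))
      omega
    · have v1 : h (2 * i + 2) = 1 := by
        have := (hr.2.2.2 (i + 1) (by omega)).1 (Or.inl h2)
        rwa [show 2 * (i + 1) = 2 * i + 2 by ring] at this
      have v2 : h (2 * i) = 3 := (hr.2.2.2 i h0).2 h1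
      omega
  rw [val_H_apply, hE_left_one_ne (2 * i + 1) Φ (by
    rw [show 2 * i + 1 - 1 = 2 * i by omega]; exact hne), mul_zero, sub_zero]
  exact hΦ.2 h hr

theorem bnd_H_normal {δ : ℝ} (hδ : 2 ≤ δ) {m i : ℕ} {s : ℕ → ℤ} {Φ : (ℕ → ℕ) → ℝ} {b : ℝ}
    (hb : 0 < b) (hΦ : BndFun m s b Φ) (hi : 1 ≤ i) (him : i + 1 ≤ m)
    (hs1 : s i = 1 ∨ s i = -1) (hs : s (i + 1) = - s i) :
    BndFun m s (b * ((δ ^ 2 - 2) / (δ ^ 2 - 1)))
      ((Op.val (δ • (1 : HAlg)) (δ⁻¹ • 1) (hE δ) (Op.H i)) Φ) := by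
  have hδ0 : 0 < δ := by linarith
  have hq : 0 < δ ^ 2 - 1 := by nlinarith
  have hq2 : 0 < δ ^ 2 - 2 := by nlinarith
  refine ⟨(pos_H_normal hδ (hΦ.pos hb) hi him hs1 hs).1, fun h hr => ?_⟩
  have h1 : h (2 * i) = 3 := (hr.2.2.2 i hi).2 hs1
  have h2 : h (2 * i + 2) = 3 := by
    have := (hr.2.2.2 (i + 1) (by omega)).2 (by rw [hs]; omega)
    rwa [show 2 * (i + 1) = 2 * i + 2 by ring] at this
  rw [val_H_apply, hE_face hr h1 h2]
  have hd := hr.dom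
  have hx : 4 = h (2 * i) + 1 ∨ h (2 * i) = 4 + 1 := by left; rw [h1]
  have he : h (2 * i) = h (2 * i + 2) := by rw [h1, h2]
  have h3 := gs_update_odd (m := m) s hi him hd.1 he hx (by rw [hr.2.2.1]; norm_num)
  have hsg : sg (s i) * sg (s (i + 1)) = -1 := by
    rw [hs, sg_neg hs1, mul_neg, sg_mul_self]
  rw [hsg, hr.gs, one_mul] at h3
  have h4 := hΦ.1 _ (hd.update_face he (by norm_num) hx)
  rw [h3] at h4
  have h5 := hΦ.2 h hr
  have h6 := hS_nonneg hδ 4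
  have e : Φ h - δ⁻¹ * ((hS δ 4 * Φ (Function.update h (2 * i + 1) 4) + δ * Φ h) /
      (δ ^ 2 - 1)) = Φ h * ((δ ^ 2 - 2) / (δ ^ 2 - 1)) +
      δ⁻¹ * (hS δ 4 * (-1 * Φ (Function.update h (2 * i + 1) 4))) / (δ ^ 2 - 1) := by
    field_simp
    ring
  rw [e]
  have h7 : 0 ≤ δ⁻¹ * (hS δ 4 * (-1 * Φ (Function.update h (2 * i + 1) 4))) / (δ ^ 2 - 1) := by
    positivity
  have h8 : b * ((δ ^ 2 - 2) / (δ ^ 2 - 1)) ≤ Φ h * ((δ ^ 2 - 2) / (δ ^ 2 - 1)) :=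
    mul_le_mul_of_nonneg_right h5 (by positivity)
  linarith

/-- Nonnegativity part of the renewal of a site. -/
theorem nonneg_D {δ : ℝ} (hδ : 2 ≤ δ) {m i : ℕ} {s : ℕ → ℤ} {Φ : (ℕ → ℕ) → ℝ} {z : ℤ}
    (hz0 : z ≠ 0) (hΦ : ∀ h, Dom (Function.update s i z) h →
      0 ≤ gs m (Function.update s i z) h * Φ h) (hi : 1 ≤ i) (him : i ≤ m) :
    ∀ h, Dom s h →
      0 ≤ gs m s h * (Op.val (δ • (1 : HAlg)) (δ⁻¹ • 1) (hE δ) (Op.D i)) Φ h := by
  have hδ0 : 0 < δ := by linarith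
  have key : ∀ h, Dom s h → h (2 * i - 1) = h (2 * i + 1) → ∀ x,
      (x = h (2 * i - 1) + 1 ∨ x = h (2 * i - 1) - 1) →
      0 ≤ hS δ x * (gs m s h * Φ (Function.update h (2 * i) x)) := by
    intro h hd he x hx
    by_cases hx0 : x = 0
    · subst hx0
      have : hS δ 0 = 0 := rfl
      rw [this, zero_mul]
    · have ha : x = h (2 * i - 1) + 1 ∨ h (2 * i - 1) = x + 1 := by omega
      have h1 := hΦ _ (hd.update_site hi he (by omega) ha z hz0)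
      rw [gs_update_even, gs_status_eq s h hi him z he] at h1
      exact mul_nonneg (hS_nonneg hδ x) h1
  intro h hd
  rw [val_D_apply]
  by_cases he : h (2 * i - 1) = h (2 * i + 1)
  · rw [hE_pos δ _ _ hd.1 he]
    have hSa := hS_pos hδ (hd.1 (2 * i - 1)).1
    have k1 := key h hd he _ (Or.inl rfl)
    have k2 := key h hd he _ (Or.inr rfl)
    have e1 : gs m s h * (δ * ((hS δ (h (2 * i - 1) + 1) *
        Φ (Function.update h (2 * i) (h (2 * i - 1) + 1)) +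
        hS δ (h (2 * i - 1) - 1) * Φ (Function.update h (2 * i) (h (2 * i - 1) - 1))) /
        hS δ (h (2 * i - 1)))) =
      δ * ((hS δ (h (2 * i - 1) + 1) *
        (gs m s h * Φ (Function.update h (2 * i) (h (2 * i - 1) + 1))) +
        hS δ (h (2 * i - 1) - 1) *
          (gs m s h * Φ (Function.update h (2 * i) (h (2 * i - 1) - 1)))) /
        hS δ (h (2 * i - 1))) := by ring
    rw [e1]
    positivity
  · rw [hE_neg, mul_zero, mul_zero]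
    rintro ⟨_, hh⟩
    exact he hh

/-- The value at an updated reference configuration is nonnegative. -/
theorem BndFun.upd_nonneg {m i : ℕ} {s : ℕ → ℤ} {Φ : (ℕ → ℕ) → ℝ} {z : ℤ} {b : ℝ}
    (hz0 : z ≠ 0) (hΦ : BndFun m (Function.update s i z) b Φ) (hi : 1 ≤ i) {h : ℕ → ℕ}
    (hr : Ref s h) {x : ℕ} (hx : x = 1 ∨ x = 3) : 0 ≤ Φ (Function.update h (2 * i) x) := by
  have h1 := hr.odd' hi
  have hd := hr.dom.update_site hi (by rw [h1, hr.2.2.1]) (x := x) (by omega)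
    (by rw [h1]; omega) z hz0
  have h2 := hΦ.1 _ hd
  rw [gs_update_even, hr.gs, one_mul] at h2
  exact h2

theorem bnd_D_vertex {δ : ℝ} (hδ : 2 ≤ δ) {m i : ℕ} {s : ℕ → ℤ} {Φ : (ℕ → ℕ) → ℝ} {z : ℤ}
    {b : ℝ} (hz : z = 1 ∨ z = -1) (hΦ : BndFun m (Function.update s i z) b Φ)
    (hi : 1 ≤ i) (him : i ≤ m) :
    BndFun m s (b * (δ ^ 2 - 1))
      ((Op.val (δ • (1 : HAlg)) (δ⁻¹ • 1) (hE δ) (Op.D i)) Φ) := by
  have hz0 : z ≠ 0 := by omega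
  have hq : 0 < δ ^ 2 - 1 := by nlinarith
  refine ⟨nonneg_D hδ hz0 hΦ.1 hi him, fun h hr => ?_⟩
  rw [val_D_apply, hE_site (by linarith) hr hi]
  have h1 := hΦ.upd_nonneg hz0 hi hr (x := 1) (Or.inl rfl)
  have h2 := hΦ.2 _ (hr.update_site hi (x := 3) (Or.inr rfl) z (by omega) (fun _ => rfl))
  nlinarith

theorem bnd_D_fresh {δ : ℝ} (hδ : 2 ≤ δ) {m i : ℕ} {s : ℕ → ℤ} {Φ : (ℕ → ℕ) → ℝ}
    {b : ℝ} (hΦ : BndFun m (Function.update s i 2) b Φ)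
    (hi : 1 ≤ i) (him : i ≤ m) :
    BndFun m s b ((Op.val (δ • (1 : HAlg)) (δ⁻¹ • 1) (hE δ) (Op.D i)) Φ) := by
  have hz0 : (2 : ℤ) ≠ 0 := by norm_num
  have hq : 0 < δ ^ 2 - 1 := by nlinarith
  refine ⟨nonneg_D hδ hz0 hΦ.1 hi him, fun h hr => ?_⟩
  rw [val_D_apply, hE_site (by linarith) hr hi]
  have h1 := hΦ.upd_nonneg hz0 hi hr (x := 3) (Or.inr rfl)
  have h2 := hΦ.2 _ (hr.update_site hi (x := 1) (Or.inl rfl) 2 (fun _ => rfl) (by omega))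
  nlinarith

theorem bnd_D_free {δ : ℝ} (hδ : 2 ≤ δ) {m i : ℕ} {s : ℕ → ℤ} {Φ : (ℕ → ℕ) → ℝ}
    {b : ℝ} (hΦ : BndFun m (Function.update s i 3) b Φ)
    (hi : 1 ≤ i) (him : i ≤ m) :
    BndFun m s (b * δ ^ 2) ((Op.val (δ • (1 : HAlg)) (δ⁻¹ • 1) (hE δ) (Op.D i)) Φ) := by
  have hz0 : (3 : ℤ) ≠ 0 := by norm_num
  have hq : 0 < δ ^ 2 - 1 := by nlinarith
  refine ⟨nonneg_D hδ hz0 hΦ.1 hi him, fun h hr => ?_⟩
  rw [val_D_apply, hE_site (by linarith) hr hi]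
  have h1 := hΦ.2 _ (hr.update_site hi (x := 3) (Or.inr rfl) 3 (by omega) (by omega))
  have h2 := hΦ.2 _ (hr.update_site hi (x := 1) (Or.inl rfl) 3 (by omega) (by omega))
  nlinarith

theorem bnd_V_root {δ : ℝ} (hδ : 2 ≤ δ) {m i : ℕ} {s : ℕ → ℤ} {Φ : (ℕ → ℕ) → ℝ} {z : ℤ}
    {b : ℝ} (hb : 0 < b) (hz : z = 1 ∨ z = -1) (hs : s i = 0)
    (hΦ : BndFun m (Function.update s i z) b Φ) (hi : 1 ≤ i) (him : i ≤ m) :
    BndFun m s (b * (δ ^ 2 - 1))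
      ((Op.val (δ • (1 : HAlg)) (δ⁻¹ • 1) (hE δ) (Op.V i)) Φ) := by
  have hq : 0 < δ ^ 2 - 1 := by nlinarith
  refine ⟨(pos_V hδ hz (Or.inl hs) (hΦ.pos hb) hi him).1, fun h hr => ?_⟩
  rw [val_V_apply, hE_site (by linarith) hr hi]
  have h1 : h (2 * i) = 1 := (hr.2.2.2 i hi).1 (Or.inl hs)
  have h3 : Function.update h (2 * i) 1 = h := by rw [Function.update_eq_self_iff, h1]
  have h2 := hΦ.2 _ (hr.update_site hi (x := 3) (Or.inr rfl) z (by omega) (fun _ => rfl))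
  rw [h3]
  nlinarith

theorem bnd_V_normal {δ : ℝ} (hδ : 2 ≤ δ) {m i : ℕ} {s : ℕ → ℤ} {Φ : (ℕ → ℕ) → ℝ} {z : ℤ}
    {b : ℝ} (hb : 0 < b) (hs : s i = 1 ∨ s i = -1) (hz : z = - s i)
    (hΦ : BndFun m (Function.update s i z) b Φ) (hi : 1 ≤ i) (him : i ≤ m) :
    BndFun m s (b * (δ ^ 2 - 2))
      ((Op.val (δ • (1 : HAlg)) (δ⁻¹ • 1) (hE δ) (Op.V i)) Φ) := by
  have hq : 0 < δ ^ 2 - 2 := by nlinarith
  have hz' : z = 1 ∨ z = -1 := by omega
  refine ⟨(pos_V hδ hz' (Or.inr ⟨hs, hz⟩) (hΦ.pos hb) hi him).1, fun h hr => ?_⟩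
  rw [val_V_apply, hE_site (by linarith) hr hi]
  have h1 : h (2 * i) = 3 := (hr.2.2.2 i hi).2 hs
  have h3 : Function.update h (2 * i) 3 = h := by rw [Function.update_eq_self_iff, h1]
  have h2 := hΦ.2 _ (hr.update_site hi (x := 3) (Or.inr rfl) z (by omega) (fun _ => rfl))
  have h4 := hΦ.upd_nonneg (by omega) hi hr (x := 1) (Or.inl rfl)
  rw [h3] at h2 ⊢
  nlinarith

/-- Validity of a list of operations for a status assignment, together with the lower bound it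
gives. -/
def VB (q : ℝ) (m : ℕ) : List Op → (ℕ → ℤ) → ℝ → Prop
  | [], _, b => b = 1
  | (.J i :: ops), s, b => i + 1 ≤ m ∧
      ((1 ≤ i ∧ s i = s (i + 1) ∧ (s i = 1 ∨ s i = -1) ∧
          ∃ b', b = b' / (q - 1) ∧ VB q m ops s b') ∨
        ((i = 0 ∨ s i = 0) ∧ s (i + 1) = 2 ∧ VB q m ops (Function.update s (i + 1) 0) b))
  | (.H i :: ops), s, b => i + 1 ≤ m ∧
      (((((i = 0 ∨ s i = 0) ∧ (s (i + 1) = 1 ∨ s (i + 1) = -1)) ∨
          (1 ≤ i ∧ (s i = 1 ∨ s i = -1) ∧ s (i + 1) = 0)) ∧ VB q m ops s b) ∨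
        (1 ≤ i ∧ (s i = 1 ∨ s i = -1) ∧ s (i + 1) = - s i ∧
          ∃ b', b = b' * ((q - 2) / (q - 1)) ∧ VB q m ops s b'))
  | (.D i :: ops), s, b => 1 ≤ i ∧ i ≤ m ∧
      ((∃ x : ℤ, (x = 1 ∨ x = -1) ∧
          ∃ b', b = b' * (q - 1) ∧ VB q m ops (Function.update s i x) b') ∨
        VB q m ops (Function.update s i 2) b ∨
        ∃ b', b = b' * q ∧ VB q m ops (Function.update s i 3) b')
  | (.V i :: ops), s, b => 1 ≤ i ∧ i ≤ m ∧
      ((s i = 0 ∧ ∃ x : ℤ, (x = 1 ∨ x = -1) ∧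
          ∃ b', b = b' * (q - 1) ∧ VB q m ops (Function.update s i x) b') ∨
        ((s i = 1 ∨ s i = -1) ∧
          ∃ b', b = b' * (q - 2) ∧ VB q m ops (Function.update s i (- s i)) b'))

theorem VB.pos {q : ℝ} (hq : 4 ≤ q) {m : ℕ} : ∀ (ops : List Op) (s : ℕ → ℤ) (b : ℝ),
    VB q m ops s b → 0 < b
  | [], _, b, h => by rw [show b = 1 from h]; norm_num
  | (.J i :: ops), s, b, h => by
    obtain ⟨_, ⟨_, _, _, b', rfl, hv⟩ | ⟨_, _, hv⟩⟩ := h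
    · exact div_pos (VB.pos hq ops _ _ hv) (by linarith)
    · exact VB.pos hq ops _ _ hv
  | (.H i :: ops), s, b, h => by
    obtain ⟨_, ⟨_, hv⟩ | ⟨_, _, _, b', rfl, hv⟩⟩ := h
    · exact VB.pos hq ops _ _ hv
    · exact mul_pos (VB.pos hq ops _ _ hv) (div_pos (by linarith) (by linarith))
  | (.D i :: ops), s, b, h => by
    obtain ⟨_, _, ⟨_, _, b', rfl, hv⟩ | hv | ⟨b', rfl, hv⟩⟩ := h
    · exact mul_pos (VB.pos hq ops _ _ hv) (by linarith)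
    · exact VB.pos hq ops _ _ hv
    · exact mul_pos (VB.pos hq ops _ _ hv) (by linarith)
  | (.V i :: ops), s, b, h => by
    obtain ⟨_, _, ⟨_, _, _, b', rfl, hv⟩ | ⟨_, b', rfl, hv⟩⟩ := h
    · exact mul_pos (VB.pos hq ops _ _ hv) (by linarith)
    · exact mul_pos (VB.pos hq ops _ _ hv) (by linarith)

theorem VB.ok {q : ℝ} {m : ℕ} : ∀ (ops : List Op) (s : ℕ → ℤ) (b : ℝ),
    VB q m ops s b → ∀ o ∈ ops, o.ok m
  | [], _, _, _, o, ho => by simp at ho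
  | (.J i :: ops), s, b, h, o, ho => by
    rcases List.mem_cons.1 ho with rfl | ho
    · exact h.1
    · obtain ⟨_, ⟨_, _, _, b', rfl, hv⟩ | ⟨_, _, hv⟩⟩ := h
      · exact VB.ok ops _ _ hv o ho
      · exact VB.ok ops _ _ hv o ho
  | (.H i :: ops), s, b, h, o, ho => by
    rcases List.mem_cons.1 ho with rfl | ho
    · exact h.1
    · obtain ⟨_, ⟨_, hv⟩ | ⟨_, _, _, b', rfl, hv⟩⟩ := h
      · exact VB.ok ops _ _ hv o ho
      · exact VB.ok ops _ _ hv o ho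
  | (.D i :: ops), s, b, h, o, ho => by
    rcases List.mem_cons.1 ho with rfl | ho
    · exact ⟨h.1, h.2.1⟩
    · obtain ⟨_, _, ⟨_, _, b', rfl, hv⟩ | hv | ⟨b', rfl, hv⟩⟩ := h
      · exact VB.ok ops _ _ hv o ho
      · exact VB.ok ops _ _ hv o ho
      · exact VB.ok ops _ _ hv o ho
  | (.V i :: ops), s, b, h, o, ho => by
    rcases List.mem_cons.1 ho with rfl | ho
    · exact ⟨h.1, h.2.1⟩
    · obtain ⟨_, _, ⟨_, _, _, b', rfl, hv⟩ | ⟨_, b', rfl, hv⟩⟩ := h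
      · exact VB.ok ops _ _ hv o ho
      · exact VB.ok ops _ _ hv o ho

/-- The bound is propagated by the operations. -/
theorem bnd_ops {δ : ℝ} (hδ : 2 ≤ δ) {m : ℕ} {Φ : (ℕ → ℕ) → ℝ} {b0 : ℝ} (hb0 : 0 < b0)
    (hΦ : ∀ s, BndFun m s b0 Φ) : ∀ (ops : List Op) (s : ℕ → ℤ) (b : ℝ),
      VB (δ ^ 2) m ops s b →
      BndFun m s (b * b0) (Wval (δ • (1 : HAlg)) (δ⁻¹ • 1) (hE δ) ops Φ)
  | [], s, b, hv => by
    have : Wval (δ • (1 : HAlg)) (δ⁻¹ • 1) (hE δ) [] Φ = Φ := by simp [Wval]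
    rw [this, show b = 1 from hv, one_mul]
    exact hΦ s
  | (.J i :: ops), s, b, hv => by
    have hq : (4 : ℝ) ≤ δ ^ 2 := by nlinarith
    have hW : Wval (δ • (1 : HAlg)) (δ⁻¹ • 1) (hE δ) (Op.J i :: ops) Φ =
        (Op.val (δ • (1 : HAlg)) (δ⁻¹ • 1) (hE δ) (Op.J i))
          (Wval (δ • (1 : HAlg)) (δ⁻¹ • 1) (hE δ) ops Φ) := by simp [Wval]
    rw [hW]
    obtain ⟨him, ⟨hi, hs, hs1, b', rfl, hv'⟩ | ⟨hi, hs, hv'⟩⟩ := hv
    · have h1 := bnd_J_normal hδ (mul_pos (hv'.pos hq) hb0) (bnd_ops hδ hb0 hΦ ops s b' hv')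
        hi him hs hs1
      have e : b' / (δ ^ 2 - 1) * b0 = b' * b0 / (δ ^ 2 - 1) := by ring
      rw [e]; exact h1
    · exact bnd_J_attach hδ (mul_pos (hv'.pos hq) hb0) (bnd_ops hδ hb0 hΦ ops _ b hv') him hi hs
  | (.H i :: ops), s, b, hv => by
    have hq : (4 : ℝ) ≤ δ ^ 2 := by nlinarith
    have hW : Wval (δ • (1 : HAlg)) (δ⁻¹ • 1) (hE δ) (Op.H i :: ops) Φ =
        (Op.val (δ • (1 : HAlg)) (δ⁻¹ • 1) (hE δ) (Op.H i))
          (Wval (δ • (1 : HAlg)) (δ⁻¹ • 1) (hE δ) ops Φ) := by simp [Wval]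
    rw [hW]
    obtain ⟨him, ⟨h1, hv'⟩ | ⟨h1, h2, h3, b', rfl, hv'⟩⟩ := hv
    · exact bnd_H_left hδ (mul_pos (hv'.pos hq) hb0) (bnd_ops hδ hb0 hΦ ops s b hv') h1
    · have h4 := bnd_H_normal hδ (mul_pos (hv'.pos hq) hb0) (bnd_ops hδ hb0 hΦ ops s b' hv')
        h1 him h2 h3
      have e : b' * ((δ ^ 2 - 2) / (δ ^ 2 - 1)) * b0 =
        b' * b0 * ((δ ^ 2 - 2) / (δ ^ 2 - 1)) := by ring
      rw [e]; exact h4
  | (.D i :: ops), s, b, hv => by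
    have hq : (4 : ℝ) ≤ δ ^ 2 := by nlinarith
    have hW : Wval (δ • (1 : HAlg)) (δ⁻¹ • 1) (hE δ) (Op.D i :: ops) Φ =
        (Op.val (δ • (1 : HAlg)) (δ⁻¹ • 1) (hE δ) (Op.D i))
          (Wval (δ • (1 : HAlg)) (δ⁻¹ • 1) (hE δ) ops Φ) := by simp [Wval]
    rw [hW]
    obtain ⟨hi, him, ⟨z, hz, b', rfl, hv'⟩ | hv' | ⟨b', rfl, hv'⟩⟩ := hv
    · have h1 := bnd_D_vertex hδ hz (bnd_ops hδ hb0 hΦ ops _ b' hv') hi him
      have e : b' * (δ ^ 2 - 1) * b0 = b' * b0 * (δ ^ 2 - 1) := by ring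
      rw [e]; exact h1
    · exact bnd_D_fresh hδ (bnd_ops hδ hb0 hΦ ops _ b hv') hi him
    · have h1 := bnd_D_free hδ (bnd_ops hδ hb0 hΦ ops _ b' hv') hi him
      have e : b' * δ ^ 2 * b0 = b' * b0 * δ ^ 2 := by ring
      rw [e]; exact h1
  | (.V i :: ops), s, b, hv => by
    have hq : (4 : ℝ) ≤ δ ^ 2 := by nlinarith
    have hW : Wval (δ • (1 : HAlg)) (δ⁻¹ • 1) (hE δ) (Op.V i :: ops) Φ =
        (Op.val (δ • (1 : HAlg)) (δ⁻¹ • 1) (hE δ) (Op.V i))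
          (Wval (δ • (1 : HAlg)) (δ⁻¹ • 1) (hE δ) ops Φ) := by simp [Wval]
    rw [hW]
    obtain ⟨hi, him, ⟨hs, z, hz, b', rfl, hv'⟩ | ⟨hs, b', rfl, hv'⟩⟩ := hv
    · have h1 := bnd_V_root hδ (mul_pos (hv'.pos hq) hb0) hz hs
        (bnd_ops hδ hb0 hΦ ops _ b' hv') hi him
      have e : b' * (δ ^ 2 - 1) * b0 = b' * b0 * (δ ^ 2 - 1) := by ring
      rw [e]; exact h1
    · have h1 := bnd_V_normal hδ (mul_pos (hv'.pos hq) hb0) hs rfl
        (bnd_ops hδ hb0 hΦ ops _ b' hv') hi him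
      have e : b' * (δ ^ 2 - 2) * b0 = b' * b0 * (δ ^ 2 - 2) := by ring
      rw [e]; exact h1

/-- The projector applied to one, at configurations whose faces have height two. -/
theorem TLX_one_ref {δ : ℝ} (hδ : 2 ≤ δ) : ∀ (j : ℕ) (h : ℕ → ℕ), IsPath h →
    (∀ i, h (2 * i + 1) = 2) → TLX (hE δ) (2 * j) (fun _ => 1) h = δ ^ j
  | 0, h, _, _ => by simp [TLX]
  | (j + 1), h, hp, h1 => by
    have hX : TLX (hE δ) (2 * (j + 1)) = hE δ (2 * (j + 1)) * TLX (hE δ) (2 * j) := rfl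
    rw [hX]
    have hap : (hE δ (2 * (j + 1)) * TLX (hE δ) (2 * j)) (fun _ => (1 : ℝ)) h =
        hE δ (2 * (j + 1)) (TLX (hE δ) (2 * j) (fun _ => 1)) h := rfl
    rw [hap]
    have hodd : h (2 * (j + 1) - 1) = 2 := by
      have := h1 j
      rwa [show 2 * j + 1 = 2 * (j + 1) - 1 by omega] at this
    have he : h (2 * (j + 1) - 1) = h (2 * (j + 1) + 1) := by rw [hodd, h1]
    have hup : ∀ x, x = 1 ∨ x = 3 → TLX (hE δ) (2 * j) (fun _ => 1)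
        (Function.update h (2 * (j + 1)) x) = δ ^ j := by
      intro x hx
      apply TLX_one_ref hδ j
      · exact hp.update (by omega) he (by omega) (by rw [hodd]; omega)
      · intro i
        rw [Function.update_of_ne (by omega)]; exact h1 i
    rw [hE_pos δ _ _ hp he, hodd, show 2 + 1 = 3 from rfl, show 2 - 1 = 1 from rfl, hS_two,
      hS_three, hS_one, hup 3 (Or.inr rfl), hup 1 (Or.inl rfl)]
    have hδ0 : δ ≠ 0 := by linarith
    field_simp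
    ring

theorem bndFun_base {δ : ℝ} (hδ : 2 ≤ δ) (m : ℕ) (s : ℕ → ℤ) :
    BndFun m s (δ ^ m) (TLX (hE δ) (2 * m) (fun _ => 1)) :=
  ⟨(posFun_base hδ m s).1, fun h hr => (TLX_one_ref hδ m h hr.1 hr.2.2.1).ge⟩

/-- The projector at reference configurations. -/
theorem TLX_bnd {δ : ℝ} (hδ : 2 ≤ δ) {m : ℕ} {b : ℝ} : ∀ (j : ℕ), j ≤ m →
    ∀ (Φ : (ℕ → ℕ) → ℝ) (s : ℕ → ℤ), (∀ i, 1 ≤ i → i ≤ j → s i = 2) → BndFun m s b Φ →
    ∀ s' : ℕ → ℤ, (∀ i, (1 ≤ i ∧ i ≤ j) ∨ s' i = s i) →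
      BndFun m s' (b / δ ^ j) (TLX (hE δ) (2 * j) Φ)
  | 0, _, Φ, s, _, hΦ, s', hs' => by
    have hX : TLX (hE δ) (2 * 0) Φ = Φ := by simp [TLX]
    have : s' = s := by
      funext i
      rcases hs' i with h | h
      · omega
      · exact h
    rw [hX, this, pow_zero, div_one]
    exact hΦ
  | (j + 1), hj, Φ, s, hs, hΦ, s', hs' => by
    have hX : TLX (hE δ) (2 * (j + 1)) Φ = hE δ (2 * (j + 1)) (TLX (hE δ) (2 * j) Φ) := rfl
    have IH := TLX_bnd hδ j (by omega) Φ s (fun i h1 h2 => hs i h1 (by omega)) hΦ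
      (Function.update s' (j + 1) 2) (fun i => by
        by_cases hij : i = j + 1
        · right; rw [hij, Function.update_self]; exact (hs (j + 1) (by omega) le_rfl).symm
        · rw [Function.update_of_ne hij]
          rcases hs' i with h | h
          · left; omega
          · right; exact h)
    have h2 := bnd_D_fresh hδ IH (by omega) hj
    have hδ0 : 0 < δ := by linarith
    rw [hX]
    refine ⟨fun h hd => ?_, fun h hr => ?_⟩
    · have h3 := h2.1 h hd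
      rw [val_D_apply] at h3
      have h4 : 0 ≤ δ * (gs m s' h * hE δ (2 * (j + 1)) (TLX (hE δ) (2 * j) Φ) h) := by
        calc (0 : ℝ) ≤ gs m s' h * (δ * hE δ (2 * (j + 1)) (TLX (hE δ) (2 * j) Φ) h) := h3
          _ = _ := by ring
      exact nonneg_of_mul_nonneg_right h4 hδ0
    · have h3 := h2.2 h hr
      rw [val_D_apply] at h3
      rw [pow_succ, ← div_div, div_le_iff₀ hδ0]
      linarith

/-- Lower bound for the evaluation of a network in the height representation. -/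
theorem height_bound {δ : ℝ} (hδ : 2 ≤ δ) {m : ℕ} {ops : List Op} {b : ℝ}
    (hv : VB (δ ^ 2) m ops (fun _ => 2) b) {K : ℕ} {c : ℝ}
    (hc : δ ^ K • (TLX (hE δ) (2 * m) * Wval (δ • 1) (δ⁻¹ • 1) (hE δ) ops * TLX (hE δ) (2 * m)) =
      c • TLX (hE δ) (2 * m)) : δ ^ K * b ≤ c * δ ^ m := by
  have hδ0 : 0 < δ := by linarith
  have h1 := bnd_ops hδ (pow_pos hδ0 m) (fun s => bndFun_base hδ m s) ops _ b hv
  have h2 := TLX_bnd hδ m le_rfl _ (fun _ => 2) (fun _ _ _ => rfl) h1 (fun _ => 2)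
    (fun i => Or.inr rfl)
  have hr : Ref (fun _ => 2) (hstar (fun _ => 2)) := by
    refine ⟨hstar_path _, hstar_zero _, hstar_odd _, fun i hi => ⟨fun _ => ?_, fun h => ?_⟩⟩
    · rw [hstar_even _ hi, if_pos (Or.inr rfl)]
    · norm_num at h
  have h3 := congrArg (fun (f : HAlg) => f (fun _ => 1) (hstar (fun _ => 2))) hc
  have h4 : (δ ^ K • (TLX (hE δ) (2 * m) * Wval (δ • 1) (δ⁻¹ • 1) (hE δ) ops *
      TLX (hE δ) (2 * m)) : HAlg) (fun _ => 1) (hstar (fun _ => 2)) =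
      δ ^ K * TLX (hE δ) (2 * m) (Wval (δ • 1) (δ⁻¹ • 1) (hE δ) ops
        (TLX (hE δ) (2 * m) (fun _ => 1))) (hstar (fun _ => 2)) := rfl
  have h5 : (c • TLX (hE δ) (2 * m) : HAlg) (fun _ => 1) (hstar (fun _ => 2)) =
      c * TLX (hE δ) (2 * m) (fun _ => 1) (hstar (fun _ => 2)) := rfl
  have h6 : δ ^ K * TLX (hE δ) (2 * m) (Wval (δ • 1) (δ⁻¹ • 1) (hE δ) ops
        (TLX (hE δ) (2 * m) (fun _ => 1))) (hstar (fun _ => 2)) =
      c * TLX (hE δ) (2 * m) (fun _ => 1) (hstar (fun _ => 2)) := h4.symm.trans (h3.trans h5)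
  rw [TLX_one_ref hδ m _ hr.1 hr.2.2.1] at h6
  have h7 := h2.2 _ hr
  have e : b * δ ^ m / δ ^ m = b := by field_simp
  rw [e] at h7
  rw [← h6]
  exact mul_le_mul_of_nonneg_left h7 (by positivity)

end Pool.Agent.Helper70.BLB
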