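import Mathlib
import Pool.Agent.Helper70.BLB.HeightBound
import Pool.Agent.Helper70.BLB.Model

/-!
The lower bound given by the operations of a labelled grid.
-/

set_option autoImplicit false

namespace Pool.Agent.Helper70.BLB

variable {V : Type} {G : SimpleGraph V} {r : V} {k T : ℕ} {L : ℕ → ℕ → Option V}

open Classical in
/-- Status of a label; points without label are free. -/
noncomputable def lsb (r : V) (cl : V → ℤ) : Option V → ℤ
  | none => 3
  | some v => if v = r then 0 else cl v

open Classical in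
/-- The factor of a new grid point with label `a`. -/
noncomputable def wpt (q : ℝ) (a : Option V) : ℝ := if a = none then q else q - 1

open Classical in
/-- The factor of a pair of adjacent grid points with labels `a` and `b`. -/
noncomputable def wad (G : SimpleGraph V) (r : V) (q : ℝ) (a b : Option V) : ℝ :=
  if a = b ∧ a ≠ none then (q - 1)⁻¹
  else if ladj G a b ∧ a ≠ some r ∧ b ≠ some r then (q - 2) / (q - 1) else 1

/-- The bound only depends on the statuses of the sites `1, …, m`. -/
theorem VB_congr {q : ℝ} {m : ℕ} : ∀ (ops : List Op) (a b : ℕ → ℤ) (w : ℝ),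
    (∀ i, 1 ≤ i → i ≤ m → a i = b i) → VB q m ops a w → VB q m ops b w
  | [], _, _, _, _, h => h
  | (Op.J i :: ops), a, b, w, hab, hv => by
    have hupd : ∀ j z, ∀ l, 1 ≤ l → l ≤ m →
        Function.update a j z l = Function.update b j z l := by
      intro j z l hl1 hl2
      by_cases hlj : l = j
      · subst hlj; rw [Function.update_self, Function.update_self]
      · rw [Function.update_of_ne hlj, Function.update_of_ne hlj]
        exact hab l hl1 hl2
    obtain ⟨h1, ⟨hi, h2, h3, b', rfl, hv'⟩ | ⟨h2, h3, hv'⟩⟩ := hv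
    · refine ⟨h1, Or.inl ⟨hi, ?_, ?_, b', rfl, VB_congr ops a b b' hab hv'⟩⟩
      · rw [← hab i hi (by omega), ← hab (i + 1) (by omega) h1]; exact h2
      · rw [← hab i hi (by omega)]; exact h3
    · refine ⟨h1, Or.inr ⟨?_, ?_, VB_congr ops _ _ w (hupd _ _) hv'⟩⟩
      · by_cases h0 : i = 0
        · exact Or.inl h0
        · right; rw [← hab i (by omega) (by omega)]; tauto
      · rw [← hab (i + 1) (by omega) h1]; exact h3
  | (Op.H i :: ops), a, b, w, hab, hv => by
    obtain ⟨h1, ⟨h2, hv'⟩ | ⟨h2, h3, h4, b', rfl, hv'⟩⟩ := hv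
    · refine ⟨h1, Or.inl ⟨?_, VB_congr ops a b w hab hv'⟩⟩
      rcases h2 with h2 | h2
      · left
        refine ⟨?_, ?_⟩
        · by_cases h0 : i = 0
          · exact Or.inl h0
          · right; rw [← hab i (by omega) (by omega)]; tauto
        · rw [← hab (i + 1) (by omega) h1]; exact h2.2
      · right
        refine ⟨h2.1, ?_, ?_⟩
        · rw [← hab i h2.1 (by omega)]; exact h2.2.1
        · rw [← hab (i + 1) (by omega) h1]; exact h2.2.2
    · refine ⟨h1, Or.inr ⟨h2, ?_, ?_, b', rfl, VB_congr ops a b b' hab hv'⟩⟩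
      · rw [← hab i h2 (by omega)]; exact h3
      · rw [← hab i h2 (by omega), ← hab (i + 1) (by omega) h1]; exact h4
  | (Op.D i :: ops), a, b, w, hab, hv => by
    have hupd : ∀ j z, ∀ l, 1 ≤ l → l ≤ m →
        Function.update a j z l = Function.update b j z l := by
      intro j z l hl1 hl2
      by_cases hlj : l = j
      · subst hlj; rw [Function.update_self, Function.update_self]
      · rw [Function.update_of_ne hlj, Function.update_of_ne hlj]
        exact hab l hl1 hl2
    obtain ⟨h1, h2, ⟨x, hx, b', rfl, hv'⟩ | hv' | ⟨b', rfl, hv'⟩⟩ := hv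
    · exact ⟨h1, h2, Or.inl ⟨x, hx, b', rfl, VB_congr ops _ _ b' (hupd _ _) hv'⟩⟩
    · exact ⟨h1, h2, Or.inr (Or.inl (VB_congr ops _ _ w (hupd _ _) hv'))⟩
    · exact ⟨h1, h2, Or.inr (Or.inr ⟨b', rfl, VB_congr ops _ _ b' (hupd _ _) hv'⟩)⟩
  | (Op.V i :: ops), a, b, w, hab, hv => by
    have hupd : ∀ j z, ∀ l, 1 ≤ l → l ≤ m →
        Function.update a j z l = Function.update b j z l := by
      intro j z l hl1 hl2
      by_cases hlj : l = j
      · subst hlj; rw [Function.update_self, Function.update_self]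
      · rw [Function.update_of_ne hlj, Function.update_of_ne hlj]
        exact hab l hl1 hl2
    obtain ⟨h1, h2, ⟨h3, x, hx, b', rfl, hv'⟩ | ⟨h3, b', rfl, hv'⟩⟩ := hv
    · refine ⟨h1, h2, Or.inl ⟨?_, x, hx, b', rfl, VB_congr ops _ _ b' (hupd _ _) hv'⟩⟩
      rw [← hab i h1 h2]; exact h3
    · refine ⟨h1, h2, Or.inr ⟨?_, b', rfl, ?_⟩⟩
      · rw [← hab i h1 h2]; exact h3
      · rw [← hab i h1 h2]
        exact VB_congr ops _ _ b' (hupd _ _) hv'

theorem vb_bot {q : ℝ} {m : ℕ} {w : ℝ} (rest : List Op) : ∀ (n : ℕ), n ≤ m →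
    VB q m rest (fun i => if 1 ≤ i ∧ i ≤ n then 0 else 2) w →
    VB q m (botOps n ++ rest) (fun _ => 2) w
  | 0, _, h => by
    have e : (fun i : ℕ => if 1 ≤ i ∧ i ≤ 0 then (0 : ℤ) else 2) = fun _ => 2 := by
      funext i; rw [if_neg (by omega)]
    rw [e] at h
    exact h
  | (n + 1), hn, h => by
    have e : botOps (n + 1) ++ rest = botOps n ++ (Op.J n :: rest) := by
      simp [botOps]
    rw [e]
    apply vb_bot (Op.J n :: rest) n (by omega)
    refine ⟨hn, Or.inr ⟨?_, ?_, ?_⟩⟩
    · by_cases h0 : n = 0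
      · exact Or.inl h0
      · right
        show (if 1 ≤ n ∧ n ≤ n then (0 : ℤ) else 2) = 0
        rw [if_pos ⟨by omega, le_rfl⟩]
    · show (if 1 ≤ n + 1 ∧ n + 1 ≤ n then (0 : ℤ) else 2) = 2
      rw [if_neg (by omega)]
    · have e2 : Function.update (fun i : ℕ => if 1 ≤ i ∧ i ≤ n then (0 : ℤ) else 2) (n + 1) 0 =
          fun i => if 1 ≤ i ∧ i ≤ n + 1 then 0 else 2 := by
        funext i
        by_cases hi : i = n + 1
        · subst hi; rw [Function.update_self, if_pos ⟨by omega, le_rfl⟩]
        · rw [Function.update_of_ne hi]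
          by_cases h2 : 1 ≤ i ∧ i ≤ n
          · rw [if_pos h2, if_pos ⟨h2.1, by omega⟩]
          · rw [if_neg h2, if_neg (by omega)]
      rw [e2]; exact h

/-- Mixed status. -/
noncomputable def msb (r : V) (cl : V → ℤ) (L : ℕ → ℕ → Option V) (j n : ℕ) (i : ℕ) : ℤ :=
  if i ≤ n then lsb r cl (L i (j + 1)) else lsb r cl (L i j)

theorem msb_update (cl : V → ℤ) (L : ℕ → ℕ → Option V) (j n : ℕ) :
    Function.update (msb r cl L j n) (n + 1) (lsb r cl (L (n + 1) (j + 1))) =
      msb r cl L j (n + 1) := by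
  funext i
  by_cases hi : i = n + 1
  · subst hi
    rw [Function.update_self]
    unfold msb
    rw [if_pos le_rfl]
  · rw [Function.update_of_ne hi]
    unfold msb
    by_cases h2 : i ≤ n
    · rw [if_pos h2, if_pos (by omega)]
    · rw [if_neg h2, if_neg (by omega)]

theorem lsb_vertex (cl : V → ℤ) {v : V} (hv : v ≠ r) : lsb r cl (some v) = cl v := by
  simp only [lsb, if_neg hv]

theorem lsb_root (cl : V → ℤ) : lsb r cl (some r) = 0 := by
  simp [lsb]

theorem vb_step {q : ℝ} (hq : 4 ≤ q) {cl : V → ℤ} (hC : Cls G r cl)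
    (hL : ∀ i j, L i j = some r ↔ (i = 0 ∨ k < i ∨ j = 0 ∨ T < j)) {j : ℕ} (hj : j < T) :
    ∀ (n : ℕ) (rest : List Op) (w : ℝ), n ≤ k → VB q (k + 1) rest (msb r cl L j n) w →
    VB q (k + 1) (stepOps G L j n ++ rest) (msb r cl L j 0)
      (w * ∏ i ∈ Finset.range n, (wpt q (L (i + 1) (j + 1)) *
        wad G r q (L (i + 1) j) (L (i + 1) (j + 1))))
  | 0, rest, w, _, h => by
    rw [Finset.range_zero, Finset.prod_empty, mul_one]; exact h
  | (n + 1), rest, w, hn, h => by
    have e : stepOps G L j (n + 1) ++ rest =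
        stepOps G L j n ++ (vop G (n + 1) (L (n + 1) j) (L (n + 1) (j + 1)) ++ rest) := by
      simp [stepOps]
    rw [e, Finset.prod_range_succ, mul_comm (∏ i ∈ Finset.range n, _) _, ← mul_assoc]
    apply vb_step hq hC hL hj n _ _ (by omega)
    have hq1 : q - 1 ≠ 0 := by intro h0; linarith
    have hb : L (n + 1) (j + 1) ≠ some r := fun hh => by
      have := (hL _ _).1 hh; omega
    have hcur : msb r cl L j n (n + 1) = lsb r cl (L (n + 1) j) := by
      unfold msb; rw [if_neg (by omega)]
    unfold vop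
    split_ifs with h1 h2
    · -- persist
      rw [List.nil_append]
      have e3 : msb r cl L j n = msb r cl L j (n + 1) := by
        rw [← msb_update, ← h1.1, ← hcur, Function.update_eq_self]
      have e4 : w * (wpt q (L (n + 1) (j + 1)) * wad G r q (L (n + 1) j) (L (n + 1) (j + 1))) =
          w := by
        unfold wpt wad
        rw [if_pos h1, if_neg (by rw [← h1.1]; exact h1.2), mul_inv_cancel₀ hq1, mul_one]
      rw [e3, e4]; exact h
    · -- V
      rw [List.singleton_append]
      obtain ⟨u, v, hu, hv, huv⟩ := h2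
      have hvr : v ≠ r := fun hh => hb (by rw [hv, hh])
      have hnone : L (n + 1) (j + 1) ≠ none := by rw [hv]; simp
      refine ⟨by omega, by omega, ?_⟩
      by_cases hur : u = r
      · left
        refine ⟨by rw [hcur, hu, hur, lsb_root], cl v, hC.val v, w, ?_, ?_⟩
        · unfold wpt wad
          rw [if_neg hnone, if_neg h1, if_neg (by rw [hu, hur]; tauto), mul_one]
        · rw [← msb_update, hv, lsb_vertex cl hvr] at h
          exact h
      · right
        have hcl := hC.adj u v hur hvr huv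
        have hsu : msb r cl L j n (n + 1) = cl u := by rw [hcur, hu, lsb_vertex cl hur]
        rw [hsu]
        refine ⟨hC.val u, w, ?_, ?_⟩
        · unfold wpt wad
          have hur' : (some u : Option V) ≠ some r := fun hh => hur (Option.some_inj.1 hh)
          rw [if_neg hnone, if_neg h1, if_pos ⟨⟨u, v, hu, hv, huv⟩, by rw [hu]; exact hur', hb⟩]
          field_simp
        · rw [← hcl]
          rw [← msb_update, hv, lsb_vertex cl hvr] at h
          exact h
    · -- D
      rw [List.singleton_append]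
      have hw : wad G r q (L (n + 1) j) (L (n + 1) (j + 1)) = 1 := by
        unfold wad
        rw [if_neg h1, if_neg (fun hh => h2 hh.1)]
      refine ⟨by omega, by omega, ?_⟩
      rcases hlab : L (n + 1) (j + 1) with _ | v
      · right; right
        refine ⟨w, ?_, ?_⟩
        · rw [← hlab, hw]; unfold wpt; rw [if_pos hlab, mul_one]
        · rw [← msb_update, hlab] at h
          exact h
      · left
        have hvr : v ≠ r := fun hh => hb (by rw [hlab, hh])
        refine ⟨cl v, hC.val v, w, ?_, ?_⟩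
        · rw [← hlab, hw]; unfold wpt; rw [if_neg (by rw [hlab]; simp), mul_one]
        · rw [← msb_update, hlab, lsb_vertex cl hvr] at h
          exact h

theorem vb_hor {q : ℝ} (hq : 4 ≤ q) {cl : V → ℤ} (hC : Cls G r cl)
    (hL : ∀ i j, L i j = some r ↔ (i = 0 ∨ k < i ∨ j = 0 ∨ T < j)) {j : ℕ} (hk : 1 ≤ k)
    (hj1 : 1 ≤ j)
    (hj2 : j ≤ T) (s : ℕ → ℤ) (hs : ∀ i, 1 ≤ i → i ≤ k + 1 → s i = lsb r cl (L i j)) :
    ∀ (n : ℕ) (rest : List Op) (w : ℝ), n ≤ k + 1 → VB q (k + 1) rest s w →
    VB q (k + 1) (horOps G L j n ++ rest) s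
      (w * ∏ i ∈ Finset.range n, wad G r q (L i j) (L (i + 1) j))
  | 0, rest, w, _, h => by
    rw [Finset.range_zero, Finset.prod_empty, mul_one]; exact h
  | (n + 1), rest, w, hn, h => by
    have e : horOps G L j (n + 1) ++ rest =
        horOps G L j n ++ (hop G n (L n j) (L (n + 1) j) ++ rest) := by
      simp [horOps]
    rw [e, Finset.prod_range_succ, mul_comm (∏ i ∈ Finset.range n, _) _, ← mul_assoc]
    apply vb_hor hq hC hL hk hj1 hj2 s hs n _ _ (by omega)
    have hq1 : q - 1 ≠ 0 := by intro h0; linarith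
    unfold hop
    split_ifs with h1 h2
    · rw [List.singleton_append]
      have hne : L n j ≠ some r := by
        intro hh
        have a1 := (hL _ _).1 hh
        have a2 := (hL _ _).1 (h1.1 ▸ hh)
        omega
      have hn1 : 1 ≤ n := by
        by_contra hcon
        have h0 : n = 0 := by omega
        exact hne ((hL _ _).2 (Or.inl h0))
      obtain ⟨v, hv⟩ := Option.ne_none_iff_exists'.1 h1.2
      have hvr : v ≠ r := fun hh => hne (by rw [hv, hh])
      refine ⟨hn, Or.inl ⟨hn1, ?_, ?_, w, ?_, h⟩⟩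
      · rw [hs n hn1 (by omega), hs (n + 1) (by omega) hn, h1.1]
      · rw [hs n hn1 (by omega), hv, lsb_vertex cl hvr]
        exact hC.val v
      · unfold wad
        rw [if_pos h1, div_eq_mul_inv]
    · rw [List.singleton_append]
      refine ⟨hn, ?_⟩
      obtain ⟨u, v, hu, hv, huv⟩ := h2
      have huvne : u ≠ v := huv.ne
      by_cases hur : u = r
      · left
        have hvr : v ≠ r := fun hh => huvne (by rw [hur, hh])
        have hw : wad G r q (L n j) (L (n + 1) j) = 1 := by
          unfold wad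
          rw [if_neg h1, if_neg (by rw [hu, hur]; tauto)]
        rw [hw, mul_one]
        refine ⟨Or.inl ⟨?_, ?_⟩, h⟩
        · by_cases h0 : n = 0
          · exact Or.inl h0
          · right
            rw [hs n (by omega) (by omega), hu, hur, lsb_root]
        · rw [hs (n + 1) (by omega) hn, hv, lsb_vertex cl hvr]
          exact hC.val v
      · have hn1 : 1 ≤ n := by
          by_contra hcon
          have h0 : n = 0 := by omega
          have := (hL n j).2 (Or.inl h0)
          rw [hu, Option.some_inj] at this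
          exact hur this
        by_cases hvr : v = r
        · left
          have hw : wad G r q (L n j) (L (n + 1) j) = 1 := by
            unfold wad
            rw [if_neg h1, if_neg (by rw [hv, hvr]; tauto)]
          rw [hw, mul_one]
          refine ⟨Or.inr ⟨hn1, ?_, ?_⟩, h⟩
          · rw [hs n hn1 (by omega), hu, lsb_vertex cl hur]
            exact hC.val u
          · rw [hs (n + 1) (by omega) hn, hv, hvr, lsb_root]
        · right
          refine ⟨hn1, ?_, ?_, w, ?_, h⟩
          · rw [hs n hn1 (by omega), hu, lsb_vertex cl hur]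
            exact hC.val u
          · rw [hs n hn1 (by omega), hs (n + 1) (by omega) hn, hu, hv, lsb_vertex cl hur,
              lsb_vertex cl hvr]
            exact hC.adj u v hur hvr huv
          · unfold wad
            have hur' : (some u : Option V) ≠ some r := fun hh => hur (Option.some_inj.1 hh)
            have hvr' : (some v : Option V) ≠ some r := fun hh => hvr (Option.some_inj.1 hh)
            rw [if_neg h1, if_pos ⟨⟨u, v, hu, hv, huv⟩, by rw [hu]; exact hur',
              by rw [hv]; exact hvr'⟩]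
    · have hw : wad G r q (L n j) (L (n + 1) j) = 1 := by
        unfold wad
        rw [if_neg h1, if_neg (fun hh => h2 hh.1)]
      rw [hw, mul_one, List.nil_append]
      exact h

theorem vb_top {q : ℝ} {cl : V → ℤ} (hC : Cls G r cl)
    (hL : ∀ i j, L i j = some r ↔ (i = 0 ∨ k < i ∨ j = 0 ∨ T < j)) (hT : 1 ≤ T)
    (s : ℕ → ℤ) (hs : ∀ i, 1 ≤ i → i ≤ k + 1 → s i = lsb r cl (L i T)) :
    ∀ (n : ℕ) (rest : List Op) (w : ℝ), n ≤ k →
    VB q (k + 1) rest (fun i => if 1 ≤ i ∧ i ≤ n then 0 else s i) w →
    VB q (k + 1) (topOps G L r T n ++ rest) s w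
  | 0, rest, w, _, h => by
    have e : (fun i : ℕ => if 1 ≤ i ∧ i ≤ 0 then (0 : ℤ) else s i) = s := by
      funext i; rw [if_neg (by omega)]
    rw [e] at h
    exact h
  | (n + 1), rest, w, hn, h => by
    classical
    have e : topOps G L r T (n + 1) ++ rest = topOps G L r T n ++
        ((if ladj G (L (n + 1) T) (some r) then [Op.H n] else []) ++
          (Op.D (n + 1) :: Op.J n :: rest)) := by
      simp only [topOps, List.append_assoc]
      rfl
    rw [e]
    apply vb_top hC hL hT s hs n _ _ (by omega)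
    set s1 : ℕ → ℤ := fun i => if 1 ≤ i ∧ i ≤ n then 0 else s i with hs1
    have hleft : n = 0 ∨ s1 n = 0 := by
      by_cases h0 : n = 0
      · exact Or.inl h0
      · right; rw [hs1]; simp only; rw [if_pos ⟨by omega, le_rfl⟩]
    have hright : s1 (n + 1) = lsb r cl (L (n + 1) T) := by
      rw [hs1]; simp only; rw [if_neg (by omega)]
      exact hs (n + 1) (by omega) (by omega)
    have hne : L (n + 1) T ≠ some r := by
      intro hh
      have := (hL _ _).1 hh
      omega
    have hrest : VB q (k + 1) (Op.D (n + 1) :: Op.J n :: rest) s1 w := by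
      refine ⟨by omega, by omega, Or.inr (Or.inl ?_)⟩
      refine ⟨by omega, Or.inr ⟨?_, ?_, ?_⟩⟩
      · rcases hleft with h0 | h0
        · exact Or.inl h0
        · right; rw [Function.update_of_ne (by omega)]; exact h0
      · rw [Function.update_self]
      · have e2 : Function.update (Function.update s1 (n + 1) 2) (n + 1) 0 =
            fun i => if 1 ≤ i ∧ i ≤ n + 1 then 0 else s i := by
          funext i
          by_cases hi : i = n + 1
          · subst hi; rw [Function.update_self, if_pos ⟨by omega, le_rfl⟩]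
          · rw [Function.update_of_ne hi, Function.update_of_ne hi, hs1]
            simp only
            by_cases h2 : 1 ≤ i ∧ i ≤ n
            · rw [if_pos h2, if_pos ⟨h2.1, by omega⟩]
            · rw [if_neg h2, if_neg (by omega)]
        rw [e2]; exact h
    by_cases ha : ladj G (L (n + 1) T) (some r)
    · rw [if_pos ha, List.singleton_append]
      obtain ⟨u, v, hu, _, _⟩ := ha
      have hur : u ≠ r := fun hh => hne (by rw [hu, hh])
      refine ⟨by omega, Or.inl ⟨Or.inl ⟨hleft, ?_⟩, hrest⟩⟩
      rw [hright, hu, lsb_vertex cl hur]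
      exact hC.val u
    · rw [if_neg ha, List.nil_append]
      exact hrest

/-- The product of the factors of row `j + 1`. -/
noncomputable def wrow (G : SimpleGraph V) (r : V) (q : ℝ) (L : ℕ → ℕ → Option V) (k j : ℕ) : ℝ :=
  (∏ i ∈ Finset.range (k + 1), wad G r q (L i (j + 1)) (L (i + 1) (j + 1))) *
    ∏ i ∈ Finset.range k, (wpt q (L (i + 1) (j + 1)) *
      wad G r q (L (i + 1) j) (L (i + 1) (j + 1)))

theorem vb_body {q : ℝ} (hq : 4 ≤ q) {cl : V → ℤ} (hC : Cls G r cl) (hk : 1 ≤ k)
    (hL : ∀ i j, L i j = some r ↔ (i = 0 ∨ k < i ∨ j = 0 ∨ T < j)) (s : ℕ → ℤ)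
    (hs : ∀ i, 1 ≤ i → i ≤ k + 1 → s i = lsb r cl (L i 0)) :
    ∀ (t : ℕ) (rest : List Op) (w : ℝ), t ≤ T → (∀ s' : ℕ → ℤ,
      (∀ i, 1 ≤ i → i ≤ k + 1 → s' i = lsb r cl (L i t)) →
      VB q (k + 1) rest s' w) →
    VB q (k + 1) (bodyOps G L k t ++ rest) s (w * ∏ j ∈ Finset.range t, wrow G r q L k j)
  | 0, rest, w, _, h => by
    rw [Finset.range_zero, Finset.prod_empty, mul_one]
    exact h s hs
  | (t + 1), rest, w, ht, h => by
    have e : bodyOps G L k (t + 1) ++ rest = bodyOps G L k t ++
        (stepOps G L t k ++ (horOps G L (t + 1) (k + 1) ++ rest)) := by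
      simp [bodyOps]
    rw [e, Finset.prod_range_succ, mul_comm (∏ i ∈ Finset.range t, _) _, ← mul_assoc]
    apply vb_body hq hC hk hL s hs t _ _ (by omega)
    intro s' hs'
    have h1 : ∀ i, 1 ≤ i → i ≤ k + 1 → msb r cl L t 0 i = s' i := by
      intro i hi1 hi2
      rw [hs' i hi1 hi2]
      unfold msb
      rw [if_neg (by omega)]
    apply VB_congr _ (msb r cl L t 0) s' _ h1
    unfold wrow
    rw [← mul_assoc]
    apply vb_step hq hC hL (by omega) k _ _ le_rfl
    have h2 : ∀ i, 1 ≤ i → i ≤ k + 1 → msb r cl L t k i = lsb r cl (L i (t + 1)) := by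
      intro i hi1 hi2
      unfold msb
      by_cases hik : i ≤ k
      · rw [if_pos hik]
      · rw [if_neg hik, (hL i t).2 (by omega), (hL i (t + 1)).2 (by omega)]
    apply vb_hor hq hC hL hk (by omega) ht _ h2 (k + 1) _ _ le_rfl
    exact h _ h2

theorem vb_all {q : ℝ} (hq : 4 ≤ q) {cl : V → ℤ} (hC : Cls G r cl) (hk : 1 ≤ k) (hT : 1 ≤ T)
    (hL : ∀ i j, L i j = some r ↔ (i = 0 ∨ k < i ∨ j = 0 ∨ T < j)) :
    VB q (k + 1) (allOps G L r k T) (fun _ => 2) (∏ j ∈ Finset.range T, wrow G r q L k j) := by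
  unfold allOps
  apply vb_bot _ (k + 1) le_rfl
  have h := vb_body hq hC hk hL (fun i => if 1 ≤ i ∧ i ≤ k + 1 then (0 : ℤ) else 2) (by
    intro i h1 h2
    show (if 1 ≤ i ∧ i ≤ k + 1 then (0 : ℤ) else 2) = _
    rw [if_pos ⟨h1, h2⟩, (hL i 0).2 (by omega), lsb_root]) T (topOps G L r T k) 1 le_rfl
    (fun s' hs' => by
      have := vb_top (q := q) (G := G) (k := k) hC hL hT s' hs' k [] 1 le_rfl rfl
      rw [List.append_nil] at this
      exact this)
  rw [one_mul] at h
  exact h

end Pool.Agent.Helper70.BLB
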