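import Mathlib
import Pool.Agent.Helper70.BLB.BoundModel
import Pool.Agent.Helper70.BLB.GridPos

/-!
Lower bound for the chromatic polynomial of a graph with a grid model such that the graph minus
the root is bipartite.
-/

set_option autoImplicit false

namespace Pool.Agent.Helper70.BLB

open Polynomial

/-- Lower bound from a grid model. -/
theorem grid_bound {V : Type} {G : SimpleGraph V} {r : V} {k T : ℕ}
    {L : ℕ → ℕ → Option V} (M : GridModel G r k T L) (hk : 1 ≤ k) (hT : 1 ≤ T) {cl : V → ℤ}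
    (hC : Cls G r cl) (p : ℝ[X])
    (hp : ∀ n : ℕ, p.eval (n : ℝ) = (Nat.card (G.Coloring (Fin n)) : ℝ)) {q : ℝ} (hq : 4 ≤ q)
    [Fintype (NonePt k T L)] :
    q * ∏ j ∈ Finset.range T, wrow G r q L k j ≤
      p.eval q * q ^ (Fintype.card (NonePt k T L)) := by
  classical
  set δ : ℝ := Real.sqrt q with hδdef
  have hδ : 2 ≤ δ := by
    rw [hδdef]
    apply Real.le_sqrt_of_sq_le
    linarith
  have hδ2 : δ ^ 2 = q := by
    rw [hδdef]
    exact Real.sq_sqrt (by linarith)
  have hval := vb_all hq hC hk hT M.frame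
  rw [← hδ2] at hval
  obtain ⟨Q, K, hcol, hhe⟩ := transfer hδ (k + 1) (allOps G L r k T)
    (VB.ok _ _ _ hval)
  have hQ := height_bound hδ hval hhe
  rw [hδ2] at hQ
  set a : ℕ := Fintype.card (NonePt k T L) with ha
  have key : (X ^ (K + 2 * a) * p.comp (X ^ 2) : ℝ[X]) = Q * X ^ (k + 3) := by
    apply Polynomial.eq_of_infinite_eval_eq
    apply Set.Infinite.mono _ (Set.infinite_range_of_injective cδ_inj)
    rintro _ ⟨n, rfl⟩
    show eval (cδ n) (X ^ (K + 2 * a) * p.comp (X ^ 2)) = eval (cδ n) (Q * X ^ (k + 3))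
    have h1 : ∀ ρ : Fin (n + 1), cδ n ^ K * (∑ X : Fin T → Fin k → Fin (n + 1),
        if gridOK G L X ρ then (1 : ℝ) else 0) = Q.eval (cδ n) * cδ n ^ (k + 1) := by
      intro ρ
      have h2 := color_eval (C := Fin (n + 1)) (cδ_pos n) (by rw [cδ_sq]; simp) (hcol n)
        (fun _ => ρ)
      rw [count_all M.frame] at h2
      exact h2
    have h3 := M.sum_count (C := Fin (n + 1))
    have h4 : cδ n ^ K * ((Nat.card (G.Coloring (Fin (n + 1))) : ℝ) *
        (Fintype.card (Fin (n + 1)) : ℝ) ^ a) = ((n : ℝ) + 1) * (Q.eval (cδ n) * cδ n ^ (k + 1)) := by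
      have h5 : Fintype.card (NonePt k T L) = a := by rw [ha]
      rw [← h5]
      have h6 : cδ n ^ K * ((Nat.card (G.Coloring (Fin (n + 1))) : ℝ) *
        (Fintype.card (Fin (n + 1)) : ℝ) ^ (Fintype.card (NonePt k T L))) =
        cδ n ^ K * ∑ ρ : Fin (n + 1), ∑ X : Fin T → Fin k → Fin (n + 1),
          (if gridOK G L X ρ then (1 : ℝ) else 0) := by
        rw [h3]
        congr!
      rw [h6, Finset.mul_sum, Finset.sum_congr rfl (fun ρ _ => h1 ρ), Finset.sum_const,
        Finset.card_univ, Fintype.card_fin, nsmul_eq_mul]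
      push_cast
      ring
    rw [eval_mul, eval_mul, eval_comp, eval_pow, eval_pow, eval_pow, eval_X, cδ_sq]
    have h5 := hp (n + 1)
    push_cast at h5
    rw [h5, pow_add, pow_mul, cδ_sq, show k + 3 = (k + 1) + 2 by ring, pow_add (cδ n) (k + 1) 2,
      cδ_sq]
    rw [Fintype.card_fin] at h4
    push_cast at h4
    linear_combination h4
  have h6 := congrArg (fun P : ℝ[X] => P.eval δ) key
  simp only [eval_mul, eval_pow, eval_X, eval_comp, hδ2] at h6
  have hδ0 : 0 < δ := by linarith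
  have h7 : δ ^ K * (q * ∏ j ∈ Finset.range T, wrow G r q L k j) ≤
      δ ^ K * (p.eval q * q ^ a) := by
    have e1 : δ ^ K * (p.eval q * q ^ a) = δ ^ (K + 2 * a) * p.eval q := by
      rw [pow_add, pow_mul, hδ2]; ring
    have e2 : eval δ Q * δ ^ (k + 3) = q * (eval δ Q * δ ^ (k + 1)) := by
      rw [show k + 3 = (k + 1) + 2 by ring, pow_add δ (k + 1) 2, hδ2]; ring
    rw [e1, h6, e2]
    have := mul_le_mul_of_nonneg_left hQ (show 0 ≤ q by linarith)
    linarith
  exact le_of_mul_le_mul_left h7 (pow_pos hδ0 K)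

end Pool.Agent.Helper70.BLB
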