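import Mathlib
import Pool.Agent.Helper70.BLB.GridOfDisc

/-!
Refinement of a grid model: the classes become trees and every edge is realised once.
-/

set_option autoImplicit false

namespace Pool.Agent.Helper70.BLB

variable {V : Type} {G : SimpleGraph V} {r : V} {k T : ℕ} {L : ℕ → ℕ → Option V}

/-- Points of the class of `v` at distance `n` from `c`. -/
def Rch (L : ℕ → ℕ → Option V) (v : V) (c : ℕ × ℕ) : ℕ → ℕ × ℕ → Prop
  | 0, p => p = c
  | (n + 1), p => ∃ p', Rch L v c n p' ∧ gadj p p' ∧ L p.1 p.2 = some v ∧ L p'.1 p'.2 = some v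

theorem exists_rch {v : V} {c p : ℕ × ℕ}
    (h : Relation.ReflTransGen (fun a b => gadj a b ∧ L a.1 a.2 = some v ∧ L b.1 b.2 = some v)
      c p) : ∃ n, Rch L v c n p := by
  induction h with
  | refl => exact ⟨0, rfl⟩
  | @tail a b _ hab ih =>
    obtain ⟨n, hn⟩ := ih
    exact ⟨n + 1, a, hn, hab.1.symm, hab.2.2, hab.2.1⟩

/-- Rooted spanning trees of the classes. -/
theorem GridModel.exists_tree (M : GridModel G r k T L) :
    ∃ (rc : V → ℕ × ℕ) (par : ℕ × ℕ → ℕ × ℕ) (d : ℕ × ℕ → ℕ),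
      (∀ v, L (rc v).1 (rc v).2 = some v) ∧
      ∀ v, v ≠ r → ∀ p : ℕ × ℕ, L p.1 p.2 = some v → p ≠ rc v →
        gadj p (par p) ∧ L (par p).1 (par p).2 = some v ∧ d (par p) < d p := by
  classical
  choose rc hrc using M.nonempty
  have hd : ∃ d : ℕ × ℕ → ℕ, ∀ v, v ≠ r → ∀ p : ℕ × ℕ, L p.1 p.2 = some v → p ≠ rc v →
      ∃ p', gadj p p' ∧ L p'.1 p'.2 = some v ∧ d p' < d p := by
    have hex : ∀ v, v ≠ r → ∀ p : ℕ × ℕ, L p.1 p.2 = some v → ∃ n, Rch L v (rc v) n p :=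
      fun v hv p hp => exists_rch (M.conn v hv _ _ (hrc v) hp)
    refine ⟨fun p => if h : ∃ v, L p.1 p.2 = some v ∧ ∃ n, Rch L v (rc v) n p then
      Nat.find h.choose_spec.2 else 0, ?_⟩
    intro v hv p hp hne
    have key : ∀ p : ℕ × ℕ, L p.1 p.2 = some v → ∀ hh : ∃ n, Rch L v (rc v) n p,
        (if h : ∃ v, L p.1 p.2 = some v ∧ ∃ n, Rch L v (rc v) n p then
          Nat.find h.choose_spec.2 else 0) = Nat.find hh := by
      intro p hp hh
      have h : ∃ v, L p.1 p.2 = some v ∧ ∃ n, Rch L v (rc v) n p := ⟨v, hp, hh⟩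
      rw [dif_pos h]
      have e : h.choose = v := by
        have := h.choose_spec.1
        exact Option.some_inj.1 (this.symm.trans hp)
      have hP : ∀ n, Rch L h.choose (rc h.choose) n p ↔ Rch L v (rc v) n p := by
        intro n; rw [e]
      exact Nat.find_congr' (hP _)
    obtain ⟨m, hm⟩ : ∃ m, Nat.find (hex v hv p hp) = m := ⟨_, rfl⟩
    have hspec := Nat.find_spec (hex v hv p hp)
    rw [hm] at hspec
    cases m with
    | zero => exact absurd hspec hne
    | succ m =>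
      obtain ⟨p', h1, h2, _, h4⟩ := hspec
      refine ⟨p', h2, h4, ?_⟩
      simp only
      rw [key p' h4 ⟨m, h1⟩, key p hp (hex v hv p hp), hm]
      have := Nat.find_min' (⟨m, h1⟩ : ∃ n, Rch L v (rc v) n p') h1
      omega
  obtain ⟨d, hd⟩ := hd
  refine ⟨rc, fun p => if h : ∃ v, v ≠ r ∧ L p.1 p.2 = some v ∧ p ≠ rc v then
    (hd h.choose h.choose_spec.1 p h.choose_spec.2.1 h.choose_spec.2.2).choose else p, d, hrc, ?_⟩
  intro v hv p hp hne
  have h : ∃ v, v ≠ r ∧ L p.1 p.2 = some v ∧ p ≠ rc v := ⟨v, hv, hp, hne⟩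
  have e : h.choose = v := by
    have := h.choose_spec.2.1
    exact Option.some_inj.1 (this.symm.trans hp)
  simp only [dif_pos h]
  have hs := (hd h.choose h.choose_spec.1 p h.choose_spec.2.1 h.choose_spec.2.2).choose_spec
  refine ⟨hs.1, ?_, hs.2.2⟩
  rw [hs.2.1, e]

/-- Data of the refinement. -/
structure RData (G : SimpleGraph V) (r : V) (L : ℕ → ℕ → Option V) where
  /-- root cells -/
  rc : V → ℕ × ℕ
  /-- parents -/
  par : ℕ × ℕ → ℕ × ℕ
  /-- distance -/
  d : ℕ × ℕ → ℕ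
  /-- order of the vertices -/
  e : V → ℕ
  /-- realisation of the edges -/
  P : V → V → ℕ × ℕ
  /-- realisation of the edges -/
  Q : V → V → ℕ × ℕ
  hrc : ∀ v, L (rc v).1 (rc v).2 = some v
  hpar : ∀ v, v ≠ r → ∀ p : ℕ × ℕ, L p.1 p.2 = some v → p ≠ rc v →
        gadj p (par p) ∧ L (par p).1 (par p).2 = some v ∧ d (par p) < d p
  he : Function.Injective e
  her : ∀ v, v ≠ r → e v < e r
  hPQ : ∀ u v, G.Adj u v → gadj (P u v) (Q u v) ∧ L (P u v).1 (P u v).2 = some u ∧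
    L (Q u v).1 (Q u v).2 = some v

theorem GridModel.exists_RData [Finite V] (M : GridModel G r k T L) :
    Nonempty (RData G r L) := by
  classical
  obtain ⟨rc, par, d, hrc, hpar⟩ := M.exists_tree
  have hex : ∀ u v, ∃ pq : (ℕ × ℕ) × (ℕ × ℕ), G.Adj u v → gadj pq.1 pq.2 ∧
      L pq.1.1 pq.1.2 = some u ∧ L pq.2.1 pq.2.2 = some v := by
    intro u v
    by_cases h : G.Adj u v
    · obtain ⟨p, q, h1, h2, h3⟩ := M.edge u v h
      exact ⟨(p, q), fun _ => ⟨h1, h2, h3⟩⟩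
    · exact ⟨((0, 0), (0, 0)), fun h' => absurd h' h⟩
  choose PQ hPQ using hex
  obtain ⟨e0, he0⟩ : ∃ e : V → ℕ, Function.Injective e :=
    ⟨fun v => (Finite.equivFin V v : ℕ), fun a b h => (Finite.equivFin V).injective (Fin.ext h)⟩
  have hbd : ∃ N, ∀ v, e0 v < N := by
    obtain ⟨N, hN⟩ := (Set.finite_range e0).bddAbove
    exact ⟨N + 1, fun v => Nat.lt_succ_of_le (hN ⟨v, rfl⟩)⟩
  obtain ⟨N, hN⟩ := hbd
  refine ⟨⟨rc, par, d, fun v => if v = r then N else e0 v, fun u v => (PQ u v).1,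
    fun u v => (PQ u v).2, hrc, hpar, ?_, ?_, fun u v h => hPQ u v h⟩⟩
  · intro a b h
    simp only at h
    split_ifs at h with h1 h2 h2
    · rw [h1, h2]
    · exact absurd h.symm (hN b).ne
    · exact absurd h (hN a).ne
    · exact he0 h
  · intro v hv
    simp only [if_neg hv, if_true]
    exact hN v

end Pool.Agent.Helper70.BLB
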