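import Mathlib
import Pool.Agent.Helper70.BLB.Refine

/-!
The refined labelling on the doubled grid.
-/

set_option autoImplicit false

namespace Pool.Agent.Helper70.BLB

/-- Sum of two grid points: the midpoint on the doubled grid. -/
def gmid (p q : ℕ × ℕ) : ℕ × ℕ := (p.1 + q.1, p.2 + q.2)

theorem gadj_gmid_left {p q : ℕ × ℕ} (h : gadj p q) : gadj (gmid p p) (gmid p q) := by
  obtain ⟨a, b⟩ := p
  obtain ⟨c, d⟩ := q
  simp only [gadj, gmid] at *
  omega

theorem gadj_gmid_right {p q : ℕ × ℕ} (h : gadj p q) : gadj (gmid p q) (gmid q q) := by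
  obtain ⟨a, b⟩ := p
  obtain ⟨c, d⟩ := q
  simp only [gadj, gmid] at *
  omega

theorem gmid_inj {p q p' q' : ℕ × ℕ} (h : gadj p q) (h' : gadj p' q')
    (e : gmid p q = gmid p' q') : (p = p' ∧ q = q') ∨ (p = q' ∧ q = p') := by
  obtain ⟨a, b⟩ := p
  obtain ⟨c, d⟩ := q
  obtain ⟨a', b'⟩ := p'
  obtain ⟨c', d'⟩ := q'
  simp only [gadj, gmid, Prod.mk.injEq] at *
  omega

theorem dbl_inj {p q : ℕ × ℕ} (e : gmid p p = gmid q q) : p = q := by
  obtain ⟨a, b⟩ := p
  obtain ⟨c, d⟩ := q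
  simp only [gmid, Prod.mk.injEq] at *
  omega

theorem gmid_ne_dbl {p q p' : ℕ × ℕ} (h : gadj p q) : gmid p' p' ≠ gmid p q := by
  obtain ⟨a, b⟩ := p
  obtain ⟨c, d⟩ := q
  obtain ⟨a', b'⟩ := p'
  simp only [gadj, gmid, Ne, Prod.mk.injEq] at *
  omega

theorem gadj_dbl_gmid {p q p' : ℕ × ℕ} (h : gadj p q) (e : gadj (gmid p' p') (gmid p q)) :
    p' = p ∨ p' = q := by
  obtain ⟨a, b⟩ := p
  obtain ⟨c, d⟩ := q
  obtain ⟨a', b'⟩ := p'
  simp only [gadj, gmid, Prod.mk.injEq] at *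
  omega

theorem not_gadj_dbl_dbl {p q : ℕ × ℕ} : ¬ gadj (gmid p p) (gmid q q) := by
  obtain ⟨a, b⟩ := p
  obtain ⟨c, d⟩ := q
  simp only [gadj, gmid] at *
  omega

theorem not_gadj_gmid_gmid {p q p' q' : ℕ × ℕ} (h : gadj p q) (h' : gadj p' q') :
    ¬ gadj (gmid p q) (gmid p' q') := by
  obtain ⟨a, b⟩ := p
  obtain ⟨c, d⟩ := q
  obtain ⟨a', b'⟩ := p'
  obtain ⟨c', d'⟩ := q'
  simp only [gadj, gmid] at *
  omega

variable {V : Type} {G : SimpleGraph V} {r : V} {k T : ℕ} {L : ℕ → ℕ → Option V}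

/-- Frame of a grid. -/
def Frm (k T : ℕ) (x : ℕ × ℕ) : Prop := x.1 = 0 ∨ k < x.1 ∨ x.2 = 0 ∨ T < x.2

/-- The point `x` of the doubled grid belongs to the class of `v`. -/
def Cell (R : RData G r L) (x : ℕ × ℕ) (v : V) : Prop :=
  (∃ p : ℕ × ℕ, x = gmid p p ∧ L p.1 p.2 = some v) ∨
  (∃ c : ℕ × ℕ, x = gmid c (R.par c) ∧ L c.1 c.2 = some v ∧ c ≠ R.rc v) ∨
  (∃ w : V, G.Adj v w ∧ R.e v < R.e w ∧ x = gmid (R.P v w) (R.Q v w))

theorem RData.ne_root (R : RData G r L) {v w : V} (h : R.e v < R.e w) : v ≠ r := by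
  rintro rfl
  by_cases hw : w = v
  · rw [hw] at h; omega
  · have := R.her w hw; omega

theorem cell_unique (R : RData G r L) {x : ℕ × ℕ} {v v' : V} (hv : v ≠ r) (hv' : v' ≠ r)
    (h : Cell R x v) (h' : Cell R x v') : v = v' := by
  have key1 : ∀ v v', v ≠ r → v' ≠ r → ∀ p c : ℕ × ℕ, x = gmid p p → x = gmid c (R.par c) →
      L c.1 c.2 = some v' → c ≠ R.rc v' → v = v' := by
    intro v v' hv hv' p c h1 h2 h3 h4
    exact absurd (h1.symm.trans h2) (gmid_ne_dbl (R.hpar v' hv' c h3 h4).1)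
  have key2 : ∀ v v' w, ∀ p : ℕ × ℕ, x = gmid p p → G.Adj v' w →
      x = gmid (R.P v' w) (R.Q v' w) → v = v' := by
    intro v v' w p h1 h2 h3
    exact absurd (h1.symm.trans h3) (gmid_ne_dbl (R.hPQ v' w h2).1)
  have key3 : ∀ v v' w, v ≠ r → ∀ c : ℕ × ℕ, x = gmid c (R.par c) →
      L c.1 c.2 = some v → c ≠ R.rc v → G.Adj v' w →
      x = gmid (R.P v' w) (R.Q v' w) → v = v' := by
    intro v v' w hv c h1 h2 h3 h4 h5
    have hp := R.hpar v hv c h2 h3
    have hq := R.hPQ v' w h4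
    rcases gmid_inj hp.1 hq.1 (h1.symm.trans h5) with ⟨e1, _⟩ | ⟨_, e2⟩
    · have := hq.2.1
      rw [← e1, h2] at this
      exact Option.some_inj.1 this
    · have := hq.2.1
      rw [← e2, hp.2.1] at this
      exact Option.some_inj.1 this
  rcases h with ⟨p, h1, h2⟩ | ⟨c, h1, h2, h3⟩ | ⟨w, h1, h2, h3⟩
  · rcases h' with ⟨p', h1', h2'⟩ | ⟨c', h1', h2', h3'⟩ | ⟨w', h1', h2', h3'⟩
    · have := dbl_inj (h1.symm.trans h1')
      rw [← this, h2] at h2'
      exact Option.some_inj.1 h2'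
    · exact key1 v v' hv hv' p c' h1 h1' h2' h3'
    · exact key2 v v' w' p h1 h1' h3'
  · rcases h' with ⟨p', h1', h2'⟩ | ⟨c', h1', h2', h3'⟩ | ⟨w', h1', h2', h3'⟩
    · exact (key1 v' v hv' hv p' c h1' h1 h2 h3).symm
    · have hp := R.hpar v hv c h2 h3
      have hp' := R.hpar v' hv' c' h2' h3'
      rcases gmid_inj hp.1 hp'.1 (h1.symm.trans h1') with ⟨e1, _⟩ | ⟨e1, _⟩
      · rw [e1, h2'] at h2
        exact (Option.some_inj.1 h2).symm
      · rw [e1, hp'.2.1] at h2
        exact (Option.some_inj.1 h2).symm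
    · exact key3 v v' w' hv c h1 h2 h3 h1' h3'
  · rcases h' with ⟨p', h1', h2'⟩ | ⟨c', h1', h2', h3'⟩ | ⟨w', h1', h2', h3'⟩
    · exact (key2 v' v w p' h1' h1 h3).symm
    · exact (key3 v' v w hv' c' h1' h2' h3' h1 h3).symm
    · have hq := R.hPQ v w h1
      have hq' := R.hPQ v' w' h1'
      rcases gmid_inj hq.1 hq'.1 (h3.symm.trans h3') with ⟨e1, _⟩ | ⟨e1, e2⟩
      · have := hq.2.1
        rw [e1, hq'.2.1] at this
        exact (Option.some_inj.1 this).symm
      · have a1 := hq.2.1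
        rw [e1, hq'.2.2] at a1
        have a2 := hq.2.2
        rw [e2, hq'.2.1] at a2
        rw [Option.some_inj] at a1 a2
        rw [a1, a2] at h2'
        omega

theorem GridModel.cell_interior (M : GridModel G r k T L) (R : RData G r L) {x : ℕ × ℕ} {v : V}
    (hv : v ≠ r) (h : Cell R x v) : ¬ Frm (2 * k + 1) (2 * T + 1) x := by
  have hin : ∀ p : ℕ × ℕ, L p.1 p.2 = some v → ¬ (p.1 = 0 ∨ k < p.1 ∨ p.2 = 0 ∨ T < p.2) := by
    intro p hp hf
    have := (M.frame _ _).2 hf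
    rw [hp, Option.some_inj] at this
    exact hv this
  unfold Frm
  rcases h with ⟨p, h1, h2⟩ | ⟨c, h1, h2, h3⟩ | ⟨w, h1, h2, h3⟩
  · have := hin p h2
    rw [h1]
    simp only [gmid]
    omega
  · have a1 := hin c h2
    have a2 := hin _ (R.hpar v hv c h2 h3).2.1
    rw [h1]
    simp only [gmid]
    omega
  · have hq := R.hPQ v w h1
    have a1 := hin _ hq.2.1
    have a2 := hq.1
    rw [h3]
    simp only [gmid, gadj] at *
    omega

open Classical in
/-- The refined labelling. -/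
noncomputable def rlab (R : RData G r L) (k T : ℕ) (i j : ℕ) : Option V :=
  if Frm (2 * k + 1) (2 * T + 1) (i, j) then some r
  else if h : ∃ v, v ≠ r ∧ Cell R (i, j) v then some h.choose else none

theorem rlab_root (R : RData G r L) (i j : ℕ) :
    rlab R k T i j = some r ↔ Frm (2 * k + 1) (2 * T + 1) (i, j) := by
  unfold rlab
  constructor
  · intro h
    by_contra hp
    rw [if_neg hp] at h
    split_ifs at h with h2
    exact h2.choose_spec.1 (Option.some_inj.1 h)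
  · intro h
    rw [if_pos h]

theorem GridModel.rlab_vert (M : GridModel G r k T L) (R : RData G r L) {v : V} (hv : v ≠ r)
    (x : ℕ × ℕ) : rlab R k T x.1 x.2 = some v ↔ Cell R x v := by
  unfold rlab
  constructor
  · intro h
    by_cases hp : Frm (2 * k + 1) (2 * T + 1) (x.1, x.2)
    · rw [if_pos hp, Option.some_inj] at h
      exact absurd h.symm hv
    · rw [if_neg hp] at h
      split_ifs at h with h2
      rw [Option.some_inj] at h
      rw [← h]
      exact h2.choose_spec.2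
  · intro h
    have hp := M.cell_interior R hv h
    have h2 : ∃ v, v ≠ r ∧ Cell R (x.1, x.2) v := ⟨v, hv, h⟩
    rw [if_neg hp, dif_pos h2, Option.some_inj]
    exact cell_unique R h2.choose_spec.1 hv h2.choose_spec.2 h

theorem GridModel.cell_conn (M : GridModel G r k T L) (R : RData G r L) {v : V} (hv : v ≠ r)
    {x : ℕ × ℕ} (h : Cell R x v) :
    Relation.ReflTransGen (fun a b => gadj a b ∧ rlab R k T a.1 a.2 = some v ∧
      rlab R k T b.1 b.2 = some v) (gmid (R.rc v) (R.rc v)) x := by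
  have hst : ∀ (n : ℕ) (p : ℕ × ℕ), R.d p ≤ n → L p.1 p.2 = some v →
      Relation.ReflTransGen (fun a b => gadj a b ∧ rlab R k T a.1 a.2 = some v ∧
      rlab R k T b.1 b.2 = some v) (gmid (R.rc v) (R.rc v)) (gmid p p) := by
    intro n
    induction n with
    | zero =>
      intro p hn hp
      by_cases hpr : p = R.rc v
      · rw [hpr]
      · have := (R.hpar v hv p hp hpr).2.2
        omega
    | succ n ih =>
      intro p hn hp
      by_cases hpr : p = R.rc v
      · rw [hpr]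
      · obtain ⟨h1, h2, h3⟩ := R.hpar v hv p hp hpr
        have c0 : rlab R k T (gmid p p).1 (gmid p p).2 = some v :=
          (M.rlab_vert R hv _).2 (Or.inl ⟨p, rfl, hp⟩)
        have c1 : rlab R k T (gmid p (R.par p)).1 (gmid p (R.par p)).2 = some v :=
          (M.rlab_vert R hv _).2 (Or.inr (Or.inl ⟨p, rfl, hp, hpr⟩))
        have c2 : rlab R k T (gmid (R.par p) (R.par p)).1 (gmid (R.par p) (R.par p)).2 = some v :=
          (M.rlab_vert R hv _).2 (Or.inl ⟨_, rfl, h2⟩)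
        refine ((ih (R.par p) (by omega) h2).tail ⟨(gadj_gmid_right h1).symm, c2, c1⟩).tail
          ⟨(gadj_gmid_left h1).symm, c1, c0⟩
  have hx : rlab R k T x.1 x.2 = some v := (M.rlab_vert R hv _).2 h
  rcases h with ⟨p, h1, h2⟩ | ⟨c, h1, h2, h3⟩ | ⟨w, h1, h2, h3⟩
  · rw [h1]
    exact hst _ p le_rfl h2
  · have c0 : rlab R k T (gmid c c).1 (gmid c c).2 = some v :=
      (M.rlab_vert R hv _).2 (Or.inl ⟨c, rfl, h2⟩)
    refine (hst _ c le_rfl h2).tail ⟨?_, c0, hx⟩
    rw [h1]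
    exact gadj_gmid_left (R.hpar v hv c h2 h3).1
  · have hq := R.hPQ v w h1
    have c0 : rlab R k T (gmid (R.P v w) (R.P v w)).1 (gmid (R.P v w) (R.P v w)).2 = some v :=
      (M.rlab_vert R hv _).2 (Or.inl ⟨_, rfl, hq.2.1⟩)
    refine (hst _ _ le_rfl hq.2.1).tail ⟨?_, c0, hx⟩
    rw [h3]
    exact gadj_gmid_left hq.1

theorem GridModel.rgrid (M : GridModel G r k T L) (R : RData G r L) :
    GridModel G r (2 * k + 1) (2 * T + 1) (rlab R k T) where
  frame i j := by
    rw [rlab_root]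
    rfl
  conn v hv p q hp hq := by
    have h1 := M.cell_conn R hv ((M.rlab_vert R hv _).1 hp)
    have h2 := M.cell_conn R hv ((M.rlab_vert R hv _).1 hq)
    refine Relation.ReflTransGen.trans ?_ h2
    clear h2 hp hq
    induction h1 with
    | refl => exact Relation.ReflTransGen.refl
    | tail _ hbc ih =>
      exact Relation.ReflTransGen.head ⟨hbc.1.symm, hbc.2.2, hbc.2.1⟩ ih
  nonempty v := by
    by_cases hv : v = r
    · exact ⟨(0, 0), by rw [hv, rlab_root]; exact Or.inl rfl⟩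
    · exact ⟨gmid (R.rc v) (R.rc v), (M.rlab_vert R hv _).2 (Or.inl ⟨_, rfl, R.hrc v⟩)⟩
  edge u v huv := by
    have key : ∀ u v, G.Adj u v → R.e u < R.e v → ∃ p q : ℕ × ℕ, gadj p q ∧
        rlab R k T p.1 p.2 = some u ∧ rlab R k T q.1 q.2 = some v := by
      intro u v huv he
      have hu : u ≠ r := R.ne_root he
      have hq := R.hPQ u v huv
      refine ⟨gmid (R.P u v) (R.Q u v), gmid (R.Q u v) (R.Q u v), gadj_gmid_right hq.1,
        (M.rlab_vert R hu _).2 (Or.inr (Or.inr ⟨v, huv, he, rfl⟩)), ?_⟩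
      by_cases hv : v = r
      · rw [hv, rlab_root]
        have := (M.frame _ _).1 (by rw [hq.2.2, hv] : L (R.Q u v).1 (R.Q u v).2 = some r)
        unfold Frm gmid
        rw [hv] at this
        simp only
        omega
      · exact (M.rlab_vert R hv _).2 (Or.inl ⟨_, rfl, hq.2.2⟩)
    rcases lt_trichotomy (R.e u) (R.e v) with h | h | h
    · exact key u v huv h
    · exact absurd (R.he h) huv.ne
    · obtain ⟨p, q, h1, h2, h3⟩ := key v u huv.symm h
      exact ⟨q, p, h1.symm, h3, h2⟩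

/-- The pair of a child and its parent in the refined labelling. -/
def Chd (R : RData G r L) (x y : ℕ × ℕ) : Prop :=
  (∃ (c : ℕ × ℕ) (v : V), v ≠ r ∧ L c.1 c.2 = some v ∧ c ≠ R.rc v ∧
    ((x = gmid c c ∧ y = gmid c (R.par c)) ∨ (x = gmid c (R.par c) ∧ y = gmid (R.par c) (R.par c)))) ∨
  ∃ v w : V, G.Adj v w ∧ R.e v < R.e w ∧ x = gmid (R.P v w) (R.Q v w) ∧
    y = gmid (R.P v w) (R.P v w)

theorem Chd.unique {R : RData G r L} {x y y' : ℕ × ℕ} (h : Chd R x y) (h' : Chd R x y') :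
    y = y' := by
  rcases h with ⟨c, v, hv, hc, hcr, h⟩ | ⟨v, w, hvw, he, h1, h2⟩
  · have hp := R.hpar v hv c hc hcr
    rcases h' with ⟨c', v', hv', hc', hcr', h'⟩ | ⟨v', w', hvw', he', h1', h2'⟩
    · have hp' := R.hpar v' hv' c' hc' hcr'
      rcases h with ⟨h1, h2⟩ | ⟨h1, h2⟩
      · rcases h' with ⟨h1', h2'⟩ | ⟨h1', h2'⟩
        · rw [h2, h2', dbl_inj (h1.symm.trans h1')]
        · exact absurd (h1.symm.trans h1') (gmid_ne_dbl hp'.1)
      · rcases h' with ⟨h1', h2'⟩ | ⟨h1', h2'⟩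
        · exact absurd (h1'.symm.trans h1) (gmid_ne_dbl hp.1)
        · rcases gmid_inj hp.1 hp'.1 (h1.symm.trans h1') with ⟨e1, e2⟩ | ⟨e1, e2⟩
          · rw [h2, h2', e2]
          · exfalso
            have a1 := hp.2.2
            have a2 := hp'.2.2
            rw [e2] at a1
            rw [← e1] at a2
            omega
    · have hq' := R.hPQ v' w' hvw'
      rcases h with ⟨h1, h2⟩ | ⟨h1, h2⟩
      · exact absurd (h1.symm.trans h1') (gmid_ne_dbl hq'.1)
      · exfalso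
        rcases gmid_inj hp.1 hq'.1 (h1.symm.trans h1') with ⟨e1, e2⟩ | ⟨e1, e2⟩
        · have a1 := hq'.2.1
          have a2 := hq'.2.2
          rw [← e1, hc] at a1
          rw [← e2, hp.2.1] at a2
          exact hvw'.ne ((Option.some_inj.1 a1).symm.trans (Option.some_inj.1 a2))
        · have a1 := hq'.2.1
          have a2 := hq'.2.2
          rw [← e1, hc] at a2
          rw [← e2, hp.2.1] at a1
          exact hvw'.ne ((Option.some_inj.1 a1).symm.trans (Option.some_inj.1 a2))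
  · have hq := R.hPQ v w hvw
    rcases h' with ⟨c', v', hv', hc', hcr', h'⟩ | ⟨v', w', hvw', he', h1', h2'⟩
    · have hp' := R.hpar v' hv' c' hc' hcr'
      rcases h' with ⟨h1', h2'⟩ | ⟨h1', h2'⟩
      · exact absurd (h1'.symm.trans h1) (gmid_ne_dbl hq.1)
      · exfalso
        rcases gmid_inj hq.1 hp'.1 (h1.symm.trans h1') with ⟨e1, e2⟩ | ⟨e1, e2⟩
        · have a1 := hq.2.1
          have a2 := hq.2.2
          rw [e1, hc'] at a1
          rw [e2, hp'.2.1] at a2
          exact hvw.ne ((Option.some_inj.1 a1).symm.trans (Option.some_inj.1 a2))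
        · have a1 := hq.2.1
          have a2 := hq.2.2
          rw [e1, hp'.2.1] at a1
          rw [e2, hc'] at a2
          exact hvw.ne ((Option.some_inj.1 a1).symm.trans (Option.some_inj.1 a2))
    · have hq' := R.hPQ v' w' hvw'
      rcases gmid_inj hq.1 hq'.1 (h1.symm.trans h1') with ⟨e1, e2⟩ | ⟨e1, e2⟩
      · rw [h2, h2', e1]
      · exfalso
        have a1 := hq.2.1
        rw [e1, hq'.2.2] at a1
        have a2 := hq.2.2
        rw [e2, hq'.2.1] at a2
        rw [Option.some_inj] at a1 a2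
        rw [a1, a2] at he'
        omega

theorem Chd.ne_root {R : RData G r L} {x y : ℕ × ℕ} (h : Chd R x y) (w : V) :
    x ≠ gmid (R.rc w) (R.rc w) := by
  intro hx
  rcases h with ⟨c, v, hv, hc, hcr, ⟨h1, h2⟩ | ⟨h1, h2⟩⟩ | ⟨v, w, hvw, he, h1, h2⟩
  · have e := dbl_inj (hx.symm.trans h1)
    have := R.hrc w
    rw [e, hc] at this
    rw [Option.some_inj] at this
    exact hcr (by rw [this]; exact e.symm)
  · exact gmid_ne_dbl (R.hpar v hv c hc hcr).1 (hx.symm.trans h1)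
  · exact gmid_ne_dbl (R.hPQ v w hvw).1 (hx.symm.trans h1)

/-- Adjacent points with the same label are child and parent. -/
theorem GridModel.same_chd (M : GridModel G r k T L) (R : RData G r L) {v : V} (hv : v ≠ r)
    {x y : ℕ × ℕ} (hxy : gadj x y) (hx : rlab R k T x.1 x.2 = some v)
    (hy : rlab R k T y.1 y.2 = some v) : Chd R x y ∨ Chd R y x := by
  rw [M.rlab_vert R hv] at hx hy
  have key : ∀ x y : ℕ × ℕ, gadj x y → (∃ p : ℕ × ℕ, x = gmid p p ∧ L p.1 p.2 = some v) →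
      Cell R y v → Chd R x y ∨ Chd R y x := by
    rintro x y hxy ⟨p, hp, hpv⟩ hy
    rcases hy with ⟨p', h1, h2⟩ | ⟨c, h1, h2, h3⟩ | ⟨w, h1, h2, h3⟩
    · rw [hp, h1] at hxy
      exact absurd hxy not_gadj_dbl_dbl
    · rw [hp, h1] at hxy
      rcases gadj_dbl_gmid (R.hpar v hv c h2 h3).1 hxy with e | e
      · left
        exact Or.inl ⟨c, v, hv, h2, h3, Or.inl ⟨by rw [hp, e], h1⟩⟩
      · right
        exact Or.inl ⟨c, v, hv, h2, h3, Or.inr ⟨h1, by rw [hp, e]⟩⟩
    · rw [hp, h3] at hxy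
      have hq := R.hPQ v w h1
      rcases gadj_dbl_gmid hq.1 hxy with e | e
      · right
        exact Or.inr ⟨v, w, h1, h2, h3, by rw [hp, e]⟩
      · rw [e, hq.2.2] at hpv
        exact absurd (Option.some_inj.1 hpv).symm h1.ne
  rcases hx with h | h
  · exact key x y hxy h hy
  · rcases hy with h' | h'
    · exact (key y x hxy.symm h' (Or.inr h)).symm
    · exfalso
      have hodd : ∀ z : ℕ × ℕ, ((∃ c : ℕ × ℕ, z = gmid c (R.par c) ∧ L c.1 c.2 = some v ∧
          c ≠ R.rc v) ∨ (∃ w : V, G.Adj v w ∧ R.e v < R.e w ∧ z = gmid (R.P v w) (R.Q v w))) →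
          ∃ p q : ℕ × ℕ, gadj p q ∧ z = gmid p q := by
        rintro z (⟨c, h1, h2, h3⟩ | ⟨w, h1, _, h3⟩)
        · exact ⟨_, _, (R.hpar v hv c h2 h3).1, h1⟩
        · exact ⟨_, _, (R.hPQ v w h1).1, h3⟩
      obtain ⟨p, q, hpq, rfl⟩ := hodd x h
      obtain ⟨p', q', hpq', rfl⟩ := hodd y h'
      exact not_gadj_gmid_gmid hpq hpq' hxy

/-- Every edge is realised once. -/
theorem GridModel.edge_unique (M : GridModel G r k T L) (R : RData G r L) {u v : V} (hu : u ≠ r)
    (hv : v ≠ r) (huv : G.Adj u v) (he : R.e u < R.e v) {x y : ℕ × ℕ} (hxy : gadj x y)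
    (hx : rlab R k T x.1 x.2 = some u) (hy : rlab R k T y.1 y.2 = some v) :
    x = gmid (R.P u v) (R.Q u v) ∧ y = gmid (R.Q u v) (R.Q u v) := by
  rw [M.rlab_vert R hu] at hx
  rw [M.rlab_vert R hv] at hy
  have hodd : ∀ (z : ℕ × ℕ) (v : V), v ≠ r → ((∃ c : ℕ × ℕ, z = gmid c (R.par c) ∧
      L c.1 c.2 = some v ∧
      c ≠ R.rc v) ∨ (∃ w : V, G.Adj v w ∧ R.e v < R.e w ∧ z = gmid (R.P v w) (R.Q v w))) →
      ∃ p q : ℕ × ℕ, gadj p q ∧ z = gmid p q := by
    rintro z v hv (⟨c, h1, h2, h3⟩ | ⟨w, h1, _, h3⟩)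
    · exact ⟨_, _, (R.hpar v hv c h2 h3).1, h1⟩
    · exact ⟨_, _, (R.hPQ v w h1).1, h3⟩
  rcases hx with ⟨p, hp, hpu⟩ | h
  · exfalso
    rcases hy with ⟨p', h1, h2⟩ | ⟨c, h1, h2, h3⟩ | ⟨w, h1, h2, h3⟩
    · rw [hp, h1] at hxy
      exact not_gadj_dbl_dbl hxy
    · rw [hp, h1] at hxy
      have hc := R.hpar v hv c h2 h3
      rcases gadj_dbl_gmid hc.1 hxy with e | e
      · rw [e, h2] at hpu
        exact huv.ne (Option.some_inj.1 hpu).symm
      · rw [e, hc.2.1] at hpu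
        exact huv.ne (Option.some_inj.1 hpu).symm
    · rw [hp, h3] at hxy
      have hq := R.hPQ v w h1
      rcases gadj_dbl_gmid hq.1 hxy with e | e
      · rw [e, hq.2.1] at hpu
        exact huv.ne (Option.some_inj.1 hpu).symm
      · rw [e, hq.2.2] at hpu
        rw [Option.some_inj.1 hpu] at h2
        omega
  · rcases hy with ⟨p, hp, hpv⟩ | h'
    · rcases h with ⟨c, h1, h2, h3⟩ | ⟨w, h1, h2, h3⟩
      · exfalso
        have hc := R.hpar u hu c h2 h3
        rw [hp, h1] at hxy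
        rcases gadj_dbl_gmid hc.1 hxy.symm with e | e
        · rw [e, h2] at hpv
          exact huv.ne (Option.some_inj.1 hpv)
        · rw [e, hc.2.1] at hpv
          exact huv.ne (Option.some_inj.1 hpv)
      · have hq := R.hPQ u w h1
        rw [hp, h3] at hxy
        rcases gadj_dbl_gmid hq.1 hxy.symm with e | e
        · exfalso
          rw [e, hq.2.1] at hpv
          exact huv.ne (Option.some_inj.1 hpv)
        · have hwv : w = v := by
            rw [e, hq.2.2] at hpv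
            exact Option.some_inj.1 hpv
          subst hwv
          exact ⟨h3, by rw [hp, e]⟩
    · exfalso
      obtain ⟨p, q, hpq, rfl⟩ := hodd x u hu h
      obtain ⟨p', q', hpq', rfl⟩ := hodd y v hv h'
      exact not_gadj_gmid_gmid hpq hpq' hxy

end Pool.Agent.Helper70.BLB
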