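import Mathlib
import Pool.Agent.Helper70.BLB.Refine2
import Pool.Agent.Helper70.BLB.GridBound

/-!
The product of the factors of the refined labelling.
-/

set_option autoImplicit false

namespace Pool.Agent.Helper70.BLB

open Finset

variable {V : Type} {G : SimpleGraph V} {r : V} {k T : ℕ} {L : ℕ → ℕ → Option V}

/-- First point of an indexed adjacency. -/
def src : (ℕ × ℕ) ⊕ (ℕ × ℕ) → ℕ × ℕ
  | Sum.inl y => (y.2, y.1 + 1)
  | Sum.inr y => (y.2 + 1, y.1)

/-- Second point of an indexed adjacency. -/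
def tgt : (ℕ × ℕ) ⊕ (ℕ × ℕ) → ℕ × ℕ
  | Sum.inl y => (y.2 + 1, y.1 + 1)
  | Sum.inr y => (y.2 + 1, y.1 + 1)

/-- Indices of the adjacencies. -/
def AA (k T : ℕ) : Finset ((ℕ × ℕ) ⊕ (ℕ × ℕ)) :=
  (range T ×ˢ range (k + 1)).disjSum (range T ×ˢ range k)

theorem gadj_src_tgt (x : (ℕ × ℕ) ⊕ (ℕ × ℕ)) : gadj (src x) (tgt x) := by
  rcases x with y | y
  · exact Or.inr ⟨rfl, Or.inl rfl⟩
  · exact Or.inl ⟨rfl, Or.inl rfl⟩

theorem idx_inj {x y : (ℕ × ℕ) ⊕ (ℕ × ℕ)}
    (h : (src x = src y ∧ tgt x = tgt y) ∨ (src x = tgt y ∧ tgt x = src y)) : x = y := by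
  rcases x with ⟨a, b⟩ | ⟨a, b⟩ <;> rcases y with ⟨c, d⟩ | ⟨c, d⟩ <;>
    simp only [src, tgt, Prod.mk.injEq, Sum.inl.injEq, Sum.inr.injEq, reduceCtorEq] at * <;> omega

theorem prod_wrow (G : SimpleGraph V) (r : V) (q : ℝ) (L : ℕ → ℕ → Option V) (k T : ℕ) :
    ∏ j ∈ range T, wrow G r q L k j =
      (∏ x ∈ AA k T, wad G r q (L (src x).1 (src x).2) (L (tgt x).1 (tgt x).2)) *
        ∏ y ∈ range T ×ˢ range k, wpt q (L (y.2 + 1) (y.1 + 1)) := by
  unfold AA wrow
  rw [prod_disjSum, prod_product, prod_product, prod_product, ← prod_mul_distrib,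
    ← prod_mul_distrib]
  apply prod_congr rfl
  intro j _
  rw [mul_assoc]
  congr 1
  rw [← prod_mul_distrib]
  apply prod_congr rfl
  intro i _
  rw [mul_comm]
  rfl

/-- Indices of adjacencies with the same label. -/
noncomputable def SS (L : ℕ → ℕ → Option V) (k T : ℕ) : Finset ((ℕ × ℕ) ⊕ (ℕ × ℕ)) := by
  classical
  exact (AA k T).filter fun x => L (src x).1 (src x).2 = L (tgt x).1 (tgt x).2 ∧
    L (src x).1 (src x).2 ≠ none

/-- Indices of adjacencies realising an edge not at the root. -/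
noncomputable def DD (G : SimpleGraph V) (r : V) (L : ℕ → ℕ → Option V) (k T : ℕ) :
    Finset ((ℕ × ℕ) ⊕ (ℕ × ℕ)) := by
  classical
  exact (AA k T).filter fun x => ladj G (L (src x).1 (src x).2) (L (tgt x).1 (tgt x).2) ∧
    L (src x).1 (src x).2 ≠ some r ∧ L (tgt x).1 (tgt x).2 ≠ some r

/-- Indices of the points with a label. -/
noncomputable def PP (L : ℕ → ℕ → Option V) (k T : ℕ) : Finset (ℕ × ℕ) := by
  classical
  exact (range T ×ˢ range k).filter fun y => L (y.2 + 1) (y.1 + 1) ≠ none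

/-- Indices of the points without label. -/
noncomputable def NNs (L : ℕ → ℕ → Option V) (k T : ℕ) : Finset (ℕ × ℕ) := by
  classical
  exact (range T ×ˢ range k).filter fun y => L (y.2 + 1) (y.1 + 1) = none

theorem prod_wad_ge (G : SimpleGraph V) (r : V) (q : ℝ) (L : ℕ → ℕ → Option V)
    (k T : ℕ) :
    ((q - 1)⁻¹) ^ (SS L k T).card * ((q - 2) / (q - 1)) ^ (DD G r L k T).card ≤
      ∏ x ∈ AA k T, wad G r q (L (src x).1 (src x).2) (L (tgt x).1 (tgt x).2) := by
  classical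
  have h1 : ∏ x ∈ AA k T, wad G r q (L (src x).1 (src x).2) (L (tgt x).1 (tgt x).2) =
      ∏ x ∈ AA k T, ((if L (src x).1 (src x).2 = L (tgt x).1 (tgt x).2 ∧
        L (src x).1 (src x).2 ≠ none then (q - 1)⁻¹ else 1) *
        (if ladj G (L (src x).1 (src x).2) (L (tgt x).1 (tgt x).2) ∧
        L (src x).1 (src x).2 ≠ some r ∧ L (tgt x).1 (tgt x).2 ≠ some r then
          (q - 2) / (q - 1) else 1)) := by
    apply prod_congr rfl
    intro x _
    unfold wad
    by_cases ha : L (src x).1 (src x).2 = L (tgt x).1 (tgt x).2 ∧ L (src x).1 (src x).2 ≠ none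
    · rw [if_pos ha, if_pos ha, if_neg, mul_one]
      rintro ⟨⟨u, v, hu, hv, huv⟩, _⟩
      rw [hu, hv] at ha
      exact huv.ne (Option.some_inj.1 ha.1)
    · rw [if_neg ha, if_neg ha, one_mul]
  rw [h1, prod_mul_distrib, prod_ite, prod_ite, prod_const_one, prod_const_one, mul_one, mul_one,
    prod_const, prod_const]
  apply le_of_eq
  congr!

theorem prod_wpt (q : ℝ) (L : ℕ → ℕ → Option V) (k T : ℕ) :
    ∏ y ∈ range T ×ˢ range k, wpt q (L (y.2 + 1) (y.1 + 1)) =
      q ^ (NNs L k T).card * (q - 1) ^ (PP L k T).card := by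
  classical
  unfold wpt
  rw [prod_ite, prod_const, prod_const]
  congr!

theorem card_NNs (L : ℕ → ℕ → Option V) (k T : ℕ) [Fintype (NonePt k T L)] :
    Fintype.card (NonePt k T L) ≤ (NNs L k T).card := by
  classical
  rw [← Fintype.card_coe]
  apply Fintype.card_le_of_injective (fun p => ⟨((p.1.1 : ℕ), (p.1.2 : ℕ)), by
    unfold NNs
    rw [mem_filter, mem_product, mem_range, mem_range]
    exact ⟨⟨p.1.1.2, p.1.2.2⟩, p.2⟩⟩)
  intro p p' h
  simp only [Subtype.mk.injEq, Prod.mk.injEq] at h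
  apply Subtype.ext
  exact Prod.ext (Fin.ext h.1) (Fin.ext h.2)

theorem GridModel.SS_spec (M : GridModel G r k T L) (hk : 1 ≤ k) {x : (ℕ × ℕ) ⊕ (ℕ × ℕ)}
    (hx : x ∈ SS L k T) : ∃ v, v ≠ r ∧ L (src x).1 (src x).2 = some v ∧
      L (tgt x).1 (tgt x).2 = some v := by
  classical
  unfold SS at hx
  rw [mem_filter] at hx
  obtain ⟨hA, h1, h2⟩ := hx
  obtain ⟨v, hv⟩ := Option.ne_none_iff_exists'.1 h2
  refine ⟨v, ?_, hv, h1 ▸ hv⟩
  rintro rfl
  have f1 := (M.frame _ _).1 hv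
  have f2 := (M.frame _ _).1 (h1 ▸ hv)
  unfold AA at hA
  rcases x with y | y
  · rw [inl_mem_disjSum, mem_product, mem_range, mem_range] at hA
    simp only [src, tgt] at f1 f2
    omega
  · rw [inr_mem_disjSum, mem_product, mem_range, mem_range] at hA
    simp only [src, tgt] at f1 f2
    omega

theorem card_interior (L : ℕ → ℕ → Option V) (k T : ℕ) (C : Finset (ℕ × ℕ))
    (hC : ∀ c ∈ C, ¬ (c.1 = 0 ∨ k < c.1 ∨ c.2 = 0 ∨ T < c.2) ∧ L c.1 c.2 ≠ none) :
    C.card ≤ (PP L k T).card := by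
  classical
  apply card_le_card_of_injOn (fun c => (c.2 - 1, c.1 - 1))
  · intro c hc
    obtain ⟨h1, h2⟩ := hC c hc
    unfold PP
    rw [mem_coe, mem_filter, mem_product, mem_range, mem_range]
    simp only
    rw [show c.1 - 1 + 1 = c.1 by omega, show c.2 - 1 + 1 = c.2 by omega]
    exact ⟨⟨by omega, by omega⟩, h2⟩
  · intro c hc c' hc' h
    have h1 := (hC c hc).1
    have h2 := (hC c' hc').1
    simp only [Prod.mk.injEq] at h
    exact Prod.ext (by omega) (by omega)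

/-- The classes of the refined labelling are trees. -/
theorem GridModel.card_SS (M : GridModel G r k T L) (R : RData G r L) [Fintype V] :
    (SS (rlab R k T) (2 * k + 1) (2 * T + 1)).card + (Fintype.card V - 1) ≤
      (PP (rlab R k T) (2 * k + 1) (2 * T + 1)).card := by
  classical
  have M' := M.rgrid R
  set S := SS (rlab R k T) (2 * k + 1) (2 * T + 1) with hS
  set f : (ℕ × ℕ) ⊕ (ℕ × ℕ) → ℕ × ℕ := fun x => if Chd R (src x) (tgt x) then src x else tgt x
    with hf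
  have hspec : ∀ x ∈ S, ∃ v, v ≠ r ∧ rlab R k T (src x).1 (src x).2 = some v ∧
      rlab R k T (tgt x).1 (tgt x).2 = some v := fun x hx => M'.SS_spec (by omega) hx
  have hfc : ∀ x ∈ S, (f x = src x ∧ Chd R (f x) (tgt x)) ∨ (f x = tgt x ∧ Chd R (f x) (src x)) := by
    intro x hx
    obtain ⟨v, hv, h1, h2⟩ := hspec x hx
    rw [hf]
    simp only
    by_cases h : Chd R (src x) (tgt x)
    · rw [if_pos h]; exact Or.inl ⟨rfl, h⟩
    · rw [if_neg h]
      exact Or.inr ⟨rfl, (M.same_chd R hv (gadj_src_tgt x) h1 h2).resolve_left h⟩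
  have hinj : Set.InjOn f S := by
    intro x hx y hy hxy
    apply idx_inj
    rcases hfc x hx with ⟨a1, a2⟩ | ⟨a1, a2⟩ <;> rcases hfc y hy with ⟨b1, b2⟩ | ⟨b1, b2⟩
    · left
      rw [hxy] at a2
      exact ⟨by rw [← a1, ← b1, hxy], a2.unique b2⟩
    · right
      rw [hxy] at a2
      exact ⟨by rw [← a1, ← b1, hxy], a2.unique b2⟩
    · right
      rw [hxy] at a2
      exact ⟨a2.unique b2, by rw [← a1, ← b1, hxy]⟩
    · left
      rw [hxy] at a2
      exact ⟨a2.unique b2, by rw [← a1, ← b1, hxy]⟩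
  set W : Finset (ℕ × ℕ) := (univ.erase r).image (fun v => gmid (R.rc v) (R.rc v)) with hW
  have hWc : W.card = Fintype.card V - 1 := by
    rw [hW, card_image_of_injective, card_erase_of_mem (mem_univ r), card_univ]
    intro v w hvw
    have h1 := dbl_inj hvw
    have h2 := R.hrc v
    rw [h1, R.hrc w] at h2
    exact (Option.some_inj.1 h2).symm
  have hdis : Disjoint (S.image f) W := by
    rw [disjoint_left]
    intro c hc hcW
    rw [mem_image] at hc
    obtain ⟨x, hx, rfl⟩ := hc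
    rw [hW, mem_image] at hcW
    obtain ⟨v, _, hv⟩ := hcW
    rcases hfc x hx with ⟨a1, a2⟩ | ⟨a1, a2⟩
    · exact a2.ne_root v hv.symm
    · exact a2.ne_root v hv.symm
  have hcard : (S.image f ∪ W).card = S.card + (Fintype.card V - 1) := by
    rw [card_union_of_disjoint hdis, card_image_of_injOn hinj, hWc]
  rw [← hcard]
  apply card_interior
  intro c hc
  have hlab : ∀ v, v ≠ r → rlab R k T c.1 c.2 = some v →
      ¬ (c.1 = 0 ∨ 2 * k + 1 < c.1 ∨ c.2 = 0 ∨ 2 * T + 1 < c.2) ∧ rlab R k T c.1 c.2 ≠ none := by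
    intro v hv h
    refine ⟨fun hf => ?_, by rw [h]; simp⟩
    have := (M'.frame _ _).2 hf
    rw [h, Option.some_inj] at this
    exact hv this
  rw [mem_union, mem_image, hW, mem_image] at hc
  rcases hc with ⟨x, hx, rfl⟩ | ⟨v, hv, rfl⟩
  · obtain ⟨v, hv, h1, h2⟩ := hspec x hx
    rcases hfc x hx with ⟨a1, a2⟩ | ⟨a1, a2⟩
    · rw [a1] at hlab ⊢
      exact hlab v hv h1
    · rw [a1] at hlab ⊢
      exact hlab v hv h2
  · have hvr : v ≠ r := (mem_erase.1 hv).1
    exact hlab v hvr ((M.rlab_vert R hvr _).2 (Or.inl ⟨_, rfl, R.hrc v⟩))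

/-- Every edge not at the root is realised at most once. -/
theorem GridModel.card_DD (M : GridModel G r k T L) (R : RData G r L) [Finite V] :
    (DD G r (rlab R k T) (2 * k + 1) (2 * T + 1)).card ≤
      Nat.card (G.induce {v | v ≠ r}).edgeSet := by
  classical
  set D := DD G r (rlab R k T) (2 * k + 1) (2 * T + 1) with hD
  have hspec : ∀ x : {x // x ∈ D}, ∃ u v : V, ∃ (_ : u ≠ r) (_ : v ≠ r), G.Adj u v ∧
      R.e u < R.e v ∧
      ((src x.1 = gmid (R.P u v) (R.Q u v) ∧ tgt x.1 = gmid (R.Q u v) (R.Q u v)) ∨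
       (tgt x.1 = gmid (R.P u v) (R.Q u v) ∧ src x.1 = gmid (R.Q u v) (R.Q u v))) := by
    rintro ⟨x, hx⟩
    rw [hD] at hx
    unfold DD at hx
    rw [mem_filter] at hx
    obtain ⟨_, ⟨u, v, hu, hv, huv⟩, h1, h2⟩ := hx
    have hur : u ≠ r := fun h => h1 (by rw [hu, h])
    have hvr : v ≠ r := fun h => h2 (by rw [hv, h])
    rcases lt_trichotomy (R.e u) (R.e v) with h | h | h
    · exact ⟨u, v, hur, hvr, huv, h, Or.inl (M.edge_unique R hur hvr huv h (gadj_src_tgt x) hu hv)⟩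
    · exact absurd (R.he h) huv.ne
    · exact ⟨v, u, hvr, hur, huv.symm, h,
        Or.inr (M.edge_unique R hvr hur huv.symm h (gadj_src_tgt x).symm hv hu)⟩
  choose u v hu hv huv he hh using hspec
  have hle : Nat.card {x // x ∈ D} ≤ Nat.card (G.induce {v | v ≠ r}).edgeSet := by
    apply Nat.card_le_card_of_injective (fun x => ⟨s(⟨u x, hu x⟩, ⟨v x, hv x⟩), huv x⟩)
    intro x y hxy
    have hxy2 := Sym2.eq_iff.1 (congrArg Subtype.val hxy)
    simp only [Subtype.mk.injEq] at hxy2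
    have huv' : u x = u y ∧ v x = v y := by
      rcases hxy2 with h | h
      · exact h
      · exfalso
        have h1 := he x
        have h2 := he y
        rw [h.1, h.2] at h1
        omega
    apply Subtype.ext
    apply idx_inj
    have hx := hh x
    have hy := hh y
    rw [huv'.1, huv'.2] at hx
    rcases hx with ⟨a1, a2⟩ | ⟨a1, a2⟩ <;> rcases hy with ⟨b1, b2⟩ | ⟨b1, b2⟩
    · left; exact ⟨a1.trans b1.symm, a2.trans b2.symm⟩
    · right; exact ⟨a1.trans b1.symm, a2.trans b2.symm⟩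
    · right; exact ⟨a2.trans b2.symm, a1.trans b1.symm⟩
    · left; exact ⟨a2.trans b2.symm, a1.trans b1.symm⟩
  rw [Nat.card_eq_fintype_card, Fintype.card_coe] at hle
  exact hle

/-- The explicit lower bound from a grid model. -/
theorem GridModel.bound (M : GridModel G r k T L) [Fintype V] {cl : V → ℤ}
    (hC : Cls G r cl) (p : Polynomial ℝ)
    (hp : ∀ n : ℕ, p.eval (n : ℝ) = (Nat.card (G.Coloring (Fin n)) : ℝ)) {q : ℝ} (hq : 4 ≤ q) :
    q * (q - 1) ^ (Fintype.card V - 1) *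
      ((q - 2) / (q - 1)) ^ (Nat.card (G.induce {v | v ≠ r}).edgeSet) ≤ p.eval q := by
  classical
  obtain ⟨R⟩ := M.exists_RData
  have M' := M.rgrid R
  have hb := grid_bound M' (by omega) (by omega) hC p hp hq
  rw [prod_wrow, prod_wpt] at hb
  have h1 := prod_wad_ge G r q (rlab R k T) (2 * k + 1) (2 * T + 1)
  have h2 := card_NNs (rlab R k T) (2 * k + 1) (2 * T + 1)
  have h3 := M.card_SS R
  have h4 := M.card_DD R
  set a := Fintype.card (NonePt (2 * k + 1) (2 * T + 1) (rlab R k T))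
  set s := (SS (rlab R k T) (2 * k + 1) (2 * T + 1)).card
  set b := (NNs (rlab R k T) (2 * k + 1) (2 * T + 1)).card
  set c := (PP (rlab R k T) (2 * k + 1) (2 * T + 1)).card
  set d := (DD G r (rlab R k T) (2 * k + 1) (2 * T + 1)).card
  set m := Nat.card (G.induce {v | v ≠ r}).edgeSet
  set A := ∏ x ∈ AA (2 * k + 1) (2 * T + 1), wad G r q (rlab R k T (src x).1 (src x).2)
    (rlab R k T (tgt x).1 (tgt x).2)
  have hx0 : 0 < q - 1 := by linarith
  have hx1 : 1 ≤ q - 1 := by linarith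
  have hl0 : 0 < (q - 2) / (q - 1) := div_pos (by linarith) hx0
  have hl1 : (q - 2) / (q - 1) ≤ 1 := by
    rw [div_le_one hx0]; linarith
  have hq0 : 0 < q := by linarith
  have e1 : (q - 1) ^ (Fintype.card V - 1) * ((q - 2) / (q - 1)) ^ m ≤
      ((q - 1)⁻¹) ^ s * ((q - 2) / (q - 1)) ^ d * (q - 1) ^ c := by
    have f1 : ((q - 2) / (q - 1)) ^ m ≤ ((q - 2) / (q - 1)) ^ d :=
      pow_le_pow_of_le_one hl0.le hl1 h4
    have f2 : (q - 1) ^ (s + (Fintype.card V - 1)) ≤ (q - 1) ^ c := pow_le_pow_right₀ hx1 h3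
    have f3 : ((q - 1)⁻¹) ^ s * (q - 1) ^ s = 1 := by
      rw [← mul_pow, inv_mul_cancel₀ hx0.ne', one_pow]
    calc (q - 1) ^ (Fintype.card V - 1) * ((q - 2) / (q - 1)) ^ m
        ≤ (q - 1) ^ (Fintype.card V - 1) * ((q - 2) / (q - 1)) ^ d :=
          mul_le_mul_of_nonneg_left f1 (by positivity)
      _ = ((q - 1)⁻¹) ^ s * ((q - 2) / (q - 1)) ^ d * (q - 1) ^ (s + (Fintype.card V - 1)) := by
          rw [pow_add]
          linear_combination (- ((q - 2) / (q - 1)) ^ d * (q - 1) ^ (Fintype.card V - 1)) * f3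
      _ ≤ _ := mul_le_mul_of_nonneg_left f2 (by positivity)
  have e2 : q ^ a ≤ q ^ b := pow_le_pow_right₀ (by linarith) h2
  have e3 : q * ((q - 1) ^ (Fintype.card V - 1) * ((q - 2) / (q - 1)) ^ m) * q ^ a ≤
      p.eval q * q ^ a := by
    refine le_trans ?_ hb
    have g1 : (q - 1) ^ (Fintype.card V - 1) * ((q - 2) / (q - 1)) ^ m ≤ A * (q - 1) ^ c :=
      e1.trans (mul_le_mul_of_nonneg_right h1 (by positivity))
    have g0 : 0 ≤ (q - 1) ^ (Fintype.card V - 1) * ((q - 2) / (q - 1)) ^ m := by positivity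
    calc q * ((q - 1) ^ (Fintype.card V - 1) * ((q - 2) / (q - 1)) ^ m) * q ^ a
        ≤ q * ((q - 1) ^ (Fintype.card V - 1) * ((q - 2) / (q - 1)) ^ m) * q ^ b :=
          mul_le_mul_of_nonneg_left e2 (by positivity)
      _ ≤ q * (A * (q - 1) ^ c) * q ^ b := by
          apply mul_le_mul_of_nonneg_right _ (by positivity)
          exact mul_le_mul_of_nonneg_left g1 hq0.le
      _ = _ := by ring
  have e4 := le_of_mul_le_mul_right e3 (by positivity)
  rw [mul_assoc]
  exact e4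

end Pool.Agent.Helper70.BLB
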