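import Mathlib
import Pool.Agent.Helper70.BLB.Refine3
import Pool.Agent.Helper70.BLB.DiscOfPlane
import Pool.Agent.Helper70.BLB.PlaneOfDrawing

/-!
Lower bound for the chromatic polynomial of planar graphs that become bipartite after deleting a
vertex.
-/

set_option autoImplicit false

namespace Pool.Agent.Helper70.BLB

theorem apexBipartite_bound {V : Type} [Fintype V] {G : SimpleGraph V} {f : V → ℝ × ℝ}
    {γ : V → V → ℝ → ℝ × ℝ} (D : Drawing G f γ) (r : V)
    (hbip : (G.induce {v | v ≠ r}).Colorable 2) (p : Polynomial ℝ)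
    (hp : ∀ n : ℕ, p.eval (n : ℝ) = (Nat.card (G.Coloring (Fin n)) : ℝ)) {q : ℝ} (hq : 4 ≤ q) :
    q * (q - 1) ^ (Fintype.card V - 1) *
      ((q - 2) / (q - 1)) ^ (Nat.card (G.induce {v | v ≠ r}).edgeSet) ≤ p.eval q := by
  classical
  obtain ⟨O, K, M, PM⟩ := D.planeModel r
  obtain ⟨k, T, L, hk, hT, GM⟩ := gridModel_of_planeModel PM
  obtain ⟨c⟩ := hbip
  set cl : V → ℤ := fun v => if h : v ≠ r then (if c ⟨v, h⟩ = 0 then 1 else -1) else 1 with hcl
  have hC : Cls G r cl := by
    constructor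
    · intro v
      rw [hcl]
      simp only
      split_ifs <;> simp
    · intro u v hu hv huv
      have h1 : c ⟨u, hu⟩ ≠ c ⟨v, hv⟩ := c.valid (by simpa using huv)
      rw [hcl]
      simp only
      rw [dif_pos hu, dif_pos hv]
      by_cases h2 : c ⟨u, hu⟩ = 0
      · have h3 : c ⟨v, hv⟩ ≠ 0 := fun h => h1 (h2.trans h.symm)
        rw [if_pos h2, if_neg h3]
      · have h3 : c ⟨v, hv⟩ = 0 := by omega
        rw [if_neg h2, if_pos h3]
        norm_num
  exact GM.bound hC p hp hq

end Pool.Agent.Helper70.BLB
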