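import Mathlib

/-!
Colourings with prescribed colours on a set of vertices: the number of extensions is a polynomial
in the number of colours, and positivity for all patterns gives positivity of the chromatic
polynomial.
-/

set_option autoImplicit false
set_option linter.unusedSectionVars false

namespace Pool.Agent.Helper70.BLB

open Polynomial

section

variable {V : Type} {A : Type}

/-- The number of proper colourings with colours `A ⊕ Fin n` that equal `c` on `S`. -/
noncomputable def extN (G : SimpleGraph V) (S : Finset V) (c : V → A) (n : ℕ) : ℕ :=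
  Nat.card {f : G.Coloring (A ⊕ Fin n) // ∀ t ∈ S, f t = Sum.inl (c t)}

/-- `p` is the polynomial counting extensions. -/
def IsExt [Fintype A] (G : SimpleGraph V) (S : Finset V) (c : V → A) (p : ℝ[X]) : Prop :=
  ∀ n : ℕ, p.eval ((Fintype.card A : ℝ) + n) = extN G S c n

/-- Nonnegativity of the extension polynomial at `q`. -/
def ExtNonneg [Fintype A] (G : SimpleGraph V) (S : Finset V) (c : V → A) (q : ℝ) : Prop :=
  ∀ p : ℝ[X], IsExt G S c p → 0 ≤ p.eval q

/-- Positivity of the extension polynomial at `q`. -/
def ExtPos [Fintype A] (G : SimpleGraph V) (S : Finset V) (c : V → A) (q : ℝ) : Prop :=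
  ∀ p : ℝ[X], IsExt G S c p → 0 < p.eval q

/-- Composition of a colouring with an injection. -/
def recol (G : SimpleGraph V) {C C' : Type} (e : C → C') (he : Function.Injective e)
    (f : G.Coloring C) : G.Coloring C' :=
  SimpleGraph.Coloring.mk (fun v => e (f v)) (fun h => fun h2 => f.valid h (he h2))

theorem recol_apply (G : SimpleGraph V) {C C' : Type} (e : C → C') (he : Function.Injective e)
    (f : G.Coloring C) (v : V) : recol G e he f v = e (f v) := rfl

variable [Fintype V]

section count

variable (G : SimpleGraph V) (S : Finset V) (c : V → A)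

open Classical in
/-- The set of new colours used. -/
noncomputable def used {n : ℕ} (f : V → A ⊕ Fin n) : Finset (Fin n) :=
  Finset.univ.filter fun i => ∃ v, f v = Sum.inr i

theorem mem_used {n : ℕ} (f : V → A ⊕ Fin n) (i : Fin n) : i ∈ used f ↔ ∃ v, f v = Sum.inr i := by
  classical
  unfold used
  rw [Finset.mem_filter]
  simp

/-- Extensions using all the new colours. -/
noncomputable def surjN (n : ℕ) : ℕ :=
  Nat.card {f : G.Coloring (A ⊕ Fin n) // (∀ t ∈ S, f t = Sum.inl (c t)) ∧
    used (fun v => f v) = Finset.univ}

theorem surjN_zero {n : ℕ} (hn : Fintype.card V < n) : surjN G S c n = 0 := by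
  unfold surjN
  have : IsEmpty {f : G.Coloring (A ⊕ Fin n) // (∀ t ∈ S, f t = Sum.inl (c t)) ∧
      used (fun v => f v) = Finset.univ} := by
    constructor
    rintro ⟨f, _, hf⟩
    have h1 : ∀ i : Fin n, ∃ v, f v = Sum.inr i := by
      intro i
      have : i ∈ used (fun v => f v) := by rw [hf]; exact Finset.mem_univ i
      exact (mem_used _ _).1 this
    choose g hg using h1
    have hinj : Function.Injective g := by
      intro i j hij
      have h2 := hg i
      rw [hij, hg j] at h2
      exact (Sum.inr.inj h2).symm
    have h3 := Fintype.card_le_of_injective g hinj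
    rw [Fintype.card_fin] at h3
    omega
  exact Nat.card_of_isEmpty

/-- The inclusion of the used colours. -/
noncomputable def inc (A : Type) {n : ℕ} (I : Finset (Fin n)) : A ⊕ Fin I.card → A ⊕ Fin n :=
  Sum.map id (fun i => (I.equivFin.symm i).1)

theorem inc_inj {n : ℕ} (I : Finset (Fin n)) : Function.Injective (inc A I) := by
  apply Function.Injective.sumMap Function.injective_id
  intro i j h
  exact I.equivFin.symm.injective (Subtype.ext h)

theorem card_used {n : ℕ} (I : Finset (Fin n)) :
    Nat.card {f : G.Coloring (A ⊕ Fin n) // (∀ t ∈ S, f t = Sum.inl (c t)) ∧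
      used (fun v => f v) = I} = surjN G S c I.card := by
  symm
  unfold surjN
  apply Nat.card_congr
  refine Equiv.ofBijective (fun f => ⟨recol G (inc A I) (inc_inj I) f.1, ?_, ?_⟩) ⟨?_, ?_⟩
  · intro t ht
    rw [recol_apply, f.2.1 t ht]
    rfl
  · ext i
    rw [mem_used]
    constructor
    · rintro ⟨v, hv⟩
      rw [recol_apply] at hv
      cases hfv : f.1 v with
      | inl a => rw [hfv] at hv; simp [inc] at hv
      | inr j =>
        rw [hfv] at hv
        simp only [inc, Sum.map_inr, Sum.inr.injEq] at hv
        rw [← hv]
        exact (I.equivFin.symm j).2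
    · intro hi
      have h1 : I.equivFin ⟨i, hi⟩ ∈ used (fun v => f.1 v) := by
        rw [f.2.2]; exact Finset.mem_univ _
      obtain ⟨v, hv⟩ := (mem_used _ _).1 h1
      refine ⟨v, ?_⟩
      rw [recol_apply, hv]
      simp [inc]
  · intro f g hfg
    apply Subtype.ext
    apply RelHom.ext
    intro v
    have h1 := congrArg (fun h => h.1 v) hfg
    simp only [recol_apply] at h1
    exact inc_inj I h1
  · rintro ⟨f, hf1, hf2⟩
    have h1 : ∀ v, ∃ x, inc A I x = f v := by
      intro v
      cases hfv : f v with
      | inl a => exact ⟨Sum.inl a, rfl⟩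
      | inr i =>
        have hi : i ∈ I := by
          rw [← hf2]
          exact (mem_used _ _).2 ⟨v, hfv⟩
        refine ⟨Sum.inr (I.equivFin ⟨i, hi⟩), ?_⟩
        simp [inc]
    choose g hg using h1
    have hval : ∀ {u v}, G.Adj u v → g u ≠ g v := by
      intro u v huv h
      apply f.valid huv
      rw [← hg u, ← hg v, h]
    refine ⟨⟨SimpleGraph.Coloring.mk g hval, ?_, ?_⟩, ?_⟩
    · intro t ht
      apply inc_inj I
      show inc A I (g t) = _
      rw [hg t, hf1 t ht]
      rfl
    · ext i
      simp only [Finset.mem_univ, iff_true]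
      rw [mem_used]
      have h2 : (I.equivFin.symm i).1 ∈ used (fun v => f v) := by
        rw [hf2]; exact (I.equivFin.symm i).2
      obtain ⟨v, hv⟩ := (mem_used _ _).1 h2
      refine ⟨v, ?_⟩
      apply inc_inj I
      show inc A I (g v) = _
      rw [hg v, hv]
      rfl
    · apply Subtype.ext
      apply RelHom.ext
      intro v
      exact hg v

variable [Finite A]

theorem extN_eq (n : ℕ) :
    extN G S c n = ∑ m ∈ Finset.range (Fintype.card V + 1), n.choose m * surjN G S c m := by
  classical
  have : Fintype A := Fintype.ofFinite A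
  have : Finite (G.Coloring (A ⊕ Fin n)) := DFunLike.finite _
  have : Fintype (G.Coloring (A ⊕ Fin n)) := Fintype.ofFinite _
  have h1 : extN G S c n = ∑ I ∈ (Finset.univ : Finset (Fin n)).powerset, surjN G S c I.card := by
    unfold extN
    rw [Nat.card_eq_fintype_card, Fintype.card_subtype]
    rw [Finset.card_eq_sum_card_fiberwise (f := fun f : G.Coloring (A ⊕ Fin n) =>
      used (fun v => f v)) (t := (Finset.univ : Finset (Fin n)).powerset)]
    · apply Finset.sum_congr rfl
      intro I _
      rw [← card_used G S c I, Nat.card_eq_fintype_card, Fintype.card_subtype, Finset.filter_filter]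
    · intro f _
      simp
  rw [h1, Finset.sum_powerset_apply_card (fun m => surjN G S c m), Finset.card_univ,
    Fintype.card_fin]
  simp only [smul_eq_mul]
  rcases le_total n (Fintype.card V) with h | h
  · apply Finset.sum_subset
    · intro m hm
      rw [Finset.mem_range] at hm ⊢
      omega
    · intro m _ hm
      rw [Finset.mem_range] at hm
      rw [Nat.choose_eq_zero_of_lt (by omega), zero_mul]
  · symm
    apply Finset.sum_subset
    · intro m hm
      rw [Finset.mem_range] at hm ⊢
      omega
    · intro m _ hm
      rw [Finset.mem_range] at hm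
      rw [surjN_zero G S c (by omega), mul_zero]

/-- The number of extensions is a polynomial in the number of colours. -/
theorem exists_isExt [Fintype A] : ∃ p : ℝ[X], IsExt G S c p := by
  refine ⟨∑ m ∈ Finset.range (Fintype.card V + 1),
    C ((surjN G S c m : ℝ) / (m.factorial : ℝ)) *
      (descPochhammer ℝ m).comp (X - C (Fintype.card A : ℝ)), ?_⟩
  intro n
  rw [extN_eq, eval_finsetSum]
  push_cast
  apply Finset.sum_congr rfl
  intro m _
  rw [eval_mul, eval_C, eval_comp, eval_sub, eval_X, eval_C, add_sub_cancel_left,
    descPochhammer_eval_eq_descFactorial, Nat.descFactorial_eq_factorial_mul_choose]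
  push_cast
  have : (m.factorial : ℝ) ≠ 0 := by positivity
  field_simp

end count

section split

variable (G : SimpleGraph V) (S : Finset V) [Fintype A] [DecidableEq A] [DecidableEq V]

theorem extN_insert (c : V → A) {t : V} (ht : t ∉ S) (a : A) (n : ℕ) :
    extN G (insert t S) (Function.update c t a) n =
      Nat.card {f : G.Coloring (A ⊕ Fin n) // (∀ s ∈ S, f s = Sum.inl (c s)) ∧
        f t = Sum.inl a} := by
  unfold extN
  apply Nat.card_congr
  apply Equiv.subtypeEquivRight
  intro f
  rw [Finset.forall_mem_insert, Function.update_self, and_comm]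
  apply and_congr_left
  intro _
  apply forall₂_congr
  intro s hs
  have : s ≠ t := fun h => ht (h ▸ hs)
  rw [Function.update_of_ne this]

theorem card_fiber (c : V → A) {t : V} (n : ℕ) {x y : A ⊕ Fin n}
    (hx : ∀ s ∈ S, x ≠ Sum.inl (c s)) (hy : ∀ s ∈ S, y ≠ Sum.inl (c s)) :
    Nat.card {f : G.Coloring (A ⊕ Fin n) // (∀ s ∈ S, f s = Sum.inl (c s)) ∧ f t = x} =
      Nat.card {f : G.Coloring (A ⊕ Fin n) // (∀ s ∈ S, f s = Sum.inl (c s)) ∧ f t = y} := by
  have key : ∀ x y : A ⊕ Fin n, (∀ s ∈ S, x ≠ Sum.inl (c s)) → (∀ s ∈ S, y ≠ Sum.inl (c s)) →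
      ∀ f : G.Coloring (A ⊕ Fin n), ((∀ s ∈ S, f s = Sum.inl (c s)) ∧ f t = x) →
      (∀ s ∈ S, recol G (Equiv.swap x y) (Equiv.swap x y).injective f s = Sum.inl (c s)) ∧
        recol G (Equiv.swap x y) (Equiv.swap x y).injective f t = y := by
    intro x y hx hy f hf
    refine ⟨fun s hs => ?_, ?_⟩
    · rw [recol_apply, hf.1 s hs]
      exact Equiv.swap_apply_of_ne_of_ne (hx s hs).symm (hy s hs).symm
    · rw [recol_apply, hf.2]
      exact Equiv.swap_apply_left x y
  apply Nat.card_congr
  refine ⟨fun f => ⟨_, key x y hx hy f.1 f.2⟩, fun f => ⟨_, key y x hy hx f.1 f.2⟩, ?_, ?_⟩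
  · intro f
    apply Subtype.ext
    apply RelHom.ext
    intro v
    show Equiv.swap y x (Equiv.swap x y (f.1 v)) = f.1 v
    rw [Equiv.swap_comm y x, Equiv.swap_apply_self]
  · intro f
    apply Subtype.ext
    apply RelHom.ext
    intro v
    show Equiv.swap x y (Equiv.swap y x (f.1 v)) = f.1 v
    rw [Equiv.swap_comm y x, Equiv.swap_apply_self]

theorem extN_split (c : V → A) {t : V} (ht : t ∉ S) {a0 : A} (h0 : a0 ∉ S.image c) (n : ℕ) :
    extN G S c n = ∑ a ∈ S.image c, extN G (insert t S) (Function.update c t a) n +
      (Fintype.card A + n - (S.image c).card) *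
        extN G (insert t S) (Function.update c t a0) n := by
  classical
  have : Finite (G.Coloring (A ⊕ Fin n)) := DFunLike.finite _
  have : Fintype (G.Coloring (A ⊕ Fin n)) := Fintype.ofFinite _
  have h1 : extN G S c n = ∑ x : A ⊕ Fin n,
      Nat.card {f : G.Coloring (A ⊕ Fin n) // (∀ s ∈ S, f s = Sum.inl (c s)) ∧ f t = x} := by
    unfold extN
    rw [Nat.card_eq_fintype_card, Fintype.card_subtype]
    rw [Finset.card_eq_sum_card_fiberwise (f := fun f : G.Coloring (A ⊕ Fin n) => f t)
      (t := (Finset.univ : Finset (A ⊕ Fin n)))]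
    · apply Finset.sum_congr rfl
      intro x _
      rw [Nat.card_eq_fintype_card, Fintype.card_subtype, Finset.filter_filter]
    · intro f _
      simp
  rw [h1, ← Finset.sum_add_sum_compl ((S.image c).image (Sum.inl : A → A ⊕ Fin n))]
  congr 1
  · rw [Finset.sum_image (by intro a _ b _ h; exact Sum.inl.inj h)]
    apply Finset.sum_congr rfl
    intro a _
    rw [extN_insert G S c ht]
  · have h2 : ∀ x ∈ ((S.image c).image (Sum.inl : A → A ⊕ Fin n))ᶜ,
        Nat.card {f : G.Coloring (A ⊕ Fin n) // (∀ s ∈ S, f s = Sum.inl (c s)) ∧ f t = x} =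
          extN G (insert t S) (Function.update c t a0) n := by
      intro x hx
      rw [extN_insert G S c ht]
      apply card_fiber
      · intro s hs h
        rw [Finset.mem_compl] at hx
        apply hx
        rw [h]
        exact Finset.mem_image_of_mem _ (Finset.mem_image_of_mem _ hs)
      · intro s hs h
        apply h0
        rw [Sum.inl.inj h]
        exact Finset.mem_image_of_mem _ hs
    rw [Finset.sum_congr rfl h2, Finset.sum_const, smul_eq_mul, Finset.card_compl,
      Finset.card_image_of_injective _ Sum.inl_injective, Fintype.card_sum, Fintype.card_fin]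

/-- The splitting as an identity of polynomials, evaluated at a real number. -/
theorem ext_split (c : V → A) {t : V} (ht : t ∉ S) {a0 : A} (h0 : a0 ∉ S.image c)
    {p : ℝ[X]} (hp : IsExt G S c p) (q : ℝ) :
    ∃ (P : A → ℝ[X]), (∀ a, IsExt G (insert t S) (Function.update c t a) (P a)) ∧
      p.eval q = ∑ a ∈ S.image c, (P a).eval q + (q - (S.image c).card) * (P a0).eval q := by
  choose P hP using fun a => exists_isExt G (insert t S) (Function.update c t a)
  refine ⟨P, hP, ?_⟩
  have hcard : (S.image c).card ≤ Fintype.card A := Finset.card_le_univ _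
  have key : p = ∑ a ∈ S.image c, P a + (X - C ((S.image c).card : ℝ)) * P a0 := by
    apply Polynomial.eq_of_infinite_eval_eq
    apply Set.Infinite.mono _ (Set.infinite_range_of_injective
      (f := fun n : ℕ => (Fintype.card A : ℝ) + n) ?_)
    · rintro _ ⟨n, rfl⟩
      show p.eval ((Fintype.card A : ℝ) + n) = _
      rw [hp n, extN_split G S c ht h0 n, eval_add, eval_finsetSum, eval_mul, eval_sub, eval_X,
        eval_C]
      push_cast [Nat.cast_sub (show (S.image c).card ≤ Fintype.card A + n by omega)]
      congr 1
      · apply Finset.sum_congr rfl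
        intro a _
        rw [hP a n]
      · rw [hP a0 n]
    · intro a b h
      have h2 : (a : ℝ) = b := by
        have h3 : (Fintype.card A : ℝ) + a = (Fintype.card A : ℝ) + b := h
        linarith
      exact_mod_cast h2
  have h2 := congrArg (fun P : ℝ[X] => P.eval q) key
  simp only [eval_add, eval_finsetSum, eval_mul, eval_sub, eval_X, eval_C] at h2
  exact h2

end split

/-- Positivity for all patterns on `T` gives positivity of the chromatic polynomial. -/
theorem pos_of_patterns {G : SimpleGraph V} [Fintype A] [Nonempty A] (T : Finset V)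
    (hT : T.card ≤ Fintype.card A) {q : ℝ} (hq : (Fintype.card A : ℝ) - 1 < q)
    (h1 : ∀ c : V → A, ExtNonneg G T c q)
    (h2 : ∀ c : V → A, Set.InjOn c (T : Set V) → ExtPos G T c q)
    (p : ℝ[X]) (hp : ∀ n : ℕ, p.eval (n : ℝ) = (Nat.card (G.Coloring (Fin n)) : ℝ)) :
    0 < p.eval q := by
  classical
  have main : ∀ m : ℕ, ∀ S : Finset V, S ⊆ T → T.card - S.card = m →
      (∀ c : V → A, ExtNonneg G S c q) ∧
      (∀ c : V → A, Set.InjOn c (S : Set V) → ExtPos G S c q) := by
    intro m
    induction m with
    | zero =>
      intro S hS hm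
      have : S = T := Finset.eq_of_subset_of_card_le hS (by omega)
      rw [this]
      exact ⟨h1, h2⟩
    | succ m ih =>
      intro S hS hm
      have hlt : S.card < T.card := by omega
      obtain ⟨t, htT, htS⟩ : ∃ t ∈ T, t ∉ S := by
        by_contra hcon
        push Not at hcon
        have := Finset.card_le_card (show T ⊆ S from hcon)
        omega
      obtain ⟨i1, i2⟩ := ih (insert t S) (Finset.insert_subset htT hS)
        (by rw [Finset.card_insert_of_notMem htS]; omega)
      have hnew : ∀ c : V → A, ∃ a0, a0 ∉ S.image c := by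
        intro c
        by_contra hcon
        push Not at hcon
        have h3 := Finset.card_le_card (show (Finset.univ : Finset A) ⊆ S.image c from
          fun a _ => hcon a)
        rw [Finset.card_univ] at h3
        have := Finset.card_image_le (s := S) (f := c)
        omega
      have hcardlt : ∀ c : V → A, ((S.image c).card : ℝ) < q := by
        intro c
        have h3 := Finset.card_image_le (s := S) (f := c)
        have h4 : (S.image c).card + 1 ≤ Fintype.card A := by omega
        have h5 : ((S.image c).card : ℝ) + 1 ≤ Fintype.card A := by exact_mod_cast h4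
        linarith
      refine ⟨fun c p hp => ?_, fun c hc p hp => ?_⟩
      · obtain ⟨a0, h0⟩ := hnew c
        obtain ⟨P, hP, he⟩ := ext_split G S c htS h0 hp q
        rw [he]
        have h3 := hcardlt c
        have h4 : 0 ≤ (P a0).eval q := i1 _ _ (hP a0)
        have h5 : 0 ≤ ∑ a ∈ S.image c, (P a).eval q :=
          Finset.sum_nonneg fun a _ => i1 _ _ (hP a)
        have h6 : 0 ≤ (q - (S.image c).card) * (P a0).eval q :=
          mul_nonneg (by linarith) h4
        linarith
      · obtain ⟨a0, h0⟩ := hnew c
        obtain ⟨P, hP, he⟩ := ext_split G S c htS h0 hp q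
        rw [he]
        have h3 := hcardlt c
        have h4 : 0 < (P a0).eval q := by
          apply i2 _ _ _ (hP a0)
          intro x hx y hy hxy
          rw [Finset.mem_coe, Finset.mem_insert] at hx hy
          rcases hx with rfl | hx
          · rcases hy with rfl | hy
            · rfl
            · have hyx : y ≠ x := fun h => htS (h ▸ hy)
              rw [Function.update_self, Function.update_of_ne hyx] at hxy
              exact absurd (Finset.mem_image.2 ⟨y, hy, hxy.symm⟩) h0
          · rcases hy with rfl | hy
            · have hxy' : x ≠ y := fun h => htS (h ▸ hx)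
              rw [Function.update_self, Function.update_of_ne hxy'] at hxy
              exact absurd (Finset.mem_image.2 ⟨x, hx, hxy⟩) h0
            · have hxt : x ≠ t := fun h => htS (h ▸ hx)
              have hyt : y ≠ t := fun h => htS (h ▸ hy)
              rw [Function.update_of_ne hxt, Function.update_of_ne hyt] at hxy
              exact hc hx hy hxy
        have h5 : 0 ≤ ∑ a ∈ S.image c, (P a).eval q :=
          Finset.sum_nonneg fun a _ => i1 _ _ (hP a)
        have h6 : 0 < (q - (S.image c).card) * (P a0).eval q :=
          mul_pos (by linarith) h4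
        linarith
  have h3 := (main _ ∅ (Finset.empty_subset T) rfl).2 (fun _ => Classical.arbitrary A)
    (by simp) p
  apply h3
  intro n
  have h4 := hp (Fintype.card A + n)
  push_cast at h4
  rw [h4]
  congr 1
  unfold extN
  have e1 : A ⊕ Fin n ≃ Fin (Fintype.card A + n) := by
    refine (Equiv.sumCongr (Fintype.equivFin A) (Equiv.refl _)).trans finSumFinEquiv
  have e2 : {f : G.Coloring (A ⊕ Fin n) // ∀ t ∈ (∅ : Finset V), f t =
      Sum.inl ((fun _ => Classical.arbitrary A : V → A) t)} ≃ G.Coloring (A ⊕ Fin n) :=
    Equiv.subtypeUnivEquiv (fun f t ht => absurd ht (Finset.notMem_empty t))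
  rw [Nat.card_congr e2]
  apply Nat.card_congr
  refine ⟨recol G e1.symm e1.symm.injective, recol G e1 e1.injective, ?_, ?_⟩
  · intro f
    apply RelHom.ext
    intro v
    exact e1.apply_symm_apply (f v)
  · intro f
    apply RelHom.ext
    intro v
    exact e1.symm_apply_apply (f v)

end

end Pool.Agent.Helper70.BLB
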