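import Mathlib
import Pool.Agent.Helper70.BLB.Patterns

/-!
From positivity of the extension polynomials of proper patterns to positivity of the chromatic
polynomial.
-/

set_option autoImplicit false

namespace Pool.Agent.Helper70.BLB

open Polynomial

variable {V A : Type} [Fintype V] [Fintype A]

/-- A polynomial vanishing at all large integers is zero at every real number. -/
theorem eval_eq_zero_of_nat {p : ℝ[X]} {a : ℝ} (hp : ∀ n : ℕ, p.eval (a + n) = 0) (q : ℝ) :
    p.eval q = 0 := by
  have h : p = 0 := by
    apply Polynomial.eq_of_infinite_eval_eq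
    apply Set.Infinite.mono _ (Set.infinite_range_of_injective (f := fun n : ℕ => a + (n : ℝ)) ?_)
    · rintro _ ⟨n, rfl⟩
      show p.eval (a + n) = (0 : ℝ[X]).eval (a + n)
      rw [hp n, eval_zero]
    · intro m n h
      have h2 : (m : ℝ) = n := by
        have h3 : a + (m : ℝ) = a + (n : ℝ) := h
        linarith
      exact_mod_cast h2
  rw [h, eval_zero]

/-- Positivity of the chromatic polynomial from positivity of the extension polynomials of all
proper patterns. -/
theorem pos_of_proper_patterns {G : SimpleGraph V} [Nonempty A] (T : Finset V)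
    (hT : T.card ≤ Fintype.card A) {q : ℝ} (hq : (Fintype.card A : ℝ) - 1 < q)
    (h : ∀ c : V → A, (∀ u v, G.Adj u v → u ∈ T → v ∈ T → c u ≠ c v) → ExtPos G T c q)
    (p : ℝ[X]) (hp : ∀ n : ℕ, p.eval (n : ℝ) = (Nat.card (G.Coloring (Fin n)) : ℝ)) :
    0 < p.eval q := by
  apply pos_of_patterns T hT hq _ _ p hp
  · intro c p hp
    by_cases hc : ∀ u v, G.Adj u v → u ∈ T → v ∈ T → c u ≠ c v
    · exact (h c hc p hp).le
    · push Not at hc
      obtain ⟨u, v, huv, hu, hv, he⟩ := hc
      apply le_of_eq
      symm
      apply eval_eq_zero_of_nat (a := Fintype.card A)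
      intro n
      rw [hp n]
      unfold extN
      have : IsEmpty {f : G.Coloring (A ⊕ Fin n) // ∀ t ∈ T, f t = Sum.inl (c t)} := by
        constructor
        rintro ⟨f, hf⟩
        apply f.valid huv
        rw [hf u hu, hf v hv, he]
      rw [Nat.card_of_isEmpty, Nat.cast_zero]
  · intro c hc
    apply h c
    intro u v huv hu hv he
    exact huv.ne (hc hu hv he)

end Pool.Agent.Helper70.BLB
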