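import Mathlib
import Pool.Agent.Helper70.BLB.DiscOfPlane
import Pool.Agent.Helper70.BLB.PlaneOfDrawing

/-!
Grid models in which given neighbours of the root touch the left column, the first row or the
last row.
-/

set_option autoImplicit false

namespace Pool.Agent.Helper70.BLB

section

variable {V : Type} {G G' : SimpleGraph V} {r : V} {k T : ℕ} {L : ℕ → ℕ → Option V}

/-- A grid model of a graph is a grid model of every subgraph. -/
theorem GridModel.mono (M : GridModel G' r k T L) (h : G ≤ G') : GridModel G r k T L where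
  frame := M.frame
  conn := M.conn
  nonempty := M.nonempty
  edge u v huv := M.edge u v (h huv)

/-- Coordinates of a labelled interior point. -/
theorem GridModel.inside (M : GridModel G r k T L) {v : V} (hv : v ≠ r) {i j : ℕ}
    (h : L i j = some v) : (1 ≤ i ∧ i ≤ k) ∧ (1 ≤ j ∧ j ≤ T) := by
  by_contra hcon
  have h1 : L i j = some r := (M.frame i j).2 (by omega)
  rw [h, Option.some_inj] at h1
  exact hv h1

/-- Reflection of a grid model. -/
theorem GridModel.reflect (M : GridModel G r k T L) :
    GridModel G r k T (fun i j => L (k + 1 - i) j) where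
  frame i j := by
    rw [M.frame]
    omega
  conn v hv p q hp hq := by
    have hp' := M.inside hv hp
    have h := M.conn v hv (k + 1 - p.1, p.2) (k + 1 - q.1, q.2) hp hq
    have key : ∀ c : ℕ × ℕ, Relation.ReflTransGen
        (fun a b : ℕ × ℕ => gadj a b ∧ L a.1 a.2 = some v ∧ L b.1 b.2 = some v)
        (k + 1 - p.1, p.2) c →
        Relation.ReflTransGen (fun a b : ℕ × ℕ => gadj a b ∧ L (k + 1 - a.1) a.2 = some v ∧
          L (k + 1 - b.1) b.2 = some v) p (k + 1 - c.1, c.2) := by
      intro c hc
      induction hc with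
      | refl =>
        have e : ((k + 1 - (k + 1 - p.1), p.2) : ℕ × ℕ) = p := by
          apply Prod.ext
          · simp only; omega
          · rfl
        simp only
        rw [e]
      | @tail b c _ hbc ih =>
        refine ih.tail ?_
        have hb := M.inside hv hbc.2.1
        have hc := M.inside hv hbc.2.2
        refine ⟨?_, ?_, ?_⟩
        · have := hbc.1
          unfold gadj at this ⊢
          simp only
          omega
        · simp only
          rw [show k + 1 - (k + 1 - b.1) = b.1 by omega]
          exact hbc.2.1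
        · simp only
          rw [show k + 1 - (k + 1 - c.1) = c.1 by omega]
          exact hbc.2.2
    have h2 := key _ h
    have hq' := M.inside hv hq
    have e : ((k + 1 - (k + 1 - q.1), q.2) : ℕ × ℕ) = q := by
      apply Prod.ext
      · simp only; omega
      · rfl
    simp only at h2
    rw [e] at h2
    exact h2
  nonempty v := by
    by_cases hv : v = r
    · refine ⟨(0, 0), ?_⟩
      rw [hv]
      exact (M.frame _ _).2 (by omega)
    · obtain ⟨p, hp⟩ := M.nonempty v
      have hp' := M.inside hv hp
      refine ⟨(k + 1 - p.1, p.2), ?_⟩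
      simp only
      rw [show k + 1 - (k + 1 - p.1) = p.1 by omega]
      exact hp
  edge u v huv := by
    obtain ⟨p, q, hpq, hp, hq⟩ := M.edge u v huv
    have hne : u ≠ v := huv.ne
    have hps : p.1 ≤ k + 1 ∧ q.1 ≤ k + 1 := by
      by_cases hu : u = r
      · have hv : v ≠ r := fun h => hne (hu.trans h.symm)
        have := M.inside hv hq
        unfold gadj at hpq
        omega
      · have := M.inside hu hp
        unfold gadj at hpq
        omega
    refine ⟨(k + 1 - p.1, p.2), (k + 1 - q.1, q.2), ?_, ?_, ?_⟩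
    · unfold gadj at hpq ⊢
      simp only
      omega
    · simp only
      rw [show k + 1 - (k + 1 - p.1) = p.1 by omega]
      exact hp
    · simp only
      rw [show k + 1 - (k + 1 - q.1) = q.1 by omega]
      exact hq

/-- Transposition of a grid model. -/
theorem GridModel.transpose (M : GridModel G r k T L) :
    GridModel G r T k (fun i j => L j i) where
  frame i j := by
    rw [M.frame]
    omega
  conn v hv p q hp hq := by
    have h := M.conn v hv (p.2, p.1) (q.2, q.1) hp hq
    have key : ∀ c : ℕ × ℕ, Relation.ReflTransGen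
        (fun a b : ℕ × ℕ => gadj a b ∧ L a.1 a.2 = some v ∧ L b.1 b.2 = some v)
        (p.2, p.1) c →
        Relation.ReflTransGen (fun a b : ℕ × ℕ => gadj a b ∧ L a.2 a.1 = some v ∧
          L b.2 b.1 = some v) p (c.2, c.1) := by
      intro c hc
      induction hc with
      | refl => exact Relation.ReflTransGen.refl
      | @tail b c _ hbc ih =>
        refine ih.tail ⟨?_, hbc.2.1, hbc.2.2⟩
        have := hbc.1
        unfold gadj at this ⊢
        simp only
        omega
    exact key _ h
  nonempty v := by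
    obtain ⟨p, hp⟩ := M.nonempty v
    exact ⟨(p.2, p.1), hp⟩
  edge u v huv := by
    obtain ⟨p, q, hpq, hp, hq⟩ := M.edge u v huv
    refine ⟨(p.2, p.1), (q.2, q.1), ?_, hp, hq⟩
    unfold gadj at hpq ⊢
    simp only
    omega

/-- The four sides of the rectangle. -/
def onSide (k T : ℕ) (s : Fin 4) (i j : ℕ) : Prop :=
  (s = 0 ∧ i = 1) ∨ (s = 1 ∧ i = k) ∨ (s = 2 ∧ j = 1) ∨ (s = 3 ∧ j = T)

/-- A neighbour of the root touches a side. -/
theorem GridModel.touch (M : GridModel G r k T L) {t : V} (h : G.Adj t r) :
    ∃ s i j, L i j = some t ∧ onSide k T s i j := by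
  obtain ⟨p, q, hpq, hp, hq⟩ := M.edge t r h
  have h1 := M.inside h.ne hp
  have h2 := (M.frame _ _).1 hq
  have h3 : p.1 = 1 ∨ p.1 = k ∨ p.2 = 1 ∨ p.2 = T := by
    unfold gadj at hpq
    omega
  rcases h3 with h3 | h3 | h3 | h3
  · exact ⟨0, p.1, p.2, hp, Or.inl ⟨rfl, h3⟩⟩
  · exact ⟨1, p.1, p.2, hp, Or.inr (Or.inl ⟨rfl, h3⟩)⟩
  · exact ⟨2, p.1, p.2, hp, Or.inr (Or.inr (Or.inl ⟨rfl, h3⟩))⟩
  · exact ⟨3, p.1, p.2, hp, Or.inr (Or.inr (Or.inr ⟨rfl, h3⟩))⟩

/-- Up to a symmetry of the grid, at most three neighbours of the root touch the left column,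
the first row or the last row. -/
theorem GridModel.contacts (M : GridModel G' r k T L) (hk : 1 ≤ k) (hT : 1 ≤ T) (hG : G ≤ G')
    (N : Finset V) (hN : N.card ≤ 3) (hadj : ∀ t ∈ N, G'.Adj t r) :
    ∃ (k' T' : ℕ) (L' : ℕ → ℕ → Option V), 1 ≤ k' ∧ 1 ≤ T' ∧ GridModel G r k' T' L' ∧
      ∀ t ∈ N, ∃ i j, L' i j = some t ∧ (i = 1 ∨ j = 1 ∨ j = T') := by
  classical
  have h1 : ∀ t : V, ∃ s : Fin 4, t ∈ N → ∃ i j, L i j = some t ∧ onSide k T s i j := by
    intro t
    by_cases ht : t ∈ N
    · obtain ⟨s, hs⟩ := M.touch (hadj t ht)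
      exact ⟨s, fun _ => hs⟩
    · exact ⟨0, fun h => absurd h ht⟩
  choose s hs using h1
  have h2 : ∃ x : Fin 4, x ∉ N.image s := by
    by_contra hcon
    push Not at hcon
    have h3 : (Finset.univ : Finset (Fin 4)) ⊆ N.image s := fun x _ => hcon x
    have h4 := Finset.card_le_card h3
    rw [Finset.card_univ, Fintype.card_fin] at h4
    have h5 := Finset.card_image_le (s := N) (f := s)
    omega
  obtain ⟨x, hx⟩ := h2
  have h3 : ∀ t ∈ N, s t ≠ x := fun t ht h => hx (Finset.mem_image.2 ⟨t, ht, h⟩)
  have hcase : x = 0 ∨ x = 1 ∨ x = 2 ∨ x = 3 := by omega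
  rcases hcase with rfl | rfl | rfl | rfl
  · -- the left column is free: reflect
    refine ⟨k, T, _, hk, hT, M.reflect.mono hG, fun t ht => ?_⟩
    obtain ⟨i, j, hij, hside⟩ := hs t ht
    have hin := M.inside (hadj t ht).ne hij
    refine ⟨k + 1 - i, j, ?_, ?_⟩
    · show L (k + 1 - (k + 1 - i)) j = some t
      rw [show k + 1 - (k + 1 - i) = i by omega]
      exact hij
    · rcases hside with h | h | h | h
      · exact absurd h.1 (h3 t ht)
      · left; omega
      · right; left; exact h.2
      · right; right; exact h.2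
  · -- the right column is free
    refine ⟨k, T, L, hk, hT, M.mono hG, fun t ht => ?_⟩
    obtain ⟨i, j, hij, hside⟩ := hs t ht
    refine ⟨i, j, hij, ?_⟩
    rcases hside with h | h | h | h
    · left; exact h.2
    · exact absurd h.1 (h3 t ht)
    · right; left; exact h.2
    · right; right; exact h.2
  · -- the first row is free: transpose and reflect
    refine ⟨T, k, _, hT, hk, M.transpose.reflect.mono hG, fun t ht => ?_⟩
    obtain ⟨i, j, hij, hside⟩ := hs t ht
    have hin := M.inside (hadj t ht).ne hij
    refine ⟨T + 1 - j, i, ?_, ?_⟩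
    · show L i (T + 1 - (T + 1 - j)) = some t
      rw [show T + 1 - (T + 1 - j) = j by omega]
      exact hij
    · rcases hside with h | h | h | h
      · right; left; exact h.2
      · right; right; exact h.2
      · exact absurd h.1 (h3 t ht)
      · left; omega
  · -- the last row is free: transpose
    refine ⟨T, k, _, hT, hk, M.transpose.mono hG, fun t ht => ?_⟩
    obtain ⟨i, j, hij, hside⟩ := hs t ht
    refine ⟨j, i, hij, ?_⟩
    rcases hside with h | h | h | h
    · right; left; exact h.2
    · right; right; exact h.2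
    · left; exact h.2
    · exact absurd h.1 (h3 t ht)

end

/-- A planar drawing of `G'` gives a grid model of every subgraph `G` such that at most three given
`G'`-neighbours of the root touch the left column, the first row or the last row. -/
theorem exists_gridModel_contacts {V : Type} [Finite V] {G G' : SimpleGraph V} {f : V → ℝ × ℝ}
    {γ : V → V → ℝ → ℝ × ℝ} (D : Drawing G' f γ) (hG : G ≤ G') (r : V)
    (N : Finset V) (hN : N.card ≤ 3) (hadj : ∀ t ∈ N, G'.Adj t r) :
    ∃ (k T : ℕ) (L : ℕ → ℕ → Option V), 1 ≤ k ∧ 1 ≤ T ∧ GridModel G r k T L ∧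
      ∀ t ∈ N, ∃ i j, L i j = some t ∧ (i = 1 ∨ j = 1 ∨ j = T) := by
  obtain ⟨O, K, M, PM⟩ := D.planeModel r
  obtain ⟨k, T, L, hk, hT, GM⟩ := gridModel_of_planeModel PM
  exact GM.contacts hk hT hG N hN hadj

end Pool.Agent.Helper70.BLB
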