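import Mathlib
import Pool.Agent.Helper70.BLB.PatFinal
import Pool.Agent.Helper70.BLB.PlaneOfDrawing
import Pool.Agent.Helper35.DInf.Ext

/-!
The chromatic polynomial of a planar graph with a connected set of at most three vertices meeting
all odd cycles is positive: the patterns of the colours on the set.
-/

set_option autoImplicit false

namespace Pool.Agent.Helper70.BLB

open Polynomial

variable {V : Type} [Fintype V]

/-- The star version. -/
theorem star_pos {G G' : SimpleGraph V} {f : V → ℝ × ℝ} {γ : V → V → ℝ → ℝ × ℝ}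
    (D : Drawing G' f γ) (hG : G ≤ G') (r : V) (T : Finset V) (hr : r ∈ T)
    (hadj : ∀ t ∈ T, t ≠ r → G'.Adj t r) (hbip : (G.induce {v | v ∉ T}).Colorable 2)
    (n : ℕ) (hn : 2 ≤ n) (hn4 : n ≤ 4) (hT : T.card ≤ n) {q : ℝ}
    (hq : (n : ℝ) + 1 + 1 / ((n : ℝ) - 1) ≤ q) (p : ℝ[X])
    (hp : ∀ n : ℕ, p.eval (n : ℝ) = (Nat.card (G.Coloring (Fin n)) : ℝ)) : 0 < p.eval q := by
  classical
  have hne : Nonempty (Fin n) := ⟨⟨0, by omega⟩⟩
  have hn' : (2 : ℝ) ≤ n := by exact_mod_cast hn
  have h0 : 0 < 1 / ((n : ℝ) - 1) := by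
    apply one_div_pos.2
    linarith
  have hmem : ∀ v, v ∈ T ↔ (v = r ∨ v ∈ T.erase r) := by
    intro v
    rw [Finset.mem_erase]
    constructor
    · intro h
      by_cases hv : v = r
      · exact Or.inl hv
      · exact Or.inr ⟨hv, h⟩
    · rintro (h | h)
      · exact h ▸ hr
      · exact h.2
  have hset : {v : V | ¬ (v = r ∨ v ∈ T.erase r)} = {v | v ∉ T} := by
    ext v
    exact not_congr (hmem v).symm
  apply pos_of_proper_patterns (A := Fin n) T (by rw [Fintype.card_fin]; exact hT)
    (by rw [Fintype.card_fin]; linarith) _ p hp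
  intro c hc p hp
  refine Pool.Agent.Helper35.DInf.ext_pos D hG r (T.erase r) ?_ ?_ c ?_ ?_
    (by rw [Fintype.card_fin]; exact hn) (by rw [Fintype.card_fin]; exact hq) p ?_
  · have := Finset.card_erase_of_mem hr
    omega
  · intro t ht
    rw [Finset.mem_erase] at ht
    exact hadj t ht.2 ht.1
  · intro u v huv hu hv
    apply hc u v huv
    · rcases hu with hu | hu
      · exact hu ▸ hr
      · exact (Finset.mem_erase.1 hu).2
    · rcases hv with hv | hv
      · exact hv ▸ hr
      · exact (Finset.mem_erase.1 hv).2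
  · rw [hset]
    exact hbip
  · intro m
    rw [hp m]
    unfold extN
    congr 1
    apply Nat.card_congr
    apply Equiv.subtypeEquivRight
    intro F
    apply forall_congr'
    intro v
    rw [hmem v]

omit [Fintype V] in
/-- A vertex of a connected set with another vertex has a neighbour in the set. -/
theorem exists_nb {H : SimpleGraph V} {T : Finset V} (hconn : (H.induce (T : Set V)).Preconnected)
    {x y : V} (hx : x ∈ T) (hy : y ∈ T) (hxy : x ≠ y) : ∃ z ∈ T, H.Adj x z := by
  obtain ⟨w⟩ := hconn ⟨x, hx⟩ ⟨y, hy⟩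
  cases w with
  | nil => exact absurd rfl hxy
  | cons h _ => exact ⟨_, Subtype.mem _, h⟩

omit [Fintype V] in
/-- A connected set with at most three vertices has a centre. -/
theorem exists_centre {H : SimpleGraph V} {T : Finset V}
    (hconn : (H.induce (T : Set V)).Preconnected) (hne : T.Nonempty) (hT : T.card ≤ 3) :
    ∃ r ∈ T, ∀ t ∈ T, t ≠ r → H.Adj t r := by
  classical
  obtain ⟨x, hx⟩ := hne
  by_cases h1 : ∃ y ∈ T, y ≠ x
  · obtain ⟨y', hy', hyx'⟩ := h1
    obtain ⟨y, hy, hxy⟩ := exists_nb hconn hx hy' hyx'.symm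
    by_cases h2 : ∃ z ∈ T, z ≠ x ∧ z ≠ y
    · obtain ⟨z, hz, hzx, hzy⟩ := h2
      obtain ⟨w, hw, hzw⟩ := exists_nb hconn hz hx hzx
      have hall : ∀ t ∈ T, t = x ∨ t = y ∨ t = z := by
        intro t ht
        by_contra hcon
        push Not at hcon
        have h3 : ({x, y, z, t} : Finset V) ⊆ T := by
          intro s hs
          simp only [Finset.mem_insert, Finset.mem_singleton] at hs
          rcases hs with rfl | rfl | rfl | rfl <;> assumption
        have h4 := Finset.card_le_card h3
        have h5 : ({x, y, z, t} : Finset V).card = 4 := by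
          rw [Finset.card_insert_of_notMem, Finset.card_insert_of_notMem,
            Finset.card_insert_of_notMem, Finset.card_singleton]
          · simp only [Finset.mem_singleton]
            exact hcon.2.2.symm
          · simp only [Finset.mem_insert, Finset.mem_singleton, not_or]
            exact ⟨hzy.symm, hcon.2.1.symm⟩
          · simp only [Finset.mem_insert, Finset.mem_singleton, not_or]
            exact ⟨hxy.ne, hzx.symm, hcon.1.symm⟩
        omega
      rcases hall w hw with rfl | rfl | rfl
      · refine ⟨w, hw, fun t ht htw => ?_⟩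
        rcases hall t ht with rfl | rfl | rfl
        · exact absurd rfl htw
        · exact hxy.symm
        · exact hzw
      · refine ⟨w, hw, fun t ht htw => ?_⟩
        rcases hall t ht with rfl | rfl | rfl
        · exact hxy
        · exact absurd rfl htw
        · exact hzw
      · exact absurd hzw (H.irrefl)
    · push Not at h2
      refine ⟨x, hx, fun t ht htx => ?_⟩
      rw [h2 t ht htx]
      exact hxy.symm
  · push Not at h1
    exact ⟨x, hx, fun t ht htx => absurd (h1 t ht) htx⟩

/-- Planar graphs with a connected set of at most three vertices meeting all odd cycles. -/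
theorem connected_set_pos {G H : SimpleGraph V} {f : V → ℝ × ℝ} {γ : V → V → ℝ → ℝ × ℝ}
    (D : Drawing H f γ) (hG : G ≤ H) (T : Finset V)
    (hconn : (H.induce (T : Set V)).Preconnected) (hbip : (G.induce {v | v ∉ T}).Colorable 2)
    {q : ℝ} (hq : (T.card ≤ 2 ∧ 4 ≤ q) ∨ (T.card ≤ 3 ∧ 9 / 2 ≤ q)) (p : ℝ[X])
    (hp : ∀ n : ℕ, p.eval (n : ℝ) = (Nat.card (G.Coloring (Fin n)) : ℝ)) : 0 < p.eval q := by
  classical
  have hT3 : T.card ≤ 3 := by omega
  have key : ∀ (T : Finset V), T.Nonempty → (H.induce (T : Set V)).Preconnected →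
      (G.induce {v | v ∉ T}).Colorable 2 →
      (T.card ≤ 2 ∧ 4 ≤ q) ∨ (T.card ≤ 3 ∧ 9 / 2 ≤ q) → 0 < p.eval q := by
    intro T hne hconn hbip hq
    obtain ⟨r, hr, hadj⟩ := exists_centre hconn hne (by omega)
    rcases hq with ⟨h1, h2⟩ | ⟨h1, h2⟩
    · apply star_pos D hG r T hr hadj hbip 2 le_rfl (by norm_num) h1 _ p hp
      norm_num
      linarith
    · apply star_pos D hG r T hr hadj hbip 3 (by norm_num) (by norm_num) h1 _ p hp
      norm_num
      linarith
  rcases T.eq_empty_or_nonempty with rfl | hne
  · rcases isEmpty_or_nonempty V with hV | hV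
    · have h1 : ∀ n : ℕ, (p - 1).eval (0 + (n : ℝ)) = 0 := by
        intro n
        rw [zero_add, eval_sub, hp n, eval_one]
        have : Nat.card (G.Coloring (Fin n)) = 1 := by
          rw [Nat.card_eq_one_iff_unique]
          refine ⟨⟨fun a b => RelHom.ext fun v => (hV.false v).elim⟩,
            ⟨SimpleGraph.Coloring.mk (fun v => (hV.false v).elim)
              (fun {v} => (hV.false v).elim)⟩⟩
        rw [this]
        simp
      have h2 := eval_eq_zero_of_nat h1 q
      rw [eval_sub, eval_one] at h2
      linarith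
    · obtain ⟨x⟩ := hV
      apply key {x} ⟨x, Finset.mem_singleton_self x⟩
      · intro a b
        have ha : a = b := by
          apply Subtype.ext
          have h1 := a.2
          have h2 := b.2
          rw [Finset.mem_coe, Finset.mem_singleton] at h1 h2
          rw [h1, h2]
        rw [ha]
      · have hle : ({v : V | v ∉ ({x} : Finset V)}) ⊆ {v | v ∉ (∅ : Finset V)} := by
          intro v _
          exact Finset.notMem_empty v
        exact hbip.of_hom (SimpleGraph.induceHomOfLE G hle).toHom
      · rw [Finset.card_singleton]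
        rcases hq with hq | hq
        · left; exact ⟨by norm_num, hq.2⟩
        · right; exact ⟨by norm_num, hq.2⟩
  · exact key T hne hconn hbip hq

end Pool.Agent.Helper70.BLB
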